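import Pool.Agent.LibBE73.X7
import Pool.Agent.LibB35.Defs

/-! BE36, section (T): the trace formula with `N → ∞` terms and explicit constants. Definitions
(architect helper73). -/

open MeasureTheory Set Filter Topology
open scoped ContDiff

namespace B36

open BGS BR TR BE73

/-- Smooth amplitudes on the half line; the derivative of order `k ≤ n` is at most `S * H ^ k`. -/
structure SmH (n : ℕ) (b : ℝ → ℂ) (ρ S H : ℝ) : Prop where
  smooth : ContDiff ℝ ∞ b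
  supp : ∀ t, ρ < t → b t = 0
  bound : ∀ k ≤ n, ∀ t, 0 ≤ t → ‖iteratedDeriv k b t‖ ≤ S * H ^ k

/-- Smooth amplitudes with compact support; the derivative of order `k ≤ n` is at most
`M * H ^ k`. -/
structure AmpH (n : ℕ) (a : ℝ → ℂ) (ρ M H : ℝ) : Prop where
  smooth : ContDiff ℝ ∞ a
  conj : ∀ t, a (-t) = (starRingEnd ℂ) (a t)
  supp : ∀ t, ρ < |t| → a t = 0
  bound : ∀ k ≤ n, ∀ t, ‖iteratedDeriv k a t‖ ≤ M * H ^ k

/-- The functions that appear in `k` steps of the smoothing are at most `B` on the ball of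
radius `ρ`. -/
def GkB (K : Set Pl) (G : Pl × Pl → Co) (ρ B : ℝ) : ℕ → (Pl × Pl → ℝ) → Prop
  | 0, c => ∀ x ∈ K, ∀ v : Pl, sg v ≤ ρ ^ 2 → |c (x, v)| ≤ B
  | k + 1, c => (∀ x ∈ K, ∀ v : Pl, sg v ≤ ρ ^ 2 → |c (x, v)| ≤ B) ∧
      GkB K G ρ B k (PX6_E c) ∧ GkB K G ρ B k (PX6_F G c) ∧ GkB K G ρ B k (PX6_H G c)

variable {Γ : Type} [Group Γ] [MulAction Γ Pl] {D : Set Pl}

/-- The constants of one metric: the mass of a ball, the sum of the weights over the levels. -/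
structure UC (hX : Surface Γ D) (m : Mt Γ D) (C : ℝ) : Prop where
  nonneg : 0 ≤ C
  ball : ∀ (U : TestS Γ) (ρ : ℝ), 0 ≤ ρ → ∀ x ∈ closure D,
    ∫ v in {v | sg v ≤ ρ ^ 2}, |U.1 (Ex m.1.1 x v)| * wt (Gx m.1.1 x) v ≤
      C * Real.exp (C * ρ) * √(bF hX m (oneT Γ) U U)
  sum : ∀ τ : ℝ, 1 ≤ τ → Summable (fun j => wgt (FG33.lam m j) τ) ∧
    ∑' j, wgt (FG33.lam m j) τ ≤ C / τ
  cnt : ∀ y : ℝ, 1 ≤ y → ({j | FG33.lam m j ≤ y} : Set ℕ).Finite ∧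
    (({j | FG33.lam m j ≤ y} : Set ℕ).ncard : ℝ) ≤ C * y ^ 2

/-- `m` is `e ^ u` times `m0` with `|u| ≤ M`. -/
def Cnf (m0 m : Pl → Co) (M : ℝ) : Prop :=
  ∃ u : Pl → ℝ, (∀ z, |u z| ≤ M) ∧ ∀ z, m z = Real.exp (u z) • m0 z

/-- Entire amplitudes: at most `M exp ((H im z)^2 - (h dist (re z, [-ρ, ρ]))^2)`. -/
structure EA (a : ℂ → ℂ) (ρ M H h : ℝ) : Prop where
  diff : Differentiable ℂ a
  conj : ∀ z, a (-(starRingEnd ℂ) z) = (starRingEnd ℂ) (a z)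
  bound : ∀ z : ℂ, ‖a z‖ ≤ M * Real.exp ((H * z.im) ^ 2 - (h * max 0 (|z.re| - ρ)) ^ 2)

/-- The mean over an interval of length `h`. -/
noncomputable def Av (h : ℝ) (f : ℝ → ℝ) (t : ℝ) : ℝ := 1 / h * ∫ s in (t - h / 2)..(t + h / 2), f s

/-- A cut-off function: one on `[-ρ, ρ]`, zero outside `[-ρ - 1, ρ + 1]`, with bounds of the
derivatives of order `k ≤ N`. -/
structure CutN (N : ℕ) (ρ : ℝ) (χ : ℝ → ℝ) : Prop where
  smooth : ContDiff ℝ ∞ χ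
  even : ∀ t, χ (-t) = χ t
  mem : ∀ t, χ t ∈ Icc (0 : ℝ) 1
  one : ∀ t, |t| ≤ ρ → χ t = 1
  zero : ∀ t, ρ + 1 ≤ |t| → χ t = 0
  bound : ∀ k ≤ N, ∀ t, |iteratedDeriv k χ t| ≤ (16 * N) ^ k

/-- The restriction of an entire amplitude to the line, and its product with a cut-off. -/
noncomputable def rst (a : ℂ → ℂ) (t : ℝ) : ℂ := a t

noncomputable def cta (χ : ℝ → ℝ) (a : ℂ → ℂ) (t : ℝ) : ℂ := (χ t : ℂ) * a t

/-- The coefficients of Richardson's extrapolation: `∑ rc i p(4 ^ i) = p 0` for the polynomials `p` of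
degree less than `P`. -/
noncomputable def rc (P : ℕ) (i : ℕ) : ℝ :=
  ∏ l ∈ (Finset.range P).erase i, (4 : ℝ) ^ l / ((4 : ℝ) ^ l - (4 : ℝ) ^ i)

/-- The Gaussian of width `e`. -/
noncomputable def gs (e : ℝ) (z : ℂ) : ℂ :=
  ((1 / (e * √(2 * Real.pi)) : ℝ) : ℂ) * Complex.exp (-(z ^ 2 / (2 * e ^ 2)))

/-- The mollified amplitude. -/
noncomputable def mla (P : ℕ) (e : ℝ) (a : ℝ → ℂ) (z : ℂ) : ℂ :=
  ∑ i ∈ Finset.range P, (rc P i : ℂ) * ∫ s : ℝ, a s * gs (2 ^ i * e) (z - s)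

end B36
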