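import Pool.Agent.LibBE36T.Defs

/-! ROW T10 : derivatives of entire amplitudes on the line, the cut amplitude. MEDIUM.
PLAN. `EA_deriv`: for real `t`, `iteratedDeriv k (rst a) t = iteratedDeriv k a t` (complex derivative; induction, `HasDerivAt.comp_ofReal`), Cauchy
(`Complex.norm_iteratedDeriv_le_of_forall_mem_sphere_norm_le`, radius `1/(2H) ≤ 1/2`): `≤ k! (2H)^k sup`; on the circle `(H im z)^2 ≤ 1/4`, `e^(1/4) ≤ 2`,
`|re z| ≥ |t| - 1`, so `max 0 (|re z| - ρ) ≥ max 0 (|t| - (ρ+1))`; `k! ≤ k^k ≤ n^k`.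
`cta_amp`: Leibniz, `∑ C(k,l) (16N)^(k-l) (2HN)^l = (2HN + 16N)^k`; support: `χ = 0` for `|t| ≥ ρ + 3`.
`cta_tiny`: `rst a - cta χ a = (1 - χ) a`, supported in `|t| ≥ ρ + 2`, Leibniz. (`1 - χ` has the same derivatives up to sign for `k ≥ 1`, values in `[0,1]`.)
`conj`: `EA.conj` at the real point `t`: `a (-t) = conj (a t)`. -/

open MeasureTheory Set Filter Topology
open scoped ContDiff

namespace B36

private theorem T10_rst {a : ℂ → ℂ} (ha : Differentiable ℂ a) (k : ℕ) :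
    iteratedDeriv k (rst a) = fun t : ℝ => iteratedDeriv k a (t : ℂ) := by
  induction k with
  | zero => simp only [iteratedDeriv_zero]; rfl
  | succ k ih =>
    rw [iteratedDeriv_succ, ih]
    funext t
    have h1 : ContDiff ℂ ∞ a := ha.contDiff
    have h2 : Differentiable ℂ (iteratedDeriv k a) :=
      h1.differentiable_iteratedDeriv k (by exact_mod_cast WithTop.coe_lt_top _)
    have h3 := (h2 (t : ℂ)).hasDerivAt.comp_ofReal
    rw [h3.deriv, iteratedDeriv_succ]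

private theorem T10_of {χ : ℝ → ℝ} (hχ : ContDiff ℝ ∞ χ) (k : ℕ) :
    iteratedDeriv k (fun t : ℝ => (χ t : ℂ)) =
      fun t : ℝ => ((iteratedDeriv k χ t : ℝ) : ℂ) := by
  induction k with
  | zero => simp only [iteratedDeriv_zero]
  | succ k ih =>
    rw [iteratedDeriv_succ, ih]
    funext t
    have h2 : Differentiable ℝ (iteratedDeriv k χ) :=
      hχ.differentiable_iteratedDeriv k (by exact_mod_cast WithTop.coe_lt_top _)
    have h3 := (h2 t).hasDerivAt.ofReal_comp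
    rw [h3.deriv, iteratedDeriv_succ]

private theorem T10_leib {f g : ℝ → ℂ} (hf : ContDiff ℝ ∞ f) (hg : ContDiff ℝ ∞ g) {k : ℕ} {t A B S : ℝ}
    (hA : 0 ≤ A) (h1 : ∀ l ≤ k, ‖iteratedDeriv l f t‖ ≤ A ^ l)
    (h2 : ∀ l ≤ k, ‖iteratedDeriv l g t‖ ≤ S * B ^ l) :
    ‖iteratedDeriv k (fun s => f s * g s) t‖ ≤ S * (B + A) ^ k := by
  have hk : ((k : ℕ∞) : WithTop ℕ∞) ≤ (∞ : WithTop ℕ∞) := by exact_mod_cast le_top
  have hfk : ContDiffAt ℝ k f t := (hf.of_le hk).contDiffAt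
  have hgk : ContDiffAt ℝ k g t := (hg.of_le hk).contDiffAt
  rw [iteratedDeriv_fun_mul hfk hgk]
  refine (norm_sum_le _ _).trans ?_
  rw [add_comm B A, add_pow, Finset.mul_sum]
  refine Finset.sum_le_sum fun l hl => ?_
  have hlk : l ≤ k := Nat.lt_succ_iff.1 (Finset.mem_range.1 hl)
  rw [norm_mul, norm_mul, Complex.norm_natCast]
  have e1 := h1 l hlk
  have e2 := h2 (k - l) (Nat.sub_le _ _)
  have e3 : (0 : ℝ) ≤ (k.choose l : ℝ) := Nat.cast_nonneg _
  calc (k.choose l : ℝ) * ‖iteratedDeriv l f t‖ * ‖iteratedDeriv (k - l) g t‖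
      ≤ (k.choose l : ℝ) * A ^ l * (S * B ^ (k - l)) := by
        refine mul_le_mul (mul_le_mul_of_nonneg_left e1 e3) e2 (norm_nonneg _) ?_
        exact mul_nonneg e3 (pow_nonneg hA _)
    _ = S * (A ^ l * B ^ (k - l) * (k.choose l : ℝ)) := by ring

private theorem T10_M {a : ℂ → ℂ} {ρ M H h : ℝ} (ha : EA a ρ M H h) : 0 ≤ M := by
  have h1 := (norm_nonneg _).trans (ha.bound 0)
  exact (mul_nonneg_iff_of_pos_right (Real.exp_pos _)).1 h1

theorem EA_deriv {a : ℂ → ℂ} {ρ M H h : ℝ} (ha : EA a ρ M H h) (hH : 1 ≤ H) (hh : 0 ≤ h) {k n : ℕ}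
    (hk : k ≤ n) (t : ℝ) : ‖iteratedDeriv k (rst a) t‖ ≤
      2 * M * (2 * H * n) ^ k * Real.exp (-(h * max 0 (|t| - (ρ + 1))) ^ 2) := by
  have hM := T10_M ha
  have hH0 : 0 < H := lt_of_lt_of_le one_pos hH
  have hR : 0 < 1 / (2 * H) := by positivity
  rw [T10_rst ha.diff k]
  have hC : ∀ z ∈ Metric.sphere (t : ℂ) (1 / (2 * H)),
      ‖a z‖ ≤ 2 * M * Real.exp (-(h * max 0 (|t| - (ρ + 1))) ^ 2) := by
    intro z hz
    have hz1 : ‖z - t‖ = 1 / (2 * H) := mem_sphere_iff_norm.1 hz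
    have hre : |z.re - t| ≤ 1 / (2 * H) := by
      have := Complex.abs_re_le_norm (z - t)
      rw [hz1] at this
      simpa using this
    have him : |z.im| ≤ 1 / (2 * H) := by
      have := Complex.abs_im_le_norm (z - t)
      rw [hz1] at this
      simpa using this
    have hR1 : 1 / (2 * H) ≤ 1 := by
      rw [div_le_one (by positivity)]
      linarith
    have hm : max 0 (|t| - (ρ + 1)) ≤ max 0 (|z.re| - ρ) := by
      refine max_le_max le_rfl ?_
      have : |t| ≤ |z.re| + |z.re - t| := by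
        have := abs_sub_abs_le_abs_sub t z.re
        rw [abs_sub_comm] at this
        linarith
      linarith
    have h1 : (H * z.im) ^ 2 ≤ 1 / 4 := by
      have h2 : |H * z.im| ≤ 1 / 2 := by
        rw [abs_mul, abs_of_pos hH0]
        calc H * |z.im| ≤ H * (1 / (2 * H)) := mul_le_mul_of_nonneg_left him hH0.le
          _ = 1 / 2 := by field_simp
      have h3 : (H * z.im) ^ 2 = |H * z.im| ^ 2 := (sq_abs _).symm
      rw [h3]
      nlinarith [abs_nonneg (H * z.im)]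
    have h4 : (h * max 0 (|t| - (ρ + 1))) ^ 2 ≤ (h * max 0 (|z.re| - ρ)) ^ 2 :=
      pow_le_pow_left₀ (mul_nonneg hh (le_max_left _ _)) (mul_le_mul_of_nonneg_left hm hh) 2
    have h5 : Real.exp ((H * z.im) ^ 2 - (h * max 0 (|z.re| - ρ)) ^ 2) ≤
        2 * Real.exp (-(h * max 0 (|t| - (ρ + 1))) ^ 2) := by
      have h6 : Real.exp ((H * z.im) ^ 2 - (h * max 0 (|z.re| - ρ)) ^ 2) ≤
          Real.exp (1 / 4 + -(h * max 0 (|t| - (ρ + 1))) ^ 2) :=
        Real.exp_le_exp.2 (by linarith)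
      refine h6.trans ?_
      rw [Real.exp_add]
      refine mul_le_mul_of_nonneg_right ?_ (Real.exp_pos _).le
      have h7 : Real.exp (1 / 4) ≤ 1 / (1 - 1 / 4) :=
        Real.exp_bound_div_one_sub_of_interval (by norm_num) (by norm_num)
      exact h7.trans (by norm_num)
    calc ‖a z‖ ≤ M * Real.exp ((H * z.im) ^ 2 - (h * max 0 (|z.re| - ρ)) ^ 2) := ha.bound z
      _ ≤ M * (2 * Real.exp (-(h * max 0 (|t| - (ρ + 1))) ^ 2)) :=
        mul_le_mul_of_nonneg_left h5 hM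
      _ = 2 * M * Real.exp (-(h * max 0 (|t| - (ρ + 1))) ^ 2) := by ring
  have hc := Complex.norm_iteratedDeriv_le_of_forall_mem_sphere_norm_le k hR
    (ha.diff.diffContOnCl) hC
  refine hc.trans ?_
  have hf : ((k.factorial : ℕ) : ℝ) ≤ (n : ℝ) ^ k := by
    have h8 : k.factorial ≤ n ^ k := (Nat.factorial_le_pow k).trans (Nat.pow_le_pow_left hk k)
    exact_mod_cast h8
  have he : (0 : ℝ) ≤ 2 * M * Real.exp (-(h * max 0 (|t| - (ρ + 1))) ^ 2) := by positivity
  have e1 : ((k.factorial : ℕ) : ℝ) * (2 * M * Real.exp (-(h * max 0 (|t| - (ρ + 1))) ^ 2)) /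
      (1 / (2 * H)) ^ k = ((k.factorial : ℕ) : ℝ) *
        ((2 * H) ^ k * (2 * M * Real.exp (-(h * max 0 (|t| - (ρ + 1))) ^ 2))) := by
    rw [one_div, inv_pow, div_inv_eq_mul]
    ring
  rw [e1]
  calc ((k.factorial : ℕ) : ℝ) * ((2 * H) ^ k *
        (2 * M * Real.exp (-(h * max 0 (|t| - (ρ + 1))) ^ 2)))
      ≤ (n : ℝ) ^ k * ((2 * H) ^ k *
        (2 * M * Real.exp (-(h * max 0 (|t| - (ρ + 1))) ^ 2))) :=
        mul_le_mul_of_nonneg_right hf (mul_nonneg (by positivity) he)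
    _ = 2 * M * (2 * H * n) ^ k * Real.exp (-(h * max 0 (|t| - (ρ + 1))) ^ 2) := by
        rw [mul_pow (2 * H) (n : ℝ) k]
        ring

theorem rst_smooth {a : ℂ → ℂ} (ha : Differentiable ℂ a) : ContDiff ℝ ∞ (rst a) := by
  have h1 : ContDiff ℂ ∞ a := ha.contDiff
  have h2 : ContDiff ℝ ∞ a := h1.restrict_scalars ℝ
  exact h2.comp Complex.ofRealCLM.contDiff

private theorem T10_cs {χ : ℝ → ℝ} (hχ : ContDiff ℝ ∞ χ) : ContDiff ℝ ∞ (fun t : ℝ => (χ t : ℂ)) :=
  Complex.ofRealCLM.contDiff.comp hχ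

theorem cta_amp {a : ℂ → ℂ} {ρ M H h : ℝ} (ha : EA a ρ M H h) (hH : 1 ≤ H) (hh : 0 ≤ h) {N : ℕ}
    {χ : ℝ → ℝ} (hχ : CutN N (ρ + 2) χ) :
    AmpH N (cta χ a) (ρ + 3) (2 * M) (2 * H * N + 16 * N) := by
  refine ⟨(T10_cs hχ.smooth).mul (rst_smooth ha.diff), ?_, ?_, ?_⟩
  · intro t
    have h1 := ha.conj (t : ℂ)
    rw [Complex.conj_ofReal] at h1
    unfold cta
    rw [hχ.even, map_mul, Complex.conj_ofReal, ← h1, Complex.ofReal_neg]
  · intro t ht
    unfold cta
    rw [hχ.zero t (by linarith), Complex.ofReal_zero, zero_mul]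
  · intro k hk t
    refine T10_leib (f := fun t : ℝ => (χ t : ℂ)) (g := rst a) (T10_cs hχ.smooth)
      (rst_smooth ha.diff) (by positivity) ?_ ?_
    · intro l hl
      rw [T10_of hχ.smooth l]
      change ‖((iteratedDeriv l χ t : ℝ) : ℂ)‖ ≤ _
      rw [Complex.norm_real, Real.norm_eq_abs]
      exact hχ.bound l (hl.trans hk) t
    · intro l hl
      refine (EA_deriv ha hH hh (hl.trans hk) t).trans ?_
      have hM := T10_M ha
      have h0 : (0 : ℝ) ≤ 2 * M * (2 * H * N) ^ l := by positivity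
      refine mul_le_of_le_one_right h0 ?_
      rw [Real.exp_le_one_iff]
      have := sq_nonneg (h * max 0 (|t| - (ρ + 1)))
      linarith

private theorem T10_diff {χ : ℝ → ℝ} {a : ℂ → ℂ} :
    (fun s : ℝ => rst a s - cta χ a s) = fun s : ℝ => (((fun u => 1 - χ u) s : ℝ) : ℂ) * rst a s := by
  funext s
  unfold cta rst
  push_cast
  ring

theorem cta_tiny {a : ℂ → ℂ} {ρ M H h : ℝ} (ha : EA a ρ M H h) (hρ : 0 ≤ ρ) (hH : 1 ≤ H) (hh : 0 ≤ h) {N k : ℕ}
    {χ : ℝ → ℝ} (hχ : CutN N (ρ + 2) χ) (hk : k ≤ N) (t : ℝ) :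
    (|t| ≤ ρ + 2 → iteratedDeriv k (fun s : ℝ => rst a s - cta χ a s) t = 0) ∧
    ‖iteratedDeriv k (fun s : ℝ => rst a s - cta χ a s) t‖ ≤
      2 * M * (2 * H * N + 16 * N) ^ k * Real.exp (-(h * max 0 (|t| - (ρ + 1))) ^ 2) := by
  have hs1 : ContDiff ℝ ∞ (fun u => 1 - χ u) := contDiff_const.sub hχ.smooth
  have hs : ContDiff ℝ ∞ (fun s : ℝ => rst a s - cta χ a s) :=
    (rst_smooth ha.diff).sub ((T10_cs hχ.smooth).mul (rst_smooth ha.diff))
  constructor
  · intro ht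
    have hcont : Continuous (iteratedDeriv k (fun s : ℝ => rst a s - cta χ a s)) :=
      hs.continuous_iteratedDeriv k (by exact_mod_cast le_top)
    have hcl : IsClosed {s : ℝ | iteratedDeriv k (fun s : ℝ => rst a s - cta χ a s) s = 0} :=
      isClosed_eq hcont continuous_const
    have hsub : Ioo (-(ρ + 2)) (ρ + 2) ⊆
        {s : ℝ | iteratedDeriv k (fun s : ℝ => rst a s - cta χ a s) s = 0} := by
      intro s hs'
      have he : (fun s : ℝ => rst a s - cta χ a s) =ᶠ[𝓝 s] fun _ => (0 : ℂ) := by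
        filter_upwards [Ioo_mem_nhds hs'.1 hs'.2] with u hu
        have hu1 : |u| ≤ ρ + 2 := abs_le.2 ⟨hu.1.le, hu.2.le⟩
        unfold cta rst
        rw [hχ.one u hu1]
        simp
      change iteratedDeriv k (fun s : ℝ => rst a s - cta χ a s) s = 0
      rw [he.iteratedDeriv_eq k]
      simp
    have hne : (-(ρ + 2)) ≠ ρ + 2 := by
      intro h
      linarith
    have hmem := closure_minimal hsub hcl
    rw [closure_Ioo hne] at hmem
    exact hmem (abs_le.1 ht)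
  · rw [T10_diff]
    have key := T10_leib (f := fun s : ℝ => (((fun u => 1 - χ u) s : ℝ) : ℂ)) (g := rst a) (k := k)
      (t := t) (A := 16 * N) (B := 2 * H * N)
      (S := 2 * M * Real.exp (-(h * max 0 (|t| - (ρ + 1))) ^ 2)) (T10_cs hs1)
      (rst_smooth ha.diff) (by positivity) ?_ ?_
    · refine key.trans (le_of_eq ?_)
      ring
    · intro l hl
      rw [T10_of hs1 l]
      change ‖((iteratedDeriv l (fun u => 1 - χ u) t : ℝ) : ℂ)‖ ≤ _
      rw [Complex.norm_real, Real.norm_eq_abs]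
      rcases Nat.eq_zero_or_pos l with h0 | h0
      · subst h0
        rw [iteratedDeriv_zero, pow_zero, abs_le]
        have := hχ.mem t
        exact ⟨by linarith [this.1, this.2], by linarith [this.1, this.2]⟩
      · rw [iteratedDeriv_const_sub h0, iteratedDeriv_neg, abs_neg]
        exact hχ.bound l (hl.trans hk) t
    · intro l hl
      refine (EA_deriv ha hH hh (hl.trans hk) t).trans (le_of_eq ?_)
      ring

end B36
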