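import Pool.Agent.LibBE36T.T10

/-! ROW T11 : the symbol `al j a τ r` of an entire amplitude on the real line, sharp bound. STRONG (complex analysis, one variable).
PLAN. `c_j = 1/(√π Γ(j+1/2))`, `η = 1/(4H)`. `al j (rst a) τ r = -c_j ∫_{u>0} g(u) du`, `g(u) = (-(Iτ) a(r+u) + a'(r+u)) u^(j-1/2) (2r+u)^(j-1/2) e^(-Iτu)`
(complex powers, for `u > 0` the product of the real powers; `deriv (rst a) t = deriv a t`).
Bounds for `-η ≤ im u ≤ 0`, `x = re (r+u)`: `|a| ≤ 1.1 M exp(-(h max 0 (x-ρ))²)`, `|a'| ≤ 4H · 1.3 M exp(-(h max 0 (x-ρ-1))²)` (Cauchy, radius `1/(4H)`), so the bracket is at most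
`3 τ M exp(-(h max 0 (x-ρ-1))²)` (`4H ≤ τ`). `|e^(-Iτu)| = e^(τ im u)`.
Rotate the ray `u ∈ (0, ∞)` to `u = -is`, `0 < s ≤ η`, then `u = -iη + x`, `x > 0`: `g` is holomorphic on `re u > 0`; rectangle theorem
(`Complex.integral_boundary_rect_eq_zero_of_continuousOn_of_differentiableOn`) on `[δ, R] × [-η, 0]`; the right side tends to 0 as `R → ∞` (Gaussian), the left side at `re u = δ` tends to the
integral over `re u = 0` as `δ → 0` by dominated convergence (`|g| ≤ C |u|^(-1/2)`, `|δ - is| ≥ s`), the lower side similarly (or keep `δ` and bound: no limit of the left side is needed, only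
a bound uniform in `δ`: `|∫_left| ≤ ∫_0^η 3τM s^(j-1/2)...`: for `j ≥ 1` use `|δ - is| ≤ s + δ`; simplest: the limit).
Segment: `3 τ M ∫_0^η s^(j-1/2) |2r - is|^(j-1/2) e^(-τs) ds ≤ 3τM K Γ(j+1/2) τ^(-j-1/2)` (`Real.integral_rpow_mul_exp_neg_mul_Ioi`), `K = (2r+1)^j/√r0`: for `j = 0` `|2r - is| ≥ 2 r0`; for `j ≥ 1`
`|2r-is|^(j-1/2) ≤ (2r+1)^j`, `r0 ≤ 1`. `c_j Γ(j+1/2) = 1/√π ≤ 1`.
Horizontal part: `e^(-τη) 3τM ∫_{x>0} |x-iη|^(j-1/2) |2r+x-iη|^(j-1/2) exp(-(h max 0 (r+x-ρ-1))²) dx`, `h ≥ 1`: `≤ e^(-τη) 3τM (8 (r + ρ + j + 2))^(2j+2)/√r0`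
(on `x ≤ ρ + 1`: powers `≤ (2r+ρ+3)^(2j)`, singularity `x^(-1/2)`; beyond, with `y = x - ρ - 1`: `∫ (A + y)^(2j+1) e^(-y²) dy`, `(A+y)^(2j+1) e^(-y²/2) ≤ (A + 2j + 2)^(2j+1)`). If the constants
do not suffice write to helper73, they can be enlarged. `c_j ≤ 1`. -/

open MeasureTheory Set Filter Topology
open scoped ContDiff

namespace B36

/-- the integrand -/
private noncomputable def FF (a : ℂ → ℂ) (τ r : ℝ) (j : ℕ) (u : ℂ) : ℂ :=
  (-(Complex.I * τ) * a (r + u) + deriv a (r + u)) *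
    (u ^ (((j : ℝ) - 1 / 2 : ℝ) : ℂ) * (2 * r + u) ^ (((j : ℝ) - 1 / 2 : ℝ) : ℂ)) *
      Complex.exp (-(Complex.I * τ * u))

private theorem br {a : ℂ → ℂ} {ρ M H h τ : ℝ} (ha : EA a ρ M H h) (hH : 1 ≤ H)
    (hh : 1 ≤ h) (hτ : 4 * H ≤ τ) {z : ℂ} (hz0 : z.im ≤ 0) (hz : -(1 / (4 * H)) ≤ z.im) :
    ‖-(Complex.I * τ) * a z + deriv a z‖ ≤
      12 / 5 * τ * M * Real.exp (-(max 0 (z.re - (ρ + 1))) ^ 2) := by
  have hH0 : 0 < H := by linarith
  have hM : 0 ≤ M := by
    have h1 := (norm_nonneg _).trans (ha.bound 0)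
    exact nonneg_of_mul_nonneg_left h1 (Real.exp_pos _)
  have hη : 1 / (4 * H) ≤ 1 / 4 := by
    apply one_div_le_one_div_of_le <;> linarith
  have hmm : ∀ w : ℂ, z.re - 1 / 4 ≤ w.re →
      -(h * max 0 (|w.re| - ρ)) ^ 2 ≤ -(max 0 (z.re - (ρ + 1))) ^ 2 := by
    intro w hw
    have h1 : max 0 (z.re - (ρ + 1)) ≤ max 0 (|w.re| - ρ) := by
      apply max_le_max le_rfl
      have := le_abs_self w.re
      linarith
    have h2 : max 0 (z.re - (ρ + 1)) ≤ h * max 0 (|w.re| - ρ) := by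
      have h3 : 0 ≤ max 0 (|w.re| - ρ) := le_max_left _ _
      nlinarith
    have h3 : 0 ≤ max 0 (z.re - (ρ + 1)) := le_max_left _ _
    have := pow_le_pow_left₀ h3 h2 2
    linarith
  have hHH : H * (1 / (4 * H)) = 1 / 4 := by field_simp
  have e1 : Real.exp (1 / 16) ≤ 16 / 15 := by
    have := Real.exp_bound_div_one_sub_of_interval (x := 1 / 16) (by norm_num) (by norm_num)
    norm_num at this ⊢
    exact this
  have e2 : Real.exp (1 / 4) ≤ 4 / 3 := by
    have := Real.exp_bound_div_one_sub_of_interval (x := 1 / 4) (by norm_num) (by norm_num)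
    norm_num at this ⊢
    exact this
  -- bound of `a z`
  have b1 : ‖a z‖ ≤ M * (16 / 15 * Real.exp (-(max 0 (z.re - (ρ + 1))) ^ 2)) := by
    refine (ha.bound z).trans (mul_le_mul_of_nonneg_left ?_ hM)
    have h1 : (H * z.im) ^ 2 ≤ 1 / 16 := by
      have h2 : |H * z.im| ≤ 1 / 4 := by
        rw [abs_le]
        constructor
        · nlinarith
        · nlinarith
      have := sq_le_sq' (abs_le.1 h2).1 (abs_le.1 h2).2
      norm_num at this ⊢
      linarith
    calc Real.exp ((H * z.im) ^ 2 - (h * max 0 (|z.re| - ρ)) ^ 2)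
        ≤ Real.exp (1 / 16 + -(max 0 (z.re - (ρ + 1))) ^ 2) := by
          apply Real.exp_le_exp.2
          have := hmm z (by linarith)
          linarith
      _ = Real.exp (1 / 16) * Real.exp (-(max 0 (z.re - (ρ + 1))) ^ 2) := Real.exp_add _ _
      _ ≤ _ := mul_le_mul_of_nonneg_right e1 (Real.exp_pos _).le
  have b2 : ‖deriv a z‖ ≤ M * (4 / 3 * Real.exp (-(max 0 (z.re - (ρ + 1))) ^ 2)) / (1 / (4 * H)) := by
    apply Complex.norm_deriv_le_of_forall_mem_sphere_norm_le (by positivity) ha.diff.diffContOnCl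
    intro w hw
    refine (ha.bound w).trans (mul_le_mul_of_nonneg_left ?_ hM)
    rw [mem_sphere_iff_norm] at hw
    have hre : |(w - z).re| ≤ 1 / (4 * H) := hw ▸ Complex.abs_re_le_norm _
    have him : |(w - z).im| ≤ 1 / (4 * H) := hw ▸ Complex.abs_im_le_norm _
    rw [Complex.sub_re, abs_le] at hre
    rw [Complex.sub_im, abs_le] at him
    have h1 : (H * w.im) ^ 2 ≤ 1 / 4 := by
      have h2 : |H * w.im| ≤ 1 / 2 := by
        rw [abs_le]
        constructor
        · nlinarith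
        · nlinarith
      have := sq_le_sq' (abs_le.1 h2).1 (abs_le.1 h2).2
      norm_num at this ⊢
      linarith
    calc Real.exp ((H * w.im) ^ 2 - (h * max 0 (|w.re| - ρ)) ^ 2)
        ≤ Real.exp (1 / 4 + -(max 0 (z.re - (ρ + 1))) ^ 2) := by
          apply Real.exp_le_exp.2
          have := hmm w (by linarith [hre.1])
          linarith
      _ = Real.exp (1 / 4) * Real.exp (-(max 0 (z.re - (ρ + 1))) ^ 2) := Real.exp_add _ _
      _ ≤ _ := mul_le_mul_of_nonneg_right e2 (Real.exp_pos _).le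
  have hτ0 : 0 < τ := by linarith
  have hE := (Real.exp_pos (-(max 0 (z.re - (ρ + 1))) ^ 2)).le
  calc ‖-(Complex.I * τ) * a z + deriv a z‖
      ≤ ‖-(Complex.I * τ) * a z‖ + ‖deriv a z‖ := norm_add_le _ _
    _ = τ * ‖a z‖ + ‖deriv a z‖ := by
        rw [norm_mul, norm_neg, norm_mul, Complex.norm_I, one_mul, Complex.norm_real,
          Real.norm_of_nonneg hτ0.le]
    _ ≤ τ * (M * (16 / 15 * Real.exp (-(max 0 (z.re - (ρ + 1))) ^ 2))) +
        τ * (M * (4 / 3 * Real.exp (-(max 0 (z.re - (ρ + 1))) ^ 2))) := by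
        apply add_le_add (mul_le_mul_of_nonneg_left b1 hτ0.le)
        refine b2.trans ?_
        rw [div_div_eq_mul_div, div_one, mul_comm]
        exact mul_le_mul_of_nonneg_right hτ (by positivity)
    _ = _ := by ring

private theorem np {v : ℂ} (hv : v ≠ 0) (j : ℕ) :
    ‖v ^ (((j : ℝ) - 1 / 2 : ℝ) : ℂ)‖ = ‖v‖ ^ j / √‖v‖ := by
  rw [Complex.norm_cpow_real, Real.rpow_sub (norm_pos_iff.2 hv), Real.rpow_natCast,
    ← Real.sqrt_eq_rpow]

private theorem ne {τ : ℝ} (u : ℂ) :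
    ‖Complex.exp (-(Complex.I * τ * u))‖ = Real.exp (τ * u.im) := by
  rw [Complex.norm_exp]
  congr 1
  simp [Complex.mul_re]

private theorem nF {a : ℂ → ℂ} {ρ M H h τ r : ℝ} (ha : EA a ρ M H h) (hH : 1 ≤ H)
    (hh : 1 ≤ h) (hτ : 4 * H ≤ τ) (j : ℕ) (hr : 0 < r) {u : ℂ} (hu : 0 < u.re) (hu0 : u.im ≤ 0)
    (hui : -(1 / (4 * H)) ≤ u.im) :
    ‖FF a τ r j u‖ ≤ 12 / 5 * τ * M * Real.exp (-(max 0 (u.re + r - (ρ + 1))) ^ 2) *
      ((‖u‖ * ‖2 * r + u‖) ^ j / (√‖u‖ * √(2 * r))) * Real.exp (τ * u.im) := by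
  have hM : 0 ≤ M := by
    have h1 := (norm_nonneg _).trans (ha.bound 0)
    exact nonneg_of_mul_nonneg_left h1 (Real.exp_pos _)
  have hτ0 : 0 < τ := by linarith
  have hu1 : u ≠ 0 := by
    rintro rfl
    simp at hu
  have h2 : 2 * r ≤ ‖2 * (r : ℂ) + u‖ := by
    refine le_trans ?_ (Complex.re_le_norm _)
    simp
    exact hu.le
  have hu2 : 2 * (r : ℂ) + u ≠ 0 := by
    intro h3
    rw [h3, norm_zero] at h2
    linarith
  unfold FF
  rw [norm_mul, norm_mul, norm_mul, np hu1, np hu2, ne]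
  apply mul_le_mul_of_nonneg_right _ (Real.exp_pos _).le
  have h3 := br ha hH hh hτ (z := r + u) (by simpa using hu0) (by simpa using hui)
  have h4 : (r + u : ℂ).re = u.re + r := by simp [add_comm]
  rw [h4] at h3
  apply mul_le_mul h3 _ (by positivity) (by positivity)
  have hsr : 0 < √(2 * r) := Real.sqrt_pos.2 (by linarith)
  have hsu : 0 < √‖u‖ := Real.sqrt_pos.2 (norm_pos_iff.2 hu1)
  rw [div_mul_div_comm, ← mul_pow]
  apply div_le_div_of_nonneg_left (by positivity) (by positivity)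
  exact mul_le_mul_of_nonneg_left (Real.sqrt_le_sqrt h2) hsu.le

/-- `(B + y) ^ n ≤ (B + n) ^ n * exp (y ^ 2 / 2)` -/
private theorem pw {B y : ℝ} (hB : 0 ≤ B) (hy : 0 ≤ y) (n : ℕ) :
    (B + y) ^ n ≤ (B + n) ^ n * Real.exp (y ^ 2 / 2) := by
  rcases Nat.eq_zero_or_pos n with rfl | hn
  · simp
    positivity
  have hn1 : (1 : ℝ) ≤ n := by exact_mod_cast hn
  have h1 : B + y ≤ (B + n) * Real.exp (y ^ 2 / (2 * n)) := by
    have h2 : 1 + y ^ 2 / (2 * n) ≤ Real.exp (y ^ 2 / (2 * n)) := by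
      linarith [Real.add_one_le_exp (y ^ 2 / (2 * n))]
    have h3 : (B + n) * (1 + y ^ 2 / (2 * n)) ≤ (B + n) * Real.exp (y ^ 2 / (2 * n)) :=
      mul_le_mul_of_nonneg_left h2 (by positivity)
    refine le_trans ?_ h3
    have h4 : (n : ℝ) * (y ^ 2 / (2 * n)) = y ^ 2 / 2 := by field_simp
    have h5 : 0 ≤ B * (y ^ 2 / (2 * n)) := by positivity
    nlinarith [sq_nonneg (y - 1)]
  calc (B + y) ^ n ≤ ((B + n) * Real.exp (y ^ 2 / (2 * n))) ^ n :=
        pow_le_pow_left₀ (by positivity) h1 n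
    _ = (B + n) ^ n * Real.exp (y ^ 2 / 2) := by
        rw [mul_pow, ← Real.exp_nat_mul]
        congr 2
        field_simp

/-- the bound used far away -/
private theorem nE {a : ℂ → ℂ} {ρ M H h τ r : ℝ} (ha : EA a ρ M H h) (hρ : 0 ≤ ρ) (hH : 1 ≤ H)
    (hh : 1 ≤ h) (hτ : 4 * H ≤ τ) (j : ℕ) (hr : 0 < r) {x y : ℝ} (hx : 0 < x) (hy0 : y ≤ 0)
    (hy : -(1 / (4 * H)) ≤ y) :
    ‖FF a τ r j (x + y * Complex.I)‖ ≤
      12 / 5 * τ * M * ((r + ρ + 2 + (2 * j : ℕ)) ^ (2 * j) * Real.exp (3 / 2)) / √(2 * r) *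
        (x ^ ((1 / 2 : ℝ) - 1) * Real.exp (-(1 / (ρ + 2) * x))) * Real.exp (τ * y) := by
  have hM : 0 ≤ M := by
    have h1 := (norm_nonneg _).trans (ha.bound 0)
    exact nonneg_of_mul_nonneg_left h1 (Real.exp_pos _)
  have hτ0 : 0 < τ := by linarith
  have hη : 1 / (4 * H) ≤ 1 / 4 := by
    apply one_div_le_one_div_of_le <;> linarith
  set u : ℂ := x + y * Complex.I with hu
  have hre : u.re = x := by simp [hu]
  have him : u.im = y := by simp [hu]
  have h1 := nF (u := u) ha hH hh hτ j hr (by rw [hre]; exact hx) (by rw [him]; exact hy0)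
    (by rw [him]; exact hy)
  rw [hre, him] at h1
  refine h1.trans (mul_le_mul_of_nonneg_right ?_ (Real.exp_pos _).le)
  have hux : x ≤ ‖u‖ := hre ▸ Complex.re_le_norm u
  have hux' : ‖u‖ ≤ x + 1 / 4 := by
    calc ‖u‖ ≤ ‖(x : ℂ)‖ + ‖(y : ℂ) * Complex.I‖ := norm_add_le _ _
      _ = |x| + |y| := by
        rw [norm_mul, Complex.norm_I, mul_one, Complex.norm_real, Complex.norm_real]
        rfl
      _ ≤ x + 1 / 4 := by
        rw [abs_of_pos hx, abs_of_nonpos hy0]
        linarith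
  have hu2 : ‖2 * (r : ℂ) + u‖ ≤ 2 * r + ‖u‖ := by
    refine (norm_add_le _ _).trans ?_
    rw [norm_mul, Complex.norm_real]
    simp [abs_of_pos hr]
  have hpos : 0 ≤ ‖u‖ := norm_nonneg _
  have hB : (‖u‖ * ‖2 * (r : ℂ) + u‖) ^ j ≤ (x + 2 * r + 1) ^ (2 * j) := by
    rw [pow_mul]
    apply pow_le_pow_left₀ (by positivity)
    rw [sq]
    exact mul_le_mul (by linarith) (by linarith) (norm_nonneg _) (by linarith)
  set m := max 0 (x + r - (ρ + 1)) with hm
  have hm0 : 0 ≤ m := le_max_left _ _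
  have hm1 : x + r - (ρ + 1) ≤ m := le_max_right _ _
  have hB2 : (x + 2 * r + 1) ^ (2 * j) ≤
      (r + ρ + 2 + (2 * j : ℕ)) ^ (2 * j) * Real.exp (m ^ 2 / 2) := by
    refine le_trans ?_ (pw (B := r + ρ + 2) (by linarith) hm0 (2 * j))
    apply pow_le_pow_left₀ (by positivity)
    linarith
  have hE : Real.exp (m ^ 2 / 2) * Real.exp (-m ^ 2) ≤
      Real.exp (3 / 2) * Real.exp (-(1 / (ρ + 2) * x)) := by
    rw [← Real.exp_add, ← Real.exp_add]
    apply Real.exp_le_exp.2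
    have h3 : 1 / (ρ + 2) * x ≤ m + 1 := by
      rw [one_div, inv_mul_le_iff₀ (by linarith)]
      nlinarith
    nlinarith [sq_nonneg (m - 1)]
  have hx2 : x ^ ((1 / 2 : ℝ) - 1) = 1 / √x := by
    rw [Real.sqrt_eq_rpow, one_div (x ^ (1 / 2 : ℝ)), ← Real.rpow_neg hx.le]
    norm_num
  have hsx : 0 < √x := Real.sqrt_pos.2 hx
  have hsr : 0 < √(2 * r) := Real.sqrt_pos.2 (by linarith)
  have hsxu : √x ≤ √‖u‖ := Real.sqrt_le_sqrt hux
  have h5 : (‖u‖ * ‖2 * (r : ℂ) + u‖) ^ j / (√‖u‖ * √(2 * r)) ≤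
      ((r + ρ + 2 + (2 * j : ℕ)) ^ (2 * j) * Real.exp (m ^ 2 / 2)) / (√x * √(2 * r)) :=
    div_le_div₀ (by positivity) (hB.trans hB2) (by positivity)
      (mul_le_mul_of_nonneg_right hsxu hsr.le)
  calc 12 / 5 * τ * M * Real.exp (-m ^ 2) * ((‖u‖ * ‖2 * (r : ℂ) + u‖) ^ j / (√‖u‖ * √(2 * r)))
      ≤ 12 / 5 * τ * M * Real.exp (-m ^ 2) *
        (((r + ρ + 2 + (2 * j : ℕ)) ^ (2 * j) * Real.exp (m ^ 2 / 2)) / (√x * √(2 * r))) :=
        mul_le_mul_of_nonneg_left h5 (by positivity)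
    _ = 12 / 5 * τ * M * (r + ρ + 2 + (2 * j : ℕ)) ^ (2 * j) / √(2 * r) * (1 / √x) *
        (Real.exp (m ^ 2 / 2) * Real.exp (-m ^ 2)) := by
        field_simp
    _ ≤ 12 / 5 * τ * M * (r + ρ + 2 + (2 * j : ℕ)) ^ (2 * j) / √(2 * r) * (1 / √x) *
        (Real.exp (3 / 2) * Real.exp (-(1 / (ρ + 2) * x))) :=
        mul_le_mul_of_nonneg_left hE (by positivity)
    _ = _ := by
        rw [hx2]
        ring

/-- the bound near the imaginary axis -/
private theorem nL {a : ℂ → ℂ} {ρ M H h τ r δ : ℝ} (ha : EA a ρ M H h) (hH : 1 ≤ H)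
    (hh : 1 ≤ h) (hτ : 4 * H ≤ τ) (j : ℕ) (hr : 0 < r) (hδ : 0 < δ) (hδ1 : δ ≤ 1 / (2 * τ))
    {y : ℝ} (hy0 : y ≤ 0) (hy : -(1 / (4 * H)) ≤ y) :
    ‖FF a τ r j (δ + y * Complex.I)‖ ≤
      12 / 5 * τ * M * (2 * r + 1) ^ j / √r * Real.exp (1 / 2) *
        ((δ - y) ^ (((j : ℝ) + 1 / 2) - 1) * Real.exp (-(τ * (δ - y)))) := by
  have hM : 0 ≤ M := by
    have h1 := (norm_nonneg _).trans (ha.bound 0)
    exact nonneg_of_mul_nonneg_left h1 (Real.exp_pos _)
  have hτ0 : 0 < τ := by linarith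
  have hη : 1 / (4 * H) ≤ 1 / 4 := by
    apply one_div_le_one_div_of_le <;> linarith
  have hδ2 : δ ≤ 1 / 8 := by
    refine hδ1.trans ?_
    apply one_div_le_one_div_of_le <;> linarith
  have hτδ : τ * δ ≤ 1 / 2 := by
    calc τ * δ ≤ τ * (1 / (2 * τ)) := mul_le_mul_of_nonneg_left hδ1 hτ0.le
      _ = 1 / 2 := by field_simp
  set u : ℂ := δ + y * Complex.I with hu
  have hre : u.re = δ := by simp [hu]
  have him : u.im = y := by simp [hu]
  have h1 := nF (u := u) ha hH hh hτ j hr (by rw [hre]; exact hδ) (by rw [him]; exact hy0)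
    (by rw [him]; exact hy)
  rw [hre, him] at h1
  refine h1.trans ?_
  set s := δ - y with hs
  have hs0 : 0 < s := by linarith
  have hux : s / 2 ≤ ‖u‖ := by
    have h2 := Complex.re_le_norm u
    have h3 := Complex.abs_im_le_norm u
    rw [him, abs_of_nonpos hy0] at h3
    rw [hre] at h2
    linarith
  have hux' : ‖u‖ ≤ s := by
    calc ‖u‖ ≤ ‖(δ : ℂ)‖ + ‖(y : ℂ) * Complex.I‖ := norm_add_le _ _
      _ = |δ| + |y| := by
        rw [norm_mul, Complex.norm_I, mul_one, Complex.norm_real, Complex.norm_real]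
        rfl
      _ = s := by
        rw [abs_of_pos hδ, abs_of_nonpos hy0]
        ring
  have hu2 : ‖2 * (r : ℂ) + u‖ ≤ 2 * r + 1 := by
    refine (norm_add_le _ _).trans ?_
    rw [norm_mul, Complex.norm_real]
    simp [abs_of_pos hr]
    linarith
  have hpos : 0 ≤ ‖u‖ := norm_nonneg _
  have hB : (‖u‖ * ‖2 * (r : ℂ) + u‖) ^ j ≤ s ^ j * (2 * r + 1) ^ j := by
    rw [← mul_pow]
    apply pow_le_pow_left₀ (by positivity)
    exact mul_le_mul hux' hu2 (norm_nonneg _) hs0.le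
  have hsq : √s * √r ≤ √‖u‖ * √(2 * r) := by
    rw [← Real.sqrt_mul hs0.le, ← Real.sqrt_mul hpos]
    apply Real.sqrt_le_sqrt
    nlinarith
  have hE0 : Real.exp (-(max 0 (δ + r - (ρ + 1))) ^ 2) ≤ 1 := by
    apply Real.exp_le_one_iff.2
    have := sq_nonneg (max 0 (δ + r - (ρ + 1)))
    linarith
  have hss : 0 < √s := Real.sqrt_pos.2 hs0
  have hsr : 0 < √r := Real.sqrt_pos.2 hr
  have hx2 : s ^ (((j : ℝ) + 1 / 2) - 1) = s ^ j / √s := by
    rw [show ((j : ℝ) + 1 / 2) - 1 = (j : ℝ) - 1 / 2 by ring, Real.rpow_sub hs0, Real.rpow_natCast,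
      ← Real.sqrt_eq_rpow]
  have hexp : Real.exp (τ * y) ≤ Real.exp (1 / 2) * Real.exp (-(τ * s)) := by
    rw [← Real.exp_add]
    apply Real.exp_le_exp.2
    rw [hs]
    linarith
  have h5 : (‖u‖ * ‖2 * (r : ℂ) + u‖) ^ j / (√‖u‖ * √(2 * r)) ≤
      (s ^ j * (2 * r + 1) ^ j) / (√s * √r) :=
    div_le_div₀ (by positivity) hB (by positivity) hsq
  calc 12 / 5 * τ * M * Real.exp (-(max 0 (δ + r - (ρ + 1))) ^ 2) *
        ((‖u‖ * ‖2 * (r : ℂ) + u‖) ^ j / (√‖u‖ * √(2 * r))) * Real.exp (τ * y)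
      ≤ 12 / 5 * τ * M * 1 * ((s ^ j * (2 * r + 1) ^ j) / (√s * √r)) *
        (Real.exp (1 / 2) * Real.exp (-(τ * s))) := by
        apply mul_le_mul _ hexp (Real.exp_pos _).le (by positivity)
        apply mul_le_mul _ h5 (by positivity) (by positivity)
        exact mul_le_mul_of_nonneg_left hE0 (by positivity)
    _ = _ := by
        rw [hx2]
        field_simp

private theorem dF {a : ℂ → ℂ} (ha : Differentiable ℂ a) {τ r : ℝ} (hr : 0 < r) (j : ℕ) {u : ℂ}
    (hu : 0 < u.re) : DifferentiableAt ℂ (FF a τ r j) u := by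
  have hda : Differentiable ℂ (deriv a) := fun z => (ha.analyticAt z).deriv.differentiableAt
  have h1 : DifferentiableAt ℂ (fun u : ℂ => a (r + u)) u :=
    (ha _).comp u ((differentiableAt_id).const_add _)
  have h2 : DifferentiableAt ℂ (fun u : ℂ => deriv a (r + u)) u :=
    (hda _).comp u ((differentiableAt_id).const_add _)
  have h3 : DifferentiableAt ℂ (fun u : ℂ => u ^ (((j : ℝ) - 1 / 2 : ℝ) : ℂ)) u :=
    (differentiableAt_id).cpow_const (Or.inl hu)
  have h4 : DifferentiableAt ℂ (fun u : ℂ => (2 * r + u) ^ (((j : ℝ) - 1 / 2 : ℝ) : ℂ)) u := by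
    apply DifferentiableAt.cpow_const ((differentiableAt_id).const_add _)
    left
    simp
    linarith
  have h5 : DifferentiableAt ℂ (fun u : ℂ => Complex.exp (-(Complex.I * τ * u))) u :=
    ((differentiableAt_id.const_mul _).neg).cexp
  exact (((h1.const_mul _).add h2).mul (h3.mul h4)).mul h5

private theorem gam {s r : ℝ} (hs : 0 < s) (hr : 0 < r) :
    IntegrableOn (fun x : ℝ => x ^ (s - 1) * Real.exp (-(r * x))) (Ioi 0) := by
  apply Integrable.of_integral_ne_zero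
  rw [Real.integral_rpow_mul_exp_neg_mul_Ioi hs hr]
  have := Real.Gamma_pos_of_pos hs
  positivity

private theorem core {a : ℂ → ℂ} {ρ M H h τ r : ℝ} (ha : EA a ρ M H h) (hρ : 0 ≤ ρ) (hH : 1 ≤ H)
    (hh : 1 ≤ h) (hτ : 4 * H ≤ τ) (j : ℕ) (hr : 0 < r) {E L : ℝ}
    (hE : E = 12 / 5 * τ * M * ((r + ρ + 2 + (2 * j : ℕ)) ^ (2 * j) * Real.exp (3 / 2)) / √(2 * r))
    (hL : L = 12 / 5 * τ * M * (2 * r + 1) ^ j / √r * Real.exp (1 / 2)) :
    ‖∫ x in Ioi (0 : ℝ), FF a τ r j x‖ ≤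
      E * Real.exp (-(τ / (4 * H))) * ((1 / (1 / (ρ + 2))) ^ (1 / 2 : ℝ) * Real.Gamma (1 / 2)) +
        L * ((1 / τ) ^ ((j : ℝ) + 1 / 2) * Real.Gamma ((j : ℝ) + 1 / 2)) := by
  have hM : 0 ≤ M := by
    have h1 := (norm_nonneg _).trans (ha.bound 0)
    exact nonneg_of_mul_nonneg_left h1 (Real.exp_pos _)
  have hH0 : 0 < H := by linarith
  have hτ0 : 0 < τ := by linarith
  have hη : 1 / (4 * H) ≤ 1 / 4 := by
    apply one_div_le_one_div_of_le <;> linarith
  have hη0 : 0 < 1 / (4 * H) := by positivity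
  have hE0 : 0 ≤ E := by rw [hE]; positivity
  have hL0 : 0 ≤ L := by rw [hL]; positivity
  have hρ2 : 0 < 1 / (ρ + 2) := by positivity
  set η := 1 / (4 * H) with hηd
  have hG := gam (s := 1 / 2) (r := 1 / (ρ + 2)) (by norm_num) hρ2
  have hGi := Real.integral_rpow_mul_exp_neg_mul_Ioi (a := 1 / 2) (r := 1 / (ρ + 2)) (by norm_num) hρ2
  have hj0 : (0 : ℝ) < (j : ℝ) + 1 / 2 := by positivity
  have hK := gam (s := (j : ℝ) + 1 / 2) (r := τ) hj0 hτ0
  have hKi := Real.integral_rpow_mul_exp_neg_mul_Ioi (a := (j : ℝ) + 1 / 2) (r := τ) hj0 hτ0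
  set G0 : ℝ → ℝ := fun x => x ^ ((1 / 2 : ℝ) - 1) * Real.exp (-(1 / (ρ + 2) * x)) with hG0
  set K0 : ℝ → ℝ := fun x => x ^ (((j : ℝ) + 1 / 2) - 1) * Real.exp (-(τ * x)) with hK0
  rw [← hGi, ← hKi]
  have hG0n : ∀ x : ℝ, 0 < x → 0 ≤ G0 x := fun x hx => by simp only [hG0]; positivity
  have hK0n : ∀ x : ℝ, 0 < x → 0 ≤ K0 x := fun x hx => by simp only [hK0]; positivity
  -- integrability on the real axis
  have hcont : ContinuousOn (fun x : ℝ => FF a τ r j x) (Ioi 0) := by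
    intro x hx
    have h1 : DifferentiableAt ℂ (FF a τ r j) (x : ℂ) :=
      dF ha.diff hr j (by simpa using hx)
    exact (h1.continuousAt.comp (f := fun x : ℝ => (x : ℂ))
      Complex.continuous_ofReal.continuousAt).continuousWithinAt
  have hint : IntegrableOn (fun x : ℝ => FF a τ r j x) (Ioi 0) := by
    apply Integrable.mono' (hG.const_mul E) (hcont.aestronglyMeasurable measurableSet_Ioi)
    filter_upwards [ae_restrict_mem measurableSet_Ioi] with x hx
    have h1 := nE ha hρ hH hh hτ j hr (x := x) (y := 0) hx le_rfl (by linarith)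
    rw [← hE] at h1
    simpa [hG0] using h1
  -- the estimate for one rectangle
  have key : ∀ δ R : ℝ, 0 < δ → δ ≤ 1 / (2 * τ) → δ ≤ R →
      ‖∫ x in δ..R, FF a τ r j x‖ ≤ E * Real.exp (-(τ / (4 * H))) * (∫ x in Ioi (0 : ℝ), G0 x) +
        L * (∫ x in Ioi (0 : ℝ), K0 x) + E * R ^ ((1 / 2 : ℝ) - 1) := by
    intro δ R hδ hδ1 hR
    have hR0 : 0 < R := by linarith
    have h0 := Complex.integral_boundary_rect_eq_zero_of_differentiableOn (FF a τ r j)
      (δ + ((-η : ℝ) : ℂ) * Complex.I) (R : ℂ) (by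
        intro u hu
        apply (dF ha.diff hr j _).differentiableWithinAt
        rw [Complex.mem_reProdIm] at hu
        have h1 := hu.1
        simp only [Complex.add_re, Complex.ofReal_re, Complex.mul_re, Complex.I_re, mul_zero,
          Complex.ofReal_im, Complex.I_im, mul_one, sub_self, add_zero, uIcc_of_le hR] at h1
        exact lt_of_lt_of_le hδ h1.1)
    simp only [Complex.add_re, Complex.ofReal_re, Complex.mul_re, Complex.I_re, mul_zero,
      Complex.ofReal_im, Complex.I_im, mul_one, sub_self, add_zero, Complex.add_im,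
      Complex.mul_im, zero_add, Complex.ofReal_zero, zero_mul] at h0
    have h1 : ∫ x in δ..R, FF a τ r j x = (∫ x in δ..R, FF a τ r j (x + ((-η : ℝ) : ℂ) * Complex.I)) +
        Complex.I • (∫ y in (-η)..0, FF a τ r j (R + y * Complex.I)) -
        Complex.I • (∫ y in (-η)..0, FF a τ r j (δ + y * Complex.I)) := by
      simp only [smul_eq_mul] at h0 ⊢
      linear_combination -h0
    have b1 : ‖∫ x in δ..R, FF a τ r j (x + ((-η : ℝ) : ℂ) * Complex.I)‖ ≤
        E * Real.exp (-(τ / (4 * H))) * (∫ x in Ioi (0 : ℝ), G0 x) := by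
      have hIoc : Ioc δ R ⊆ Ioi 0 := fun x hx => lt_trans hδ hx.1
      have hii : IntervalIntegrable (fun x => E * Real.exp (-(τ / (4 * H))) * G0 x) volume δ R := by
        rw [intervalIntegrable_iff_integrableOn_Ioc_of_le hR]
        exact (hG.mono_set hIoc).const_mul _
      calc ‖∫ x in δ..R, FF a τ r j (x + ((-η : ℝ) : ℂ) * Complex.I)‖
          ≤ ∫ x in δ..R, E * Real.exp (-(τ / (4 * H))) * G0 x := by
            apply intervalIntegral.norm_integral_le_of_norm_le hR _ hii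
            filter_upwards with x hx
            have h2 := nE ha hρ hH hh hτ j hr (x := x) (y := -η) (lt_trans hδ hx.1) (by linarith)
              (by linarith)
            rw [← hE] at h2
            refine h2.trans (le_of_eq ?_)
            have : τ * -η = -(τ / (4 * H)) := by rw [hηd]; ring
            rw [this]
            ring
        _ = E * Real.exp (-(τ / (4 * H))) * ∫ x in δ..R, G0 x :=
            intervalIntegral.integral_const_mul _ _
        _ ≤ _ := by
            apply mul_le_mul_of_nonneg_left _ (by positivity)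
            rw [intervalIntegral.integral_of_le hR]
            apply setIntegral_mono_set hG
            · filter_upwards [ae_restrict_mem measurableSet_Ioi] with x hx
              exact hG0n x hx
            · exact hIoc.eventuallyLE
    have b2 : ‖∫ y in (-η)..0, FF a τ r j (R + y * Complex.I)‖ ≤ E * R ^ ((1 / 2 : ℝ) - 1) := by
      have h3 : ∀ y ∈ uIoc (-η) 0, ‖FF a τ r j (R + y * Complex.I)‖ ≤ E * R ^ ((1 / 2 : ℝ) - 1) := by
        intro y hy
        rw [uIoc_of_le (by linarith)] at hy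
        have h2 := nE ha hρ hH hh hτ j hr (x := R) (y := y) hR0 hy.2 hy.1.le
        rw [← hE] at h2
        refine h2.trans ?_
        have e1 : Real.exp (-(1 / (ρ + 2) * R)) ≤ 1 := by
          apply Real.exp_le_one_iff.2
          have : 0 ≤ 1 / (ρ + 2) * R := by positivity
          linarith
        have e2 : Real.exp (τ * y) ≤ 1 := by
          apply Real.exp_le_one_iff.2
          exact mul_nonpos_of_nonneg_of_nonpos hτ0.le hy.2
        calc E * (R ^ ((1 / 2 : ℝ) - 1) * Real.exp (-(1 / (ρ + 2) * R))) * Real.exp (τ * y)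
            ≤ E * (R ^ ((1 / 2 : ℝ) - 1) * 1) * 1 := by
              apply mul_le_mul _ e2 (Real.exp_pos _).le (by positivity)
              apply mul_le_mul_of_nonneg_left _ hE0
              exact mul_le_mul_of_nonneg_left e1 (by positivity)
          _ = _ := by ring
      have h4 := intervalIntegral.norm_integral_le_of_norm_le_const h3
      refine h4.trans ?_
      have : |0 - -η| ≤ 1 := by
        rw [sub_neg_eq_add, zero_add, abs_of_pos hη0]
        linarith
      calc E * R ^ ((1 / 2 : ℝ) - 1) * |0 - -η| ≤ E * R ^ ((1 / 2 : ℝ) - 1) * 1 :=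
            mul_le_mul_of_nonneg_left this (by positivity)
        _ = _ := mul_one _
    have b3 : ‖∫ y in (-η)..0, FF a τ r j (δ + y * Complex.I)‖ ≤
        L * (∫ x in Ioi (0 : ℝ), K0 x) := by
      have hIoc : Ioc δ (δ + η) ⊆ Ioi 0 := fun x hx => lt_trans hδ hx.1
      have hii0 : IntervalIntegrable K0 volume δ (δ + η) := by
        rw [intervalIntegrable_iff_integrableOn_Ioc_of_le (by linarith)]
        exact hK.mono_set hIoc
      have hii1 : IntervalIntegrable (fun y => K0 (δ - y)) volume (-η) 0 := by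
        have := hii0.symm.comp_sub_left δ
        simpa using this
      calc ‖∫ y in (-η)..0, FF a τ r j (δ + y * Complex.I)‖
          ≤ ∫ y in (-η)..0, L * K0 (δ - y) := by
            apply intervalIntegral.norm_integral_le_of_norm_le (by linarith) _ (hii1.const_mul L)
            filter_upwards with y hy
            have h2 := nL ha hH hh hτ j hr hδ hδ1 (y := y) hy.2 hy.1.le
            rw [← hL] at h2
            exact h2
        _ = L * ∫ y in (-η)..0, K0 (δ - y) := intervalIntegral.integral_const_mul _ _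
        _ = L * ∫ y in δ..(δ + η), K0 y := by
            rw [intervalIntegral.integral_comp_sub_left]
            simp
        _ ≤ _ := by
            apply mul_le_mul_of_nonneg_left _ hL0
            rw [intervalIntegral.integral_of_le (by linarith)]
            apply setIntegral_mono_set hK
            · filter_upwards [ae_restrict_mem measurableSet_Ioi] with x hx
              exact hK0n x hx
            · exact hIoc.eventuallyLE
    rw [h1]
    refine (norm_sub_le _ _).trans ?_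
    refine (add_le_add (norm_add_le _ _) le_rfl).trans ?_
    rw [norm_smul, norm_smul, Complex.norm_I, one_mul, one_mul]
    linarith
  -- the limit
  set δn : ℕ → ℝ := fun n => 1 / (2 * τ * ((n : ℝ) + 1)) with hδn
  set Rn : ℕ → ℝ := fun n => (n : ℝ) + 1 with hRn
  have hδ0 : ∀ n, 0 < δn n := fun n => by simp only [hδn]; positivity
  have hδ1 : ∀ n, δn n ≤ 1 / (2 * τ) := by
    intro n
    simp only [hδn]
    apply one_div_le_one_div_of_le (by positivity)
    have : (0 : ℝ) ≤ n := Nat.cast_nonneg n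
    nlinarith
  have hδR : ∀ n, δn n ≤ Rn n := by
    intro n
    have h1 : 1 / (2 * τ) ≤ 1 := by
      rw [div_le_one (by positivity)]
      linarith
    have : (0 : ℝ) ≤ n := Nat.cast_nonneg n
    have := hδ1 n
    simp only [hRn]
    linarith
  have hR : Tendsto Rn atTop atTop := tendsto_atTop_add_const_right _ _ tendsto_natCast_atTop_atTop
  have hδt : Tendsto δn atTop (𝓝 0) := by
    have h1 : Tendsto (fun n : ℕ => (1 / (2 * τ)) * (Rn n)⁻¹) atTop (𝓝 ((1 / (2 * τ)) * 0)) :=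
      (tendsto_inv_atTop_zero.comp hR).const_mul _
    rw [mul_zero] at h1
    refine h1.congr fun n => ?_
    simp only [hδn, hRn]
    field_simp
  have hcov : AECover (volume.restrict (Ioi (0 : ℝ))) atTop fun n => Ioi (δn n) ∩ Iic (Rn n) :=
    (aecover_Ioi_of_Ioi hδt).inter (aecover_Iic hR)
  have hlim := hcov.integral_tendsto_of_countably_generated hint
  have hlim2 : Tendsto (fun n => ‖∫ x in (δn n)..(Rn n), FF a τ r j x‖) atTop
      (𝓝 ‖∫ x in Ioi (0 : ℝ), FF a τ r j x‖) := by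
    refine (hlim.norm).congr fun n => ?_
    rw [Measure.restrict_restrict (measurableSet_Ioi.inter measurableSet_Iic),
      intervalIntegral.integral_of_le (hδR n)]
    congr 3
    ext x
    simp only [mem_inter_iff, mem_Ioi, mem_Iic, mem_Ioc]
    constructor
    · rintro ⟨⟨h1, h2⟩, _⟩
      exact ⟨h1, h2⟩
    · rintro ⟨h1, h2⟩
      exact ⟨⟨h1, h2⟩, lt_trans (hδ0 n) h1⟩
  have hRz : Tendsto (fun n => E * (Rn n) ^ ((1 / 2 : ℝ) - 1)) atTop (𝓝 (E * 0)) := by
    have h1 : Tendsto (fun x : ℝ => x ^ ((1 / 2 : ℝ) - 1)) atTop (𝓝 0) := by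
      have := tendsto_rpow_neg_atTop (y := 1 / 2) (by norm_num)
      norm_num at this ⊢
      exact this
    exact (h1.comp hR).const_mul E
  have hfin := le_of_tendsto_of_tendsto' hlim2
    ((tendsto_const_nhds (x := E * Real.exp (-(τ / (4 * H))) * (∫ x in Ioi (0 : ℝ), G0 x) +
        L * (∫ x in Ioi (0 : ℝ), K0 x))).add hRz) fun n => key (δn n) (Rn n) (hδ0 n) (hδ1 n) (hδR n)
  rw [mul_zero, add_zero] at hfin
  exact hfin

private theorem gamma_ge (j : ℕ) : 1 / 2 ≤ Real.Gamma ((j : ℝ) + 1 / 2) := by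
  have hpi : (1 : ℝ) ≤ √Real.pi := by
    rw [Real.one_le_sqrt]
    linarith [Real.pi_gt_three]
  induction j with
  | zero =>
    simp only [Nat.cast_zero, zero_add, Real.Gamma_one_half_eq]
    linarith
  | succ j ih =>
    have h1 : ((j + 1 : ℕ) : ℝ) + 1 / 2 = ((j : ℝ) + 1 / 2) + 1 := by push_cast; ring
    have h2 : (j : ℝ) + 1 / 2 ≠ 0 := by positivity
    rw [h1, Real.Gamma_add_one h2]
    rcases Nat.eq_zero_or_pos j with rfl | hj
    · simp only [Nat.cast_zero, zero_add, Real.Gamma_one_half_eq]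
      linarith
    · have : (1 : ℝ) ≤ j := by exact_mod_cast hj
      nlinarith

private theorem dr {a : ℂ → ℂ} (ha : Differentiable ℂ a) (t : ℝ) :
    deriv (rst a) t = deriv a t :=
  ((ha t).hasDerivAt.comp_ofReal).deriv

private theorem al_eq {a : ℂ → ℂ} (ha : Differentiable ℂ a) (τ : ℝ) {r : ℝ} (hr : 0 < r) (j : ℕ) :
    B35.al j (rst a) τ r = -((1 / (√Real.pi * Real.Gamma ((j : ℝ) + 1 / 2)) : ℝ) : ℂ) *
      ∫ u in Ioi (0 : ℝ), FF a τ r j u := by
  unfold B35.al
  congr 1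
  apply setIntegral_congr_fun measurableSet_Ioi
  intro u hu
  have hu0 : (0 : ℝ) < u := hu
  simp only [FF]
  rw [dr ha, Real.mul_rpow hu0.le (by linarith), Complex.ofReal_mul,
    Complex.ofReal_cpow hu0.le, Complex.ofReal_cpow (by linarith)]
  simp only [rst]
  push_cast
  ring

theorem al_ray {a : ℂ → ℂ} {ρ M H h r0 τ : ℝ} (ha : EA a ρ M H h) (hρ : 0 ≤ ρ) (hH : 1 ≤ H)
    (hh : 1 ≤ h) (hr0 : 0 < r0) (hr1 : r0 ≤ 1) (hτ : 4 * H ≤ τ) (j : ℕ) {r : ℝ} (hr : r0 ≤ r) :
    ‖B35.al j (rst a) τ r‖ ≤ 3 * M / √r0 * (2 * r + 1) ^ j * τ ^ (1 / 2 - j : ℝ) +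
      3 * M * τ / √r0 * (8 * (r + ρ + j + 2)) ^ (2 * j + 2) * Real.exp (-(τ / (4 * H))) := by
  have hM : 0 ≤ M := by
    have h1 := (norm_nonneg _).trans (ha.bound 0)
    exact nonneg_of_mul_nonneg_left h1 (Real.exp_pos _)
  have hrp : 0 < r := by linarith
  have hτ0 : 0 < τ := by linarith
  have hj0 : (0 : ℝ) ≤ j := Nat.cast_nonneg j
  have hpi : (3 / 2 : ℝ) ≤ √Real.pi := by
    rw [Real.le_sqrt' (by norm_num)]
    linarith [Real.pi_gt_three]
  have hg := gamma_ge j
  have hg0 : 0 < Real.Gamma ((j : ℝ) + 1 / 2) := by linarith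
  rw [al_eq ha.diff τ hrp j, norm_mul, norm_neg, Complex.norm_real, Real.norm_of_nonneg (by positivity)]
  have h1 := core ha hρ hH hh hτ j hrp rfl rfl
  refine (mul_le_mul_of_nonneg_left h1 (by positivity)).trans ?_
  rw [mul_add, add_comm]
  have hs0 : 0 < √r0 := Real.sqrt_pos.2 hr0
  have hs : √r0 ≤ √r := Real.sqrt_le_sqrt hr
  have hsr : 0 < √r := by linarith
  have hs2 : √r0 ≤ √(2 * r) := Real.sqrt_le_sqrt (by linarith)
  have hs2r : 0 < √(2 * r) := by linarith
  have e1 : Real.exp (1 / 2) ≤ 5 / 3 := by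
    apply le_of_sq_le_sq _ (by norm_num)
    rw [← Real.exp_nat_mul]
    have := Real.exp_one_lt_d9
    norm_num at this ⊢
    linarith
  have e2 : Real.exp (3 / 2) ≤ 9 / 2 := by
    apply le_of_sq_le_sq _ (by norm_num)
    have h3 : Real.exp (3 / 2) ^ 2 = Real.exp 1 ^ 3 := by
      rw [← Real.exp_nat_mul, ← Real.exp_nat_mul]
      norm_num
    rw [h3]
    have h4 := Real.exp_one_lt_d9
    calc Real.exp 1 ^ 3 ≤ (2.7182818286 : ℝ) ^ 3 := pow_le_pow_left₀ (Real.exp_pos _).le h4.le 3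
      _ ≤ _ := by norm_num
  apply add_le_add
  · -- the segment
    have h3 : (1 / τ) ^ ((j : ℝ) + 1 / 2) * τ = τ ^ (1 / 2 - j : ℝ) := by
      rw [one_div, Real.inv_rpow hτ0.le, ← Real.rpow_neg hτ0.le]
      nth_rewrite 2 [← Real.rpow_one τ]
      rw [← Real.rpow_add hτ0]
      congr 1
      ring
    have h4 : 1 / √Real.pi ≤ 2 / 3 := by
      rw [div_le_div_iff₀ (by linarith) (by norm_num)]
      linarith
    have hT : 0 < τ ^ (1 / 2 - j : ℝ) := by positivity
    calc 1 / (√Real.pi * Real.Gamma ((j : ℝ) + 1 / 2)) *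
          (12 / 5 * τ * M * (2 * r + 1) ^ j / √r * Real.exp (1 / 2) *
            ((1 / τ) ^ ((j : ℝ) + 1 / 2) * Real.Gamma ((j : ℝ) + 1 / 2)))
        = (1 / √Real.pi * Real.exp (1 / 2) * (12 / 5)) * (M / √r * (2 * r + 1) ^ j *
            ((1 / τ) ^ ((j : ℝ) + 1 / 2) * τ)) := by
          field_simp
      _ ≤ (2 / 3 * (5 / 3) * (12 / 5)) * (M / √r0 * (2 * r + 1) ^ j *
            ((1 / τ) ^ ((j : ℝ) + 1 / 2) * τ)) := by
          apply mul_le_mul
          · apply mul_le_mul_of_nonneg_right _ (by norm_num)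
            exact mul_le_mul h4 e1 (Real.exp_pos _).le (by norm_num)
          · apply mul_le_mul_of_nonneg_right _ (by positivity)
            apply mul_le_mul_of_nonneg_right _ (by positivity)
            exact div_le_div_of_nonneg_left hM hs0 hs
          · positivity
          · norm_num
      _ ≤ 3 * (M / √r0 * (2 * r + 1) ^ j * ((1 / τ) ^ ((j : ℝ) + 1 / 2) * τ)) := by
          apply mul_le_mul_of_nonneg_right (by norm_num)
          positivity
      _ = _ := by
          rw [h3]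
          ring
  · -- the horizontal part
    have hX : 0 < Real.exp (-(τ / (4 * H))) := Real.exp_pos _
    have h3 : (1 / (1 / (ρ + 2))) ^ (1 / 2 : ℝ) ≤ ρ + 2 := by
      rw [one_div_one_div]
      calc (ρ + 2) ^ (1 / 2 : ℝ) ≤ (ρ + 2) ^ (1 : ℝ) :=
            Real.rpow_le_rpow_of_exponent_le (by linarith) (by norm_num)
        _ = _ := Real.rpow_one _
    have h3' : 0 < (1 / (1 / (ρ + 2))) ^ (1 / 2 : ℝ) := by positivity
    have h4 : 1 / Real.Gamma ((j : ℝ) + 1 / 2) ≤ 2 := by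
      rw [div_le_iff₀ hg0]
      linarith
    set Z := 8 * (r + ρ + j + 2) with hZ
    have hZ1 : 16 ≤ Z := by rw [hZ]; linarith
    have h5 : (r + ρ + 2 + (2 * j : ℕ)) ^ (2 * j) ≤ Z ^ (2 * j) := by
      apply pow_le_pow_left₀ (by positivity)
      rw [hZ]
      push_cast
      linarith
    have h6 : ρ + 2 ≤ Z := by rw [hZ]; linarith
    calc 1 / (√Real.pi * Real.Gamma ((j : ℝ) + 1 / 2)) *
          (12 / 5 * τ * M * ((r + ρ + 2 + (2 * j : ℕ)) ^ (2 * j) * Real.exp (3 / 2)) / √(2 * r) *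
            Real.exp (-(τ / (4 * H))) * ((1 / (1 / (ρ + 2))) ^ (1 / 2 : ℝ) * Real.Gamma (1 / 2)))
        = (1 / Real.Gamma ((j : ℝ) + 1 / 2) * Real.exp (3 / 2) * (12 / 5)) *
            (τ * M / √(2 * r) * (r + ρ + 2 + (2 * j : ℕ)) ^ (2 * j) * (1 / (1 / (ρ + 2))) ^ (1 / 2 : ℝ) *
              Real.exp (-(τ / (4 * H)))) := by
          rw [Real.Gamma_one_half_eq]
          have : √Real.pi ≠ 0 := by positivity
          field_simp
      _ ≤ (2 * (9 / 2) * (12 / 5)) * (τ * M / √r0 * Z ^ (2 * j) * Z *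
              Real.exp (-(τ / (4 * H)))) := by
          apply mul_le_mul
          · apply mul_le_mul_of_nonneg_right _ (by norm_num)
            exact mul_le_mul h4 e2 (Real.exp_pos _).le (by norm_num)
          · apply mul_le_mul_of_nonneg_right _ hX.le
            apply mul_le_mul _ (h3.trans h6) h3'.le (by positivity)
            apply mul_le_mul _ h5 (by positivity) (by positivity)
            exact div_le_div_of_nonneg_left (by positivity) hs0 hs2
          · positivity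
          · norm_num
      _ ≤ (3 * Z) * (τ * M / √r0 * Z ^ (2 * j) * Z * Real.exp (-(τ / (4 * H)))) := by
          apply mul_le_mul_of_nonneg_right (by linarith)
          positivity
      _ = _ := by
          ring

end B36
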