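import Pool.Agent.LibBE36T.T10

/-! ROW T12 : the symbol of the cut amplitude. MEDIUM.
PLAN. `al j b τ r` is linear in `b`: `al j (rst a) - al j (cta χ a) = al j ((1-χ) a)` (both integrals converge: continuous bracket with Gaussian decay times `u^(-1/2)`), the integrand lives on
`t = r + u ≥ ρ + 2` and is at most `2M (τ + 2HN + 16N) exp(-(h (t - ρ - 1))²) (u (2r+u))^(j-1/2)` by `cta_tiny` (`k = 0, 1`). With `y = t - ρ - 1 ≥ 1`, `h ≥ 1`:
`exp(-h² y²) ≤ exp(-h²/2) exp(-y²/2)`; `(u (2r+u))^(j-1/2) = (t² - r²)^(j-1/2)`: for `j ≥ 1` at most `t^(2j)`, for `j = 0` at most `u^(-1/2) (2 r0)^(-1/2)`;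
the integral is `≤ (8 (r + ρ + j + 2))^(2j+2)/√r0` (`t^(2j) e^(-y²/4) ≤ (ρ + 1 + 2j + 2)^(2j)`); `c_j ≤ 1`. `ho : al j b τ r = 0` for `r > ρ + 3`.
`Ab_cut`: look for the lemma that links `Ab` and `al` in LibB35 (grep for al j in LibB35 and LibBE73/Y1), it holds for smooth `b` with compact support; otherwise: `Ab_eq`, `q = osc b τ`,
`q'(t) = Re (e^(-iτt) (-iτ b + b'))`, substitution `t = r + u`. -/

open MeasureTheory Set Filter Topology
open scoped ContDiff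

namespace B36

theorem T12_en (τ u : ℝ) : ‖Complex.exp (-(Complex.I * τ * u))‖ = 1 := by
  have h : -(Complex.I * τ * u) = ((-(τ * u) : ℝ) : ℂ) * Complex.I := by
    push_cast
    ring
  rw [h, Complex.norm_exp_ofReal_mul_I]

theorem T12_ed (τ u : ℝ) : HasDerivAt (fun u : ℝ => Complex.exp (-(Complex.I * τ * u)))
    (-(Complex.I * τ) * Complex.exp (-(Complex.I * τ * u))) u := by
  have h1 : HasDerivAt (fun u : ℝ => -(Complex.I * τ * (u : ℂ))) (-(Complex.I * τ)) u := by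
    have h2 : HasDerivAt (fun u : ℝ => (u : ℂ)) 1 u := (hasDerivAt_id u).ofReal_comp
    have h3 := (h2.const_mul (Complex.I * τ)).neg
    rw [mul_one] at h3
    exact h3
  exact h1.cexp.congr_deriv (mul_comm _ _)

theorem T12_w (j : ℕ) {r0 r u : ℝ} (hr0 : 0 < r0) (hr : r0 ≤ r) (hu : 0 < u) :
    (u * (2 * r + u)) ^ ((j : ℝ) - 1 / 2) ≤ (r + u) ^ (2 * j) * (u ^ (-(1 / 2) : ℝ) / √r0) := by
  have hq : 0 < u * (2 * r + u) := mul_pos hu (by linarith)
  rw [Real.rpow_sub hq, Real.rpow_natCast, ← Real.sqrt_eq_rpow, Real.rpow_neg hu.le,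
    ← Real.sqrt_eq_rpow]
  have h1 : (u * (2 * r + u)) ^ j ≤ (r + u) ^ (2 * j) := by
    rw [pow_mul]
    apply pow_le_pow_left₀ hq.le
    nlinarith [sq_nonneg r]
  have h2 : √u * √r0 ≤ √(u * (2 * r + u)) := by
    rw [← Real.sqrt_mul hu.le]
    apply Real.sqrt_le_sqrt
    apply mul_le_mul_of_nonneg_left _ hu.le
    linarith
  have h3 : 0 < √u * √r0 := mul_pos (Real.sqrt_pos.2 hu) (Real.sqrt_pos.2 hr0)
  calc (u * (2 * r + u)) ^ j / √(u * (2 * r + u)) ≤ (r + u) ^ (2 * j) / (√u * √r0) :=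
        div_le_div₀ (pow_nonneg (by linarith) _) h1 h3 h2
    _ = _ := by
        rw [div_eq_mul_inv, mul_inv, div_eq_mul_inv]

theorem T12_g1 (c : ℝ) : Integrable (fun u : ℝ => Real.exp (-(1 / 4) * (u + c) ^ 2)) :=
  (integrable_exp_neg_mul_sq (by norm_num : (0:ℝ) < 1 / 4)).comp_add_right c

theorem T12_g2 (c : ℝ) : ∫ u : ℝ, Real.exp (-(1 / 4) * (u + c) ^ 2) ≤ 4 := by
  rw [integral_add_right_eq_self (fun u : ℝ => Real.exp (-(1 / 4) * u ^ 2)) c, integral_gaussian]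
  have h1 : Real.pi / (1 / 4) ≤ 4 ^ 2 := by
    have := Real.pi_le_four
    linarith
  calc √(Real.pi / (1 / 4)) ≤ √(4 ^ 2) := Real.sqrt_le_sqrt h1
    _ = 4 := Real.sqrt_sq (by norm_num)

theorem T12_g3 : IntegrableOn (fun u : ℝ => u ^ (-(1 / 2) : ℝ)) (Ioc 0 1) := by
  have h1 : IntervalIntegrable (fun u : ℝ => u ^ (-(1 / 2) : ℝ)) volume 0 1 :=
    intervalIntegral.intervalIntegrable_rpow' (by norm_num)
  exact (intervalIntegrable_iff_integrableOn_Ioc_of_le (by norm_num)).1 h1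

theorem T12_g4 : ∫ u : ℝ, (Ioc (0:ℝ) 1).indicator (fun u : ℝ => u ^ (-(1 / 2) : ℝ)) u = 2 := by
  rw [integral_indicator measurableSet_Ioc, ← intervalIntegral.integral_of_le (by norm_num),
    integral_rpow (Or.inl (by norm_num))]
  norm_num

/-- integrability and the bound -/
theorem T12_int (j : ℕ) {φ : ℝ → ℂ} (hφ : Continuous φ) {K y0 : ℝ}
    (hb : ∀ t, 0 < t → ‖φ t‖ * t ^ (2 * j) ≤ K * Real.exp (-(1 / 4) * (t - y0) ^ 2))
    {r0 r : ℝ} (hr0 : 0 < r0) (hr : r0 ≤ r) (τ : ℝ) :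
    IntegrableOn (fun u : ℝ => φ (r + u) * (((u * (2 * r + u)) ^ ((j : ℝ) - 1 / 2) : ℝ) : ℂ) *
      Complex.exp (-(Complex.I * τ * u))) (Ioi 0) ∧
    ‖∫ u in Ioi (0:ℝ), φ (r + u) * (((u * (2 * r + u)) ^ ((j : ℝ) - 1 / 2) : ℝ) : ℂ) *
      Complex.exp (-(Complex.I * τ * u))‖ ≤ 6 * K / √r0 := by
  have hK : 0 ≤ K := by
    have h1 := hb 1 one_pos
    have h2 : 0 ≤ ‖φ 1‖ * (1:ℝ) ^ (2 * j) := by positivity
    by_contra h3
    have h4 : K * Real.exp (-(1 / 4) * (1 - y0) ^ 2) < 0 :=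
      mul_neg_of_neg_of_pos (not_le.1 h3) (Real.exp_pos _)
    linarith
  have hs0 : 0 < √r0 := Real.sqrt_pos.2 hr0
  obtain ⟨G, hG⟩ : ∃ G : ℝ → ℝ, G = fun u => K / √r0 * (Real.exp (-(1 / 4) * (u + (r - y0)) ^ 2) +
    (Ioc (0:ℝ) 1).indicator (fun u : ℝ => u ^ (-(1 / 2) : ℝ)) u) := ⟨_, rfl⟩
  have hind : Integrable (fun u : ℝ => (Ioc (0:ℝ) 1).indicator (fun u : ℝ => u ^ (-(1 / 2) : ℝ)) u) :=
    (integrable_indicator_iff measurableSet_Ioc).2 T12_g3
  have hGi : Integrable G := by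
    rw [hG]
    exact ((T12_g1 (r - y0)).add hind).const_mul _
  have hind0 : ∀ u : ℝ, 0 ≤ (Ioc (0:ℝ) 1).indicator (fun u : ℝ => u ^ (-(1 / 2) : ℝ)) u := fun u =>
    indicator_nonneg (fun x hx => Real.rpow_nonneg hx.1.le _) u
  have hG0 : ∀ u, 0 ≤ G u := by
    intro u
    rw [hG]
    have := hind0 u
    have h2 := Real.exp_pos (-(1 / 4) * (u + (r - y0)) ^ 2)
    show 0 ≤ K / √r0 * (_ + _)
    positivity
  have hnorm : ∀ u ∈ Ioi (0:ℝ), ‖φ (r + u) * (((u * (2 * r + u)) ^ ((j : ℝ) - 1 / 2) : ℝ) : ℂ) *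
      Complex.exp (-(Complex.I * τ * u))‖ ≤ G u := by
    intro u hu
    have hu0 : 0 < u := hu
    have hq : 0 < u * (2 * r + u) := mul_pos hu0 (by linarith)
    rw [norm_mul, norm_mul, T12_en, mul_one, Complex.norm_real,
      Real.norm_of_nonneg (Real.rpow_nonneg hq.le _)]
    have h1 := T12_w j hr0 hr hu0
    have h2 := hb (r + u) (by linarith)
    have h3 : r + u - y0 = u + (r - y0) := by ring
    rw [h3] at h2
    have hm : Real.exp (-(1 / 4) * (u + (r - y0)) ^ 2) ≤ 1 := by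
      apply Real.exp_le_one_iff.2
      nlinarith [sq_nonneg (u + (r - y0))]
    have he0 := Real.exp_pos (-(1 / 4) * (u + (r - y0)) ^ 2)
    have hup : 0 ≤ u ^ (-(1 / 2) : ℝ) := Real.rpow_nonneg hu0.le _
    have h4 : Real.exp (-(1 / 4) * (u + (r - y0)) ^ 2) * u ^ (-(1 / 2) : ℝ) ≤
        Real.exp (-(1 / 4) * (u + (r - y0)) ^ 2) +
        (Ioc (0:ℝ) 1).indicator (fun u : ℝ => u ^ (-(1 / 2) : ℝ)) u := by
      by_cases hu1 : u ≤ 1
      · rw [indicator_of_mem (show u ∈ Ioc (0:ℝ) 1 from ⟨hu0, hu1⟩)]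
        have : Real.exp (-(1 / 4) * (u + (r - y0)) ^ 2) * u ^ (-(1 / 2) : ℝ) ≤
            1 * u ^ (-(1 / 2) : ℝ) := mul_le_mul_of_nonneg_right hm hup
        linarith
      · rw [indicator_of_notMem (fun h => hu1 h.2), add_zero]
        have h5 : u ^ (-(1 / 2) : ℝ) ≤ 1 :=
          Real.rpow_le_one_of_one_le_of_nonpos (not_le.1 hu1).le (by norm_num)
        exact mul_le_of_le_one_right he0.le h5
    rw [hG]
    calc ‖φ (r + u)‖ * (u * (2 * r + u)) ^ ((j : ℝ) - 1 / 2) ≤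
        ‖φ (r + u)‖ * ((r + u) ^ (2 * j) * (u ^ (-(1 / 2) : ℝ) / √r0)) :=
          mul_le_mul_of_nonneg_left h1 (norm_nonneg _)
      _ = ‖φ (r + u)‖ * (r + u) ^ (2 * j) * (u ^ (-(1 / 2) : ℝ) / √r0) := by ring
      _ ≤ K * Real.exp (-(1 / 4) * (u + (r - y0)) ^ 2) * (u ^ (-(1 / 2) : ℝ) / √r0) :=
          mul_le_mul_of_nonneg_right h2 (by positivity)
      _ = K / √r0 * (Real.exp (-(1 / 4) * (u + (r - y0)) ^ 2) * u ^ (-(1 / 2) : ℝ)) := by ring
      _ ≤ K / √r0 * (Real.exp (-(1 / 4) * (u + (r - y0)) ^ 2) +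
        (Ioc (0:ℝ) 1).indicator (fun u : ℝ => u ^ (-(1 / 2) : ℝ)) u) :=
          mul_le_mul_of_nonneg_left h4 (by positivity)
  have hcont : ContinuousOn (fun u : ℝ => φ (r + u) *
      (((u * (2 * r + u)) ^ ((j : ℝ) - 1 / 2) : ℝ) : ℂ) *
      Complex.exp (-(Complex.I * τ * u))) (Ioi 0) := by
    refine ContinuousOn.mul (ContinuousOn.mul ?_ ?_) ?_
    · exact (hφ.comp (continuous_const.add continuous_id)).continuousOn
    · refine Complex.continuous_ofReal.comp_continuousOn ?_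
      refine ContinuousOn.rpow_const (by fun_prop) ?_
      intro u hu
      left
      have hu0 : 0 < u := hu
      exact (mul_pos hu0 (by linarith)).ne'
    · exact Continuous.continuousOn (by fun_prop)
  have hae : ∀ᵐ u ∂(volume.restrict (Ioi (0:ℝ))), ‖φ (r + u) *
      (((u * (2 * r + u)) ^ ((j : ℝ) - 1 / 2) : ℝ) : ℂ) *
      Complex.exp (-(Complex.I * τ * u))‖ ≤ G u :=
    (ae_restrict_iff' measurableSet_Ioi).2 (ae_of_all _ hnorm)
  refine ⟨Integrable.mono' hGi.integrableOn (hcont.aestronglyMeasurable measurableSet_Ioi) hae, ?_⟩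
  refine (norm_integral_le_of_norm_le hGi.integrableOn hae).trans ?_
  have h5 : ∫ u in Ioi (0:ℝ), G u ≤ ∫ u, G u :=
    setIntegral_le_integral hGi (ae_of_all _ hG0)
  refine h5.trans ?_
  have h6 : ∫ u, G u = K / √r0 * ((∫ u : ℝ, Real.exp (-(1 / 4) * (u + (r - y0)) ^ 2)) + 2) := by
    rw [hG, integral_const_mul, integral_add (T12_g1 (r - y0)) hind, T12_g4]
  rw [h6]
  have h7 := T12_g2 (r - y0)
  calc _ ≤ K / √r0 * (4 + 2) := mul_le_mul_of_nonneg_left (by linarith) (by positivity)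
    _ = _ := by ring

theorem T12_gam (j : ℕ) : 1 ≤ √Real.pi * Real.Gamma ((j : ℝ) + 1 / 2) := by
  have hpi : 0 < √Real.pi := Real.sqrt_pos.2 Real.pi_pos
  have hpp : √Real.pi * √Real.pi = Real.pi := Real.mul_self_sqrt Real.pi_pos.le
  have h3 := Real.pi_gt_three
  have key : ∀ i : ℕ, Real.pi / 2 ≤ √Real.pi * Real.Gamma (((i + 1 : ℕ) : ℝ) + 1 / 2) := by
    intro i
    induction i with
    | zero =>
      have e1 : (((0 + 1 : ℕ) : ℝ)) + 1 / 2 = 1 / 2 + 1 := by norm_num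
      rw [e1, Real.Gamma_add_one (by norm_num), Real.Gamma_one_half_eq]
      have e2 : √Real.pi * (1 / 2 * √Real.pi) = √Real.pi * √Real.pi / 2 := by ring
      rw [e2, hpp]
    | succ i ih =>
      have e1 : (((i + 1 + 1 : ℕ) : ℝ)) + 1 / 2 = (((i + 1 : ℕ) : ℝ) + 1 / 2) + 1 := by
        push_cast
        ring
      have hpos : (0:ℝ) < ((i + 1 : ℕ) : ℝ) + 1 / 2 := by positivity
      rw [e1, Real.Gamma_add_one hpos.ne']
      have hg : 0 < Real.Gamma (((i + 1 : ℕ) : ℝ) + 1 / 2) := Real.Gamma_pos_of_pos hpos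
      have h1 : (1:ℝ) ≤ ((i + 1 : ℕ) : ℝ) + 1 / 2 := by
        push_cast
        have : (0:ℝ) ≤ i := Nat.cast_nonneg i
        linarith
      have h2 : √Real.pi * Real.Gamma (((i + 1 : ℕ) : ℝ) + 1 / 2) ≤
          (((i + 1 : ℕ) : ℝ) + 1 / 2) * (√Real.pi * Real.Gamma (((i + 1 : ℕ) : ℝ) + 1 / 2)) :=
        le_mul_of_one_le_left (by positivity) h1
      calc _ ≤ _ := ih
        _ ≤ _ := h2
        _ = _ := by ring
  rcases Nat.eq_zero_or_pos j with rfl | hj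
  · rw [Nat.cast_zero, zero_add, Real.Gamma_one_half_eq, hpp]
    linarith
  · obtain ⟨i, rfl⟩ : ∃ i, j = i + 1 := ⟨j - 1, by omega⟩
    have := key i
    linarith

/-- `t^(2j)` against the Gaussian -/
theorem T12_pow (j : ℕ) {A y : ℝ} (hA : 0 ≤ A) (hy : 0 ≤ y) :
    (A + y) ^ (2 * j) ≤ (A + 2 * j + 2) ^ (2 * j) * Real.exp (1 / 4 * y ^ 2) := by
  rcases Nat.eq_zero_or_pos j with rfl | hj
  · simp only [mul_zero, pow_zero, one_mul]
    exact Real.one_le_exp (by positivity)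
  · have hj' : (1:ℝ) ≤ j := by exact_mod_cast hj
    have h1 : A + y ≤ (A + 2 * j + 2) * Real.exp (y ^ 2 / (8 * j)) := by
      have h2 : 1 + y ^ 2 / (8 * j) ≤ Real.exp (y ^ 2 / (8 * j)) := by
        have := Real.add_one_le_exp (y ^ 2 / (8 * j))
        linarith
      have h3 : (A + 2 * j + 2) * (1 + y ^ 2 / (8 * j)) ≤
          (A + 2 * j + 2) * Real.exp (y ^ 2 / (8 * j)) :=
        mul_le_mul_of_nonneg_left h2 (by positivity)
      have h4 : y ^ 2 / 4 ≤ (A + 2 * j + 2) * (y ^ 2 / (8 * j)) := by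
        have e : (2 * (j:ℝ)) * (y ^ 2 / (8 * j)) = y ^ 2 / 4 := by
          field_simp
          ring
        have h5 : (2 * (j:ℝ)) * (y ^ 2 / (8 * j)) ≤ (A + 2 * j + 2) * (y ^ 2 / (8 * j)) :=
          mul_le_mul_of_nonneg_right (by linarith) (by positivity)
        linarith
      nlinarith [sq_nonneg (y / 2 - 1)]
    calc (A + y) ^ (2 * j) ≤ ((A + 2 * j + 2) * Real.exp (y ^ 2 / (8 * j))) ^ (2 * j) :=
          pow_le_pow_left₀ (by positivity) h1 _
      _ = (A + 2 * j + 2) ^ (2 * j) * Real.exp (1 / 4 * y ^ 2) := by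
          rw [mul_pow, ← Real.exp_nat_mul]
          congr 2
          push_cast
          field_simp
          ring

theorem T12_M {a : ℂ → ℂ} {ρ M H h : ℝ} (ha : EA a ρ M H h) : 0 ≤ M := by
  have h1 := (norm_nonneg _).trans (ha.bound 0)
  by_contra h2
  have h3 := mul_neg_of_neg_of_pos (not_le.1 h2)
    (Real.exp_pos ((H * (0:ℂ).im) ^ 2 - (h * max 0 (|(0:ℂ).re| - ρ)) ^ 2))
  linarith

theorem T12_dc {b : ℝ → ℂ} (hb : ContDiff ℝ ∞ b) (τ : ℝ) :
    Continuous fun t => -(Complex.I * τ) * b t + deriv b t :=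
  (continuous_const.mul hb.continuous).add (hb.continuous_deriv (by simp))

theorem al_cut {a : ℂ → ℂ} {ρ M H h r0 τ : ℝ} (ha : EA a ρ M H h) (hρ : 0 ≤ ρ) (hH : 1 ≤ H)
    (hh : 1 ≤ h) (hr0 : 0 < r0) (hr1 : r0 ≤ 1) (hτ : 1 ≤ τ) {N : ℕ} (hN : 1 ≤ N) {χ : ℝ → ℝ}
    (hχ : CutN N (ρ + 2) χ) (j : ℕ) {r : ℝ} (hr : r0 ≤ r) :
    ‖B35.al j (cta χ a) τ r - B35.al j (rst a) τ r‖ ≤
      2 * M * (τ + 2 * H * N + 16 * N) / √r0 * (8 * (r + ρ + j + 2)) ^ (2 * j + 2) *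
        Real.exp (-(h ^ 2 / 2)) := by
  have hM := T12_M ha
  have hN' : (1:ℝ) ≤ N := by exact_mod_cast hN
  have hh0 : 0 ≤ h := by linarith
  have hsr : ContDiff ℝ ∞ (rst a) := rst_smooth ha.diff
  have hsc : ContDiff ℝ ∞ (cta χ a) := (cta_amp ha hH hh0 hχ).smooth
  have hs0 : 0 < √r0 := Real.sqrt_pos.2 hr0
  have hrp : 0 < r := lt_of_lt_of_le hr0 hr
  -- the two brackets
  obtain ⟨b, hb⟩ : ∃ b : ℝ → ℂ, b = fun s : ℝ => rst a s - cta χ a s := ⟨_, rfl⟩
  have hbs : ContDiff ℝ ∞ b := by rw [hb]; exact hsr.sub hsc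
  have hbd : ∀ t, deriv b t = deriv (rst a) t - deriv (cta χ a) t := by
    intro t
    rw [hb]
    exact (((hsr.differentiable (by simp)) t).hasDerivAt.sub
      ((hsc.differentiable (by simp)) t).hasDerivAt).deriv
  have hbt : ∀ t, b t = rst a t - cta χ a t := fun t => by rw [hb]
  -- the bound of the difference
  have hD : ∀ t, 0 < t → ‖-(Complex.I * τ) * b t + deriv b t‖ * t ^ (2 * j) ≤
      (2 * M * (τ + 2 * H * N + 16 * N) * Real.exp (-(h ^ 2 / 2)) *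
        (ρ + 1 + 2 * j + 2) ^ (2 * j)) * Real.exp (-(1 / 4) * (t - (ρ + 1)) ^ 2) := by
    intro t ht
    obtain ⟨h1, h2⟩ := cta_tiny ha hρ hH hh0 hχ (Nat.zero_le N) t
    obtain ⟨h3, h4⟩ := cta_tiny ha hρ hH hh0 hχ hN t
    rw [← hb, iteratedDeriv_zero] at h1 h2
    rw [← hb, iteratedDeriv_one] at h3 h4
    rw [abs_of_pos ht] at h1 h2 h3 h4
    by_cases ht2 : t ≤ ρ + 2
    · rw [h1 ht2, h3 ht2, mul_zero, add_zero, norm_zero, zero_mul]
      positivity
    · have hy : 1 ≤ t - (ρ + 1) := by linarith [not_le.1 ht2]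
      obtain ⟨y, hyy⟩ : ∃ y : ℝ, y = t - (ρ + 1) := ⟨_, rfl⟩
      rw [← hyy] at hy h2 h4 ⊢
      rw [max_eq_right (by linarith : (0:ℝ) ≤ y)] at h2 h4
      have h5 : Real.exp (-(h * y) ^ 2) ≤ Real.exp (-(h ^ 2 / 2)) * Real.exp (-(1 / 2) * y ^ 2) := by
        rw [← Real.exp_add]
        apply Real.exp_le_exp.2
        have h6 : 1 ≤ y ^ 2 := one_le_pow₀ hy
        have h7 : 1 ≤ h ^ 2 := one_le_pow₀ hh
        have e : (h * y) ^ 2 = h ^ 2 * y ^ 2 := mul_pow _ _ _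
        rw [e]
        nlinarith
      have h8 : ‖-(Complex.I * τ) * b t + deriv b t‖ ≤
          2 * M * (τ + 2 * H * N + 16 * N) * (Real.exp (-(h ^ 2 / 2)) *
            Real.exp (-(1 / 2) * y ^ 2)) := by
        refine (norm_add_le _ _).trans ?_
        rw [norm_mul, norm_neg, norm_mul, Complex.norm_I, one_mul, Complex.norm_real,
          Real.norm_of_nonneg (by linarith)]
        rw [pow_zero, mul_one] at h2
        rw [pow_one] at h4
        have h9 : τ * ‖b t‖ ≤ τ * (2 * M * Real.exp (-(h * y) ^ 2)) :=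
          mul_le_mul_of_nonneg_left h2 (by linarith)
        calc τ * ‖b t‖ + ‖deriv b t‖ ≤ τ * (2 * M * Real.exp (-(h * y) ^ 2)) +
              2 * M * (2 * H * N + 16 * N) * Real.exp (-(h * y) ^ 2) := add_le_add h9 h4
          _ = 2 * M * (τ + 2 * H * N + 16 * N) * Real.exp (-(h * y) ^ 2) := by ring
          _ ≤ _ := mul_le_mul_of_nonneg_left h5 (by positivity)
      have h10 : t = (ρ + 1) + y := by rw [hyy]; ring
      have h11 := T12_pow j (by linarith : 0 ≤ ρ + 1) (by linarith : 0 ≤ y)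
      rw [← h10] at h11
      calc _ ≤ 2 * M * (τ + 2 * H * N + 16 * N) * (Real.exp (-(h ^ 2 / 2)) *
            Real.exp (-(1 / 2) * y ^ 2)) *
            ((ρ + 1 + 2 * j + 2) ^ (2 * j) * Real.exp (1 / 4 * y ^ 2)) :=
            mul_le_mul h8 h11 (by positivity) (by positivity)
        _ = (2 * M * (τ + 2 * H * N + 16 * N) * Real.exp (-(h ^ 2 / 2)) *
            (ρ + 1 + 2 * j + 2) ^ (2 * j)) *
            (Real.exp (-(1 / 2) * y ^ 2) * Real.exp (1 / 4 * y ^ 2)) := by ring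
        _ = _ := by
            rw [← Real.exp_add]
            congr 2
            ring
  obtain ⟨hI1, hI2⟩ := T12_int j (T12_dc hbs τ) hD hr0 hr τ
  -- the amplitude itself
  have hR : ∀ t, 0 < t → ‖-(Complex.I * τ) * rst a t + deriv (rst a) t‖ * t ^ (2 * j) ≤
      (2 * M * (τ + 2 * H) * (ρ + 1 + 2 * j + 2) ^ (2 * j) * Real.exp (1 / 4 * (ρ + 1) ^ 2)) *
        Real.exp (-(1 / 4) * (t - (ρ + 1)) ^ 2) := by
    intro t ht
    have h2 := EA_deriv ha hH hh0 (Nat.zero_le 1) t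
    have h4 := EA_deriv ha hH hh0 (le_refl 1) t
    rw [iteratedDeriv_zero] at h2
    rw [iteratedDeriv_one] at h4
    rw [abs_of_pos ht] at h2 h4
    obtain ⟨y, hyy⟩ : ∃ y : ℝ, y = max 0 (t - (ρ + 1)) := ⟨_, rfl⟩
    have hy0 : 0 ≤ y := by rw [hyy]; exact le_max_left _ _
    have hyt : t ≤ (ρ + 1) + y := by
      have := le_max_right 0 (t - (ρ + 1))
      rw [← hyy] at this
      linarith
    rw [← hyy] at h2 h4
    have h5 : Real.exp (-(h * y) ^ 2) ≤ Real.exp (-(1 / 2) * y ^ 2) := by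
      apply Real.exp_le_exp.2
      have h7 : 1 ≤ h ^ 2 := one_le_pow₀ hh
      have e : (h * y) ^ 2 = h ^ 2 * y ^ 2 := mul_pow _ _ _
      rw [e]
      nlinarith [sq_nonneg y]
    have h8 : ‖-(Complex.I * τ) * rst a t + deriv (rst a) t‖ ≤
        2 * M * (τ + 2 * H) * Real.exp (-(1 / 2) * y ^ 2) := by
      refine (norm_add_le _ _).trans ?_
      rw [norm_mul, norm_neg, norm_mul, Complex.norm_I, one_mul, Complex.norm_real,
        Real.norm_of_nonneg (by linarith)]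
      rw [pow_zero, mul_one] at h2
      rw [pow_one, Nat.cast_one, mul_one] at h4
      have h9 : τ * ‖rst a t‖ ≤ τ * (2 * M * Real.exp (-(h * y) ^ 2)) :=
        mul_le_mul_of_nonneg_left h2 (by linarith)
      calc τ * ‖rst a t‖ + ‖deriv (rst a) t‖ ≤ τ * (2 * M * Real.exp (-(h * y) ^ 2)) +
            2 * M * (2 * H) * Real.exp (-(h * y) ^ 2) := add_le_add h9 h4
        _ = 2 * M * (τ + 2 * H) * Real.exp (-(h * y) ^ 2) := by ring
        _ ≤ _ := mul_le_mul_of_nonneg_left h5 (by positivity)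
    have h11 := T12_pow j (by linarith : 0 ≤ ρ + 1) hy0
    have h12 : t ^ (2 * j) ≤ (ρ + 1 + 2 * j + 2) ^ (2 * j) * Real.exp (1 / 4 * y ^ 2) :=
      (pow_le_pow_left₀ ht.le hyt _).trans h11
    have h13 : Real.exp (-(1 / 4) * y ^ 2) ≤ Real.exp (1 / 4 * (ρ + 1) ^ 2) *
        Real.exp (-(1 / 4) * (t - (ρ + 1)) ^ 2) := by
      rw [← Real.exp_add]
      apply Real.exp_le_exp.2
      rcases le_total 0 (t - (ρ + 1)) with h14 | h14
      · rw [max_eq_right h14] at hyy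
        rw [hyy]
        nlinarith [sq_nonneg (ρ + 1)]
      · rw [max_eq_left h14] at hyy
        rw [hyy]
        nlinarith
    calc _ ≤ 2 * M * (τ + 2 * H) * Real.exp (-(1 / 2) * y ^ 2) *
          ((ρ + 1 + 2 * j + 2) ^ (2 * j) * Real.exp (1 / 4 * y ^ 2)) :=
          mul_le_mul h8 h12 (by positivity) (by positivity)
      _ = 2 * M * (τ + 2 * H) * (ρ + 1 + 2 * j + 2) ^ (2 * j) *
          (Real.exp (-(1 / 2) * y ^ 2) * Real.exp (1 / 4 * y ^ 2)) := by ring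
      _ = 2 * M * (τ + 2 * H) * (ρ + 1 + 2 * j + 2) ^ (2 * j) *
          Real.exp (-(1 / 4) * y ^ 2) := by
          rw [← Real.exp_add]
          congr 2
          ring
      _ ≤ 2 * M * (τ + 2 * H) * (ρ + 1 + 2 * j + 2) ^ (2 * j) *
          (Real.exp (1 / 4 * (ρ + 1) ^ 2) * Real.exp (-(1 / 4) * (t - (ρ + 1)) ^ 2)) :=
          mul_le_mul_of_nonneg_left h13 (by positivity)
      _ = _ := by ring
  obtain ⟨hI3, -⟩ := T12_int j (T12_dc hsr τ) hR hr0 hr τ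
  obtain ⟨c, hc⟩ : ∃ c : ℝ, c = 1 / (√Real.pi * Real.Gamma ((j : ℝ) + 1 / 2)) := ⟨_, rfl⟩
  have hg1 := T12_gam j
  have hc0 : 0 ≤ c := by rw [hc]; positivity
  have hc1 : c ≤ 1 := by
    rw [hc, div_le_one (by linarith)]
    exact hg1
  have hI4 : (∫ u in Ioi (0 : ℝ), (-(Complex.I * τ) * rst a (r + u) + deriv (rst a) (r + u)) *
      (((u * (2 * r + u)) ^ ((j : ℝ) - 1 / 2) : ℝ) : ℂ) * Complex.exp (-(Complex.I * τ * u))) -
      (∫ u in Ioi (0 : ℝ), (-(Complex.I * τ) * b (r + u) + deriv b (r + u)) *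
      (((u * (2 * r + u)) ^ ((j : ℝ) - 1 / 2) : ℝ) : ℂ) * Complex.exp (-(Complex.I * τ * u))) =
      ∫ u in Ioi (0 : ℝ), (-(Complex.I * τ) * cta χ a (r + u) + deriv (cta χ a) (r + u)) *
      (((u * (2 * r + u)) ^ ((j : ℝ) - 1 / 2) : ℝ) : ℂ) *
        Complex.exp (-(Complex.I * τ * u)) := by
    rw [← integral_sub hI3 hI1]
    refine integral_congr_ae (ae_of_all _ fun u => ?_)
    show _ - _ = _
    rw [hbt, hbd]
    ring
  have hfin : B35.al j (cta χ a) τ r - B35.al j (rst a) τ r = (c : ℂ) *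
      ∫ u in Ioi (0 : ℝ), (-(Complex.I * τ) * b (r + u) + deriv b (r + u)) *
      (((u * (2 * r + u)) ^ ((j : ℝ) - 1 / 2) : ℝ) : ℂ) * Complex.exp (-(Complex.I * τ * u)) := by
    unfold B35.al
    rw [← hI4, ← hc]
    ring
  rw [hfin, norm_mul, Complex.norm_real, Real.norm_of_nonneg hc0]
  have hfac : 6 * (ρ + 1 + 2 * j + 2) ^ (2 * j) ≤ (8 * (r + ρ + j + 2)) ^ (2 * j + 2) := by
    have hj0 : (0:ℝ) ≤ j := Nat.cast_nonneg j
    have e1 : (ρ + 1 + 2 * j + 2) ^ (2 * j) ≤ (8 * (r + ρ + j + 2)) ^ (2 * j) :=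
      pow_le_pow_left₀ (by positivity) (by linarith) _
    have e2 : (6:ℝ) ≤ (8 * (r + ρ + j + 2)) ^ 2 := by
      have : (16:ℝ) ≤ 8 * (r + ρ + j + 2) := by linarith
      nlinarith
    rw [pow_add (8 * (r + ρ + j + 2)) (2 * j) 2]
    calc 6 * (ρ + 1 + 2 * j + 2) ^ (2 * j) = (ρ + 1 + 2 * j + 2) ^ (2 * j) * 6 := by ring
      _ ≤ _ := mul_le_mul e1 e2 (by norm_num) (by positivity)
  calc _ ≤ 1 * (6 * (2 * M * (τ + 2 * H * N + 16 * N) * Real.exp (-(h ^ 2 / 2)) *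
        (ρ + 1 + 2 * j + 2) ^ (2 * j)) / √r0) :=
        mul_le_mul hc1 hI2 (norm_nonneg _) (by norm_num)
    _ = 2 * M * (τ + 2 * H * N + 16 * N) / √r0 * (6 * (ρ + 1 + 2 * j + 2) ^ (2 * j)) *
        Real.exp (-(h ^ 2 / 2)) := by ring
    _ ≤ _ := by
        apply mul_le_mul_of_nonneg_right _ (Real.exp_pos _).le
        exact mul_le_mul_of_nonneg_left hfac (by positivity)

theorem al_supp {a : ℂ → ℂ} {ρ τ : ℝ} (ha : Differentiable ℂ a) {N : ℕ} {χ : ℝ → ℝ}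
    (hχ : CutN N (ρ + 2) χ) (j : ℕ) {r : ℝ} (hr0 : 0 ≤ r) (hr : ρ + 3 < r) :
    B35.al j (cta χ a) τ r = 0 := by
  have hz : ∀ t, r ≤ t → cta χ a t = 0 := by
    intro t ht
    unfold cta
    rw [hχ.zero t (by
      rw [abs_of_nonneg (by linarith)]
      linarith)]
    simp
  unfold B35.al
  have h1 : ∫ u in Ioi (0 : ℝ), (-(Complex.I * τ) * cta χ a (r + u) + deriv (cta χ a) (r + u)) *
      (((u * (2 * r + u)) ^ ((j : ℝ) - 1 / 2) : ℝ) : ℂ) *
        Complex.exp (-(Complex.I * τ * u)) = ∫ u in Ioi (0 : ℝ), (0:ℂ) := by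
    refine setIntegral_congr_fun measurableSet_Ioi fun u hu => ?_
    have hu0 : 0 < u := hu
    have he : cta χ a =ᶠ[𝓝 (r + u)] fun _ => 0 := by
      filter_upwards [lt_mem_nhds (show r < r + u by linarith)] with t ht
      exact hz t ht.le
    show (-(Complex.I * τ) * cta χ a (r + u) + deriv (cta χ a) (r + u)) * _ * _ = 0
    rw [he.deriv_eq, hz _ (by linarith)]
    simp
  rw [h1]
  simp

theorem T12_osc {b : ℝ → ℂ} (hb : ContDiff ℝ ∞ b) (τ t : ℝ) :
    deriv (BR.osc b τ) t =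
      (Complex.exp (-(Complex.I * τ * t)) * (-(Complex.I * τ) * b t + deriv b t)).re := by
  have hd : HasDerivAt b (deriv b t) t := ((hb.differentiable (by simp)) t).hasDerivAt
  have h := (T12_ed τ t).mul hd
  have h2 := (Complex.reCLM.hasFDerivAt.comp_hasDerivAt t h).deriv
  have h3 : deriv (BR.osc b τ) t = (-(Complex.I * τ) * Complex.exp (-(Complex.I * τ * t)) * b t +
      Complex.exp (-(Complex.I * τ * t)) * deriv b t).re := h2
  rw [h3]
  congr 1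
  ring

/-- the real kernel of a compactly supported amplitude -/
theorem Ab_cut {b : ℝ → ℂ} {ρ τ : ℝ} (hb : ContDiff ℝ ∞ b)
    (hc : ∀ t, b (-t) = (starRingEnd ℂ) (b t)) (hs : ∀ t, ρ < |t| → b t = 0) (j : ℕ) {r : ℝ}
    (hr : 0 < r) : BR.Ab j (BR.osc b τ) (r ^ 2) =
      (Complex.exp (-(Complex.I * τ * r)) * B35.al j b τ r).re := by
  obtain ⟨ρ', hρ'⟩ : ∃ ρ' : ℝ, ρ' = max 0 ρ := ⟨_, rfl⟩
  have hρ0 : 0 ≤ ρ' := by rw [hρ']; exact le_max_left _ _
  have hb0 : ∀ t, ρ' < t → b t = 0 := by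
    intro t ht
    apply hs
    rw [abs_of_pos (lt_of_le_of_lt hρ0 ht)]
    exact lt_of_le_of_lt (by rw [hρ']; exact le_max_right _ _) ht
  have hT : BR.Tl (BR.osc b τ) ρ' := by
    refine ⟨?_, fun t ht => ?_⟩
    · have h1 : ContDiff ℝ ∞ (fun t : ℝ => Complex.exp (-(Complex.I * τ * t)) * b t) := by
        refine ContDiff.mul ?_ hb
        have h2 : ContDiff ℝ ∞ (fun t : ℝ => -(Complex.I * τ * (t : ℂ))) :=
          (contDiff_const.mul Complex.ofRealCLM.contDiff).neg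
        exact Complex.contDiff_exp.comp h2
      exact Complex.reCLM.contDiff.comp h1
    · unfold BR.osc
      rw [hb0 t ht, mul_zero, Complex.zero_re]
  obtain ⟨φ, hφ⟩ : ∃ φ : ℝ → ℂ, φ = fun t => -(Complex.I * τ) * b t + deriv b t := ⟨_, rfl⟩
  have hφc : Continuous φ := by rw [hφ]; exact T12_dc hb τ
  have hφ0 : ∀ t, ρ' < t → φ t = 0 := by
    intro t ht
    have he : b =ᶠ[𝓝 t] fun _ => 0 := by
      filter_upwards [lt_mem_nhds ht] with u hu
      exact hb0 u hu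
    rw [hφ]
    show -(Complex.I * τ) * b t + deriv b t = 0
    rw [he.deriv_eq, hb0 t ht]
    simp
  obtain ⟨K, hK⟩ := (isCompact_Icc (a := (0:ℝ)) (b := ρ')).exists_bound_of_continuousOn
    (f := fun t : ℝ => ‖φ t‖ * t ^ (2 * j) * Real.exp (1 / 4 * (t - 0) ^ 2))
    (Continuous.continuousOn (by fun_prop))
  have hK0 : 0 ≤ K := (norm_nonneg _).trans (hK 0 ⟨le_refl _, hρ0⟩)
  have hbd : ∀ t, 0 < t → ‖φ t‖ * t ^ (2 * j) ≤ K * Real.exp (-(1 / 4) * (t - 0) ^ 2) := by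
    intro t ht
    by_cases h1 : t ≤ ρ'
    · have h2 := (le_abs_self _).trans (hK t ⟨ht.le, h1⟩)
      have h3 : ‖φ t‖ * t ^ (2 * j) = ‖φ t‖ * t ^ (2 * j) * Real.exp (1 / 4 * (t - 0) ^ 2) *
          Real.exp (-(1 / 4) * (t - 0) ^ 2) := by
        rw [mul_assoc (‖φ t‖ * t ^ (2 * j)), ← Real.exp_add]
        have : 1 / 4 * (t - 0) ^ 2 + -(1 / 4) * (t - 0) ^ 2 = 0 := by ring
        rw [this, Real.exp_zero, mul_one]
      rw [h3]
      exact mul_le_mul_of_nonneg_right h2 (Real.exp_pos _).le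
    · rw [hφ0 t (not_le.1 h1), norm_zero, zero_mul]
      positivity
  obtain ⟨hI, -⟩ := T12_int j hφc hbd hr le_rfl τ
  obtain ⟨c, hcc⟩ : ∃ c : ℝ, c = 1 / (√Real.pi * Real.Gamma ((j : ℝ) + 1 / 2)) := ⟨_, rfl⟩
  have h1 := BR.Ab_eq hρ0 hT j (sq_nonneg r)
  rw [Real.sqrt_sq hr.le, ← hcc] at h1
  have e1 : ∫ t in Ioi r, deriv (BR.osc b τ) t * (t ^ 2 - r ^ 2) ^ ((j : ℝ) - 1 / 2) =
      ∫ u in Ioi (0 : ℝ), (Complex.exp (-(Complex.I * τ * r)) *
        (φ (r + u) * (((u * (2 * r + u)) ^ ((j : ℝ) - 1 / 2) : ℝ) : ℂ) *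
      Complex.exp (-(Complex.I * τ * u)))).re := by
    rw [← integral_indicator measurableSet_Ioi, ← integral_indicator measurableSet_Ioi,
      ← integral_add_left_eq_self _ r]
    congr 1
    ext w
    by_cases hw : 0 < w
    · rw [indicator_of_mem (show r + w ∈ Ioi r from by simpa using hw),
        indicator_of_mem (show w ∈ Ioi (0 : ℝ) from hw), T12_osc hb τ (r + w)]
      have e2 : (r + w) ^ 2 - r ^ 2 = w * (2 * r + w) := by ring
      rw [e2]
      have e4 : Complex.exp (-(Complex.I * τ * ((r + w : ℝ) : ℂ))) =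
          Complex.exp (-(Complex.I * τ * r)) * Complex.exp (-(Complex.I * τ * w)) := by
        rw [← Complex.exp_add]
        congr 1
        push_cast
        ring
      rw [e4, hφ]
      have e5 : Complex.exp (-(Complex.I * τ * r)) *
          ((-(Complex.I * τ) * b (r + w) + deriv b (r + w)) *
            (((w * (2 * r + w)) ^ ((j : ℝ) - 1 / 2) : ℝ) : ℂ) *
            Complex.exp (-(Complex.I * τ * w))) =
          (((w * (2 * r + w)) ^ ((j : ℝ) - 1 / 2) : ℝ) : ℂ) *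
            (Complex.exp (-(Complex.I * τ * r)) * Complex.exp (-(Complex.I * τ * w)) *
            (-(Complex.I * τ) * b (r + w) + deriv b (r + w))) := by
        ring
      show _ = (Complex.exp (-(Complex.I * τ * r)) *
          ((-(Complex.I * τ) * b (r + w) + deriv b (r + w)) *
            (((w * (2 * r + w)) ^ ((j : ℝ) - 1 / 2) : ℝ) : ℂ) *
            Complex.exp (-(Complex.I * τ * w)))).re
      rw [e5, Complex.re_ofReal_mul]
      ring
    · rw [indicator_of_notMem (show r + w ∉ Ioi r from by simpa using hw),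
        indicator_of_notMem (show w ∉ Ioi (0 : ℝ) from hw)]
  have hint := hI.const_mul (Complex.exp (-(Complex.I * τ * r)))
  have e3 := Complex.reCLM.integral_comp_comm hint
  have e6 : ∫ u in Ioi (0 : ℝ), (Complex.exp (-(Complex.I * τ * r)) *
        (φ (r + u) * (((u * (2 * r + u)) ^ ((j : ℝ) - 1 / 2) : ℝ) : ℂ) *
      Complex.exp (-(Complex.I * τ * u)))).re =
      (Complex.exp (-(Complex.I * τ * r)) * ∫ u in Ioi (0 : ℝ),
        (φ (r + u) * (((u * (2 * r + u)) ^ ((j : ℝ) - 1 / 2) : ℝ) : ℂ) *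
      Complex.exp (-(Complex.I * τ * u)))).re := by
    rw [integral_const_mul] at e3
    exact e3
  rw [h1, e1, e6]
  have e7 : B35.al j b τ r = ((-c : ℝ) : ℂ) * ∫ u in Ioi (0 : ℝ),
        (φ (r + u) * (((u * (2 * r + u)) ^ ((j : ℝ) - 1 / 2) : ℝ) : ℂ) *
      Complex.exp (-(Complex.I * τ * u))) := by
    unfold B35.al
    rw [hφ, ← hcc]
    push_cast
    ring
  rw [e7]
  have e8 : ∀ X : ℂ, Complex.exp (-(Complex.I * τ * r)) * (((-c : ℝ) : ℂ) * X) =
      ((-c : ℝ) : ℂ) * (Complex.exp (-(Complex.I * τ * r)) * X) := fun X => by ring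
  rw [e8, Complex.re_ofReal_mul]
  ring

end B36
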