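import Pool.Agent.LibBE36T.Defs
import Pool.Agent.LibBE73.X2

/-! ROW T2 : the amplitude of the derivative of `ql lam (osc a τ)`, scaled derivatives. SHORT (copy of LibBE73/X2.lean, the private
lemmas have to be copied: rename X2_ to T2_).
PLAN. As `pl_sm` in X2: for `k ≤ n` apply `T2_E_bound` to `iteratedDeriv k a`: `‖a^(k)‖ ≤ M H^k ≤ (M H) H^k` and `‖a^(k+1)‖ ≤ (M H) H^k`. -/

open MeasureTheory Set Filter Topology
open scoped ContDiff

namespace B36

open BGS BR BE73

/-- the transform with amplitude `f` is differentiable in `t` -/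
private theorem T2_deriv {f : ℝ → ℂ} (hf : ContDiff ℝ ∞ f) {ρ : ℝ} (hρ : 0 ≤ ρ) (κ t : ℝ) :
    HasDerivAt (fun t => AB8E f ρ t κ) (AB8E (deriv f) ρ t κ) t := by
  have hfc : Continuous f := hf.continuous
  have hdc : Continuous (deriv f) := hf.continuous_deriv (by simp)
  have hec : Continuous fun u : ℝ => Complex.exp (Complex.I * κ * u) := by fun_prop
  have hc : ∀ (g : ℝ → ℂ), Continuous g → ∀ x : ℝ,
      Continuous fun u : ℝ => Complex.exp (Complex.I * κ * u) * g (x + u) := by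
    intro g hg x
    have hsc : Continuous fun u : ℝ => x + u := by fun_prop
    exact hec.mul (hg.comp hsc)
  obtain ⟨B, hB⟩ := (isCompact_Icc (a := t - 1) (b := t + 1 + ρ)).exists_bound_of_continuousOn
    hdc.continuousOn
  unfold AB8E
  refine (intervalIntegral.hasDerivAt_integral_of_dominated_loc_of_deriv_le (μ := volume)
    (F := fun x u => Complex.exp (Complex.I * κ * u) * f (x + u))
    (F' := fun x u => Complex.exp (Complex.I * κ * u) * deriv f (x + u))
    (bound := fun _ => B) (s := Metric.ball t 1) (Metric.ball_mem_nhds t one_pos)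
    (Eventually.of_forall fun x => (hc f hfc x).aestronglyMeasurable)
    ((hc f hfc t).intervalIntegrable _ _) (hc _ hdc t).aestronglyMeasurable
    (Eventually.of_forall fun u hu x hx => ?_) (by simp)
    (Eventually.of_forall fun u _ x _ => ?_)).2
  · rw [norm_mul, AB8_norm, one_mul]
    rw [uIoc_of_le hρ] at hu
    rw [Metric.mem_ball, Real.dist_eq, abs_lt] at hx
    exact hB _ ⟨by linarith [hu.1, hx.1], by linarith [hu.2, hx.2]⟩
  · have h1 : HasDerivAt f (deriv f (x + u)) (x + u) :=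
      (hf.differentiable (by simp) (x + u)).hasDerivAt
    have h2 : HasDerivAt (fun x : ℝ => f (x + u)) (deriv f (x + u)) x := by
      have := h1.scomp x ((hasDerivAt_id x).add_const u)
      rw [one_smul] at this
      exact this
    exact h2.const_mul _

/-- the amplitude of the derivative -/
private noncomputable def T2_b (f : ℝ → ℂ) (ρ κ κ' t : ℝ) : ℂ :=
  -(1 / 2) * (AB8E f ρ t κ + AB8E f ρ t κ')

private theorem T2_b' {f : ℝ → ℂ} (hf : ContDiff ℝ ∞ f) {ρ : ℝ} (hρ : 0 ≤ ρ) (κ κ' t : ℝ) :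
    HasDerivAt (T2_b f ρ κ κ') (T2_b (deriv f) ρ κ κ' t) t :=
  ((T2_deriv hf hρ κ t).add (T2_deriv hf hρ κ' t)).const_mul _

private theorem T2_sm {f : ℝ → ℂ} (hf : ContDiff ℝ ∞ f) (k : ℕ) :
    ContDiff ℝ ∞ (iteratedDeriv k f) := by
  induction k with
  | zero =>
    rw [iteratedDeriv_zero]
    exact hf
  | succ k ih =>
    rw [iteratedDeriv_succ]
    exact (contDiff_infty_iff_deriv.1 ih).2

private theorem T2_iter {f : ℝ → ℂ} (hf : ContDiff ℝ ∞ f) {ρ : ℝ} (hρ : 0 ≤ ρ) (κ κ' : ℝ)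
    (k : ℕ) : iteratedDeriv k (T2_b f ρ κ κ') = T2_b (iteratedDeriv k f) ρ κ κ' := by
  induction k with
  | zero => rw [iteratedDeriv_zero, iteratedDeriv_zero]
  | succ k ih =>
    rw [iteratedDeriv_succ, iteratedDeriv_succ, ih]
    exact funext fun t => (T2_b' (T2_sm hf k) hρ κ κ' t).deriv

private theorem T2_smooth {f : ℝ → ℂ} (hf : ContDiff ℝ ∞ f) {ρ : ℝ} (hρ : 0 ≤ ρ) (κ κ' : ℝ) :
    ContDiff ℝ ∞ (T2_b f ρ κ κ') := by
  refine contDiff_of_differentiable_iteratedDeriv fun m _ => ?_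
  rw [T2_iter hf hρ κ κ' m]
  exact fun t => (T2_b' (T2_sm hf m) hρ κ κ' t).differentiableAt

/-- the bound by one integration by parts -/
private theorem T2_E_bound {f : ℝ → ℂ} (hf : ContDiff ℝ ∞ f) {ρ M : ℝ} (hρ : 0 ≤ ρ)
    (hb0 : ∀ s, ‖f s‖ ≤ M) (hb1 : ∀ s, ‖deriv f s‖ ≤ M) (κ t : ℝ) :
    (1 + |κ|) * ‖AB8E f ρ t κ‖ ≤ 3 * M * (ρ + 1) := by
  have hM : 0 ≤ M := (norm_nonneg _).trans (hb0 0)
  have hda : ∀ s, HasDerivAt f (deriv f s) s := fun s =>
    (hf.differentiable (by simp) s).hasDerivAt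
  have hac : Continuous f := hf.continuous
  have hdc : Continuous (deriv f) := hf.continuous_deriv (by simp)
  have hec : Continuous fun u : ℝ => Complex.exp (Complex.I * κ * u) := by fun_prop
  have hsc : Continuous fun u : ℝ => t + u := by fun_prop
  have i1 : Continuous fun u : ℝ => Complex.exp (Complex.I * κ * u) * f (t + u) :=
    hec.mul (hac.comp hsc)
  have i2 : Continuous fun u : ℝ => Complex.exp (Complex.I * κ * u) * deriv f (t + u) :=
    hec.mul (hdc.comp hsc)
  have h1 : ‖AB8E f ρ t κ‖ ≤ M * ρ := by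
    have := intervalIntegral.norm_integral_le_of_norm_le_const (a := 0) (b := ρ) (C := M)
      (f := fun u : ℝ => Complex.exp (Complex.I * κ * u) * f (t + u)) (fun u _ => by
        rw [norm_mul, AB8_norm, one_mul]
        exact hb0 _)
    rwa [sub_zero, abs_of_nonneg hρ] at this
  have h2 : ‖∫ u in (0 : ℝ)..ρ, Complex.exp (Complex.I * κ * u) * deriv f (t + u)‖ ≤ M * ρ := by
    have := intervalIntegral.norm_integral_le_of_norm_le_const (a := 0) (b := ρ) (C := M)
      (f := fun u : ℝ => Complex.exp (Complex.I * κ * u) * deriv f (t + u)) (fun u _ => by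
        rw [norm_mul, AB8_norm, one_mul]
        exact hb1 _)
    rwa [sub_zero, abs_of_nonneg hρ] at this
  have hd : ∀ u : ℝ, HasDerivAt (fun u : ℝ => Complex.exp (Complex.I * κ * u) * f (t + u))
      (Complex.I * κ * (Complex.exp (Complex.I * κ * u) * f (t + u)) +
        Complex.exp (Complex.I * κ * u) * deriv f (t + u)) u := by
    intro u
    have e1 : HasDerivAt (fun u : ℝ => Complex.I * κ * (u : ℂ)) (Complex.I * κ) u := by
      have := (Complex.ofRealCLM.hasDerivAt (x := u)).const_mul (Complex.I * κ)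
      simpa using this
    have e2 := e1.cexp
    have e3 : HasDerivAt (fun u : ℝ => f (t + u)) (deriv f (t + u)) u := by
      have := (hda (t + u)).scomp u ((hasDerivAt_id u).const_add t)
      rw [one_smul] at this
      exact this
    refine (e2.mul e3).congr_deriv ?_
    ring
  have i3 : Continuous fun u : ℝ => Complex.I * κ * (Complex.exp (Complex.I * κ * u) * f (t + u)) :=
    continuous_const.mul i1
  have h3 := intervalIntegral.integral_eq_sub_of_hasDerivAt (a := 0) (b := ρ)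
    (fun u _ => hd u) ((i3.add i2).intervalIntegrable _ _)
  rw [intervalIntegral.integral_add (i3.intervalIntegrable _ _)
    (i2.intervalIntegrable _ _), intervalIntegral.integral_const_mul] at h3
  have h4 : Complex.I * κ * AB8E f ρ t κ =
      (Complex.exp (Complex.I * κ * ρ) * f (t + ρ) -
        Complex.exp (Complex.I * κ * (0 : ℝ)) * f (t + 0)) -
      ∫ u in (0 : ℝ)..ρ, Complex.exp (Complex.I * κ * u) * deriv f (t + u) := by
    rw [← h3]
    unfold AB8E
    ring
  have h5 : |κ| * ‖AB8E f ρ t κ‖ ≤ M + M + M * ρ := by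
    have e : |κ| * ‖AB8E f ρ t κ‖ = ‖Complex.I * κ * AB8E f ρ t κ‖ := by
      rw [norm_mul, norm_mul, Complex.norm_I, one_mul, Complex.norm_real, Real.norm_eq_abs]
    rw [e, h4]
    refine (norm_sub_le _ _).trans (add_le_add ((norm_sub_le _ _).trans (add_le_add ?_ ?_)) h2)
    · rw [norm_mul, AB8_norm, one_mul]
      exact hb0 _
    · rw [norm_mul, AB8_norm, one_mul]
      exact hb0 _
  nlinarith

theorem pl_smH (n : ℕ) {a : ℝ → ℂ} {ρ M H τ lam : ℝ} (hρ : 0 ≤ ρ) (hH : 1 ≤ H)
    (ha : AmpH (n + 1) a ρ M H) (ha4 : Amp a ρ (M * H ^ 4)) (hτ : 1 ≤ τ) (hlam : 0 ≤ lam) :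
    ∃ b : ℝ → ℂ, SmH n b ρ (3 * (M * H) * (ρ + 1) / (1 + |lam - τ|)) H ∧
      ∀ t, 0 ≤ t → deriv (ql lam (osc a τ)) t =
        (Complex.exp (-(Complex.I * τ * t)) * b t).re := by
  have hTl : Tl (osc a τ) ρ := by
    refine ⟨osc_smooth ha4 τ, fun t ht => ?_⟩
    unfold osc
    rw [ha4.supp t (lt_of_lt_of_le ht (le_abs_self t)), mul_zero, Complex.zero_re]
  have hsm := ha4.smooth
  have hM : 0 ≤ M := by
    have h1 := (norm_nonneg _).trans (ha.bound 0 (Nat.zero_le _) 0)
    rwa [pow_zero, mul_one] at h1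
  refine ⟨T2_b a ρ (lam - τ) (-lam - τ), ⟨T2_smooth hsm hρ _ _, fun t ht => ?_,
    fun k hk t _ => ?_⟩, fun t ht => ?_⟩
  · -- the support
    have h0 : ∀ κ : ℝ, AB8E a ρ t κ = 0 := by
      intro κ
      unfold AB8E
      rw [intervalIntegral.integral_of_le hρ]
      refine setIntegral_eq_zero_of_forall_eq_zero fun u hu => ?_
      rw [ha4.supp (t + u) (lt_of_lt_of_le (by linarith [hu.1]) (le_abs_self _)), mul_zero]
    unfold T2_b
    rw [h0, h0, add_zero, mul_zero]
  · -- the bounds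
    rw [T2_iter hsm hρ]
    have hHk : 0 < H ^ k := pow_pos (by linarith) k
    have hb0 : ∀ s, ‖iteratedDeriv k a s‖ ≤ M * H * H ^ k := fun s => by
      refine (ha.bound k (by omega) s).trans ?_
      have h1 : M * H ^ k ≤ M * H ^ k * H := le_mul_of_one_le_right (by positivity) hH
      calc M * H ^ k ≤ M * H ^ k * H := h1
        _ = M * H * H ^ k := by ring
    have hb1 : ∀ s, ‖deriv (iteratedDeriv k a) s‖ ≤ M * H * H ^ k := fun s => by
      have h1 := ha.bound (k + 1) (by omega) s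
      rw [iteratedDeriv_succ, pow_succ] at h1
      calc ‖deriv (iteratedDeriv k a) s‖ ≤ M * (H ^ k * H) := h1
        _ = M * H * H ^ k := by ring
    have h1 := T2_E_bound (T2_sm hsm k) hρ hb0 hb1 (lam - τ) t
    have h2 := T2_E_bound (T2_sm hsm k) hρ hb0 hb1 (-lam - τ) t
    have h3 : |lam - τ| ≤ |-lam - τ| := by
      rw [abs_of_nonpos (show -lam - τ ≤ 0 by linarith)]
      rw [abs_le]
      constructor <;> linarith
    have h4 : (1 + |lam - τ|) * ‖AB8E (iteratedDeriv k a) ρ t (-lam - τ)‖ ≤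
        3 * (M * H * H ^ k) * (ρ + 1) :=
      (mul_le_mul_of_nonneg_right (by linarith) (norm_nonneg _)).trans h2
    have h5 : 0 < 1 + |lam - τ| := by positivity
    rw [div_mul_eq_mul_div, le_div_iff₀ h5]
    have h6 : ‖T2_b (iteratedDeriv k a) ρ (lam - τ) (-lam - τ) t‖ ≤
        1 / 2 * (‖AB8E (iteratedDeriv k a) ρ t (lam - τ)‖ +
          ‖AB8E (iteratedDeriv k a) ρ t (-lam - τ)‖) := by
      unfold T2_b
      rw [norm_mul]
      have e2 : ‖(-(1 / 2) : ℂ)‖ = 1 / 2 := by
        rw [norm_neg, norm_div]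
        simp
      rw [e2]
      exact mul_le_mul_of_nonneg_left (norm_add_le _ _) (by norm_num)
    calc _ ≤ 1 / 2 * (‖AB8E (iteratedDeriv k a) ρ t (lam - τ)‖ +
          ‖AB8E (iteratedDeriv k a) ρ t (-lam - τ)‖) * (1 + |lam - τ|) :=
          mul_le_mul_of_nonneg_right h6 h5.le
      _ ≤ 3 * (M * H * H ^ k) * (ρ + 1) := by nlinarith
      _ = 3 * (M * H) * (ρ + 1) * H ^ k := by ring
  · -- the formula
    rw [ql_deriv hTl, AB8_pl_eq ha4 τ lam t ht, ← Complex.neg_re]
    unfold T2_b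
    exact congrArg Complex.re (by ring)

/-- `AmpH` of order `≥ 4` implies `Amp`. -/
theorem AmpH.amp {n : ℕ} {a : ℝ → ℂ} {ρ M H : ℝ} (hn : 4 ≤ n) (hH : 1 ≤ H)
    (ha : AmpH n a ρ M H) : Amp a ρ (M * H ^ 4) := by
  have hM : 0 ≤ M := by
    have h1 := (norm_nonneg _).trans (ha.bound 0 (Nat.zero_le _) 0)
    rwa [pow_zero, mul_one] at h1
  refine ⟨ha.smooth, ha.conj, ha.supp, fun k hk t => ?_⟩
  refine (ha.bound k (hk.trans hn) t).trans ?_
  exact mul_le_mul_of_nonneg_left (pow_le_pow_right₀ hH hk) hM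

end B36
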