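import Pool.Agent.LibBE36T.T13a

/-! ROW T13b : the mollified amplitude is entire. MEDIUM.
PLAN. `|gs e' (x + iy - s)| = (1/(e' √(2π))) exp((y² - (x-s)²)/(2 e'²))`, `e' = 2^i e`: `y²/(2e'²) ≤ (y/e)²`. For `|s| ≤ ρ`, `D = max 0 (|x| - ρ) ≤ |x - s|`:
`exp(-(x-s)²/(2e'²)) ≤ exp(-D²/(4e'²)) exp(-(x-s)²/(4e'²))`, the integral in `s` of the last factor times `1/(e' √(2π))` is `√2`; `∑ |rc| ≤ 3`: total `≤ 3 √2 M ≤ 5 M`;
`(h D)² ≤ D²/(4e'²)` for `h = 1/(2^P e)`, `e' ≤ 2^(P-1) e`. `conj`: `rc` real, `a (-s) = conj (a s)`, substitution `s → -s` in the integral (`integral_neg_eq_self`), `integral_conj`.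
`diff`: differentiate the integral (`hasDerivAt_integral_of_dominated_loc_of_deriv_le`, compact support `[-ρ, ρ]`), finite sum. -/

open MeasureTheory Set Filter Topology
open scoped ContDiff

namespace B36

private theorem T13b_gs_norm {e : ℝ} (he : 0 < e) (z : ℂ) (s : ℝ) :
    ‖gs e (z - s)‖ = 1 / (e * √(2 * Real.pi)) * Real.exp ((z.im ^ 2 - (z.re - s) ^ 2) / (2 * e ^ 2)) := by
  unfold gs
  have h0 : 0 ≤ 1 / (e * √(2 * Real.pi)) := by positivity
  rw [norm_mul, Complex.norm_real, Real.norm_of_nonneg h0, Complex.norm_exp]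
  congr 2
  have h1 : (2 * (e : ℂ) ^ 2) = ((2 * e ^ 2 : ℝ) : ℂ) := by push_cast; ring
  rw [h1, Complex.neg_re, Complex.div_ofReal_re, pow_two (z - s), Complex.mul_re, Complex.sub_re, Complex.sub_im,
    Complex.ofReal_re, Complex.ofReal_im, sub_zero]
  ring

private theorem T13b_gauss {e : ℝ} (he : 0 < e) (x : ℝ) :
    Integrable (fun s : ℝ => Real.exp (-(1 / (4 * e ^ 2)) * (x - s) ^ 2)) ∧
    ∫ s : ℝ, Real.exp (-(1 / (4 * e ^ 2)) * (x - s) ^ 2) = 2 * e * √Real.pi := by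
  have hb : 0 < 1 / (4 * e ^ 2) := by positivity
  constructor
  · exact (integrable_exp_neg_mul_sq hb).comp_sub_left x
  · rw [integral_sub_left_eq_self (fun s : ℝ => Real.exp (-(1 / (4 * e ^ 2)) * s ^ 2)) volume x, integral_gaussian]
    have h1 : Real.pi / (1 / (4 * e ^ 2)) = Real.pi * (2 * e) ^ 2 := by
      field_simp
      ring
    rw [h1, Real.sqrt_mul Real.pi_pos.le, Real.sqrt_sq (by positivity)]
    ring

private theorem T13b_term {e' e h : ℝ} (he : 0 < e) (hee : e ≤ e') (hh : 0 ≤ h) (hh2 : h ^ 2 ≤ 1 / (4 * e' ^ 2))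
    {a : ℝ → ℂ} {ρ M : ℝ} (hs : ∀ t, ρ < |t| → a t = 0) (hM : ∀ t, ‖a t‖ ≤ M) (z : ℂ) :
    ‖∫ s : ℝ, a s * gs e' (z - s)‖ ≤
      √2 * M * Real.exp ((1 / e * z.im) ^ 2 - (h * max 0 (|z.re| - ρ)) ^ 2) := by
  have he' : 0 < e' := lt_of_lt_of_le he hee
  have hM0 : 0 ≤ M := (norm_nonneg _).trans (hM 0)
  obtain ⟨hgi, hgv⟩ := T13b_gauss he' z.re
  obtain ⟨D, hD⟩ : ∃ D : ℝ, D = max 0 (|z.re| - ρ) := ⟨_, rfl⟩
  obtain ⟨X, hX⟩ : ∃ X : ℝ, X = Real.exp ((1 / e * z.im) ^ 2 - (h * max 0 (|z.re| - ρ)) ^ 2) := ⟨_, rfl⟩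
  have hX0 : 0 < X := by rw [hX]; exact Real.exp_pos _
  have hD0 : 0 ≤ D := by rw [hD]; exact le_max_left _ _
  have h1 : ‖∫ s : ℝ, a s * gs e' (z - s)‖ ≤ ∫ s : ℝ, (M * (1 / (e' * √(2 * Real.pi))) * X) *
      Real.exp (-(1 / (4 * e' ^ 2)) * (z.re - s) ^ 2) := by
    refine norm_integral_le_of_norm_le (hgi.const_mul _) (ae_of_all _ fun s => ?_)
    rw [norm_mul]
    by_cases hsρ : ρ < |s|
    · rw [hs s hsρ, norm_zero, zero_mul]
      positivity
    · have hsρ' : |s| ≤ ρ := not_lt.1 hsρ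
      rw [T13b_gs_norm he' z s]
      have hDs : D ≤ |z.re - s| := by
        rw [hD]
        apply max_le (abs_nonneg _)
        have := abs_sub_abs_le_abs_sub z.re s
        linarith
      have hDs2 : D ^ 2 ≤ (z.re - s) ^ 2 := by
        rw [← sq_abs (z.re - s)]
        exact pow_le_pow_left₀ hD0 hDs 2
      have hexp : Real.exp ((z.im ^ 2 - (z.re - s) ^ 2) / (2 * e' ^ 2)) ≤
          X * Real.exp (-(1 / (4 * e' ^ 2)) * (z.re - s) ^ 2) := by
        rw [hX, ← Real.exp_add]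
        apply Real.exp_le_exp.2
        rw [← hD]
        have e1 : (h * D) ^ 2 ≤ 1 / (4 * e' ^ 2) * (z.re - s) ^ 2 := by
          rw [mul_pow]
          exact mul_le_mul hh2 hDs2 (by positivity) (by positivity)
        have e2 : z.im ^ 2 / (2 * e' ^ 2) ≤ (1 / e * z.im) ^ 2 := by
          rw [mul_pow, one_div, inv_pow, ← div_eq_inv_mul]
          apply div_le_div_of_nonneg_left (by positivity) (by positivity)
          have := pow_le_pow_left₀ he.le hee 2
          nlinarith [sq_nonneg e']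
        have e3 : (z.im ^ 2 - (z.re - s) ^ 2) / (2 * e' ^ 2) =
            z.im ^ 2 / (2 * e' ^ 2) - 2 * (1 / (4 * e' ^ 2) * (z.re - s) ^ 2) := by
          field_simp
          ring
        rw [e3]
        linarith
      calc ‖a s‖ * (1 / (e' * √(2 * Real.pi)) * Real.exp ((z.im ^ 2 - (z.re - s) ^ 2) / (2 * e' ^ 2)))
          ≤ M * (1 / (e' * √(2 * Real.pi)) * (X * Real.exp (-(1 / (4 * e' ^ 2)) * (z.re - s) ^ 2))) := by
            refine mul_le_mul (hM s) ?_ (by positivity) hM0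
            exact mul_le_mul_of_nonneg_left hexp (by positivity)
        _ = _ := by ring
  rw [integral_const_mul, hgv] at h1
  refine h1.trans (le_of_eq ?_)
  rw [← hX]
  have hsp : √(2 * Real.pi) = √2 * √Real.pi := Real.sqrt_mul (by norm_num) _
  rw [hsp]
  have hp0 : √Real.pi ≠ 0 := by positivity
  have h20 : √2 ≠ 0 := by positivity
  have h22 : √2 * √2 = 2 := Real.mul_self_sqrt (by norm_num)
  field_simp
  nlinarith [h22]

private theorem T13b_gs_neg (e : ℝ) (z : ℂ) : gs e (-z) = gs e z := by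
  unfold gs
  rw [neg_sq]

private theorem T13b_gs_conj (e : ℝ) (z : ℂ) : gs e ((starRingEnd ℂ) z) = (starRingEnd ℂ) (gs e z) := by
  unfold gs
  rw [map_mul, Complex.conj_ofReal, ← Complex.exp_conj]
  congr 2
  rw [map_neg, map_div₀, map_pow, map_mul, map_pow, Complex.conj_ofReal]
  congr 3
  exact (Complex.conj_ofReal 2).symm

private theorem T13b_gs_deriv (e : ℝ) (w : ℂ) :
    HasDerivAt (gs e) (((1 / (e * √(2 * Real.pi)) : ℝ) : ℂ) *
      (Complex.exp (-(w ^ 2 / (2 * e ^ 2))) * (-(2 * w / (2 * e ^ 2))))) w := by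
  unfold gs
  have h1 : HasDerivAt (fun w : ℂ => w ^ 2) (2 * w) w := by
    simpa using hasDerivAt_pow 2 w
  have h2 : HasDerivAt (fun w : ℂ => -(w ^ 2 / (2 * (e : ℂ) ^ 2))) (-(2 * w / (2 * (e : ℂ) ^ 2))) w :=
    (h1.div_const _).neg
  exact h2.cexp.const_mul _

private theorem T13b_diff (e : ℝ) {a : ℝ → ℂ} {ρ : ℝ} (hc : Continuous a) (hs : ∀ t, ρ < |t| → a t = 0) :
    Differentiable ℂ fun z : ℂ => ∫ s : ℝ, a s * gs e (z - s) := by
  have hset : (fun z : ℂ => ∫ s : ℝ, a s * gs e (z - s)) = fun z : ℂ => ∫ s in Icc (-ρ) ρ, a s * gs e (z - s) := by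
    funext z
    refine (setIntegral_eq_integral_of_forall_compl_eq_zero fun s hsn => ?_).symm
    rw [hs s, zero_mul]
    by_contra h
    exact hsn (abs_le.1 (not_lt.1 h))
  rw [hset]
  intro z₀
  have hgc : Continuous fun p : ℂ × ℝ => a p.2 * gs e (p.1 - p.2) := by
    unfold gs
    fun_prop
  have hgc' : Continuous fun p : ℂ × ℝ => a p.2 * (((1 / (e * √(2 * Real.pi)) : ℝ) : ℂ) *
      (Complex.exp (-((p.1 - p.2) ^ 2 / (2 * e ^ 2))) * (-(2 * (p.1 - p.2) / (2 * e ^ 2))))) := by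
    fun_prop
  obtain ⟨C, hC⟩ : ∃ C : ℝ, ∀ p ∈ Metric.closedBall z₀ 1 ×ˢ Icc (-ρ) ρ,
      ‖a p.2 * (((1 / (e * √(2 * Real.pi)) : ℝ) : ℂ) *
      (Complex.exp (-((p.1 - p.2) ^ 2 / (2 * e ^ 2))) * (-(2 * (p.1 - p.2) / (2 * e ^ 2)))))‖ ≤ C :=
    ((isCompact_closedBall z₀ 1).prod isCompact_Icc).exists_bound_of_continuousOn hgc'.continuousOn
  have h := hasDerivAt_integral_of_dominated_loc_of_deriv_le (𝕜 := ℂ) (μ := volume.restrict (Icc (-ρ) ρ))
    (F := fun z s => a s * gs e (z - s))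
    (F' := fun z s => a s * (((1 / (e * √(2 * Real.pi)) : ℝ) : ℂ) *
      (Complex.exp (-((z - s) ^ 2 / (2 * e ^ 2))) * (-(2 * (z - s) / (2 * e ^ 2))))))
    (bound := fun _ => C)
    (x₀ := z₀) (s := Metric.closedBall z₀ 1)
    (Metric.closedBall_mem_nhds z₀ one_pos)
    (Eventually.of_forall fun z => (hgc.comp (continuous_const.prodMk continuous_id)).aestronglyMeasurable)
    ((hgc.comp (continuous_const.prodMk continuous_id)).continuousOn.integrableOn_compact isCompact_Icc)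
    (hgc'.comp (continuous_const.prodMk continuous_id)).aestronglyMeasurable
    ((ae_restrict_iff' measurableSet_Icc).2 (ae_of_all _ fun s hs' z hz => hC (z, s) ⟨hz, hs'⟩))
    (integrable_const C)
    (ae_of_all _ fun s z _ => by
      have h1 : HasDerivAt (fun z : ℂ => z - (s : ℂ)) 1 z := (hasDerivAt_id z).sub_const _
      have h2 := (T13b_gs_deriv e (z - s)).comp z h1
      rw [mul_one] at h2
      exact h2.const_mul (a s))
  exact h.2.differentiableAt

theorem mla_EA {P : ℕ} (hP : 1 ≤ P) {e : ℝ} (he : 0 < e) (he1 : e ≤ 1) {a : ℝ → ℂ} {ρ M : ℝ}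
    (hρ : 0 ≤ ρ) (hc : Continuous a) (hconj : ∀ t, a (-t) = (starRingEnd ℂ) (a t))
    (hs : ∀ t, ρ < |t| → a t = 0) (hM : ∀ t, ‖a t‖ ≤ M) :
    EA (mla P e a) ρ (5 * M) (1 / e) (1 / (2 ^ P * e)) := by
  refine ⟨?_, ?_, ?_⟩
  · unfold mla
    exact Differentiable.fun_sum fun i _ => (T13b_diff _ hc hs).const_mul _
  · intro z
    unfold mla
    rw [map_sum]
    refine Finset.sum_congr rfl fun i _ => ?_
    rw [map_mul, Complex.conj_ofReal]
    congr 1
    rw [← integral_conj, ← integral_neg_eq_self]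
    refine integral_congr_ae (ae_of_all _ fun s => ?_)
    simp only
    rw [hconj, map_mul, ← T13b_gs_conj, map_sub, Complex.conj_ofReal, ← T13b_gs_neg]
    congr 2
    push_cast
    ring
  · intro z
    have hM0 : 0 ≤ M := (norm_nonneg _).trans (hM 0)
    obtain ⟨X, hX⟩ : ∃ X : ℝ, X = Real.exp ((1 / e * z.im) ^ 2 - (1 / (2 ^ P * e) * max 0 (|z.re| - ρ)) ^ 2) := ⟨_, rfl⟩
    have hX0 : 0 < X := by rw [hX]; exact Real.exp_pos _
    rw [← hX]
    have h1 : ‖mla P e a z‖ ≤ ∑ i ∈ Finset.range P, |rc P i| * (√2 * M * X) := by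
      unfold mla
      refine (norm_sum_le _ _).trans (Finset.sum_le_sum fun i hi => ?_)
      rw [norm_mul, Complex.norm_real, Real.norm_eq_abs]
      refine mul_le_mul_of_nonneg_left ?_ (abs_nonneg _)
      have hi' : i + 1 ≤ P := Finset.mem_range.1 hi
      have h2i : (1 : ℝ) ≤ 2 ^ i := one_le_pow₀ (by norm_num)
      rw [hX]
      refine T13b_term he (by nlinarith) (by positivity) ?_ hs hM z
      rw [div_pow, one_pow]
      apply one_div_le_one_div_of_le (by positivity)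
      have h3 : (2 : ℝ) ^ (i + 1) ≤ 2 ^ P := pow_le_pow_right₀ (by norm_num) hi'
      have h4 : 4 * (2 ^ i * e) ^ 2 = (2 ^ (i + 1) * e) ^ 2 := by
        rw [pow_succ]
        ring
      rw [h4]
      exact pow_le_pow_left₀ (by positivity) (mul_le_mul_of_nonneg_right h3 he.le) 2
    rw [← Finset.sum_mul] at h1
    have h2 := mul_le_mul_of_nonneg_right (rc_abs P) (show 0 ≤ √2 * M * X by positivity)
    have h3 : √2 ≤ 5 / 3 := by
      rw [Real.sqrt_le_left (by norm_num)]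
      norm_num
    have h4 : √2 * (M * X) ≤ 5 / 3 * (M * X) := mul_le_mul_of_nonneg_right h3 (by positivity)
    linarith

end B36
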