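import Pool.Agent.LibBE36T.Defs

/-! ROW T9 : Hörmander's cut-off functions. MEDIUM, only real analysis.
PLAN. `θ₀` smooth, `0 ≤ θ₀ ≤ 1`, `= 1` on `(-∞, 1/3]`, `= 0` on `[2/3, ∞)` (`Real.smoothTransition`: `θ₀ t = Real.smoothTransition (2 - 3 t)`).
`h = 1/(2N)`, `θ = (Av h)^[N] θ₀`. `Av h f` is smooth for smooth `f`, `(Av h f)' t = (f (t+h/2) - f (t-h/2)) / h` (FTC; or write `Av h f t = ∫ s in -1/2..1/2, f (t + h s)`),
values in `[0,1]` if those of `f` are, `= c` where `f = c` on `[t-h/2, t+h/2]`: after `N` steps `θ = 1` on `(-∞, 1/3 - 1/4]`, `0` on `[2/3 + 1/4, ∞)`.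
`|((Av h)^[n] f)^(k)| ≤ (2/h)^k sup|f|` for `k ≤ n`, by induction on `k`: `(Av h)^[n+1] f = Av h ((Av h)^[n] f)`, the derivative is a difference quotient, its `(k)`-th
derivative is the difference quotient of the `k`-th derivative of `(Av h)^[n] f`: at most `(2/h) (2/h)^k`. `2/h = 4N ≤ 8N`.
`exists_cutN`: `χ t = θ (t - ρ) θ (-t - ρ)`, Leibniz (`iteratedDeriv_mul` or `norm_iteratedFDeriv_mul_le`): `∑ C(k,l) (8N)^l (8N)^(k-l) = (16N)^k`. -/

open MeasureTheory Set Filter Topology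
open scoped ContDiff

namespace B36

theorem T9_hasDeriv {h : ℝ} {f : ℝ → ℝ} (hf : Continuous f) (t : ℝ) :
    HasDerivAt (Av h f) ((f (t + h / 2) - f (t - h / 2)) / h) t := by
  have hF : ∀ x : ℝ, HasDerivAt (fun x => ∫ s in (0:ℝ)..x, f s) (f x) x := fun x =>
    intervalIntegral.integral_hasDerivAt_right (hf.intervalIntegrable _ _)
      hf.stronglyMeasurable.stronglyMeasurableAtFilter hf.continuousAt
  have h1 : Av h f = fun t => 1 / h * ((∫ s in (0:ℝ)..(t + h / 2), f s) -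
      ∫ s in (0:ℝ)..(t - h / 2), f s) := by
    funext t
    unfold Av
    rw [intervalIntegral.integral_interval_sub_left (hf.intervalIntegrable _ _)
      (hf.intervalIntegrable _ _)]
  rw [h1]
  have h2 : HasDerivAt (fun t : ℝ => ∫ s in (0:ℝ)..(t + h / 2), f s) (f (t + h / 2)) t := by
    exact HasDerivAt.comp_add_const t (h / 2) (hF (t + h / 2))
  have h3 : HasDerivAt (fun t : ℝ => ∫ s in (0:ℝ)..(t - h / 2), f s) (f (t - h / 2)) t := by
    exact HasDerivAt.comp_sub_const t (h / 2) (hF (t - h / 2))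
  refine ((h2.sub h3).const_mul (1 / h)).congr_deriv ?_
  ring

theorem T9_smooth {h : ℝ} {f : ℝ → ℝ} (hf : ContDiff ℝ ∞ f) : ContDiff ℝ ∞ (Av h f) := by
  rw [contDiff_infty_iff_deriv]
  constructor
  · intro t
    exact (T9_hasDeriv hf.continuous t).differentiableAt
  · have h1 : deriv (Av h f) = fun t => (f (t + h / 2) - f (t - h / 2)) / h := by
      funext t
      exact (T9_hasDeriv hf.continuous t).deriv
    rw [h1]
    have h2 : ContDiff ℝ ∞ (fun t : ℝ => f (t + h / 2)) :=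
      hf.comp (contDiff_id.add contDiff_const)
    have h3 : ContDiff ℝ ∞ (fun t : ℝ => f (t - h / 2)) :=
      hf.comp (contDiff_id.sub contDiff_const)
    exact (h2.sub h3).div_const h

theorem T9_iter {h : ℝ} {f : ℝ → ℝ} (hf : ContDiff ℝ ∞ f) (k : ℕ) (t : ℝ) :
    iteratedDeriv (k + 1) (Av h f) t =
      (iteratedDeriv k f (t + h / 2) - iteratedDeriv k f (t - h / 2)) / h := by
  have h1 : deriv (Av h f) = fun t => (f (t + h / 2) - f (t - h / 2)) / h := by
    funext t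
    exact (T9_hasDeriv hf.continuous t).deriv
  have h2 : ContDiff ℝ ∞ (fun t : ℝ => f (t + h / 2)) :=
    hf.comp (contDiff_id.add contDiff_const)
  have h3 : ContDiff ℝ ∞ (fun t : ℝ => f (t - h / 2)) :=
    hf.comp (contDiff_id.sub contDiff_const)
  have hk : ((k : ℕ) : WithTop ℕ∞) ≤ ∞ := by exact_mod_cast le_top
  rw [iteratedDeriv_succ', h1, iteratedDeriv_div_const,
    iteratedDeriv_fun_sub (h2.contDiffAt.of_le hk) (h3.contDiffAt.of_le hk),
    iteratedDeriv_comp_add_const, iteratedDeriv_comp_sub_const]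

theorem T9_mem {h : ℝ} (hh : 0 < h) {f : ℝ → ℝ} (hf : Continuous f) (h01 : ∀ t, f t ∈ Icc (0:ℝ) 1)
    (t : ℝ) : Av h f t ∈ Icc (0:ℝ) 1 := by
  have hle : t - h / 2 ≤ t + h / 2 := by linarith
  unfold Av
  constructor
  · apply mul_nonneg (by positivity)
    exact intervalIntegral.integral_nonneg hle fun s _ => (h01 s).1
  · have h1 : ∫ s in (t - h / 2)..(t + h / 2), f s ≤ ∫ s in (t - h / 2)..(t + h / 2), (1:ℝ) :=
      intervalIntegral.integral_mono_on hle (hf.intervalIntegrable _ _)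
        (by simp) fun s _ => (h01 s).2
    rw [intervalIntegral.integral_const, smul_eq_mul, mul_one] at h1
    calc 1 / h * ∫ s in (t - h / 2)..(t + h / 2), f s ≤ 1 / h * (t + h / 2 - (t - h / 2)) :=
          mul_le_mul_of_nonneg_left h1 (by positivity)
      _ = 1 := by field_simp; ring

theorem T9_const {h : ℝ} (hh : 0 < h) {f : ℝ → ℝ} {c t : ℝ}
    (hc : ∀ s ∈ Icc (t - h / 2) (t + h / 2), f s = c) : Av h f t = c := by
  have hle : t - h / 2 ≤ t + h / 2 := by linarith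
  unfold Av
  have h1 : ∫ s in (t - h / 2)..(t + h / 2), f s = ∫ s in (t - h / 2)..(t + h / 2), c := by
    apply intervalIntegral.integral_congr
    intro s hs
    rw [uIcc_of_le hle] at hs
    exact hc s hs
  rw [h1, intervalIntegral.integral_const, smul_eq_mul]
  field_simp
  ring

theorem T9_it_smooth {h : ℝ} {f : ℝ → ℝ} (hf : ContDiff ℝ ∞ f) (n : ℕ) :
    ContDiff ℝ ∞ ((Av h)^[n] f) := by
  induction n with
  | zero => exact hf
  | succ n ih =>
    rw [Function.iterate_succ_apply']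
    exact T9_smooth ih

theorem T9_it_mem {h : ℝ} (hh : 0 < h) {f : ℝ → ℝ} (hf : ContDiff ℝ ∞ f)
    (h01 : ∀ t, f t ∈ Icc (0:ℝ) 1) (n : ℕ) : ∀ t, (Av h)^[n] f t ∈ Icc (0:ℝ) 1 := by
  induction n with
  | zero => exact h01
  | succ n ih =>
    intro t
    rw [Function.iterate_succ_apply']
    exact T9_mem hh (T9_it_smooth hf n).continuous ih t

theorem T9_it_bound {h : ℝ} (hh : 0 < h) {f : ℝ → ℝ} (hf : ContDiff ℝ ∞ f)
    (h01 : ∀ t, f t ∈ Icc (0:ℝ) 1) (n : ℕ) :
    ∀ k ≤ n, ∀ t, |iteratedDeriv k ((Av h)^[n] f) t| ≤ (2 / h) ^ k := by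
  induction n with
  | zero =>
    intro k hk t
    have hk0 : k = 0 := by omega
    subst hk0
    have e : (Av h)^[0] f = f := rfl
    rw [e, iteratedDeriv_zero, pow_zero, abs_le]
    have h1 := h01 t
    constructor
    · linarith [h1.1]
    · exact h1.2
  | succ n ih =>
    intro k hk t
    rcases Nat.eq_zero_or_pos k with rfl | hk0
    · rw [iteratedDeriv_zero, pow_zero, abs_le]
      have h1 := T9_it_mem hh hf h01 (n + 1) t
      constructor
      · linarith [h1.1]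
      · exact h1.2
    · obtain ⟨k', rfl⟩ : ∃ k', k = k' + 1 := ⟨k - 1, by omega⟩
      rw [Function.iterate_succ_apply', T9_iter (T9_it_smooth hf n), abs_div, abs_of_pos hh]
      have h1 := ih k' (by omega) (t + h / 2)
      have h2 := ih k' (by omega) (t - h / 2)
      have h3 := abs_sub (iteratedDeriv k' ((Av h)^[n] f) (t + h / 2))
        (iteratedDeriv k' ((Av h)^[n] f) (t - h / 2))
      calc _ ≤ ((2 / h) ^ k' + (2 / h) ^ k') / h := by
            apply div_le_div_of_nonneg_right _ hh.le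
            linarith
        _ = (2 / h) ^ (k' + 1) := by rw [pow_succ]; ring

theorem T9_it_left {h a c : ℝ} (hh : 0 < h) {f : ℝ → ℝ} (hc : ∀ t ≤ a, f t = c) (n : ℕ) :
    ∀ t, t ≤ a - n * (h / 2) → (Av h)^[n] f t = c := by
  induction n with
  | zero =>
    intro t ht
    apply hc
    simpa using ht
  | succ n ih =>
    intro t ht
    rw [Function.iterate_succ_apply']
    apply T9_const hh
    intro s hs
    apply ih
    push_cast at ht
    linarith [hs.2]

theorem T9_it_right {h a c : ℝ} (hh : 0 < h) {f : ℝ → ℝ} (hc : ∀ t, a ≤ t → f t = c) (n : ℕ) :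
    ∀ t, a + n * (h / 2) ≤ t → (Av h)^[n] f t = c := by
  induction n with
  | zero =>
    intro t ht
    apply hc
    simpa using ht
  | succ n ih =>
    intro t ht
    rw [Function.iterate_succ_apply']
    apply T9_const hh
    intro s hs
    apply ih
    push_cast at ht
    linarith [hs.1]

theorem exists_stepN (N : ℕ) (hN : 1 ≤ N) : ∃ θ : ℝ → ℝ, ContDiff ℝ ∞ θ ∧
    (∀ t, θ t ∈ Icc (0 : ℝ) 1) ∧ (∀ t ≤ 0, θ t = 1) ∧ (∀ t, 1 ≤ t → θ t = 0) ∧
    ∀ k ≤ N, ∀ t, |iteratedDeriv k θ t| ≤ (8 * N) ^ k := by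
  have hN' : (1:ℝ) ≤ N := by exact_mod_cast hN
  obtain ⟨h, hh⟩ : ∃ h : ℝ, h = 1 / (2 * N) := ⟨_, rfl⟩
  have hh0 : 0 < h := by rw [hh]; positivity
  obtain ⟨f, hf⟩ : ∃ f : ℝ → ℝ, f = fun t => Real.smoothTransition (2 - 3 * t) := ⟨_, rfl⟩
  have hfs : ContDiff ℝ ∞ f := by
    rw [hf]
    exact Real.smoothTransition.contDiff.comp (contDiff_const.sub (contDiff_const.mul contDiff_id))
  have hf01 : ∀ t, f t ∈ Icc (0:ℝ) 1 := by
    intro t
    rw [hf]
    exact ⟨Real.smoothTransition.nonneg _, Real.smoothTransition.le_one _⟩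
  have hfl : ∀ t ≤ (1/3:ℝ), f t = 1 := by
    intro t ht
    rw [hf]
    exact Real.smoothTransition.one_of_one_le (by linarith)
  have hfr : ∀ t, (2/3:ℝ) ≤ t → f t = 0 := by
    intro t ht
    rw [hf]
    exact Real.smoothTransition.zero_of_nonpos (by linarith)
  have hNh : (N : ℝ) * (h / 2) = 1 / 4 := by
    rw [hh]
    field_simp
    norm_num
  refine ⟨(Av h)^[N] f, T9_it_smooth hfs N, T9_it_mem hh0 hfs hf01 N, ?_, ?_, ?_⟩
  · intro t ht
    apply T9_it_left hh0 hfl N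
    rw [hNh]
    linarith
  · intro t ht
    apply T9_it_right hh0 hfr N
    rw [hNh]
    linarith
  · intro k hk t
    refine (T9_it_bound hh0 hfs hf01 N k hk t).trans ?_
    apply pow_le_pow_left₀ (by positivity)
    rw [hh]
    have h1 : 2 / (1 / (2 * (N:ℝ))) = 4 * N := by field_simp; norm_num
    rw [h1]
    linarith

theorem exists_cutN (N : ℕ) (hN : 1 ≤ N) {ρ : ℝ} (hρ : 0 ≤ ρ) : ∃ χ : ℝ → ℝ, CutN N ρ χ := by
  obtain ⟨θ, hθ, h01, hl, hr, hb⟩ := exists_stepN N hN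
  have hN' : (1:ℝ) ≤ N := by exact_mod_cast hN
  refine ⟨fun t => θ (t - ρ) * θ (-ρ - t), ?_⟩
  have h1 : ContDiff ℝ ∞ (fun t : ℝ => θ (t - ρ)) := hθ.comp (contDiff_id.sub contDiff_const)
  have h2 : ContDiff ℝ ∞ (fun t : ℝ => θ (-ρ - t)) := hθ.comp (contDiff_const.sub contDiff_id)
  refine ⟨h1.mul h2, ?_, ?_, ?_, ?_, ?_⟩
  · intro t
    show θ (-t - ρ) * θ (-ρ - -t) = θ (t - ρ) * θ (-ρ - t)
    have e1 : -t - ρ = -ρ - t := by ring
    have e2 : -ρ - -t = t - ρ := by ring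
    rw [e1, e2, mul_comm]
  · intro t
    have h3 := h01 (t - ρ)
    have h4 := h01 (-ρ - t)
    exact ⟨mul_nonneg h3.1 h4.1, mul_le_one₀ h3.2 h4.1 h4.2⟩
  · intro t ht
    rw [abs_le] at ht
    show θ (t - ρ) * θ (-ρ - t) = 1
    rw [hl _ (by linarith [ht.2]), hl _ (by linarith [ht.1]), mul_one]
  · intro t ht
    show θ (t - ρ) * θ (-ρ - t) = 0
    rcases le_abs.1 ht with h3 | h3
    · rw [hr (t - ρ) (by linarith), zero_mul]
    · rw [hr (-ρ - t) (by linarith), mul_zero]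
  · intro k hk t
    have hk' : ((k : ℕ) : WithTop ℕ∞) ≤ ∞ := by exact_mod_cast le_top
    rw [iteratedDeriv_fun_mul (h1.contDiffAt.of_le hk') (h2.contDiffAt.of_le hk')]
    have h16 : (16 * (N:ℝ)) ^ k = ∑ i ∈ Finset.range (k + 1),
        (8 * (N:ℝ)) ^ i * (8 * (N:ℝ)) ^ (k - i) * (k.choose i : ℝ) := by
      rw [← add_pow]
      congr 1
      ring
    rw [h16]
    refine (Finset.abs_sum_le_sum_abs _ _).trans (Finset.sum_le_sum fun i hi => ?_)
    rw [Finset.mem_range] at hi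
    have h3 : |iteratedDeriv i (fun t : ℝ => θ (t - ρ)) t| ≤ (8 * (N:ℝ)) ^ i := by
      rw [iteratedDeriv_comp_sub_const]
      exact hb i (by omega) _
    have h4 : |iteratedDeriv (k - i) (fun t : ℝ => θ (-ρ - t)) t| ≤ (8 * (N:ℝ)) ^ (k - i) := by
      rw [iteratedDeriv_comp_const_sub]
      show |(-1 : ℝ) ^ (k - i) • iteratedDeriv (k - i) θ (-ρ - t)| ≤ _
      rw [smul_eq_mul, abs_mul, abs_pow, abs_neg, abs_one, one_pow, one_mul]
      exact hb (k - i) (by omega) _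
    rw [abs_mul, abs_mul, Nat.abs_cast]
    calc (k.choose i : ℝ) * |iteratedDeriv i (fun t : ℝ => θ (t - ρ)) t| *
        |iteratedDeriv (k - i) (fun t : ℝ => θ (-ρ - t)) t| ≤
        (k.choose i : ℝ) * (8 * (N:ℝ)) ^ i * (8 * (N:ℝ)) ^ (k - i) := by
          apply mul_le_mul _ h4 (abs_nonneg _) (by positivity)
          exact mul_le_mul_of_nonneg_left h3 (by positivity)
      _ = _ := by ring

end B36
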