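import Pool.Agent.LibBE36T.Defs

/-! ROW T13a : Richardson's coefficients. MEDIUM, only Mathlib.
PLAN. `rc P i` is the value at 0 of the `i`-th Lagrange polynomial of the nodes `4^l`, `l < P`: `∑_{i<P} rc P i * p(4^i) = p(0)` for `deg p < P` (Mathlib: `Lagrange.interpolate`,
`Lagrange.eq_interpolate`, `Lagrange.eval_basis..`, nodes injective on `range P`), for `p = 1` and `p = X^j`. `rc_abs`: `|rc P i| = ∏_{l≠i} 1/|1 - 4^(i-l)|`: for `l > i` the product of
`1/(1 - 4^(-m))` is `≤ 3/2` (`∏ (1 - x_m) ≥ 1 - ∑ x_m`, `∑ 4^(-m) ≤ 1/3`), for `l < i` the product of `1/(4^m - 1)`, `m = 1..i`, is `≤ 3^(-i)`; the sum is `≤ 9/4 ≤ 3`.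
`rc_exp`: `F(s) = ∑ rc P i exp(-(4^i s))`, `|e^(-x) - ∑_{j<P} (-x)^j/j!| ≤ x^P/P!` for `x ≥ 0` (Taylor with Lagrange remainder, or alternating by induction), the polynomial parts add up to 1:
`|F(s) - 1| ≤ ∑ |rc P i| (4^i s)^P ≤ 3 * 4^(P^2) * s^P`. -/

open MeasureTheory Set Filter Topology
open scoped ContDiff

namespace B36

theorem T13a_eval {P : ℕ} (f : Polynomial ℝ) (hf : f.degree < P) :
    ∑ i ∈ Finset.range P, rc P i * f.eval ((4 : ℝ) ^ i) = f.eval 0 := by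
  have hinj : Set.InjOn (fun i : ℕ => (4 : ℝ) ^ i) (Finset.range P : Set ℕ) := by
    intro a _ b _ hab
    exact pow_right_injective₀ (by norm_num : (0:ℝ) < 4) (by norm_num) hab
  have h1 := Lagrange.eq_interpolate (s := Finset.range P) hinj (f := f)
    (by rwa [Finset.card_range])
  have h2 : f.eval 0 = (Lagrange.interpolate (Finset.range P) (fun i : ℕ => (4 : ℝ) ^ i)
      (fun i => f.eval ((4 : ℝ) ^ i))).eval 0 := by
    conv_lhs => rw [h1]
  rw [h2, Lagrange.interpolate_apply, Polynomial.eval_finset_sum]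
  refine Finset.sum_congr rfl fun i hi => ?_
  rw [Polynomial.eval_mul, Polynomial.eval_C, mul_comm]
  congr 1
  unfold Lagrange.basis rc
  rw [Polynomial.eval_prod]
  refine Finset.prod_congr rfl fun l hl => ?_
  have hne : (4 : ℝ) ^ l ≠ (4 : ℝ) ^ i := by
    intro h
    exact (Finset.ne_of_mem_erase hl) (pow_right_injective₀ (by norm_num : (0:ℝ) < 4) (by norm_num) h)
  unfold Lagrange.basisDivisor
  rw [Polynomial.eval_mul, Polynomial.eval_C, Polynomial.eval_sub, Polynomial.eval_X,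
    Polynomial.eval_C]
  have h3 : (4 : ℝ) ^ l - (4 : ℝ) ^ i ≠ 0 := sub_ne_zero.2 hne
  have h4 : (4 : ℝ) ^ i - (4 : ℝ) ^ l ≠ 0 := sub_ne_zero.2 hne.symm
  field_simp
  ring

theorem rc_sum {P : ℕ} (hP : 1 ≤ P) : ∑ i ∈ Finset.range P, rc P i = 1 := by
  have h := T13a_eval (P := P) (1 : Polynomial ℝ) (by
    rw [Polynomial.degree_one]
    exact_mod_cast hP)
  simpa using h

theorem rc_pow {P j : ℕ} (hj : 1 ≤ j) (hj' : j < P) :
    ∑ i ∈ Finset.range P, rc P i * (4 ^ i) ^ j = 0 := by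
  have h := T13a_eval (P := P) (Polynomial.X ^ j : Polynomial ℝ) (by
    rw [Polynomial.degree_X_pow]
    exact_mod_cast hj')
  simp only [Polynomial.eval_pow, Polynomial.eval_X] at h
  rw [h, zero_pow (by omega)]

theorem T13a_prod (n : ℕ) :
    2 / 3 + 1 / 3 * (1 / 4 : ℝ) ^ n ≤ ∏ m ∈ Finset.range n, (1 - (1 / 4 : ℝ) ^ (m + 1)) := by
  induction n with
  | zero => norm_num
  | succ n ih =>
    rw [Finset.prod_range_succ]
    obtain ⟨x, hx⟩ : ∃ x : ℝ, x = (1 / 4 : ℝ) ^ n := ⟨_, rfl⟩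
    have hx0 : 0 ≤ x := by rw [hx]; positivity
    have hx1 : x ≤ 1 := by rw [hx]; exact pow_le_one₀ (by norm_num) (by norm_num)
    have h1 : (1 / 4 : ℝ) ^ (n + 1) = x / 4 := by rw [pow_succ, ← hx]; ring
    rw [h1]
    rw [← hx] at ih
    have h2 : (2 / 3 + 1 / 3 * x) * (1 - x / 4) ≤
        (∏ m ∈ Finset.range n, (1 - (1 / 4 : ℝ) ^ (m + 1))) * (1 - x / 4) :=
      mul_le_mul_of_nonneg_right ih (by linarith)
    nlinarith

theorem T13a_term {P i : ℕ} (hi : i < P) : |rc P i| ≤ 3 / 2 * (1 / 3 : ℝ) ^ i := by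
  have hsplit : (Finset.range P).erase i = Finset.range i ∪ Finset.Ico (i + 1) P := by
    ext l
    simp only [Finset.mem_erase, Finset.mem_range, Finset.mem_union, Finset.mem_Ico]
    omega
  have hdisj : Disjoint (Finset.range i) (Finset.Ico (i + 1) P) := by
    rw [Finset.disjoint_left]
    intro l hl hl'
    rw [Finset.mem_range] at hl
    rw [Finset.mem_Ico] at hl'
    omega
  unfold rc
  rw [hsplit, Finset.prod_union hdisj, abs_mul, Finset.abs_prod, Finset.abs_prod]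
  have h1 : ∏ l ∈ Finset.range i, |(4 : ℝ) ^ l / ((4 : ℝ) ^ l - (4 : ℝ) ^ i)| ≤ (1 / 3 : ℝ) ^ i := by
    calc ∏ l ∈ Finset.range i, |(4 : ℝ) ^ l / ((4 : ℝ) ^ l - (4 : ℝ) ^ i)| ≤
        ∏ l ∈ Finset.range i, (1 / 3 : ℝ) := by
          apply Finset.prod_le_prod
          · intro l _
            exact abs_nonneg _
          · intro l hl
            rw [Finset.mem_range] at hl
            have h2 : (4 : ℝ) ^ (l + 1) ≤ (4 : ℝ) ^ i := pow_le_pow_right₀ (by norm_num) hl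
            rw [pow_succ] at h2
            have h3 : (0 : ℝ) < 4 ^ l := by positivity
            rw [abs_div, abs_of_pos h3, abs_of_nonpos (by linarith), neg_sub,
              div_le_div_iff₀ (by linarith) (by norm_num)]
            linarith
      _ = (1 / 3 : ℝ) ^ i := by rw [Finset.prod_const, Finset.card_range]
  have h4 : ∏ l ∈ Finset.Ico (i + 1) P, |(4 : ℝ) ^ l / ((4 : ℝ) ^ l - (4 : ℝ) ^ i)| ≤ 3 / 2 := by
    rw [Finset.prod_Ico_eq_prod_range]
    have h5 : ∀ l ∈ Finset.range (P - (i + 1)),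
        |(4 : ℝ) ^ (i + 1 + l) / ((4 : ℝ) ^ (i + 1 + l) - (4 : ℝ) ^ i)| =
        (1 - (1 / 4 : ℝ) ^ (l + 1))⁻¹ := by
      intro l _
      have h6 : (4 : ℝ) ^ (i + 1 + l) = 4 ^ i * 4 ^ (l + 1) := by rw [← pow_add]; congr 1; omega
      have h7 : (1 : ℝ) < 4 ^ (l + 1) := one_lt_pow₀ (by norm_num) (by omega)
      have h8 : (0 : ℝ) < 4 ^ i := by positivity
      have h9 : (0 : ℝ) < 4 ^ i * 4 ^ (l + 1) - 4 ^ i := by nlinarith
      have h10 : (0 : ℝ) < 4 ^ (l + 1) - 1 := by linarith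
      rw [h6, abs_of_pos (by positivity), one_div, inv_pow]
      have h11 : (4 : ℝ) ^ i * 4 ^ (l + 1) - 4 ^ i = 4 ^ i * (4 ^ (l + 1) - 1) := by ring
      rw [h11]
      have h12 : (1 : ℝ) - (4 ^ (l + 1))⁻¹ = (4 ^ (l + 1) - 1) / 4 ^ (l + 1) := by
        field_simp
      rw [h12, inv_div, mul_div_mul_left _ _ h8.ne']
    rw [Finset.prod_congr rfl h5, Finset.prod_inv_distrib]
    have h13 := T13a_prod (P - (i + 1))
    have h14 : (0:ℝ) < (1 / 4 : ℝ) ^ (P - (i + 1)) := by positivity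
    rw [inv_le_comm₀ (by linarith) (by norm_num)]
    linarith
  have h15 : 0 ≤ ∏ l ∈ Finset.Ico (i + 1) P, |(4 : ℝ) ^ l / ((4 : ℝ) ^ l - (4 : ℝ) ^ i)| :=
    Finset.prod_nonneg fun l _ => abs_nonneg _
  calc _ ≤ (1 / 3 : ℝ) ^ i * (3 / 2) := mul_le_mul h1 h4 h15 (by positivity)
    _ = _ := by ring

theorem rc_abs (P : ℕ) : ∑ i ∈ Finset.range P, |rc P i| ≤ 3 := by
  have h1 : ∑ i ∈ Finset.range P, |rc P i| ≤ ∑ i ∈ Finset.range P, 3 / 2 * (1 / 3 : ℝ) ^ i :=
    Finset.sum_le_sum fun i hi => T13a_term (Finset.mem_range.1 hi)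
  have h2 : ∀ n : ℕ, ∑ i ∈ Finset.range n, 3 / 2 * (1 / 3 : ℝ) ^ i = 9 / 4 * (1 - (1 / 3 : ℝ) ^ n) := by
    intro n
    induction n with
    | zero => norm_num
    | succ n ih => rw [Finset.sum_range_succ, ih, pow_succ]; ring
  rw [h2] at h1
  have h3 : (0 : ℝ) ≤ (1 / 3 : ℝ) ^ P := by positivity
  linarith

theorem T13a_taylor (P : ℕ) : ∀ x : ℝ, 0 ≤ x →
    |Real.exp (-x) - ∑ j ∈ Finset.range P, (-x) ^ j / (j.factorial : ℝ)| ≤ x ^ P := by
  induction P with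
  | zero =>
    intro x hx
    rw [Finset.sum_range_zero, sub_zero, pow_zero, abs_of_pos (Real.exp_pos _)]
    exact Real.exp_le_one_iff.2 (by linarith)
  | succ P ih =>
    intro x hx
    have hd : ∀ t ∈ Icc (0:ℝ) x, HasDerivWithinAt
        (fun t : ℝ => Real.exp (-t) - ∑ j ∈ Finset.range (P + 1), (-t) ^ j / (j.factorial : ℝ))
        (-(Real.exp (-t) - ∑ j ∈ Finset.range P, (-t) ^ j / (j.factorial : ℝ))) (Icc 0 x) t := by
      intro t _
      have h1 : HasDerivAt (fun t : ℝ => Real.exp (-t)) (-Real.exp (-t)) t := by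
        have := (hasDerivAt_neg t).exp
        simpa using this
      have h2 : ∀ j : ℕ, HasDerivAt (fun t : ℝ => (-t) ^ j / (j.factorial : ℝ))
          (-((j : ℝ) * (-t) ^ (j - 1) / (j.factorial : ℝ))) t := by
        intro j
        have h3 := ((hasDerivAt_neg t).pow j).div_const (j.factorial : ℝ)
        refine h3.congr_deriv ?_
        ring
      have h4 : HasDerivAt (fun t : ℝ => ∑ j ∈ Finset.range (P + 1), (-t) ^ j / (j.factorial : ℝ))
          (∑ j ∈ Finset.range (P + 1), -((j : ℝ) * (-t) ^ (j - 1) / (j.factorial : ℝ))) t :=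
        HasDerivAt.fun_sum fun j _ => h2 j
      have h5 : ∑ j ∈ Finset.range (P + 1), -((j : ℝ) * (-t) ^ (j - 1) / (j.factorial : ℝ)) =
          -∑ j ∈ Finset.range P, (-t) ^ j / (j.factorial : ℝ) := by
        rw [Finset.sum_range_succ', ← Finset.sum_neg_distrib]
        simp only [Nat.cast_zero, zero_mul, zero_div, neg_zero, add_zero]
        refine Finset.sum_congr rfl fun j _ => ?_
        rw [Nat.add_sub_cancel, Nat.factorial_succ, Nat.cast_mul]
        have h6 : ((j + 1 : ℕ) : ℝ) ≠ 0 := by positivity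
        have h7 : (j.factorial : ℝ) ≠ 0 := by positivity
        field_simp
      rw [h5] at h4
      refine (h1.sub h4).hasDerivWithinAt.congr_deriv ?_
      ring
    have hb : ∀ t ∈ Icc (0:ℝ) x,
        ‖-(Real.exp (-t) - ∑ j ∈ Finset.range P, (-t) ^ j / (j.factorial : ℝ))‖ ≤ x ^ P := by
      intro t ht
      rw [norm_neg, Real.norm_eq_abs]
      exact (ih t ht.1).trans (pow_le_pow_left₀ ht.1 ht.2 P)
    have h8 := (convex_Icc (0:ℝ) x).norm_image_sub_le_of_norm_hasDerivWithin_le hd hb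
      (left_mem_Icc.2 hx) (right_mem_Icc.2 hx)
    have h9 : Real.exp (-(0:ℝ)) - ∑ j ∈ Finset.range (P + 1), (-(0:ℝ)) ^ j / (j.factorial : ℝ) = 0 := by
      rw [Finset.sum_range_succ']
      simp
    rw [h9, sub_zero, Real.norm_eq_abs, Real.norm_eq_abs, sub_zero, abs_of_nonneg hx] at h8
    rw [pow_succ]
    exact h8

theorem T13a_poly {P : ℕ} (hP : 1 ≤ P) (c : ℕ → ℝ) :
    ∑ i ∈ Finset.range P, rc P i * ∑ j ∈ Finset.range P, c j * ((4 : ℝ) ^ i) ^ j = c 0 := by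
  have h1 : ∑ i ∈ Finset.range P, rc P i * ∑ j ∈ Finset.range P, c j * ((4 : ℝ) ^ i) ^ j =
      ∑ j ∈ Finset.range P, c j * ∑ i ∈ Finset.range P, rc P i * ((4 : ℝ) ^ i) ^ j := by
    simp only [Finset.mul_sum]
    rw [Finset.sum_comm]
    refine Finset.sum_congr rfl fun j _ => Finset.sum_congr rfl fun i _ => ?_
    ring
  rw [h1, Finset.sum_eq_single 0]
  · simp only [pow_zero, mul_one]
    rw [rc_sum hP, mul_one]
  · intro j hj hj0
    rw [rc_pow (Nat.one_le_iff_ne_zero.2 hj0) (Finset.mem_range.1 hj), mul_zero]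
  · intro h
    exact absurd (Finset.mem_range.2 (by omega)) h

theorem rc_exp {P : ℕ} (hP : 1 ≤ P) {s : ℝ} (hs : 0 ≤ s) :
    |∑ i ∈ Finset.range P, rc P i * Real.exp (-(4 ^ i * s)) - 1| ≤ 3 * 4 ^ (P ^ 2) * s ^ P := by
  have h1 := T13a_poly hP (fun j => (-s) ^ j / (j.factorial : ℝ))
  have h2 : ((-s) ^ 0 / ((0:ℕ).factorial : ℝ)) = 1 := by simp
  have h3 : ∑ i ∈ Finset.range P, rc P i * Real.exp (-(4 ^ i * s)) - 1 =
      ∑ i ∈ Finset.range P, rc P i * (Real.exp (-(4 ^ i * s)) -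
        ∑ j ∈ Finset.range P, (-(4 ^ i * s)) ^ j / (j.factorial : ℝ)) := by
    have h4 : (1:ℝ) = ∑ i ∈ Finset.range P, rc P i *
        ∑ j ∈ Finset.range P, (-(4 ^ i * s)) ^ j / (j.factorial : ℝ) := by
      rw [← h2, ← h1]
      refine Finset.sum_congr rfl fun i _ => ?_
      congr 1
      refine Finset.sum_congr rfl fun j _ => ?_
      have h5 : -((4:ℝ) ^ i * s) = (-s) * 4 ^ i := by ring
      rw [h5, mul_pow]
      ring
    conv_lhs => rw [h4]
    rw [← Finset.sum_sub_distrib]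
    refine Finset.sum_congr rfl fun i _ => ?_
    ring
  rw [h3]
  have h6 : ∀ i ∈ Finset.range P, |rc P i * (Real.exp (-(4 ^ i * s)) -
        ∑ j ∈ Finset.range P, (-(4 ^ i * s)) ^ j / (j.factorial : ℝ))| ≤
      |rc P i| * (4 ^ (P ^ 2) * s ^ P) := by
    intro i hi
    rw [abs_mul]
    apply mul_le_mul_of_nonneg_left _ (abs_nonneg _)
    refine (T13a_taylor P (4 ^ i * s) (by positivity)).trans ?_
    rw [mul_pow, ← pow_mul]
    apply mul_le_mul_of_nonneg_right _ (by positivity)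
    apply pow_le_pow_right₀ (by norm_num)
    rw [pow_two]
    exact Nat.mul_le_mul_right _ (Finset.mem_range.1 hi).le
  calc _ ≤ ∑ i ∈ Finset.range P, |rc P i * (Real.exp (-(4 ^ i * s)) -
        ∑ j ∈ Finset.range P, (-(4 ^ i * s)) ^ j / (j.factorial : ℝ))| :=
        Finset.abs_sum_le_sum_abs _ _
    _ ≤ ∑ i ∈ Finset.range P, |rc P i| * (4 ^ (P ^ 2) * s ^ P) := Finset.sum_le_sum h6
    _ = (∑ i ∈ Finset.range P, |rc P i|) * (4 ^ (P ^ 2) * s ^ P) := by rw [Finset.sum_mul]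
    _ ≤ 3 * (4 ^ (P ^ 2) * s ^ P) := mul_le_mul_of_nonneg_right (rc_abs P) (by positivity)
    _ = _ := by ring

/-- Richardson's extrapolation: a function of `e ^ 2` with a Taylor expansion of order `P`. -/
theorem rc_taylor {P : ℕ} (hP : 1 ≤ P) {g : ℝ → ℝ} {c : ℕ → ℝ} {B e : ℝ}
    (hg : ∀ i < P, |g (2 ^ i * e) - ∑ j ∈ Finset.range P, c j * (2 ^ i * e) ^ (2 * j)| ≤
      B * (2 ^ i * e) ^ (2 * P)) (he : 0 ≤ e) :
    |∑ i ∈ Finset.range P, rc P i * g (2 ^ i * e) - c 0| ≤ 3 * 4 ^ (P ^ 2) * B * e ^ (2 * P) := by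
  have h1 := T13a_poly hP (fun j => c j * e ^ (2 * j))
  have hpw : ∀ i j : ℕ, ((2:ℝ) ^ i * e) ^ (2 * j) = e ^ (2 * j) * (4 ^ i) ^ j := by
    intro i j
    rw [mul_pow, pow_mul ((2:ℝ) ^ i) 2 j, ← pow_mul (2:ℝ) i 2, mul_comm i 2, pow_mul (2:ℝ) 2 i]
    norm_num
    ring
  have hB : 0 ≤ B * e ^ (2 * P) := by
    have h2 := (abs_nonneg _).trans (hg 0 (by omega))
    simpa using h2
  have h3 : ∑ i ∈ Finset.range P, rc P i * g (2 ^ i * e) - c 0 =
      ∑ i ∈ Finset.range P, rc P i * (g (2 ^ i * e) -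
        ∑ j ∈ Finset.range P, c j * (2 ^ i * e) ^ (2 * j)) := by
    have h4 : c 0 = ∑ i ∈ Finset.range P, rc P i *
        ∑ j ∈ Finset.range P, c j * (2 ^ i * e) ^ (2 * j) := by
      have h5 : c 0 = c 0 * e ^ (2 * 0) := by simp
      rw [h5, ← h1]
      refine Finset.sum_congr rfl fun i _ => ?_
      congr 1
      refine Finset.sum_congr rfl fun j _ => ?_
      rw [hpw]
      ring
    conv_lhs => rw [h4]
    rw [← Finset.sum_sub_distrib]
    refine Finset.sum_congr rfl fun i _ => ?_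
    ring
  rw [h3]
  have h6 : ∀ i ∈ Finset.range P, |rc P i * (g (2 ^ i * e) -
        ∑ j ∈ Finset.range P, c j * (2 ^ i * e) ^ (2 * j))| ≤
      |rc P i| * (4 ^ (P ^ 2) * (B * e ^ (2 * P))) := by
    intro i hi
    rw [abs_mul]
    apply mul_le_mul_of_nonneg_left _ (abs_nonneg _)
    refine (hg i (Finset.mem_range.1 hi)).trans ?_
    rw [hpw, ← pow_mul]
    have h7 : (4:ℝ) ^ (i * P) ≤ 4 ^ (P ^ 2) := by
      apply pow_le_pow_right₀ (by norm_num)
      rw [pow_two]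
      exact Nat.mul_le_mul_right _ (Finset.mem_range.1 hi).le
    calc B * (e ^ (2 * P) * 4 ^ (i * P)) = 4 ^ (i * P) * (B * e ^ (2 * P)) := by ring
      _ ≤ 4 ^ (P ^ 2) * (B * e ^ (2 * P)) := mul_le_mul_of_nonneg_right h7 hB
  calc _ ≤ ∑ i ∈ Finset.range P, |rc P i * (g (2 ^ i * e) -
        ∑ j ∈ Finset.range P, c j * (2 ^ i * e) ^ (2 * j))| :=
        Finset.abs_sum_le_sum_abs _ _
    _ ≤ ∑ i ∈ Finset.range P, |rc P i| * (4 ^ (P ^ 2) * (B * e ^ (2 * P))) :=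
        Finset.sum_le_sum h6
    _ = (∑ i ∈ Finset.range P, |rc P i|) * (4 ^ (P ^ 2) * (B * e ^ (2 * P))) := by
        rw [Finset.sum_mul]
    _ ≤ 3 * (4 ^ (P ^ 2) * (B * e ^ (2 * P))) :=
        mul_le_mul_of_nonneg_right (rc_abs P) (by positivity)
    _ = _ := by ring

end B36
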