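import Pool.Agent.LibBE36T.T13a

/-! ROW T13c : the mollification in time changes the spectral side by `O(e^(2P))`. MEDIUM/STRONG.
PLAN. For `b` continuous, integrable, `b(-t) = conj b(t)`: `hh (osc b τ) λ = 1/2 F_b(λ-τ) + 1/2 F_b(-λ-τ)`, `F_b(y) = ∫ b(t) e^(ity) dt` (real; see `GWin.hh_eq` in LibGWa/U2). `b = rst (mla P e a)`: `F_b(y) = F_a(y) ∑_i rc P i exp(-4^i e² y²/2)`
(Fubini, Fourier transform of the Gaussian: `fourierIntegral_gaussian`), so `|F_b - F_a|(y) ≤ |F_a(y)| 3·4^(P²) (e² y²/2)^P` (`rc_exp`, `s = e² y²/2`), and `|F_a(y)| (1 + |y|)^(2P+8) ≤ 2^(2P+8) · 2 · 2ρ M`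
(`2P+8` integrations by parts, `‖a^(k)‖ ≤ M`, support `[-ρ, ρ]`; `(1+|y|)^n ≤ 2^n max(1, |y|^n)`). `|−λ−τ| ≥ |λ−τ|`.
`mla_weyl`: integrate `mla_hh` (both functions are integrable against `y`; `hh_decay`-like for `a`, and the difference is bounded by the right side): `∫_{y>0} y/(1+|y-τ|)^8 dy ≤ 4τ` for `τ ≥ 1`. -/

open MeasureTheory Set Filter Topology
open scoped ContDiff Convolution

namespace B36

/-- the Fourier integral -/
private noncomputable def Fa (b : ℝ → ℂ) (y : ℝ) : ℂ :=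
  ∫ t : ℝ, b t * Complex.exp (Complex.I * y * t)

private theorem en (y t : ℝ) : ‖Complex.exp (Complex.I * y * t)‖ = 1 := by
  have h : Complex.I * y * t = ((y * t : ℝ) : ℂ) * Complex.I := by
    push_cast
    ring
  rw [h, Complex.norm_exp_ofReal_mul_I]

private theorem ec (y : ℝ) : Continuous fun t : ℝ => Complex.exp (Complex.I * y * t) := by
  fun_prop

private theorem int_e {b : ℝ → ℂ} (hb : Integrable b) (y : ℝ) :
    Integrable fun t : ℝ => b t * Complex.exp (Complex.I * y * t) := by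
  refine hb.mono (hb.aestronglyMeasurable.mul (ec y).aestronglyMeasurable)
    (Eventually.of_forall fun t => ?_)
  rw [norm_mul, en, mul_one]

private theorem supp_k {a : ℝ → ℂ} {ρ : ℝ} (hs : ∀ t, ρ < |t| → a t = 0) (k : ℕ) :
    ∀ t, ρ < |t| → iteratedDeriv k a t = 0 := by
  intro t ht
  have e : a =ᶠ[𝓝 t] fun _ => (0 : ℂ) := by
    filter_upwards [(isOpen_lt continuous_const continuous_abs).mem_nhds ht] with s hs'
    exact hs s hs'
  rw [e.iteratedDeriv_eq]
  simp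

private theorem cpt {a : ℝ → ℂ} {ρ : ℝ} (hs : ∀ t, ρ < |t| → a t = 0) : HasCompactSupport a := by
  refine HasCompactSupport.intro (K := Icc (-ρ) ρ) isCompact_Icc fun t ht => ?_
  apply hs
  by_contra h
  exact ht (abs_le.1 (not_lt.1 h))

private theorem int_k {n : ℕ} {a : ℝ → ℂ} {ρ M H : ℝ} (ha : AmpH n a ρ M H) (k : ℕ) :
    Integrable (iteratedDeriv k a) :=
  (ha.smooth.continuous_iteratedDeriv k (by exact_mod_cast le_top)).integrable_of_hasCompactSupport
    (cpt (supp_k ha.supp k))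

private theorem fdec {n : ℕ} {a : ℝ → ℂ} {ρ M : ℝ} (hρ : 0 ≤ ρ) (ha : AmpH n a ρ M 1) {k : ℕ}
    (hk : k ≤ n) (y : ℝ) : |y| ^ k * ‖Fa a y‖ ≤ 2 * ρ * M := by
  have hpi := Real.pi_pos
  have h1 := Real.fourier_iteratedDeriv (f := a) (N := ⊤) (n := k) (by exact_mod_cast ha.smooth)
    (fun n _ => int_k ha n) (by exact_mod_cast le_top)
  have h2 := congrFun h1 (-(y / (2 * Real.pi)))
  have h3 : ∀ f : ℝ → ℂ, FourierTransform.fourier f (-(y / (2 * Real.pi))) = Fa f y := by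
    intro f
    rw [Real.fourier_real_eq_integral_exp_smul]
    unfold Fa
    congr 1
    ext t
    rw [smul_eq_mul, mul_comm]
    congr 2
    push_cast
    field_simp
  rw [h3, h3] at h2
  have h4 : ‖Fa (iteratedDeriv k a) y‖ = |y| ^ k * ‖Fa a y‖ := by
    rw [h2, norm_smul, norm_pow]
    congr 2
    rw [norm_mul, norm_mul, norm_mul, Complex.norm_I, Complex.norm_real, Complex.norm_real,
      Complex.norm_ofNat, Real.norm_eq_abs, Real.norm_eq_abs, abs_neg, abs_div,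
      abs_of_pos hpi, abs_of_pos (by positivity : 0 < 2 * Real.pi)]
    field_simp
  rw [← h4]
  have hM : ∀ t, ‖iteratedDeriv k a t‖ ≤ M := fun t => by simpa using ha.bound k hk t
  calc ‖Fa (iteratedDeriv k a) y‖ ≤ ∫ t, (Icc (-ρ) ρ).indicator (fun _ => M) t := by
        apply norm_integral_le_of_norm_le
        · exact (integrable_indicator_iff measurableSet_Icc).2 (integrableOn_const (by simp))
        · refine Eventually.of_forall fun t => ?_
          rw [norm_mul, en, mul_one]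
          by_cases ht : t ∈ Icc (-ρ) ρ
          · rw [indicator_of_mem ht]
            exact hM t
          · rw [indicator_of_notMem ht, supp_k ha.supp k t, norm_zero]
            by_contra h
            exact ht (abs_le.1 (not_lt.1 h))
    _ = 2 * ρ * M := by
        rw [integral_indicator measurableSet_Icc, setIntegral_const]
        simp [measureReal_def]
        left
        rw [ENNReal.toReal_ofReal (by linarith)]
        ring

private theorem gs_int {e : ℝ} (he : 0 < e) : Integrable fun t : ℝ => gs e t := by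
  have hb : 0 < (((1 / (2 * e ^ 2) : ℝ)) : ℂ).re := by
    rw [Complex.ofReal_re]
    positivity
  refine ((integrable_cexp_neg_mul_sq hb).const_mul ((1 / (e * √(2 * Real.pi)) : ℝ) : ℂ)).congr
    (Eventually.of_forall fun t => ?_)
  simp only [gs]
  congr 2
  push_cast
  field_simp

private theorem gs_four {e : ℝ} (he : 0 < e) (y : ℝ) :
    Fa (fun t : ℝ => gs e t) y = ((Real.exp (-(e ^ 2 * y ^ 2 / 2)) : ℝ) : ℂ) := by
  have hb : 0 < (((1 / (2 * e ^ 2) : ℝ)) : ℂ).re := by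
    rw [Complex.ofReal_re]
    positivity
  have hpi := Real.pi_pos
  have h1 := fourierIntegral_gaussian hb (y : ℂ)
  have h2 : Fa (fun t : ℝ => gs e t) y = ((1 / (e * √(2 * Real.pi)) : ℝ) : ℂ) *
      ∫ x : ℝ, Complex.exp (Complex.I * y * x) *
        Complex.exp (-((1 / (2 * e ^ 2) : ℝ) : ℂ) * (x : ℂ) ^ 2) := by
    rw [← integral_const_mul]
    unfold Fa
    congr 1
    ext t
    simp only [gs]
    rw [mul_assoc, mul_comm (Complex.exp _)]
    congr 3
    push_cast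
    field_simp
  rw [h2, h1]
  have h3 : ((Real.pi : ℂ) / ((1 / (2 * e ^ 2) : ℝ) : ℂ)) ^ (1 / 2 : ℂ) = ((e * √(2 * Real.pi) : ℝ) : ℂ) := by
    have h4 : (Real.pi : ℂ) / ((1 / (2 * e ^ 2) : ℝ) : ℂ) = ((e ^ 2 * (2 * Real.pi) : ℝ) : ℂ) := by
      push_cast
      field_simp
    have h5 : (1 / 2 : ℂ) = ((1 / 2 : ℝ) : ℂ) := by norm_num
    rw [h4, h5, ← Complex.ofReal_cpow (by positivity), ← Real.sqrt_eq_rpow,
      Real.sqrt_mul (by positivity), Real.sqrt_sq he.le]
  rw [h3, ← mul_assoc, ← Complex.ofReal_mul]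
  have h6 : 1 / (e * √(2 * Real.pi)) * (e * √(2 * Real.pi)) = 1 := by
    have : 0 < √(2 * Real.pi) := Real.sqrt_pos.2 (by positivity)
    field_simp
  rw [h6, Complex.ofReal_one, one_mul, Complex.ofReal_exp]
  congr 1
  push_cast
  field_simp
  ring

private theorem cv_int {a : ℝ → ℂ} (ha : Integrable a) {e : ℝ} (he : 0 < e) :
    Integrable fun t : ℝ => ∫ s : ℝ, a s * gs e ((t : ℂ) - s) := by
  have h1 := ha.integrable_convolution (L := ContinuousLinearMap.mul ℝ ℂ) (gs_int he)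
  refine h1.congr (Eventually.of_forall fun t => ?_)
  unfold convolution
  simp only [ContinuousLinearMap.mul_apply', Complex.ofReal_sub]

private theorem cv_four {a : ℝ → ℂ} (ha : Integrable a) {e : ℝ} (he : 0 < e) (y : ℝ) :
    Fa (fun t : ℝ => ∫ s : ℝ, a s * gs e ((t : ℂ) - s)) y =
      Fa a y * ((Real.exp (-(e ^ 2 * y ^ 2 / 2)) : ℝ) : ℂ) := by
  rw [← gs_four he y]
  have h1 := integral_convolution (L := ContinuousLinearMap.mul ℝ ℂ) (int_e ha y)
    (int_e (gs_int he) y)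
  rw [ContinuousLinearMap.mul_apply'] at h1
  unfold Fa
  rw [← h1]
  congr 1
  ext t
  unfold convolution
  simp only [ContinuousLinearMap.mul_apply', Complex.ofReal_sub]
  rw [← integral_mul_const]
  congr 1
  ext s
  have : Complex.exp (Complex.I * y * t) = Complex.exp (Complex.I * y * s) *
      Complex.exp (Complex.I * y * (t - s)) := by
    rw [← Complex.exp_add]
    congr 1
    ring
  rw [this]
  ring

private theorem a_int {n : ℕ} {a : ℝ → ℂ} {ρ M H : ℝ} (ha : AmpH n a ρ M H) : Integrable a := by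
  simpa using int_k ha 0

private theorem mla_int {n : ℕ} {a : ℝ → ℂ} {ρ M H : ℝ} (ha : AmpH n a ρ M H) (P : ℕ) {e : ℝ}
    (he : 0 < e) : Integrable (rst (mla P e a)) := by
  unfold rst mla
  refine integrable_finsetSum _ fun i _ => ?_
  exact (cv_int (a_int ha) (by positivity)).const_mul _

private theorem mla_four {n : ℕ} {a : ℝ → ℂ} {ρ M H : ℝ} (ha : AmpH n a ρ M H) (P : ℕ) {e : ℝ}
    (he : 0 < e) (y : ℝ) : Fa (rst (mla P e a)) y =
      Fa a y * ((∑ i ∈ Finset.range P, rc P i * Real.exp (-(4 ^ i * (e ^ 2 * y ^ 2 / 2))) : ℝ) : ℂ) := by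
  have h1 : Fa (rst (mla P e a)) y = ∑ i ∈ Finset.range P, (rc P i : ℂ) *
      Fa (fun t : ℝ => ∫ s : ℝ, a s * gs (2 ^ i * e) ((t : ℂ) - s)) y := by
    unfold Fa
    simp_rw [← integral_const_mul]
    rw [← integral_finsetSum]
    · congr 1
      ext t
      simp only [rst, mla, Finset.sum_mul, mul_assoc]
    · intro i _
      exact (int_e (cv_int (a_int ha) (by positivity)) y).const_mul _
  rw [h1]
  push_cast
  rw [Finset.mul_sum]
  refine Finset.sum_congr rfl fun i _ => ?_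
  rw [cv_four (a_int ha) (by positivity)]
  have h2 : (2 ^ i * e) ^ 2 * y ^ 2 / 2 = 4 ^ i * (e ^ 2 * y ^ 2 / 2) := by
    rw [mul_pow, ← pow_mul, mul_comm i 2, pow_mul]
    norm_num
    ring
  rw [h2]
  push_cast
  ring

private theorem F_diff {P : ℕ} (hP : 1 ≤ P) {e : ℝ} (he : 0 < e) {a : ℝ → ℂ} {ρ M : ℝ}
    (hρ : 0 ≤ ρ) (ha : AmpH (2 * P + 8) a ρ M 1) (y : ℝ) :
    ‖Fa a y - Fa (rst (mla P e a)) y‖ ≤
      3 * 4 ^ (P ^ 2) * 2 ^ 10 * M * (ρ + 1) * e ^ (2 * P) / (1 + |y|) ^ 8 := by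
  have hM : 0 ≤ M := (norm_nonneg _).trans (by simpa using ha.bound 0 (by omega) 0)
  have hy0 : 0 ≤ |y| := abs_nonneg y
  rw [mla_four ha P he y]
  set S := ∑ i ∈ Finset.range P, rc P i * Real.exp (-(4 ^ i * (e ^ 2 * y ^ 2 / 2))) with hS
  have h1 : |S - 1| ≤ 3 * 4 ^ (P ^ 2) * (e ^ 2 * y ^ 2 / 2) ^ P := rc_exp hP (by positivity)
  have h2 : Fa a y - Fa a y * (S : ℂ) = -(Fa a y * ((S - 1 : ℝ) : ℂ)) := by
    push_cast
    ring
  rw [h2, norm_neg, norm_mul, Complex.norm_real, Real.norm_eq_abs, le_div_iff₀ (by positivity)]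
  have h3 : (e ^ 2 * y ^ 2 / 2) ^ P ≤ e ^ (2 * P) * |y| ^ (2 * P) := by
    rw [pow_mul e, pow_mul |y|, sq_abs, ← mul_pow (e ^ 2)]
    apply pow_le_pow_left₀ (by positivity)
    have : 0 ≤ e ^ 2 * y ^ 2 := by positivity
    linarith
  have h4 : (1 + |y|) ^ 8 ≤ 2 ^ 8 * (1 + |y| ^ 8) := by
    rcases le_total |y| 1 with h | h
    · have e1 : (1 + |y|) ^ 8 ≤ 2 ^ 8 := pow_le_pow_left₀ (by positivity) (by linarith) 8
      have e2 : (0 : ℝ) ≤ 2 ^ 8 * |y| ^ 8 := by positivity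
      linarith
    · have e1 : (1 + |y|) ^ 8 ≤ (2 * |y|) ^ 8 := pow_le_pow_left₀ (by positivity) (by linarith) 8
      rw [mul_pow] at e1
      linarith
  have h5 := fdec hρ ha (k := 2 * P) (by omega) y
  have h6 := fdec hρ ha (k := 2 * P + 8) le_rfl y
  have hn : 0 ≤ ‖Fa a y‖ := norm_nonneg _
  calc ‖Fa a y‖ * |S - 1| * (1 + |y|) ^ 8
      ≤ ‖Fa a y‖ * (3 * 4 ^ (P ^ 2) * (e ^ (2 * P) * |y| ^ (2 * P))) * (2 ^ 8 * (1 + |y| ^ 8)) := by
        apply mul_le_mul _ h4 (by positivity) (by positivity)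
        apply mul_le_mul_of_nonneg_left _ hn
        exact h1.trans (mul_le_mul_of_nonneg_left h3 (by positivity))
    _ = 3 * 4 ^ (P ^ 2) * 2 ^ 8 * e ^ (2 * P) *
        (|y| ^ (2 * P) * ‖Fa a y‖ + |y| ^ (2 * P + 8) * ‖Fa a y‖) := by
        rw [pow_add]
        ring
    _ ≤ 3 * 4 ^ (P ^ 2) * 2 ^ 8 * e ^ (2 * P) * (2 * ρ * M + 2 * ρ * M) :=
        mul_le_mul_of_nonneg_left (add_le_add h5 h6) (by positivity)
    _ = 3 * 4 ^ (P ^ 2) * 2 ^ 10 * M * ρ * e ^ (2 * P) := by ring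
    _ ≤ 3 * 4 ^ (P ^ 2) * 2 ^ 10 * M * (ρ + 1) * e ^ (2 * P) := by
        apply mul_le_mul_of_nonneg_right _ (by positivity)
        exact mul_le_mul_of_nonneg_left (by linarith) (by positivity)

private theorem osc_cos (b : ℝ → ℂ) (τ lam t : ℝ) : BR.osc b τ t * Real.cos (lam * t) =
    (1 / 2 * (b t * Complex.exp (Complex.I * ((lam - τ : ℝ) : ℂ) * t)) +
      1 / 2 * (b t * Complex.exp (Complex.I * ((-lam - τ : ℝ) : ℂ) * t))).re := by
  unfold BR.osc
  have h1 : Complex.exp (Complex.I * ((lam - τ : ℝ) : ℂ) * t)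
      = Complex.exp (-(Complex.I * τ * t)) * Complex.exp ((lam * t : ℝ) * Complex.I) := by
    rw [← Complex.exp_add]; congr 1; push_cast; ring
  have h2 : Complex.exp (Complex.I * ((-lam - τ : ℝ) : ℂ) * t)
      = Complex.exp (-(Complex.I * τ * t)) * Complex.exp (-(lam * t : ℝ) * Complex.I) := by
    rw [← Complex.exp_add]; congr 1; push_cast; ring
  have h3 : Complex.exp ((lam * t : ℝ) * Complex.I) + Complex.exp (-(lam * t : ℝ) * Complex.I)
      = ((2 * Real.cos (lam * t) : ℝ) : ℂ) := by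
    push_cast
    rw [Complex.cos]
    ring_nf
  have h4 : 1 / 2 * (b t * Complex.exp (Complex.I * ((lam - τ : ℝ) : ℂ) * t)) +
      1 / 2 * (b t * Complex.exp (Complex.I * ((-lam - τ : ℝ) : ℂ) * t)) =
      Complex.exp (-(Complex.I * τ * t)) * b t * ((Real.cos (lam * t) : ℝ) : ℂ) := by
    rw [h1, h2]
    have h5 : ((Real.cos (lam * t) : ℝ) : ℂ) = 1 / 2 * (Complex.exp ((lam * t : ℝ) * Complex.I) +
        Complex.exp (-(lam * t : ℝ) * Complex.I)) := by
      rw [h3]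
      push_cast
      ring
    rw [h5]
    ring
  rw [h4, Complex.re_mul_ofReal]

private theorem hh_eq {b : ℝ → ℂ} (hb : Integrable b) (τ lam : ℝ) :
    BR.hh (BR.osc b τ) lam = (1 / 2 * Fa b (lam - τ) + 1 / 2 * Fa b (-lam - τ)).re := by
  unfold BR.hh
  simp_rw [osc_cos]
  have i1 := (int_e hb (lam - τ)).const_mul (1 / 2 : ℂ)
  have i2 := (int_e hb (-lam - τ)).const_mul (1 / 2 : ℂ)
  have h1 := integral_re (𝕜 := ℂ) (i1.add i2)
  simp only [RCLike.re_to_complex, Pi.add_apply] at h1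
  rw [h1, integral_add i1 i2, integral_const_mul, integral_const_mul]
  rfl

theorem mla_hh (P : ℕ) (hP : 1 ≤ P) : ∃ C : ℝ, 0 ≤ C ∧ ∀ (e : ℝ), 0 < e → e ≤ 1 →
    ∀ (a : ℝ → ℂ) (ρ M : ℝ), 0 ≤ ρ → AmpH (2 * P + 8) a ρ M 1 → ∀ τ lam : ℝ, 1 ≤ τ → 0 ≤ lam →
      |BR.hh (BR.osc a τ) lam - BR.hh (BR.osc (rst (mla P e a)) τ) lam| ≤
        C * M * (ρ + 1) * e ^ (2 * P) / (1 + |lam - τ|) ^ 8 := by
  refine ⟨3 * 4 ^ (P ^ 2) * 2 ^ 10, by positivity, fun e he _ a ρ M hρ ha τ lam hτ hlam => ?_⟩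
  have hM : 0 ≤ M := (norm_nonneg _).trans (by simpa using ha.bound 0 (by omega) 0)
  rw [hh_eq (a_int ha), hh_eq (mla_int ha P he), ← Complex.sub_re]
  refine (Complex.abs_re_le_norm _).trans ?_
  have h1 := F_diff hP he hρ ha (lam - τ)
  have h2 := F_diff hP he hρ ha (-lam - τ)
  have h3 : |lam - τ| ≤ |-lam - τ| := by
    rw [abs_of_nonpos (by linarith : -lam - τ ≤ 0), abs_le]
    constructor <;> linarith
  have h4 : 3 * 4 ^ (P ^ 2) * 2 ^ 10 * M * (ρ + 1) * e ^ (2 * P) / (1 + |-lam - τ|) ^ 8 ≤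
      3 * 4 ^ (P ^ 2) * 2 ^ 10 * M * (ρ + 1) * e ^ (2 * P) / (1 + |lam - τ|) ^ 8 := by
    apply div_le_div_of_nonneg_left (by positivity) (by positivity)
    exact pow_le_pow_left₀ (by positivity) (by linarith) 8
  have h5 : (1 / 2 * Fa a (lam - τ) + 1 / 2 * Fa a (-lam - τ) -
      (1 / 2 * Fa (rst (mla P e a)) (lam - τ) + 1 / 2 * Fa (rst (mla P e a)) (-lam - τ))) =
      1 / 2 * (Fa a (lam - τ) - Fa (rst (mla P e a)) (lam - τ)) +
        1 / 2 * (Fa a (-lam - τ) - Fa (rst (mla P e a)) (-lam - τ)) := by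
    ring
  rw [h5]
  refine (norm_add_le _ _).trans ?_
  rw [norm_mul, norm_mul]
  have h6 : ‖(1 / 2 : ℂ)‖ = 1 / 2 := by norm_num
  rw [h6]
  linarith

private theorem hh_cont {b : ℝ → ℂ} (hb : Integrable b) (τ : ℝ) :
    Continuous (BR.hh (BR.osc b τ)) := by
  have hF : Continuous (Fa b) := by
    unfold Fa
    refine continuous_of_dominated (bound := fun t => ‖b t‖) (fun y => ?_) (fun y => ?_) hb.norm ?_
    · exact (int_e hb y).aestronglyMeasurable
    · refine ae_of_all _ fun t => ?_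
      rw [norm_mul, en, mul_one]
    · refine ae_of_all _ fun t => ?_
      fun_prop
  have h1 : BR.hh (BR.osc b τ) = fun lam =>
      (1 / 2 * Fa b (lam - τ) + 1 / 2 * Fa b (-lam - τ)).re := by
    ext lam
    exact hh_eq hb τ lam
  rw [h1]
  fun_prop

theorem mla_weyl (P : ℕ) (hP : 1 ≤ P) : ∃ C : ℝ, 0 ≤ C ∧ ∀ (e : ℝ), 0 < e → e ≤ 1 →
    ∀ (a : ℝ → ℂ) (ρ M : ℝ), 0 ≤ ρ → AmpH (2 * P + 8) a ρ M 1 → ∀ τ : ℝ, 1 ≤ τ →
      |(∫ y in Ioi (0 : ℝ), BR.hh (BR.osc a τ) y * y) -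
        ∫ y in Ioi (0 : ℝ), BR.hh (BR.osc (rst (mla P e a)) τ) y * y| ≤
        C * M * (ρ + 1) * e ^ (2 * P) * τ := by
  obtain ⟨C, hC0, hC⟩ := mla_hh P hP
  refine ⟨4 * C, by positivity, fun e he he1 a ρ M hρ ha τ hτ => ?_⟩
  have hM : 0 ≤ M := (norm_nonneg _).trans (by simpa using ha.bound 0 (by omega) 0)
  have hpi := Real.pi_le_four
  set A := C * M * (ρ + 1) * e ^ (2 * P) with hA
  have hA0 : 0 ≤ A := by positivity
  -- the function which dominates
  have hW : Integrable fun y : ℝ => A * τ * (1 + (y - τ) ^ 2)⁻¹ :=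
    (integrable_inv_one_add_sq.comp_sub_right τ).const_mul _
  have hWi : ∫ y : ℝ, A * τ * (1 + (y - τ) ^ 2)⁻¹ = A * τ * Real.pi := by
    rw [integral_const_mul, integral_sub_right_eq_self (fun y : ℝ => (1 + y ^ 2)⁻¹) τ,
      integral_univ_inv_one_add_sq]
  have hb : ∀ y : ℝ, 0 < y → |(BR.hh (BR.osc a τ) y - BR.hh (BR.osc (rst (mla P e a)) τ) y) * y| ≤
      A * τ * (1 + (y - τ) ^ 2)⁻¹ := by
    intro y hy
    have h1 := hC e he he1 a ρ M hρ ha τ y hτ hy.le
    rw [abs_mul, abs_of_pos hy]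
    have hd : 0 ≤ |y - τ| := abs_nonneg _
    have h2 : y ≤ τ * (1 + |y - τ|) := by
      have := le_abs_self (y - τ)
      nlinarith
    have h3 : 1 + (y - τ) ^ 2 ≤ (1 + |y - τ|) ^ 7 := by
      have h4 : (1 + |y - τ|) ^ 2 ≤ (1 + |y - τ|) ^ 7 :=
        pow_le_pow_right₀ (by linarith) (by norm_num)
      have h5 : (y - τ) ^ 2 = |y - τ| ^ 2 := (sq_abs _).symm
      nlinarith
    calc |BR.hh (BR.osc a τ) y - BR.hh (BR.osc (rst (mla P e a)) τ) y| * y
        ≤ A / (1 + |y - τ|) ^ 8 * (τ * (1 + |y - τ|)) :=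
          mul_le_mul h1 h2 hy.le (by positivity)
      _ = A * τ * ((1 + |y - τ|) ^ 7)⁻¹ := by
          field_simp
      _ ≤ A * τ * (1 + (y - τ) ^ 2)⁻¹ := by
          apply mul_le_mul_of_nonneg_left _ (by positivity)
          exact inv_anti₀ (by positivity) h3
  have hosc : ContDiff ℝ ∞ (BR.osc a τ) := by
    unfold BR.osc
    have h1 : ContDiff ℝ ∞ fun t : ℝ => Complex.exp (-(Complex.I * τ * t)) * a t := by
      apply ContDiff.mul _ ha.smooth
      apply ContDiff.cexp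
      exact (contDiff_const.mul Complex.ofRealCLM.contDiff).neg
    exact Complex.reCLM.contDiff.comp h1
  have hoscs : ∀ t, ρ < |t| → BR.osc a τ t = 0 := by
    intro t ht
    unfold BR.osc
    rw [ha.supp t ht, mul_zero, Complex.zero_re]
  have hi1 : Integrable fun y => BR.hh (BR.osc a τ) y * y := BR.AB7_hint hosc hoscs
  have hc := (hh_cont (a_int ha) τ).sub (hh_cont (mla_int ha P he) τ)
  have hi2 : IntegrableOn (fun y => (BR.hh (BR.osc a τ) y -
      BR.hh (BR.osc (rst (mla P e a)) τ) y) * y) (Ioi 0) := by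
    refine hW.integrableOn.mono' (hc.mul continuous_id).aestronglyMeasurable ?_
    filter_upwards [ae_restrict_mem measurableSet_Ioi] with y hy
    rw [Real.norm_eq_abs]
    exact hb y hy
  have hi3 : IntegrableOn (fun y => BR.hh (BR.osc (rst (mla P e a)) τ) y * y) (Ioi 0) := by
    refine (hi1.integrableOn.sub hi2).congr (Eventually.of_forall fun y => ?_)
    simp only [Pi.sub_apply]
    ring
  rw [← integral_sub hi1.integrableOn hi3]
  have h1 : ∀ y : ℝ, BR.hh (BR.osc a τ) y * y - BR.hh (BR.osc (rst (mla P e a)) τ) y * y =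
      (BR.hh (BR.osc a τ) y - BR.hh (BR.osc (rst (mla P e a)) τ) y) * y := fun y => by ring
  simp_rw [h1]
  have h2 : |∫ y in Ioi (0 : ℝ), (BR.hh (BR.osc a τ) y -
      BR.hh (BR.osc (rst (mla P e a)) τ) y) * y| ≤ ∫ y in Ioi (0 : ℝ), A * τ * (1 + (y - τ) ^ 2)⁻¹ := by
    rw [← Real.norm_eq_abs]
    refine norm_integral_le_of_norm_le hW.integrableOn ?_
    filter_upwards [ae_restrict_mem measurableSet_Ioi] with y hy
    rw [Real.norm_eq_abs]
    exact hb y hy
  refine h2.trans ((setIntegral_le_integral hW (Eventually.of_forall fun y => ?_)).trans ?_)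
  · simp only [Pi.zero_apply]
    positivity
  · rw [hWi, hA]
    have h3 : 0 ≤ A * τ := by positivity
    nlinarith

end B36
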