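import Pool.Agent.LibBE36T.T9
import Pool.Agent.LibBE36T.T10
import Pool.Agent.LibBE36T.T13b
import Pool.Agent.LibBE36T.T13c

/-! ROW T14 : the spectral side: cut amplitude instead of the original one. MEDIUM.
PLAN. (i) `g = rst A - cta χ A`, `A = mla P e a`, `H = 1/e`, `h = 1/(2^P e) ≥ 1`, `M' = 5M`, is smooth with `‖g^(k)‖ ≤ 2M' (2HN+16N)^k exp(-(h max 0 (|t| - ρ - 1))²)`, zero for `|t| ≤ ρ + 2` (`cta_tiny`), so
`|∫ g e^(i t y)| (1 + |y|)^8 ≤ C M (18N/e)^8 exp(-h²/2)` (8 integrations by parts with Gaussian decay), and `hh (osc g τ) lam` is half the sum of the values at `y = lam - τ`, `-lam - τ`.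
(ii) `spec_cut`: sum over the levels: `∑_j 1/(1 + |lam_j - τ|)^8 ≤ C τ²` from `UC.cnt` (dyadic or: levels in `[τ + i, τ + i + 1]` are at most `C (τ + i + 2)²`), both series converge.
The same for the identity term: `∫_{y>0} y/(1+|y-τ|)^8 ≤ 4τ`. Add `mla_hh`, `mla_weyl`. -/

open MeasureTheory Set Filter Topology
open scoped ContDiff

namespace B36

open BGS BR TR BE73

variable {Γ : Type} [Group Γ] [MulAction Γ Pl] {D : Set Pl}

/-- the spectral side minus the identity term -/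
noncomputable def Qs (m : Mt Γ D) (b : ℝ → ℂ) (τ : ℝ) : ℝ :=
  ∑' j, hh (osc b τ) (FG33.lam m j) -
    1 / (2 * Real.pi) * ∫ y in Ioi (0 : ℝ), hh (osc b τ) y * y

/-- the Fourier integral of an amplitude -/
noncomputable def T14_F (b : ℝ → ℂ) (y : ℝ) : ℂ :=
  ∫ t : ℝ, b t * Complex.exp (Complex.I * y * t)

theorem T14_en (y t : ℝ) : ‖Complex.exp (Complex.I * y * t)‖ = 1 := by
  have h : Complex.I * (y : ℂ) * (t : ℂ) = ((y * t : ℝ) : ℂ) * Complex.I := by
    push_cast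
    ring
  rw [h, Complex.norm_exp_ofReal_mul_I]

theorem T14_int {b : ℝ → ℂ} (hb : Integrable b) (y : ℝ) :
    Integrable fun t : ℝ => b t * Complex.exp (Complex.I * y * t) := by
  refine Integrable.mono' hb.norm ?_ (Eventually.of_forall fun t => ?_)
  · exact hb.1.mul (by fun_prop : Continuous fun t : ℝ =>
      Complex.exp (Complex.I * y * t)).aestronglyMeasurable
  · rw [norm_mul, T14_en, mul_one]

theorem T14_F_le (b : ℝ → ℂ) (y : ℝ) : ‖T14_F b y‖ ≤ ∫ t, ‖b t‖ := by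
  unfold T14_F
  refine (norm_integral_le_integral_norm _).trans (le_of_eq ?_)
  congr 1
  ext t
  rw [norm_mul, T14_en, mul_one]

theorem T14_parts {b : ℝ → ℂ} (hb : Differentiable ℝ b) (h0 : Integrable b)
    (h1 : Integrable (deriv b)) (y : ℝ) :
    T14_F (deriv b) y = -(Complex.I * y) * T14_F b y := by
  have hd : ∀ t : ℝ, HasDerivAt (fun t : ℝ => b t * Complex.exp (Complex.I * y * t))
      (deriv b t * Complex.exp (Complex.I * y * t) +
        (Complex.I * y) * (b t * Complex.exp (Complex.I * y * t))) t := by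
    intro t
    have e1 : HasDerivAt (fun u : ℝ => Complex.exp (Complex.I * y * u))
        (Complex.exp (Complex.I * y * t) * (Complex.I * y)) t := by
      have e2 : HasDerivAt (fun u : ℝ => Complex.I * y * (u : ℂ)) (Complex.I * y) t := by
        have e3 : HasDerivAt (fun u : ℝ => (u : ℂ)) 1 t := (hasDerivAt_id t).ofReal_comp
        have e4 := e3.const_mul (Complex.I * (y : ℂ))
        rwa [mul_one] at e4
      exact e2.cexp
    have e5 := (hb t).hasDerivAt.mul e1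
    refine e5.congr_deriv ?_
    ring
  have i1 := T14_int h0 y
  have i2 := T14_int h1 y
  have h2 := integral_eq_zero_of_hasDerivAt_of_integrable hd
    (i2.add (i1.const_mul (Complex.I * y))) i1
  rw [integral_add i2 (i1.const_mul _), integral_const_mul] at h2
  unfold T14_F
  linear_combination h2

theorem T14_pow (y : ℝ) (n : ℕ) : ∀ b : ℝ → ℂ, ContDiff ℝ ∞ b →
    (∀ k ≤ n, Integrable (iteratedDeriv k b)) →
    |y| ^ n * ‖T14_F b y‖ ≤ ∫ t, ‖iteratedDeriv n b t‖ := by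
  induction n with
  | zero =>
    intro b _ _
    rw [pow_zero, one_mul, iteratedDeriv_zero]
    exact T14_F_le b y
  | succ n ih =>
    intro b hb hi
    have hd : ContDiff ℝ ∞ (deriv b) := (contDiff_infty_iff_deriv.1 hb).2
    have h0 : Integrable b := by
      have := hi 0 (Nat.zero_le _)
      rwa [iteratedDeriv_zero] at this
    have h1 : Integrable (deriv b) := by
      have := hi 1 (by omega)
      rwa [iteratedDeriv_one] at this
    have h2 := ih (deriv b) hd (fun k hk => by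
      rw [← iteratedDeriv_succ']
      exact hi (k + 1) (by omega))
    rw [T14_parts (hb.differentiable (by simp)) h0 h1 y, ← iteratedDeriv_succ'] at h2
    refine le_trans (le_of_eq ?_) h2
    rw [norm_mul, norm_neg, norm_mul, Complex.norm_I, one_mul, Complex.norm_real,
      Real.norm_eq_abs, pow_succ]
    ring

theorem T14_F_decay {b : ℝ → ℂ} (hb : ContDiff ℝ ∞ b)
    (hi : ∀ k ≤ 8, Integrable (iteratedDeriv k b)) (y : ℝ) :
    ‖T14_F b y‖ ≤ 256 * ((∫ t, ‖b t‖) + ∫ t, ‖iteratedDeriv 8 b t‖) / (1 + |y|) ^ 8 := by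
  have h0 := T14_F_le b y
  have h8 := T14_pow y 8 b hb hi
  have hl : 0 ≤ |y| := abs_nonneg y
  have hF : 0 ≤ ‖T14_F b y‖ := norm_nonneg _
  rw [le_div_iff₀ (by positivity)]
  have h1 : (1 + |y|) ^ 8 ≤ 256 * (1 + |y| ^ 8) := by
    rcases le_total |y| 1 with h | h
    · have e1 : (1 + |y|) ^ 8 ≤ 2 ^ 8 := pow_le_pow_left₀ (by positivity) (by linarith) 8
      have e2 : (0 : ℝ) ≤ |y| ^ 8 := by positivity
      linarith
    · have e1 : (1 + |y|) ^ 8 ≤ (2 * |y|) ^ 8 :=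
        pow_le_pow_left₀ (by positivity) (by linarith) 8
      rw [mul_pow] at e1
      linarith
  calc ‖T14_F b y‖ * (1 + |y|) ^ 8 ≤ ‖T14_F b y‖ * (256 * (1 + |y| ^ 8)) :=
        mul_le_mul_of_nonneg_left h1 hF
    _ = 256 * (‖T14_F b y‖ + |y| ^ 8 * ‖T14_F b y‖) := by ring
    _ ≤ 256 * ((∫ t, ‖b t‖) + ∫ t, ‖iteratedDeriv 8 b t‖) := by gcongr

theorem T14_hh {b : ℝ → ℂ} (hb : Integrable b) (τ lam : ℝ) :
    BR.hh (BR.osc b τ) lam =
      1 / 2 * (T14_F b (lam - τ)).re + 1 / 2 * (T14_F b (-lam - τ)).re := by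
  have i1 := T14_int hb (lam - τ)
  have i2 := T14_int hb (-lam - τ)
  have h1 : ∀ y : ℝ, (T14_F b y).re =
      ∫ t : ℝ, (b t * Complex.exp (Complex.I * y * t)).re := by
    intro y
    exact (integral_re (T14_int hb y)).symm
  have j1 : Integrable fun t : ℝ =>
      1 / 2 * (b t * Complex.exp (Complex.I * ((lam - τ : ℝ) : ℂ) * t)).re := i1.re.const_mul _
  have j2 : Integrable fun t : ℝ =>
      1 / 2 * (b t * Complex.exp (Complex.I * ((-lam - τ : ℝ) : ℂ) * t)).re := i2.re.const_mul _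
  rw [h1, h1, ← integral_const_mul, ← integral_const_mul, ← integral_add j1 j2]
  unfold BR.hh BR.osc
  congr 1
  ext t
  have e1 : Complex.exp (Complex.I * ((lam - τ : ℝ) : ℂ) * t) =
      Complex.exp (-(Complex.I * τ * t)) * Complex.exp (((lam * t : ℝ) : ℂ) * Complex.I) := by
    rw [← Complex.exp_add]
    congr 1
    push_cast
    ring
  have e2 : Complex.exp (Complex.I * ((-lam - τ : ℝ) : ℂ) * t) =
      Complex.exp (-(Complex.I * τ * t)) * Complex.exp (-(((lam * t : ℝ) : ℂ) * Complex.I)) := by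
    rw [← Complex.exp_add]
    congr 1
    push_cast
    ring
  rw [e1, e2]
  have e3 : (1 / 2 : ℝ) * (b t * (Complex.exp (-(Complex.I * τ * t)) *
      Complex.exp (((lam * t : ℝ) : ℂ) * Complex.I))).re + 1 / 2 *
      (b t * (Complex.exp (-(Complex.I * τ * t)) *
      Complex.exp (-(((lam * t : ℝ) : ℂ) * Complex.I)))).re =
      ((Complex.exp (-(Complex.I * τ * t)) * b t) * ((Real.cos (lam * t) : ℝ) : ℂ)).re := by
    have e4 : ((Real.cos (lam * t) : ℝ) : ℂ) =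
        (Complex.exp (((lam * t : ℝ) : ℂ) * Complex.I) +
          Complex.exp (-(((lam * t : ℝ) : ℂ) * Complex.I))) / 2 := by
      rw [Complex.ofReal_cos]
      unfold Complex.cos
      congr 3
      ring
    rw [e4]
    have e5 : (Complex.exp (-(Complex.I * τ * t)) * b t) *
        ((Complex.exp (((lam * t : ℝ) : ℂ) * Complex.I) +
          Complex.exp (-(((lam * t : ℝ) : ℂ) * Complex.I))) / 2) =
        ((1 / 2 : ℝ) : ℂ) * (b t * (Complex.exp (-(Complex.I * τ * t)) *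
          Complex.exp (((lam * t : ℝ) : ℂ) * Complex.I))) +
        ((1 / 2 : ℝ) : ℂ) * (b t * (Complex.exp (-(Complex.I * τ * t)) *
          Complex.exp (-(((lam * t : ℝ) : ℂ) * Complex.I)))) := by
      push_cast
      ring
    rw [e5, Complex.add_re, Complex.re_ofReal_mul, Complex.re_ofReal_mul]
  rw [Complex.re_mul_ofReal] at e3
  exact e3.symm

theorem T14_hh_le {b : ℝ → ℂ} (hb : ContDiff ℝ ∞ b)
    (hi : ∀ k ≤ 8, Integrable (iteratedDeriv k b)) {τ lam : ℝ} (hτ : 0 ≤ τ) (hl : 0 ≤ lam) :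
    |BR.hh (BR.osc b τ) lam| ≤
      256 * ((∫ t, ‖b t‖) + ∫ t, ‖iteratedDeriv 8 b t‖) / (1 + |lam - τ|) ^ 8 := by
  have h0 : Integrable b := by
    have := hi 0 (Nat.zero_le _)
    rwa [iteratedDeriv_zero] at this
  have h1 := T14_F_decay hb hi (lam - τ)
  have h2 := T14_F_decay hb hi (-lam - τ)
  have h3 : |lam - τ| ≤ |-lam - τ| := by
    have e1 : |-lam - τ| = lam + τ := by
      rw [show -lam - τ = -(lam + τ) by ring, abs_neg, abs_of_nonneg (by linarith)]
    rw [e1, abs_le]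
    constructor <;> linarith
  have hI : 0 ≤ (∫ t, ‖b t‖) + ∫ t, ‖iteratedDeriv 8 b t‖ :=
    add_nonneg (integral_nonneg fun t => norm_nonneg _) (integral_nonneg fun t => norm_nonneg _)
  have h4 : 256 * ((∫ t, ‖b t‖) + ∫ t, ‖iteratedDeriv 8 b t‖) / (1 + |-lam - τ|) ^ 8 ≤
      256 * ((∫ t, ‖b t‖) + ∫ t, ‖iteratedDeriv 8 b t‖) / (1 + |lam - τ|) ^ 8 := by
    apply div_le_div_of_nonneg_left (by positivity) (by positivity)
    exact pow_le_pow_left₀ (by positivity) (by linarith) 8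
  rw [T14_hh h0, abs_le]
  have a1 := Complex.abs_re_le_norm (T14_F b (lam - τ))
  have a2 := Complex.abs_re_le_norm (T14_F b (-lam - τ))
  rw [abs_le] at a1 a2
  constructor <;> linarith [a1.1, a1.2, a2.1, a2.2]

theorem T14_hh_sub {b b' : ℝ → ℂ} (hb : Integrable b) (hb' : Integrable b') (τ lam : ℝ) :
    BR.hh (BR.osc b τ) lam - BR.hh (BR.osc b' τ) lam =
      BR.hh (BR.osc (fun t => b t - b' t) τ) lam := by
  have hs : Integrable fun t => b t - b' t := hb.sub hb'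
  rw [T14_hh hb, T14_hh hb', T14_hh hs]
  have h1 : ∀ y : ℝ, T14_F (fun t => b t - b' t) y = T14_F b y - T14_F b' y := by
    intro y
    unfold T14_F
    rw [← integral_sub (T14_int hb y) (T14_int hb' y)]
    congr 1
    ext t
    ring
  rw [h1, h1, Complex.sub_re, Complex.sub_re]
  ring

theorem T14_hh_cont {b : ℝ → ℂ} (hb : Integrable b) (τ : ℝ) :
    Continuous (BR.hh (BR.osc b τ)) := by
  have h1 : Continuous (T14_F b) := by
    unfold T14_F
    refine continuous_of_dominated (bound := fun t => ‖b t‖) (fun y => (T14_int hb y).1)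
      (fun y => Eventually.of_forall fun t => ?_) hb.norm (Eventually.of_forall fun t => ?_)
    · rw [norm_mul, T14_en, mul_one]
    · fun_prop
  have h2 : BR.hh (BR.osc b τ) = fun lam =>
      1 / 2 * (T14_F b (lam - τ)).re + 1 / 2 * (T14_F b (-lam - τ)).re := by
    ext lam
    exact T14_hh hb τ lam
  rw [h2]
  exact (continuous_const.mul (Complex.continuous_re.comp (h1.comp (by fun_prop)))).add
    (continuous_const.mul (Complex.continuous_re.comp (h1.comp (by fun_prop))))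

theorem T14_supp {b : ℝ → ℂ} {ρ : ℝ} (hs : ∀ t, ρ < |t| → b t = 0) (k : ℕ) :
    ∀ t, ρ < |t| → iteratedDeriv k b t = 0 := by
  induction k with
  | zero =>
    intro t ht
    rw [iteratedDeriv_zero]
    exact hs t ht
  | succ k ih =>
    intro t ht
    rw [iteratedDeriv_succ]
    have e : iteratedDeriv k b =ᶠ[𝓝 t] fun _ => (0 : ℂ) := by
      filter_upwards [(isOpen_lt continuous_const continuous_abs).mem_nhds ht] with s hs'
      exact ih s hs'
    rw [e.deriv_eq]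
    simp

theorem T14_smooth {b : ℝ → ℂ} (hb : ContDiff ℝ ∞ b) (k : ℕ) : ContDiff ℝ ∞ (iteratedDeriv k b) := by
  induction k with
  | zero =>
    rw [iteratedDeriv_zero]
    exact hb
  | succ k ih =>
    rw [iteratedDeriv_succ]
    exact (contDiff_infty_iff_deriv.1 ih).2

theorem T14_cint {b : ℝ → ℂ} {ρ : ℝ} (hb : ContDiff ℝ ∞ b) (hs : ∀ t, ρ < |t| → b t = 0) (k : ℕ) :
    Integrable (iteratedDeriv k b) := by
  refine (T14_smooth hb k).continuous.integrable_of_hasCompactSupport ?_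
  refine HasCompactSupport.intro (K := Icc (-ρ) ρ) isCompact_Icc fun t ht => ?_
  apply T14_supp hs k
  by_contra h
  exact ht (abs_le.1 (not_lt.1 h))

theorem T14_cle {b : ℝ → ℂ} {ρ B : ℝ} (hρ : 0 ≤ ρ) (k : ℕ) (hb : ContDiff ℝ ∞ b)
    (hs : ∀ t, ρ < |t| → b t = 0) (hB : ∀ t, ‖iteratedDeriv k b t‖ ≤ B) :
    ∫ t, ‖iteratedDeriv k b t‖ ≤ 2 * ρ * B := by
  have h1 : ∫ t in Icc (-ρ) ρ, ‖iteratedDeriv k b t‖ = ∫ t, ‖iteratedDeriv k b t‖ := by
    apply setIntegral_eq_integral_of_forall_compl_eq_zero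
    intro t ht
    rw [T14_supp hs k t, norm_zero]
    by_contra h
    exact ht (abs_le.1 (not_lt.1 h))
  rw [← h1]
  have h2 : ∫ t in Icc (-ρ) ρ, ‖iteratedDeriv k b t‖ ≤ ∫ _t in Icc (-ρ) ρ, B := by
    refine setIntegral_mono_on (T14_cint hb hs k).norm.integrableOn ?_ measurableSet_Icc
      (fun t _ => hB t)
    exact integrableOn_const (by simp) (by simp)
  refine h2.trans (le_of_eq ?_)
  rw [setIntegral_const, smul_eq_mul, Measure.real, Real.volume_Icc,
    ENNReal.toReal_ofReal (by linarith)]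
  ring

theorem T14_sq (n : ℕ) : ∑ i ∈ Finset.range n, 1 / (1 + (i : ℝ)) ^ 2 ≤ 2 := by
  have h : ∀ n : ℕ, 1 ≤ n → ∑ i ∈ Finset.range n, 1 / (1 + (i : ℝ)) ^ 2 ≤ 2 - 1 / (n : ℝ) := by
    intro n hn
    induction n, hn using Nat.le_induction with
    | base => norm_num
    | succ n hn ih =>
      rw [Finset.sum_range_succ]
      have hn0 : (0 : ℝ) < n := by exact_mod_cast hn
      have h1 : 1 / (1 + (n : ℝ)) ^ 2 ≤ 1 / n - 1 / ((n + 1 : ℕ) : ℝ) := by
        push_cast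
        rw [div_sub_div _ _ hn0.ne' (by positivity), div_le_div_iff₀ (by positivity) (by positivity)]
        nlinarith
      linarith
  rcases Nat.eq_zero_or_pos n with rfl | hn
  · simp
  · have h1 := h n hn
    have h2 : (0 : ℝ) ≤ 1 / (n : ℝ) := by positivity
    linarith

theorem T14_levels {l : ℕ → ℝ} {C : ℝ} (hC : 0 ≤ C)
    (hcnt : ∀ y : ℝ, 1 ≤ y → ({j | l j ≤ y} : Set ℕ).Finite ∧
      (({j | l j ≤ y} : Set ℕ).ncard : ℝ) ≤ C * y ^ 2) {τ : ℝ} (hτ : 1 ≤ τ) :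
    Summable (fun j => 1 / (1 + |l j - τ|) ^ 4) ∧
      ∑' j, 1 / (1 + |l j - τ|) ^ 4 ≤ 8 * C * τ ^ 2 := by
  have h0 : ∀ j, 0 ≤ 1 / (1 + |l j - τ|) ^ 4 := fun j => by positivity
  have key : ∀ s : Finset ℕ, ∑ j ∈ s, 1 / (1 + |l j - τ|) ^ 4 ≤ 8 * C * τ ^ 2 := by
    intro s
    have hmaps : ∀ j ∈ s, ⌊|l j - τ|⌋₊ ∈ Finset.range ((s.sup fun j => ⌊|l j - τ|⌋₊) + 1) := by
      intro j hj
      rw [Finset.mem_range]
      have : ⌊|l j - τ|⌋₊ ≤ s.sup fun j => ⌊|l j - τ|⌋₊ :=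
        Finset.le_sup (f := fun j => ⌊|l j - τ|⌋₊) hj
      omega
    rw [← Finset.sum_fiberwise_of_maps_to hmaps]
    have h1 : ∀ i ∈ Finset.range ((s.sup fun j => ⌊|l j - τ|⌋₊) + 1),
        ∑ j ∈ s.filter (fun j => ⌊|l j - τ|⌋₊ = i), 1 / (1 + |l j - τ|) ^ 4 ≤
          4 * C * τ ^ 2 * (1 / (1 + (i : ℝ)) ^ 2) := by
      intro i _
      have hi0 : (0 : ℝ) ≤ i := Nat.cast_nonneg i
      have h2 : ∀ j ∈ s.filter (fun j => ⌊|l j - τ|⌋₊ = i),
          1 / (1 + |l j - τ|) ^ 4 ≤ 1 / (1 + (i : ℝ)) ^ 4 := by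
        intro j hj
        have h3 : (i : ℝ) ≤ |l j - τ| := by
          rw [← (Finset.mem_filter.1 hj).2]
          exact Nat.floor_le (abs_nonneg _)
        apply one_div_le_one_div_of_le (by positivity)
        exact pow_le_pow_left₀ (by positivity) (by linarith) 4
      have h4 : ((s.filter (fun j => ⌊|l j - τ|⌋₊ = i)).card : ℝ) ≤ C * (τ + i + 1) ^ 2 := by
        obtain ⟨hf, hn⟩ := hcnt (τ + i + 1) (by linarith)
        refine le_trans ?_ hn
        have h5 : ((s.filter (fun j => ⌊|l j - τ|⌋₊ = i) : Finset ℕ) : Set ℕ) ⊆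
            {j | l j ≤ τ + i + 1} := by
          intro j hj
          have h6 := (Finset.mem_filter.1 (Finset.mem_coe.1 hj)).2
          have h7 := Nat.lt_floor_add_one |l j - τ|
          rw [h6] at h7
          have h8 := le_abs_self (l j - τ)
          show l j ≤ τ + i + 1
          linarith
        have h9 := Set.ncard_le_ncard h5 hf
        rw [Set.ncard_coe_finset] at h9
        exact_mod_cast h9
      calc ∑ j ∈ s.filter (fun j => ⌊|l j - τ|⌋₊ = i), 1 / (1 + |l j - τ|) ^ 4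
          ≤ ∑ _j ∈ s.filter (fun j => ⌊|l j - τ|⌋₊ = i), 1 / (1 + (i : ℝ)) ^ 4 :=
            Finset.sum_le_sum h2
        _ = ((s.filter (fun j => ⌊|l j - τ|⌋₊ = i)).card : ℝ) * (1 / (1 + (i : ℝ)) ^ 4) := by
            rw [Finset.sum_const, nsmul_eq_mul]
        _ ≤ C * (τ + i + 1) ^ 2 * (1 / (1 + (i : ℝ)) ^ 4) :=
            mul_le_mul_of_nonneg_right h4 (by positivity)
        _ ≤ C * (2 * τ * (1 + i)) ^ 2 * (1 / (1 + (i : ℝ)) ^ 4) := by
            have h10 : τ + i + 1 ≤ 2 * τ * (1 + i) := by nlinarith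
            have h11 : (τ + i + 1) ^ 2 ≤ (2 * τ * (1 + i)) ^ 2 :=
              pow_le_pow_left₀ (by positivity) h10 2
            gcongr
        _ = 4 * C * τ ^ 2 * (1 / (1 + (i : ℝ)) ^ 2) := by
            field_simp
            ring
    refine (Finset.sum_le_sum h1).trans ?_
    rw [← Finset.mul_sum]
    have h12 := T14_sq ((s.sup fun j => ⌊|l j - τ|⌋₊) + 1)
    have h13 : (0 : ℝ) ≤ 4 * C * τ ^ 2 := by positivity
    calc _ ≤ 4 * C * τ ^ 2 * 2 := mul_le_mul_of_nonneg_left h12 h13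
      _ = 8 * C * τ ^ 2 := by ring
  have hs : Summable (fun j => 1 / (1 + |l j - τ|) ^ 4) :=
    summable_of_sum_le h0 key
  exact ⟨hs, hs.tsum_le_of_sum_le key⟩

theorem T14_wint : ∃ K0 : ℝ, 0 ≤ K0 ∧ ∀ τ : ℝ, 1 ≤ τ →
    IntegrableOn (fun y : ℝ => y / (1 + |y - τ|) ^ 8) (Ioi 0) ∧
      ∫ y in Ioi (0 : ℝ), y / (1 + |y - τ|) ^ 8 ≤ K0 * τ := by
  have hi : Integrable fun x : ℝ => (1 + ‖x‖) ^ (-(2 : ℝ)) :=
    integrable_one_add_norm (by simp)
  refine ⟨∫ x : ℝ, (1 + ‖x‖) ^ (-(2 : ℝ)), integral_nonneg fun x => by positivity,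
    fun τ hτ => ?_⟩
  have hi2 : Integrable fun y : ℝ => (1 + ‖y - τ‖) ^ (-(2 : ℝ)) := hi.comp_sub_right τ
  have hpt : ∀ y ∈ Ioi (0 : ℝ), y / (1 + |y - τ|) ^ 8 ≤ τ * (1 + ‖y - τ‖) ^ (-(2 : ℝ)) := by
    intro y hy
    have hy0 : (0 : ℝ) < y := hy
    obtain ⟨u, hu⟩ : ∃ u, u = |y - τ| := ⟨_, rfl⟩
    have hu0 : 0 ≤ u := by
      rw [hu]
      exact abs_nonneg _
    rw [Real.norm_eq_abs, ← hu, Real.rpow_neg (by positivity), div_le_iff₀ (by positivity)]
    have h1 : y ≤ τ * (1 + u) := by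
      have h2 := le_abs_self (y - τ)
      rw [← hu] at h2
      nlinarith
    have h3 : ((1 + u) ^ (2 : ℝ))⁻¹ * (1 + u) ^ 8 = (1 + u) ^ 6 := by
      have h4 : (1 + u) ^ (2 : ℝ) = (1 + u) ^ 2 := by
        rw [← Real.rpow_natCast]
        norm_num
      rw [h4, inv_mul_eq_div, div_eq_iff (by positivity)]
      ring
    rw [mul_assoc, h3]
    refine h1.trans (mul_le_mul_of_nonneg_left ?_ (by linarith))
    have h5 : (1 + u) ^ 1 ≤ (1 + u) ^ 6 := pow_le_pow_right₀ (by linarith) (by norm_num)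
    rwa [pow_one] at h5
  have hint : IntegrableOn (fun y : ℝ => y / (1 + |y - τ|) ^ 8) (Ioi 0) := by
    refine Integrable.mono' (hi2.const_mul τ).integrableOn ?_ ?_
    · apply Continuous.aestronglyMeasurable
      apply Continuous.div continuous_id (by fun_prop)
      intro y
      positivity
    · refine (ae_restrict_iff' measurableSet_Ioi).2 (Eventually.of_forall fun y hy => ?_)
      have hy0 : (0 : ℝ) < y := hy
      rw [Real.norm_of_nonneg (by positivity)]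
      exact hpt y hy
  refine ⟨hint, ?_⟩
  calc ∫ y in Ioi (0 : ℝ), y / (1 + |y - τ|) ^ 8
      ≤ ∫ y in Ioi (0 : ℝ), τ * (1 + ‖y - τ‖) ^ (-(2 : ℝ)) :=
        setIntegral_mono_on hint (hi2.const_mul τ).integrableOn measurableSet_Ioi hpt
    _ ≤ ∫ y : ℝ, τ * (1 + ‖y - τ‖) ^ (-(2 : ℝ)) :=
        setIntegral_le_integral (hi2.const_mul τ) (Eventually.of_forall fun y => by positivity)
    _ = (∫ x : ℝ, (1 + ‖x‖) ^ (-(2 : ℝ))) * τ := by
        rw [integral_const_mul, integral_sub_right_eq_self (fun x : ℝ => (1 + ‖x‖) ^ (-(2 : ℝ))) τ]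
        ring

/-- the sum over the levels minus the identity term for two test functions -/
theorem T14_pair : ∃ K0 : ℝ, 0 ≤ K0 ∧ ∀ (l : ℕ → ℝ) (C : ℝ), 0 ≤ C → (∀ j, 0 ≤ l j) →
    (∀ y : ℝ, 1 ≤ y → ({j | l j ≤ y} : Set ℕ).Finite ∧
      (({j | l j ≤ y} : Set ℕ).ncard : ℝ) ≤ C * y ^ 2) → ∀ τ : ℝ, 1 ≤ τ →
    ∀ (f g : ℝ → ℝ) (Kf K : ℝ), Continuous f → Continuous g →
    (∀ y, 0 ≤ y → |f y| ≤ Kf / (1 + |y - τ|) ^ 8) →
    (∀ y, 0 ≤ y → |f y - g y| ≤ K / (1 + |y - τ|) ^ 8) →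
    |(∑' j, f (l j) - 1 / (2 * Real.pi) * ∫ y in Ioi (0 : ℝ), f y * y) -
      (∑' j, g (l j) - 1 / (2 * Real.pi) * ∫ y in Ioi (0 : ℝ), g y * y)| ≤
      K * (8 * C * τ ^ 2 + K0 * τ) := by
  obtain ⟨K0, hK0, hw⟩ := T14_wint
  refine ⟨K0, hK0, fun l C hC hl hcnt τ hτ f g Kf K hf hg hfb hfg => ?_⟩
  obtain ⟨hs, hs2⟩ := T14_levels hC hcnt hτ
  obtain ⟨hwi, hw2⟩ := hw τ hτ
  have hK : 0 ≤ K := by
    have h1 := (abs_nonneg _).trans (hfg 0 le_rfl)
    rwa [le_div_iff₀ (by positivity), zero_mul] at h1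
  have hKf : 0 ≤ Kf := by
    have h1 := (abs_nonneg _).trans (hfb 0 le_rfl)
    rwa [le_div_iff₀ (by positivity), zero_mul] at h1
  have hw4 : ∀ (B : ℝ), 0 ≤ B → ∀ y : ℝ, B / (1 + |y - τ|) ^ 8 ≤ B * (1 / (1 + |y - τ|) ^ 4) := by
    intro B hB y
    rw [mul_one_div]
    apply div_le_div_of_nonneg_left hB (by positivity)
    exact pow_le_pow_right₀ (by linarith [abs_nonneg (y - τ)]) (by norm_num)
  have sf : Summable fun j => f (l j) :=
    Summable.of_norm_bounded (hs.mul_left Kf) fun j => by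
      rw [Real.norm_eq_abs]
      exact (hfb _ (hl j)).trans (hw4 Kf hKf _)
  have sd : Summable fun j => f (l j) - g (l j) :=
    Summable.of_norm_bounded (hs.mul_left K) fun j => by
      rw [Real.norm_eq_abs]
      exact (hfg _ (hl j)).trans (hw4 K hK _)
  have sg : Summable fun j => g (l j) := by
    have h1 := sf.sub sd
    refine h1.congr fun j => ?_
    ring
  have e1 : |∑' j, f (l j) - ∑' j, g (l j)| ≤ K * (8 * C * τ ^ 2) := by
    rw [← sf.tsum_sub sg]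
    have h1 : ‖∑' j, (f (l j) - g (l j))‖ ≤ ∑' j, K * (1 / (1 + |l j - τ|) ^ 4) := by
      refine tsum_of_norm_bounded (hs.mul_left K).hasSum fun j => ?_
      rw [Real.norm_eq_abs]
      exact (hfg _ (hl j)).trans (hw4 K hK _)
    rw [Real.norm_eq_abs, tsum_mul_left] at h1
    exact h1.trans (mul_le_mul_of_nonneg_left hs2 hK)
  have hint : ∀ (F : ℝ → ℝ) (B : ℝ), Continuous F →
      (∀ y, 0 ≤ y → |F y| ≤ B / (1 + |y - τ|) ^ 8) →
      IntegrableOn (fun y => F y * y) (Ioi 0) ∧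
        |∫ y in Ioi (0 : ℝ), F y * y| ≤ B * (K0 * τ) := by
    intro F B hF hB
    have hB0 : 0 ≤ B := by
      have h1 := (abs_nonneg _).trans (hB 0 le_rfl)
      rwa [le_div_iff₀ (by positivity), zero_mul] at h1
    have hpt : ∀ y ∈ Ioi (0 : ℝ), ‖F y * y‖ ≤ B * (y / (1 + |y - τ|) ^ 8) := by
      intro y hy
      have hy0 : (0 : ℝ) < y := hy
      rw [norm_mul, Real.norm_eq_abs, Real.norm_of_nonneg hy0.le]
      calc |F y| * y ≤ B / (1 + |y - τ|) ^ 8 * y :=
            mul_le_mul_of_nonneg_right (hB y hy0.le) hy0.le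
        _ = B * (y / (1 + |y - τ|) ^ 8) := by ring
    refine ⟨Integrable.mono' (hwi.const_mul B) (hF.mul continuous_id).aestronglyMeasurable
      ((ae_restrict_iff' measurableSet_Ioi).2 (Eventually.of_forall hpt)), ?_⟩
    have h2 : ‖∫ y in Ioi (0 : ℝ), F y * y‖ ≤
        ∫ y in Ioi (0 : ℝ), B * (y / (1 + |y - τ|) ^ 8) :=
      norm_integral_le_of_norm_le (hwi.const_mul B)
        ((ae_restrict_iff' measurableSet_Ioi).2 (Eventually.of_forall hpt))
    rw [Real.norm_eq_abs, integral_const_mul] at h2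
    exact h2.trans (mul_le_mul_of_nonneg_left hw2 hB0)
  have i1 := hint f Kf hf hfb
  have i2 := hint (fun y => f y - g y) K (hf.sub hg) hfg
  have i3 : IntegrableOn (fun y => g y * y) (Ioi 0) := by
    refine (i1.1.sub i2.1).congr (Eventually.of_forall fun y => ?_)
    show f y * y - (f y - g y) * y = g y * y
    ring
  have e2 : |(∫ y in Ioi (0 : ℝ), f y * y) - ∫ y in Ioi (0 : ℝ), g y * y| ≤ K * (K0 * τ) := by
    rw [← integral_sub i1.1 i3]
    refine le_trans (le_of_eq ?_) i2.2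
    congr 2
    ext y
    ring
  have hpi : 0 ≤ 1 / (2 * Real.pi) ∧ 1 / (2 * Real.pi) ≤ 1 := by
    have h3 := Real.pi_gt_three
    refine ⟨by positivity, ?_⟩
    rw [div_le_one (by positivity)]
    linarith
  have e3 : (∑' j, f (l j) - 1 / (2 * Real.pi) * ∫ y in Ioi (0 : ℝ), f y * y) -
      (∑' j, g (l j) - 1 / (2 * Real.pi) * ∫ y in Ioi (0 : ℝ), g y * y) =
      (∑' j, f (l j) - ∑' j, g (l j)) -
        1 / (2 * Real.pi) * ((∫ y in Ioi (0 : ℝ), f y * y) - ∫ y in Ioi (0 : ℝ), g y * y) := by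
    ring
  rw [e3]
  refine (abs_sub _ _).trans ?_
  rw [abs_mul, abs_of_nonneg hpi.1]
  have e4 : 1 / (2 * Real.pi) *
      |(∫ y in Ioi (0 : ℝ), f y * y) - ∫ y in Ioi (0 : ℝ), g y * y| ≤ K * (K0 * τ) :=
    (mul_le_of_le_one_left (abs_nonneg _) hpi.2).trans e2
  linarith

theorem T14_gauss {f : ℝ → ℂ} (hf : Continuous f) {c h K : ℝ} (hh : 1 ≤ h) (hK : 0 ≤ K)
    (h0 : ∀ t, |t| ≤ c + 1 → f t = 0)
    (h1 : ∀ t, ‖f t‖ ≤ K * Real.exp (-(h * max 0 (|t| - c)) ^ 2)) :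
    Integrable f ∧ ∫ t, ‖f t‖ ≤ 6 * K * Real.exp (-(h ^ 2 / 2)) := by
  have hG : Integrable fun x : ℝ => Real.exp (-(1 / 2) * x ^ 2) :=
    integrable_exp_neg_mul_sq (by norm_num)
  have hG1 : Integrable fun t : ℝ => Real.exp (-(1 / 2) * (t - c) ^ 2) := hG.comp_sub_right c
  have hG2 : Integrable fun t : ℝ => Real.exp (-(1 / 2) * (t + c) ^ 2) := hG.comp_add_right c
  have hpt : ∀ t, ‖f t‖ ≤ K * Real.exp (-(h ^ 2 / 2)) *
      (Real.exp (-(1 / 2) * (t - c) ^ 2) + Real.exp (-(1 / 2) * (t + c) ^ 2)) := by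
    intro t
    rcases le_or_gt |t| (c + 1) with ht | ht
    · rw [h0 t ht, norm_zero]
      positivity
    · refine (h1 t).trans ?_
      obtain ⟨s, hs⟩ : ∃ s, s = |t| - c := ⟨_, rfl⟩
      have hs1 : 1 < s := by
        rw [hs]
        linarith
      rw [← hs, max_eq_right (by linarith)]
      have e1 : Real.exp (-(h * s) ^ 2) ≤ Real.exp (-(h ^ 2 / 2)) * Real.exp (-(1 / 2) * s ^ 2) := by
        rw [← Real.exp_add]
        apply Real.exp_le_exp.2
        have a1 : 1 ≤ h ^ 2 := one_le_pow₀ hh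
        have a2 : 1 ≤ s ^ 2 := one_le_pow₀ hs1.le
        have a3 : h ^ 2 ≤ h ^ 2 * s ^ 2 := le_mul_of_one_le_right (by positivity) a2
        have a4 : s ^ 2 ≤ h ^ 2 * s ^ 2 := le_mul_of_one_le_left (by positivity) a1
        rw [mul_pow]
        linarith
      have e2 : Real.exp (-(1 / 2) * s ^ 2) ≤
          Real.exp (-(1 / 2) * (t - c) ^ 2) + Real.exp (-(1 / 2) * (t + c) ^ 2) := by
        rcases le_total 0 t with h2 | h2
        · have e3 : s ^ 2 = (t - c) ^ 2 := by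
            rw [hs, abs_of_nonneg h2]
          rw [e3]
          linarith [Real.exp_pos (-(1 / 2) * (t + c) ^ 2)]
        · have e3 : s ^ 2 = (t + c) ^ 2 := by
            rw [hs, abs_of_nonpos h2]
            ring
          rw [e3]
          linarith [Real.exp_pos (-(1 / 2) * (t - c) ^ 2)]
      calc K * Real.exp (-(h * s) ^ 2)
          ≤ K * (Real.exp (-(h ^ 2 / 2)) * Real.exp (-(1 / 2) * s ^ 2)) :=
            mul_le_mul_of_nonneg_left e1 hK
        _ = K * Real.exp (-(h ^ 2 / 2)) * Real.exp (-(1 / 2) * s ^ 2) := by ring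
        _ ≤ _ := mul_le_mul_of_nonneg_left e2 (by positivity)
  have hb := (hG1.add hG2).const_mul (K * Real.exp (-(h ^ 2 / 2)))
  have hi : Integrable f := Integrable.mono' hb hf.aestronglyMeasurable (Eventually.of_forall hpt)
  refine ⟨hi, (integral_mono hi.norm hb hpt).trans ?_⟩
  have e5 : ∫ t : ℝ, K * Real.exp (-(h ^ 2 / 2)) *
      (Real.exp (-(1 / 2) * (t - c) ^ 2) + Real.exp (-(1 / 2) * (t + c) ^ 2)) =
      K * Real.exp (-(h ^ 2 / 2)) * (√(Real.pi / (1 / 2)) + √(Real.pi / (1 / 2))) := by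
    rw [integral_const_mul, integral_add hG1 hG2,
      integral_sub_right_eq_self (fun x : ℝ => Real.exp (-(1 / 2) * x ^ 2)) c,
      integral_add_right_eq_self (fun x : ℝ => Real.exp (-(1 / 2) * x ^ 2)) c,
      integral_gaussian]
  have e6 : √(Real.pi / (1 / 2)) ≤ 3 := by
    rw [Real.sqrt_le_left (by norm_num)]
    have := Real.pi_lt_four
    linarith
  refine le_trans (le_of_eq e5) ?_
  have e7 : 0 ≤ K * Real.exp (-(h ^ 2 / 2)) := by positivity
  calc K * Real.exp (-(h ^ 2 / 2)) * (√(Real.pi / (1 / 2)) + √(Real.pi / (1 / 2)))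
      ≤ K * Real.exp (-(h ^ 2 / 2)) * 6 := mul_le_mul_of_nonneg_left (by linarith) e7
    _ = 6 * K * Real.exp (-(h ^ 2 / 2)) := by ring

theorem spec_cut (P : ℕ) (hP : 1 ≤ P) : ∃ C0 : ℝ, 0 ≤ C0 ∧ ∀ (hX : Surface Γ D) (m : Mt Γ D) (C : ℝ),
    UC hX m C → ∀ (e : ℝ), 0 < e → e ≤ 1 → 2 ^ P * e ≤ 1 →
    ∀ (a : ℝ → ℂ) (ρ M : ℝ), 0 ≤ ρ → AmpH (2 * P + 8) a ρ M 1 → ∀ (N : ℕ), 8 ≤ N →
    ∀ χ : ℝ → ℝ, CutN N (ρ + 2) χ → ∀ τ : ℝ, 1 ≤ τ →
      |Qs m a τ - Qs m (cta χ (mla P e a)) τ| ≤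
        C0 * (C + 1) * M * (ρ + 1) * τ ^ 2 *
          (e ^ (2 * P) + (N / e) ^ 8 * Real.exp (-(1 / (2 ^ (2 * P + 1) * e ^ 2)))) := by
  obtain ⟨C1, hC1, h1⟩ := mla_hh P hP
  obtain ⟨K0, hK0, hpair⟩ := T14_pair
  obtain ⟨C2, hC2⟩ : ∃ C2 : ℝ, C2 = 256 * (60 * (1 + 18 ^ 8)) := ⟨_, rfl⟩
  have hC20 : 0 ≤ C2 := by
    rw [hC2]
    norm_num
  refine ⟨(C1 + C2) * (8 + K0), by positivity,
    fun hX m C hUC e he he1 hPe a ρ M hρ ha N hN χ hχ τ hτ => ?_⟩
  have hC := hUC.nonneg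
  have hM0 : ∀ t, ‖a t‖ ≤ M := fun t => by
    have := ha.bound 0 (Nat.zero_le _) t
    simpa using this
  have hM : 0 ≤ M := (norm_nonneg _).trans (hM0 0)
  have hai : ∀ k, Integrable (iteratedDeriv k a) := T14_cint ha.smooth ha.supp
  have hfb : ∀ y, 0 ≤ y → |hh (osc a τ) y| ≤ (1024 * ρ * M) / (1 + |y - τ|) ^ 8 := by
    intro y hy
    refine (T14_hh_le ha.smooth (fun k _ => hai k) (by linarith) hy).trans ?_
    apply div_le_div_of_nonneg_right _ (by positivity)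
    have i0 := T14_cle (B := M) hρ 0 ha.smooth ha.supp (fun t => by
      rw [iteratedDeriv_zero]
      exact hM0 t)
    have i8 := T14_cle (B := M) hρ 8 ha.smooth ha.supp (fun t => by
      have := ha.bound 8 (by omega) t
      simpa using this)
    rw [iteratedDeriv_zero] at i0
    linarith
  have hA := mla_EA hP he he1 hρ ha.smooth.continuous ha.conj ha.supp hM0
  obtain ⟨A, hAd⟩ : ∃ A, A = mla P e a := ⟨_, rfl⟩
  have h1' := h1 e he he1 a ρ M hρ ha τ
  rw [← hAd] at hA h1' ⊢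
  have hH : 1 ≤ 1 / e := one_le_one_div he he1
  have hh1 : 1 ≤ 1 / (2 ^ P * e) := one_le_one_div (by positivity) hPe
  have hh0 : 0 ≤ 1 / (2 ^ P * e) := by linarith
  have hcta := cta_amp hA hH hh0 hχ
  have hgs : ContDiff ℝ ∞ (fun s : ℝ => rst A s - cta χ A s) :=
    (rst_smooth hA.diff).sub hcta.smooth
  obtain ⟨G, hG⟩ : ∃ G, G = Real.exp (-((1 / (2 ^ P * e)) ^ 2 / 2)) := ⟨_, rfl⟩
  have hG0 : 0 < G := by
    rw [hG]
    exact Real.exp_pos _
  have hgk : ∀ k ≤ 8, Integrable (iteratedDeriv k (fun s : ℝ => rst A s - cta χ A s)) ∧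
      ∫ t, ‖iteratedDeriv k (fun s : ℝ => rst A s - cta χ A s) t‖ ≤
        6 * (2 * (5 * M) * (2 * (1 / e) * N + 16 * N) ^ k) * G := by
    intro k hk
    rw [hG]
    have ht := fun t => cta_tiny (a := A) hA hρ hH hh0 hχ (hk.trans hN) t
    exact T14_gauss (c := ρ + 1) (T14_smooth hgs k).continuous hh1 (by positivity)
      (fun t htt => (ht t).1 (by linarith)) (fun t => (ht t).2)
  have hci : Integrable (cta χ A) := by
    have := T14_cint hcta.smooth hcta.supp 0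
    rwa [iteratedDeriv_zero] at this
  have hgi : Integrable (fun s : ℝ => rst A s - cta χ A s) := by
    have := (hgk 0 (by norm_num)).1
    rwa [iteratedDeriv_zero] at this
  have hri : Integrable (rst A) := by
    refine (hgi.add hci).congr (Eventually.of_forall fun t => ?_)
    show (rst A t - cta χ A t) + cta χ A t = rst A t
    ring
  obtain ⟨E, hE⟩ : ∃ E, E = (N / e) ^ 8 * Real.exp (-(1 / (2 ^ (2 * P + 1) * e ^ 2))) := ⟨_, rfl⟩
  have hGE : (N / e) ^ 8 * G = E := by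
    rw [hE, hG]
    congr 3
    rw [div_pow, one_pow, mul_pow, div_div]
    congr 1
    ring
  rw [← hE]
  have hE0 : 0 ≤ E := by
    rw [hE]
    positivity
  have hNe : (1 : ℝ) ≤ N / e := by
    rw [le_div_iff₀ he, one_mul]
    have : (8 : ℝ) ≤ N := by exact_mod_cast hN
    linarith
  have hd2 : ∀ y, 0 ≤ y → |hh (osc (rst A) τ) y - hh (osc (cta χ A) τ) y| ≤
      (C2 * M * E) / (1 + |y - τ|) ^ 8 := by
    intro y hy
    rw [T14_hh_sub hri hci]
    refine (T14_hh_le hgs (fun k hk => (hgk k hk).1) (by linarith) hy).trans ?_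
    apply div_le_div_of_nonneg_right _ (by positivity)
    have i0 := (hgk 0 (by norm_num)).2
    have i8 := (hgk 8 le_rfl).2
    rw [iteratedDeriv_zero, pow_zero, mul_one] at i0
    have hq : 2 * (1 / e) * N + 16 * N ≤ 18 * (N / e) := by
      have hN0 : (0 : ℝ) ≤ N := Nat.cast_nonneg N
      have : (N : ℝ) ≤ N / e := by
        rw [le_div_iff₀ he]
        exact mul_le_of_le_one_right hN0 he1
      have e1 : 2 * (1 / e) * N = 2 * (N / e) := by ring
      rw [e1]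
      linarith
    have hq8 : (2 * (1 / e) * N + 16 * N) ^ 8 ≤ 18 ^ 8 * (N / e) ^ 8 := by
      rw [← mul_pow]
      exact pow_le_pow_left₀ (by positivity) hq 8
    have hN8 : (1 : ℝ) ≤ (N / e) ^ 8 := one_le_pow₀ hNe
    have hMG : 0 ≤ M * G := by positivity
    rw [← hGE, hC2]
    have j0 : 6 * (2 * (5 * M)) * G ≤ 60 * (M * G) * (N / e) ^ 8 := by
      calc 6 * (2 * (5 * M)) * G = 60 * (M * G) * 1 := by ring
        _ ≤ 60 * (M * G) * (N / e) ^ 8 := by gcongr
    have j8 : 6 * (2 * (5 * M) * (2 * (1 / e) * N + 16 * N) ^ 8) * G ≤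
        60 * (M * G) * (18 ^ 8 * (N / e) ^ 8) := by
      calc 6 * (2 * (5 * M) * (2 * (1 / e) * N + 16 * N) ^ 8) * G =
          60 * (M * G) * (2 * (1 / e) * N + 16 * N) ^ 8 := by ring
        _ ≤ _ := by gcongr
    calc 256 * ((∫ t, ‖rst A t - cta χ A t‖) +
          ∫ t, ‖iteratedDeriv 8 (fun s : ℝ => rst A s - cta χ A s) t‖)
        ≤ 256 * (60 * (M * G) * (N / e) ^ 8 + 60 * (M * G) * (18 ^ 8 * (N / e) ^ 8)) := by
          have := add_le_add (i0.trans j0) (i8.trans j8)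
          linarith
      _ = 256 * (60 * (1 + 18 ^ 8)) * M * ((N / e) ^ 8 * G) := by ring
  have hfg : ∀ y, 0 ≤ y → |hh (osc a τ) y - hh (osc (cta χ A) τ) y| ≤
      (C1 * M * (ρ + 1) * e ^ (2 * P) + C2 * M * E) / (1 + |y - τ|) ^ 8 := by
    intro y hy
    have a1 := h1' y hτ hy
    have a2 := hd2 y hy
    rw [add_div]
    exact (abs_sub_le _ (hh (osc (rst A) τ) y) _).trans (add_le_add a1 a2)
  have ha0 : Integrable a := by
    have := hai 0
    rwa [iteratedDeriv_zero] at this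
  have hlam : ∀ j, 0 ≤ FG33.lam m j := fun j => by
    unfold FG33.lam
    exact Real.sqrt_nonneg _
  have hfin := hpair (FG33.lam m) C hC hlam hUC.cnt τ hτ (hh (osc a τ))
    (hh (osc (cta χ A) τ)) (1024 * ρ * M) (C1 * M * (ρ + 1) * e ^ (2 * P) + C2 * M * E)
    (T14_hh_cont ha0 τ) (T14_hh_cont hci τ) hfb hfg
  refine hfin.trans ?_
  have b1 : C1 * M * (ρ + 1) * e ^ (2 * P) + C2 * M * E ≤
      (C1 + C2) * M * (ρ + 1) * (e ^ (2 * P) + E) := by
    have e0 : 0 ≤ e ^ (2 * P) := by positivity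
    have b2 : C2 * M * E ≤ C2 * M * (ρ + 1) * E := by
      have : C2 * M * E * 1 ≤ C2 * M * E * (ρ + 1) :=
        mul_le_mul_of_nonneg_left (by linarith) (by positivity)
      linarith
    have b3 : 0 ≤ C1 * M * (ρ + 1) * E := by positivity
    have b4 : 0 ≤ C2 * M * (ρ + 1) * e ^ (2 * P) := by positivity
    linarith
  have b5 : 8 * C * τ ^ 2 + K0 * τ ≤ (8 + K0) * (C + 1) * τ ^ 2 := by
    have b6 : τ ≤ τ ^ 2 := by nlinarith
    have b7 : K0 * τ ≤ K0 * τ ^ 2 := mul_le_mul_of_nonneg_left b6 hK0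
    have b8 : 0 ≤ K0 * C * τ ^ 2 := by positivity
    have b9 : 0 ≤ 8 * τ ^ 2 := by positivity
    linarith
  calc (C1 * M * (ρ + 1) * e ^ (2 * P) + C2 * M * E) * (8 * C * τ ^ 2 + K0 * τ)
      ≤ ((C1 + C2) * M * (ρ + 1) * (e ^ (2 * P) + E)) * ((8 + K0) * (C + 1) * τ ^ 2) := by
        apply mul_le_mul b1 b5 (by positivity) (by positivity)
    _ = (C1 + C2) * (8 + K0) * (C + 1) * M * (ρ + 1) * τ ^ 2 * (e ^ (2 * P) + E) := by ring

end B36
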