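import Pool.Agent.LibBE36T.T4a
import Pool.Agent.LibBR70.H1p
import Pool.Agent.LibBR70.PX8
import Pool.Agent.LibBGM20.D1
import Pool.Agent.LibBGM20.H1B
import Pool.Agent.LibBGM20.A5
import Pool.Agent.LibTR29.T2
import Pool.Agent.LibTR29.T4

/-! ROW T4b : uniform constants in a conformal family. MEDIUM.
PLAN. If no metric of `Mt` is in the family there is nothing to prove. Otherwise fix one, `m1 = e^(u1) m0`. For every other `m = e^u m0` of the family `m = e^(u - u1) m1`, `|u - u1| ≤ 2M`; `u - u1` is smooth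
(`e^(u-u1) = (m z).1/(m1 z).1`). (c) `cnt`: `GWin.Lev (FG33.lam m1)` (`TR.Lev_of` with `exists_Bas`) gives `#{j : lam m1 j ≤ y} ≤ C y²`, and `{j | lam m j ≤ y} ⊆ {j | lam m1 j ≤ e^M y}` (`lam_conf`).
`sum`: look at the proof of `TR.wsum`/`zsum3`: `wgt y τ ≤ 8/τ * 1/(y+1)^3` (`wgt_le`), and `∑ 1/(lam m j + 1)^3 ≤ e^(3M) ∑ 1/(lam m1 j + 1)^3` by `lam_conf`.
(d) `ball`: copy the proof of `BR.PX8_cover`, `PX8_ball` (LibBR70/PX8): the constant is that of `count_deck` for `m`. `count_deck` for the metric `m`: `eu (Vx m x (γ • y)) = ds m x (γ • y)`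
(LibBR70, `ds_eq`) `≥ e^(-M/2) ds m0 x (γ • y)` (lengths of curves for `e^u m0` are at least `e^(-M/2)` times those of `m0`: see `D1_gen_ds`/`D1_scale` in LibBGM20/D1 or LibB35), so the set of `m` and `R` is contained
in that of `m0` and `e^(M/2) R`, `count_deck` for `m0`. -/

open MeasureTheory Set Filter Topology
open scoped ContDiff

namespace B36

open BGS BR TR BE73

variable {Γ : Type} [Group Γ] [MulAction Γ Pl] {D : Set Pl}

private theorem T4b_smooth {m m' : Pl → Co} (hm : ContDiff ℝ ∞ m) (hm' : ContDiff ℝ ∞ m')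
    (hp : ∀ z, 0 < (m z).1) (hp' : ∀ z, 0 < (m' z).1) {u : Pl → ℝ}
    (h : ∀ z, m' z = Real.exp (u z) • m z) : ContDiff ℝ ∞ u := by
  have e : u = fun z => Real.log ((m' z).1) - Real.log ((m z).1) := by
    funext z
    have h1 : (m' z).1 = Real.exp (u z) * (m z).1 := by
      rw [h z, Prod.smul_fst, smul_eq_mul]
    rw [h1, Real.log_mul (Real.exp_pos _).ne' (hp z).ne', Real.log_exp]
    ring
  rw [e]
  exact ((contDiff_fst.comp hm').log fun z => (hp' z).ne').sub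
    ((contDiff_fst.comp hm).log fun z => (hp z).ne')

private theorem T4b_ds {m0 m : Pl → Co} (hX : Surface Γ D) (h0 : HM Γ m0) (hm : HM Γ m)
    {u : Pl → ℝ} (huc : ContDiff ℝ ∞ u) {M : ℝ} (hu : ∀ z, |u z| ≤ M)
    (h : ∀ z, m z = Real.exp (u z) • m0 z) (x y : Pl) :
    eu (Vx m0 x y) ≤ Real.exp (M / 2) * eu (Vx m x y) := by
  have key : ∀ {n : Pl → Co}, HM Γ n → BGM.ds n x y = eu (Vx n x y) := by
    intro n hn
    obtain ⟨a, b, ha, hab, hc⟩ := curv_bounds hX hn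
    exact BGM.ds_eq (BGM.had_of hX hn (ha.trans_le hab) fun z => (hc z).1) x y
  have h1 := BGM.D1_ds (m := m0) (f := fun _ => 0) (f' := u) ⟨h0.smooth, h0.pos⟩ contDiff_const huc
    (ε := M) (fun z => by have := (abs_le.1 (hu z)).1; linarith) x y
  have h2 : BGM.cf u m0 = m := by
    funext z
    exact (h z).symm
  rw [BGM.D1_zero, h2, key h0, key hm] at h1
  exact h1

private theorem T4b_count {m0 m : Pl → Co} (hX : Surface Γ D) (h0 : HM Γ m0) (hm : HM Γ m)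
    {u : Pl → ℝ} (huc : ContDiff ℝ ∞ u) {M : ℝ} (hu : ∀ z, |u z| ≤ M)
    (h : ∀ z, m z = Real.exp (u z) • m0 z) {C : ℝ}
    (hC : ∀ R : ℝ, 0 ≤ R →
      {γ : Γ | ∃ x ∈ closure D, ∃ y ∈ closure D, eu (Vx m0 x (γ • y)) ≤ R}.Finite ∧
      ({γ : Γ | ∃ x ∈ closure D, ∃ y ∈ closure D, eu (Vx m0 x (γ • y)) ≤ R}.ncard : ℝ) ≤
        C * Real.exp (C * R)) :
    ∀ R : ℝ, 0 ≤ R →
      {γ : Γ | ∃ x ∈ closure D, ∃ y ∈ closure D, eu (Vx m x (γ • y)) ≤ R}.Finite ∧
      ({γ : Γ | ∃ x ∈ closure D, ∃ y ∈ closure D, eu (Vx m x (γ • y)) ≤ R}.ncard : ℝ) ≤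
        (|C| * Real.exp (M / 2)) * Real.exp ((|C| * Real.exp (M / 2)) * R) := by
  intro R hR
  have hM : 0 ≤ M := (abs_nonneg _).trans (hu 0)
  have he1 : 1 ≤ Real.exp (M / 2) := Real.one_le_exp (by linarith)
  have he0 : 0 < Real.exp (M / 2) := Real.exp_pos _
  obtain ⟨h1, h2⟩ := hC (Real.exp (M / 2) * R) (by positivity)
  have hsub : {γ : Γ | ∃ x ∈ closure D, ∃ y ∈ closure D, eu (Vx m x (γ • y)) ≤ R} ⊆
      {γ : Γ | ∃ x ∈ closure D, ∃ y ∈ closure D, eu (Vx m0 x (γ • y)) ≤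
        Real.exp (M / 2) * R} := by
    rintro γ ⟨x, hx, y, hy, hxy⟩
    exact ⟨x, hx, y, hy, (T4b_ds hX h0 hm huc hu h x (γ • y)).trans
      (mul_le_mul_of_nonneg_left hxy he0.le)⟩
  refine ⟨h1.subset hsub, ?_⟩
  have h3 : (({γ : Γ | ∃ x ∈ closure D, ∃ y ∈ closure D, eu (Vx m x (γ • y)) ≤ R}.ncard : ℕ) : ℝ) ≤
      ({γ : Γ | ∃ x ∈ closure D, ∃ y ∈ closure D, eu (Vx m0 x (γ • y)) ≤
        Real.exp (M / 2) * R}.ncard : ℕ) := by
    exact_mod_cast Set.ncard_le_ncard hsub h1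
  refine (h3.trans h2).trans ?_
  have h4 : C ≤ |C| * Real.exp (M / 2) :=
    (le_abs_self C).trans (le_mul_of_one_le_right (abs_nonneg C) he1)
  have h5 : C * (Real.exp (M / 2) * R) ≤ (|C| * Real.exp (M / 2)) * R := by
    rw [← mul_assoc]
    exact mul_le_mul_of_nonneg_right (mul_le_mul_of_nonneg_right (le_abs_self C) he0.le) hR
  exact mul_le_mul h4 (Real.exp_le_exp.2 h5) (Real.exp_pos _).le (by positivity)

private theorem T4b_cover (hX : Surface Γ D) (m : Mt Γ D) {C : ℝ}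
    (hC : ∀ R : ℝ, 0 ≤ R →
      {γ : Γ | ∃ x ∈ closure D, ∃ y ∈ closure D, eu (Vx m.1.1 x (γ • y)) ≤ R}.Finite ∧
      ({γ : Γ | ∃ x ∈ closure D, ∃ y ∈ closure D, eu (Vx m.1.1 x (γ • y)) ≤ R}.ncard : ℝ) ≤
        C * Real.exp (C * R)) :
    ∀ f : Pl → ℝ, Continuous f → (∀ z, 0 ≤ f z) →
      (∀ (γ : Γ) z, f (γ • z) = f z) → ∀ ρ : ℝ, 0 ≤ ρ → ∀ x ∈ closure D,
      ∫ v in {v | sg v ≤ ρ ^ 2}, f (Ex m.1.1 x v) * wt (Gx m.1.1 x) v ≤
        |C| * Real.exp (|C| * ρ) * ∫ z in D, f z * √(dt (m.1.1 z)) := by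
  have hm := hm_of_Mt m
  intro f hf hf0 hfi ρ hρ x hx
  obtain ⟨hfin, hcard⟩ := hC ρ hρ
  set T : Set Γ := {γ : Γ | ∃ x ∈ closure D, ∃ y ∈ closure D, eu (Vx m.1.1 x (γ • y)) ≤ ρ} with hT
  set S := hfin.toFinset with hS
  set B : Set Pl := {v : Pl | sg v ≤ ρ ^ 2} with hB
  set K' : Set Pl := Ex m.1.1 x '' B with hK'
  have hinj : Function.Injective (Ex m.1.1 x) := (Ex_bij hX hm x).1
  have hcont : Continuous fun z => f z * √(dt (m.1.1 z)) := hf.mul (BGR_rho m)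
  have h1 : ∫ v in B, f (Ex m.1.1 x v) * wt (Gx m.1.1 x) v =
      ∫ v, (indicator K' f) (Ex m.1.1 x v) * wt (Gx m.1.1 x) v := by
    rw [← integral_indicator (PX8_B_meas ρ)]
    congr 1
    funext v
    by_cases hv : v ∈ B
    · rw [indicator_of_mem hv, indicator_of_mem (mem_image_of_mem _ hv)]
    · rw [indicator_of_notMem hv, indicator_of_notMem, zero_mul]
      rintro ⟨w, hw, hwv⟩
      exact hv (hinj hwv ▸ hw)
  have h2 := cv hX hm x (indicator K' f)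
  rw [h1, ← h2]
  have h3 : ∀ z, indicator K' f z * √(dt (m.1.1 z)) ≤
      ∑ γ ∈ S, indicator ((fun w : Pl => γ • w) '' D) (fun z => f z * √(dt (m.1.1 z))) z := by
    intro z
    have hnn : ∀ γ ∈ S, 0 ≤ indicator ((fun w : Pl => γ • w) '' D)
        (fun z => f z * √(dt (m.1.1 z))) z := by
      intro γ _
      apply indicator_nonneg
      intro w _
      exact mul_nonneg (hf0 w) (Real.sqrt_nonneg _)
    by_cases hz : z ∈ K'
    · rw [indicator_of_mem hz]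
      obtain ⟨v, hv, hvz⟩ := hz
      obtain ⟨γ, hγ, -⟩ := hX.orbit z
      have hzγ : z ∈ (fun w : Pl => γ⁻¹ • w) '' D := ⟨γ • z, hγ, by simp⟩
      have hγS : γ⁻¹ ∈ S := by
        rw [hS, Finite.mem_toFinset]
        refine ⟨x, hx, γ • z, subset_closure hγ, ?_⟩
        rw [inv_smul_smul, ← hvz, Vx_Ex hX hm]
        unfold eu
        rw [Real.sqrt_le_left hρ]
        exact hv
      refine le_trans (le_of_eq ?_) (Finset.single_le_sum hnn hγS)
      rw [indicator_of_mem hzγ]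
    · rw [indicator_of_notMem hz, zero_mul]
      exact Finset.sum_nonneg hnn
  have hint : ∀ γ : Γ, IntegrableOn (fun z => f z * √(dt (m.1.1 z)))
      ((fun w : Pl => γ • w) '' D) := by
    intro γ
    have hc := (Cmp_compact hX).image (hX.smooth γ).continuous
    exact (hcont.continuousOn.integrableOn_compact hc).mono_set (image_mono subset_closure)
  have hint' : ∀ γ ∈ S, Integrable (indicator ((fun w : Pl => γ • w) '' D)
      (fun z => f z * √(dt (m.1.1 z)))) := by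
    intro γ _
    rw [integrable_indicator_iff (PER_meas hX γ)]
    exact hint γ
  have h4 : ∫ z, indicator K' f z * √(dt (m.1.1 z)) ≤
      ∫ z, ∑ γ ∈ S, indicator ((fun w : Pl => γ • w) '' D) (fun z => f z * √(dt (m.1.1 z))) z := by
    apply integral_mono_of_nonneg
    · refine Eventually.of_forall fun z => ?_
      exact mul_nonneg (indicator_nonneg (fun w _ => hf0 w) z) (Real.sqrt_nonneg _)
    · exact integrable_finsetSum S hint'
    · exact Eventually.of_forall h3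
  refine h4.trans ?_
  rw [integral_finsetSum S hint']
  have h5 : ∀ γ ∈ S, ∫ z, indicator ((fun w : Pl => γ • w) '' D)
      (fun z => f z * √(dt (m.1.1 z))) z = ∫ z in D, f z * √(dt (m.1.1 z)) := by
    intro γ _
    rw [integral_indicator (PER_meas hX γ)]
    have := PER_one hX m γ (f := fun _ => 1) hfi
    simpa only [one_mul] using this
  rw [Finset.sum_congr rfl h5, Finset.sum_const, nsmul_eq_mul]
  have hcS : (S.card : ℝ) ≤ |C| * Real.exp (|C| * ρ) := by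
    rw [hS, ← Set.ncard_eq_toFinset_card T hfin]
    refine hcard.trans ?_
    apply mul_le_mul (le_abs_self C) _ (Real.exp_pos _).le (abs_nonneg C)
    exact Real.exp_le_exp.2 (mul_le_mul_of_nonneg_right (le_abs_self C) hρ)
  apply mul_le_mul_of_nonneg_right hcS
  apply integral_nonneg
  intro z
  exact mul_nonneg (hf0 z) (Real.sqrt_nonneg _)

private theorem T4b_lev {κ : ℕ → ℝ} {c : ℝ} (hc : 0 < c) (nn : ∀ n, 0 ≤ κ n)
    (hg : ∀ n : ℕ, c * √n ≤ κ n + 1) :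
    (∀ τ : ℝ, 1 ≤ τ → Summable (fun j => wgt (κ j) τ) ∧
      ∑' j, wgt (κ j) τ ≤ (8 * ∑' n : ℕ, ((if n = 0 then (1 : ℝ) else 0) +
        1 / c ^ 3 * (1 / (n : ℝ) ^ (3 / 2 : ℝ)))) / τ) ∧
    ∀ y : ℝ, 1 ≤ y → ({j | κ j ≤ y} : Set ℕ).Finite ∧
      (({j | κ j ≤ y} : Set ℕ).ncard : ℝ) ≤ (4 / c ^ 2 + 1) * y ^ 2 := by
  constructor
  · have hB : Summable (fun n : ℕ => (if n = 0 then (1 : ℝ) else 0) +
        1 / c ^ 3 * (1 / (n : ℝ) ^ (3 / 2 : ℝ))) :=
      (hasSum_ite_eq 0 (1 : ℝ)).summable.add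
        ((Real.summable_one_div_nat_rpow.mpr (by norm_num)).mul_left _)
    have hle : ∀ n : ℕ, 1 / (κ n + 1) ^ 3 ≤ (if n = 0 then (1 : ℝ) else 0) +
        1 / c ^ 3 * (1 / (n : ℝ) ^ (3 / 2 : ℝ)) := by
      intro n
      have h2 := nn n
      rcases Nat.eq_zero_or_pos n with hn | hn
      · rw [if_pos hn]
        have h3 : 1 / (κ n + 1) ^ 3 ≤ 1 := by
          rw [div_le_one (by positivity)]
          exact one_le_pow₀ (by linarith)
        have h4 : 0 ≤ 1 / c ^ 3 * (1 / (n : ℝ) ^ (3 / 2 : ℝ)) := by positivity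
        linarith
      · rw [if_neg (by omega), zero_add]
        have hn' : (1 : ℝ) ≤ n := by exact_mod_cast hn
        have h3 : (c * √n) ^ 3 ≤ (κ n + 1) ^ 3 := pow_le_pow_left₀ (by positivity) (hg n) 3
        have h4 : (c * √(n : ℝ)) ^ 3 = c ^ 3 * (n : ℝ) ^ (3 / 2 : ℝ) := by
          rw [mul_pow]
          congr 1
          rw [Real.sqrt_eq_rpow, ← Real.rpow_natCast, ← Real.rpow_mul (by positivity)]
          norm_num
        rw [h4] at h3
        rw [div_mul_div_comm, one_mul]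
        exact one_div_le_one_div_of_le (by positivity) h3
    intro τ hτ
    have hz' : Summable fun n : ℕ => 8 / τ * ((if n = 0 then (1 : ℝ) else 0) +
        1 / c ^ 3 * (1 / (n : ℝ) ^ (3 / 2 : ℝ))) := hB.mul_left _
    have hw : ∀ j, wgt (κ j) τ ≤ 8 / τ * ((if j = 0 then (1 : ℝ) else 0) +
        1 / c ^ 3 * (1 / (j : ℝ) ^ (3 / 2 : ℝ))) := fun j =>
      (wgt_le (nn j) hτ).trans (mul_le_mul_of_nonneg_left (hle j) (by positivity))
    have h1 : Summable fun j => wgt (κ j) τ :=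
      Summable.of_nonneg_of_le (fun j => wgt_nonneg _ _) hw hz'
    refine ⟨h1, (h1.tsum_le_tsum hw hz').trans (le_of_eq ?_)⟩
    rw [tsum_mul_left]
    ring
  · intro y hy
    have hsub : ({j | κ j ≤ y} : Set ℕ) ⊆ (Finset.range (⌊4 / c ^ 2 * y ^ 2⌋₊ + 1) : Finset ℕ) := by
      intro j hj
      have hj' : κ j ≤ y := hj
      rw [Finset.coe_range, mem_Iio, Nat.lt_succ_iff]
      apply Nat.le_floor
      have h1 : c * √(j : ℝ) ≤ 2 * y := by have := hg j; linarith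
      have h2 : (c * √(j : ℝ)) ^ 2 ≤ (2 * y) ^ 2 := pow_le_pow_left₀ (by positivity) h1 2
      rw [mul_pow, Real.sq_sqrt (by positivity), mul_pow] at h2
      rw [div_mul_eq_mul_div, le_div_iff₀ (by positivity)]
      linarith
    refine ⟨(Finset.finite_toSet _).subset hsub, ?_⟩
    have h3 := Set.ncard_le_ncard hsub (Finset.finite_toSet _)
    rw [Set.ncard_coe_finset, Finset.card_range] at h3
    have h4 : ((⌊4 / c ^ 2 * y ^ 2⌋₊ : ℕ) : ℝ) ≤ 4 / c ^ 2 * y ^ 2 :=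
      Nat.floor_le (by positivity)
    have h5 : (({j | κ j ≤ y} : Set ℕ).ncard : ℝ) ≤ (⌊4 / c ^ 2 * y ^ 2⌋₊ : ℕ) + 1 := by
      exact_mod_cast h3
    nlinarith

theorem UC_family (hX : Surface Γ D) (hO : Ori Γ) {m0 : Pl → Co} (h0 : HM Γ m0) (M : ℝ) :
    ∃ C : ℝ, ∀ m : Mt Γ D, Cnf m0 m.1.1 M → UC hX m C := by
  by_cases hex : ∃ m1 : Mt Γ D, Cnf m0 m1.1.1 M
  swap
  · exact ⟨0, fun m hm => absurd ⟨m, hm⟩ hex⟩
  obtain ⟨m1, u1, hu1, hm1⟩ := hex
  have hM : 0 ≤ M := (abs_nonneg _).trans (hu1 0)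
  have hu1c : ContDiff ℝ ∞ u1 := T4b_smooth h0.smooth (hm_of_Mt m1).smooth
    (fun z => (h0.pos z).1) (fun z => ((hm_of_Mt m1).pos z).1) hm1
  obtain ⟨e, he⟩ := exists_Bas hX m1
  obtain ⟨c, hc, hg⟩ := (Lev_of he).grow
  obtain ⟨C₀, hC₀⟩ := count_deck hX hO h0
  obtain ⟨c', hc'⟩ : ∃ c', c' = c / Real.exp M := ⟨_, rfl⟩
  have hc'0 : 0 < c' := by rw [hc']; positivity
  obtain ⟨S, hS⟩ : ∃ S, S = 8 * ∑' n : ℕ, ((if n = 0 then (1 : ℝ) else 0) +
      1 / c' ^ 3 * (1 / (n : ℝ) ^ (3 / 2 : ℝ))) := ⟨_, rfl⟩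
  have hS0 : 0 ≤ S := by
    rw [hS]
    refine mul_nonneg (by norm_num) (tsum_nonneg fun n => ?_)
    have h1 : 0 ≤ 1 / c' ^ 3 * (1 / (n : ℝ) ^ (3 / 2 : ℝ)) := by positivity
    split_ifs <;> linarith
  obtain ⟨B, hB⟩ : ∃ B, B = |C₀| * Real.exp (M / 2) := ⟨_, rfl⟩
  have hB0 : 0 ≤ B := by rw [hB]; positivity
  have hK0 : 0 ≤ 4 / c' ^ 2 + 1 := by positivity
  refine ⟨B + S + (4 / c' ^ 2 + 1), fun m hm => ?_⟩
  obtain ⟨u, hu, hmu⟩ := hm
  have huc : ContDiff ℝ ∞ u := T4b_smooth h0.smooth (hm_of_Mt m).smooth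
    (fun z => (h0.pos z).1) (fun z => ((hm_of_Mt m).pos z).1) hmu
  have hcount := T4b_count hX h0 (hm_of_Mt m) huc hu hmu hC₀
  rw [← hB] at hcount
  have hcover := T4b_cover hX m hcount
  rw [abs_of_nonneg hB0] at hcover
  have hgrow : ∀ n : ℕ, c' * √n ≤ FG33.lam m n + 1 := by
    intro n
    have h1 := (lam_conf hX m1 m (v := fun z => u z - u1 z) (η := 2 * M) (huc.sub hu1c)
      (fun z => by
        have h2 := abs_sub (u z) (u1 z)
        have h3 := hu z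
        have h4 := hu1 z
        linarith) (fun z => by
        rw [hmu z, hm1 z, smul_smul, ← Real.exp_add]
        congr 2
        ring) n).2
    have h5 : 2 * M / 2 = M := by ring
    rw [h5] at h1
    have h6 := hg n
    have h7 : 1 ≤ Real.exp M := Real.one_le_exp hM
    have h8 : c * √(n : ℝ) ≤ (FG33.lam m n + 1) * Real.exp M := by nlinarith
    rw [hc', div_mul_eq_mul_div, div_le_iff₀ (Real.exp_pos M)]
    exact h8
  have hnn : ∀ n, 0 ≤ FG33.lam m n := fun n => Real.sqrt_nonneg _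
  obtain ⟨hl1, hl2⟩ := T4b_lev hc'0 hnn hgrow
  rw [← hS] at hl1
  refine ⟨by positivity, ?_, ?_, ?_⟩
  · intro U ρ hρ x hx
    have h1 := hcover (fun z => |U.1 z|) U.2.1.continuous.abs (fun z => abs_nonneg _)
      (fun γ z => by rw [U.2.2 γ z]) ρ hρ x hx
    refine h1.trans ?_
    have h2 := PX8_cs hX m U
    have h3 : B * Real.exp (B * ρ) ≤ (B + S + (4 / c' ^ 2 + 1)) *
        Real.exp ((B + S + (4 / c' ^ 2 + 1)) * ρ) := by
      refine mul_le_mul (by linarith) (Real.exp_le_exp.2 ?_) (Real.exp_pos _).le (by positivity)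
      exact mul_le_mul_of_nonneg_right (by linarith) hρ
    calc _ ≤ B * Real.exp (B * ρ) * √(bF hX m (oneT Γ) U U) :=
          mul_le_mul_of_nonneg_left h2 (by positivity)
      _ ≤ _ := mul_le_mul_of_nonneg_right h3 (Real.sqrt_nonneg _)
  · intro τ hτ
    obtain ⟨h1, h2⟩ := hl1 τ hτ
    refine ⟨h1, h2.trans ?_⟩
    exact div_le_div_of_nonneg_right (by linarith) (by linarith)
  · intro y hy
    obtain ⟨h1, h2⟩ := hl2 y hy
    refine ⟨h1, h2.trans ?_⟩
    exact mul_le_mul_of_nonneg_right (by linarith) (sq_nonneg y)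

end B36
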