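import Pool.Agent.LibBE36T.T2

/-! ROW T7 : the terms `j ≥ 1` on the diagonal. MEDIUM.
PLAN. `Ab_zeroH`: `Ab_eq` (LibBR70/AB5) at `σ = 0`: `Ab j q 0 = -c ∫_{t>0} q'(t) t^(2j-1) dt`, `c = 1/(√π Γ(j+1/2))`, `q = osc a τ` smooth with compact
support. Integrate by parts once: `= c (2j-1) ∫_{t>0} q(t) t^(2j-2) dt` (boundary terms `0`; `j ≥ 1`), `= c (2j-1)/2 ∫_ℝ q(t) t^(2j-2) dt` (`q` even: `osc_even`)
`= c (2j-1)/2 Re ∫_ℝ (a(t) t^(2j-2)) e^(-iτt) dt`. Integrate by parts `n` times on the line (compact support: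
`integral_mul_deriv_eq_deriv_mul_of_integrable` or `Real.fourierIntegral_iteratedDeriv`; an induction on `n` for smooth compactly supported `g`:
`‖∫ g e^(-iτt)‖ ≤ τ^(-n) ∫ ‖g^(n)‖`), Leibniz: `‖(a t^(2j-2))^(n)‖ ≤ ∑ C(n,l) M H^(n-l) (2j-2)^l (ρ+1)^(2j-2) = M (H+2j-2)^n (ρ+1)^(2j-2)` on `|t| ≤ ρ`
(an induction on `i` instead of Leibniz: the class of functions `g` with `‖g^(k)‖ ≤ M H^k R^i` ... : `g ↦ t g`: `‖(t g)^(k)‖ ≤ ρ ‖g^(k)‖ + k ‖g^(k-1)‖`;
by induction `‖(t^i a)^(k)‖ ≤ M (ρ+1)^i (H+i)^k` for `H ≥ 1`: `ρ (H+i)^k + k (H+i)^(k-1) ≤ (ρ+1) (H+i+1)^k` since `(H+i+1)^k ≥ (H+i)^k + k (H+i)^(k-1)`).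
The integral runs over `[-ρ, ρ]`. `c (2j-1) ≤ 2`: `√π Γ(j+1/2) ≥ (2j-1)/2`: induction, `Γ(j+3/2) = (j+1/2) Γ(j+1/2)`, start `√π Γ(3/2) = π/2`.
`diagH`: `Kx_eq`, `Finset.sum_range_succ'`, each `|tj ..(j)| ≤ B1^j * 2 M (H+2j)^(j+2) (ρ+1)^(2j) / τ^(j+2)` (`n = j+2`)
`≤ 2 M (H+2N)^2/τ^2 * X^j` with `X = B1 (H+2N) (ρ+1)^2/τ ≤ 1/2`; `∑_{j ≥ 1} X^j ≤ 1`. (`Vx_self`, see `X7_diag` in LibBE73/X7.) -/

open MeasureTheory Set Filter Topology
open scoped ContDiff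

namespace B36

open BGS BR TR BE73

variable {Γ : Type} [Group Γ] [MulAction Γ Pl] {D : Set Pl}

/-- `√π Γ(i + 1/2) ≥ 1`. -/
private theorem T7_Gamma (i : ℕ) : 1 ≤ √Real.pi * Real.Gamma ((i : ℝ) + 1 / 2) := by
  have hs : 0 < √Real.pi := Real.sqrt_pos.2 Real.pi_pos
  have h1 : √Real.pi * √Real.pi = Real.pi := Real.mul_self_sqrt Real.pi_pos.le
  have hpi := Real.pi_gt_three
  have key : ∀ k : ℕ, 1 ≤ √Real.pi * Real.Gamma (((k + 1 : ℕ) : ℝ) + 1 / 2) := by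
    intro k
    induction k with
    | zero =>
      have h2 : (((0 + 1 : ℕ) : ℝ) + 1 / 2) = 1 / 2 + 1 := by push_cast; ring
      rw [h2, Real.Gamma_add_one (by norm_num), Real.Gamma_one_half_eq]
      nlinarith
    | succ k ih =>
      have h2 : (((k + 1 + 1 : ℕ) : ℝ) + 1 / 2) = (((k + 1 : ℕ) : ℝ) + 1 / 2) + 1 := by
        push_cast; ring
      rw [h2, Real.Gamma_add_one (by positivity)]
      have h3 : (1 : ℝ) ≤ ((k + 1 : ℕ) : ℝ) + 1 / 2 := by
        push_cast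
        have : (0 : ℝ) ≤ k := Nat.cast_nonneg k
        linarith
      calc (1 : ℝ) = 1 * 1 := by ring
        _ ≤ (((k + 1 : ℕ) : ℝ) + 1 / 2) * (√Real.pi * Real.Gamma (((k + 1 : ℕ) : ℝ) + 1 / 2)) := by
          gcongr
        _ = _ := by ring
  rcases i with _ | i
  · rw [Nat.cast_zero, zero_add, Real.Gamma_one_half_eq, h1]
    linarith
  · exact key i

/-- The invariants of the induction. -/
private def T7_P (n : ℕ) (f : ℝ → ℂ) (ρ M H : ℝ) : Prop :=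
  ContDiff ℝ ∞ f ∧ (∀ t, ρ < |t| → f t = 0) ∧ ∀ k ≤ n, ∀ t, ‖iteratedDeriv k f t‖ ≤ M * H ^ k

private theorem T7_sm {f : ℝ → ℂ} (hf : ContDiff ℝ ∞ f) (k : ℕ) :
    ContDiff ℝ ∞ (iteratedDeriv k f) := by
  induction k with
  | zero => simpa using hf
  | succ k ih =>
    rw [iteratedDeriv_succ]
    exact (contDiff_infty_iff_deriv.1 ih).2

private theorem T7_iter0 {f : ℝ → ℂ} {ρ : ℝ} (h : ∀ t, ρ < |t| → f t = 0) (k : ℕ) {t : ℝ}
    (ht : ρ < |t|) : iteratedDeriv k f t = 0 := by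
  have h1 : f =ᶠ[𝓝 t] fun _ => 0 := by
    have h2 : ∀ᶠ s in 𝓝 t, ρ < |s| := (continuous_abs.tendsto t).eventually (lt_mem_nhds ht)
    filter_upwards [h2] with s hs using h s hs
  rw [h1.iteratedDeriv_eq k]
  simp

private theorem T7_mul {f : ℝ → ℂ} (hf : ContDiff ℝ ∞ f) (k : ℕ) :
    iteratedDeriv (k + 1) (fun t : ℝ => (t : ℂ) * f t) =
      fun t : ℝ => (t : ℂ) * iteratedDeriv (k + 1) f t + ((k + 1 : ℕ) : ℂ) * iteratedDeriv k f t := by
  have hd : ∀ (k : ℕ) (t : ℝ), HasDerivAt (iteratedDeriv k f) (iteratedDeriv (k + 1) f t) t := by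
    intro k t
    rw [iteratedDeriv_succ]
    exact ((T7_sm hf k).differentiable (by simp) t).hasDerivAt
  have hid : ∀ t : ℝ, HasDerivAt (fun t : ℝ => (t : ℂ)) 1 t := fun t =>
    (hasDerivAt_id t).ofReal_comp
  induction k with
  | zero =>
    rw [iteratedDeriv_succ, iteratedDeriv_zero]
    funext t
    have h1 := (hid t).mul (hd 0 t)
    rw [iteratedDeriv_zero] at h1
    have h2 : HasDerivAt (fun t : ℝ => (t : ℂ) * f t)
        (1 * f t + (t : ℂ) * iteratedDeriv (0 + 1) f t) t := h1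
    rw [h2.deriv]
    simp [add_comm]
  | succ k ih =>
    rw [iteratedDeriv_succ, ih]
    funext t
    have h1 := ((hid t).mul (hd (k + 1) t)).add ((hd k t).const_mul (((k + 1 : ℕ) : ℂ)))
    have h2 : HasDerivAt (fun t : ℝ => (t : ℂ) * iteratedDeriv (k + 1) f t +
        ((k + 1 : ℕ) : ℂ) * iteratedDeriv k f t)
        (1 * iteratedDeriv (k + 1) f t + (t : ℂ) * iteratedDeriv (k + 1 + 1) f t +
          ((k + 1 : ℕ) : ℂ) * iteratedDeriv (k + 1) f t) t := h1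
    rw [h2.deriv]
    push_cast
    ring

private theorem T7_bern {H : ℝ} (hH : 1 ≤ H) (k : ℕ) :
    H ^ (k + 1) + ((k + 1 : ℕ) : ℝ) * H ^ k ≤ (H + 1) ^ (k + 1) := by
  induction k with
  | zero => simp
  | succ k ih =>
    have h1 : (0 : ℝ) ≤ (k : ℝ) := Nat.cast_nonneg k
    have h2 : 0 ≤ H ^ k := by positivity
    calc H ^ (k + 1 + 1) + ((k + 1 + 1 : ℕ) : ℝ) * H ^ (k + 1)
        ≤ (H ^ (k + 1) + ((k + 1 : ℕ) : ℝ) * H ^ k) * (H + 1) := by
          push_cast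
          have : 0 ≤ ((k : ℝ) + 1) * H ^ k := by positivity
          nlinarith [pow_succ H k, pow_succ H (k + 1)]
      _ ≤ (H + 1) ^ (k + 1) * (H + 1) := by gcongr
      _ = _ := by ring

private theorem T7_step {n : ℕ} {f : ℝ → ℂ} {ρ M H : ℝ} (hρ : 0 ≤ ρ) (hM : 0 ≤ M) (hH : 1 ≤ H)
    (h : T7_P n f ρ M H) : T7_P n (fun t : ℝ => (t : ℂ) * f t) ρ (M * (ρ + 1)) (H + 1) := by
  obtain ⟨h1, h2, h3⟩ := h
  refine ⟨Complex.ofRealCLM.contDiff.mul h1, fun t ht => by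
    show (t : ℂ) * f t = 0
    rw [h2 t ht, mul_zero], ?_⟩
  have hb : ∀ k ≤ n, ∀ t : ℝ, ‖(t : ℂ) * iteratedDeriv k f t‖ ≤ ρ * (M * H ^ k) := by
    intro k hk t
    rcases le_or_gt (|t|) ρ with h4 | h4
    · rw [norm_mul, Complex.norm_real, Real.norm_eq_abs]
      exact mul_le_mul h4 (h3 k hk t) (norm_nonneg _) hρ
    · rw [T7_iter0 h2 k h4, mul_zero, norm_zero]
      positivity
  intro k hk t
  rcases k with _ | k
  · rw [iteratedDeriv_zero, pow_zero, mul_one]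
    have h4 := hb 0 hk t
    rw [iteratedDeriv_zero, pow_zero, mul_one] at h4
    nlinarith
  · rw [T7_mul h1 k]
    have h4 := hb (k + 1) hk t
    have h5 := h3 k (by omega) t
    have h6 := T7_bern hH k
    have h7 : ‖((k + 1 : ℕ) : ℂ) * iteratedDeriv k f t‖ ≤ ((k + 1 : ℕ) : ℝ) * (M * H ^ k) := by
      rw [norm_mul, Complex.norm_natCast]
      gcongr
    have h8 : 0 ≤ ((k + 1 : ℕ) : ℝ) * H ^ k := by positivity
    calc ‖(t : ℂ) * iteratedDeriv (k + 1) f t + ((k + 1 : ℕ) : ℂ) * iteratedDeriv k f t‖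
        ≤ ρ * (M * H ^ (k + 1)) + ((k + 1 : ℕ) : ℝ) * (M * H ^ k) :=
          (norm_add_le _ _).trans (add_le_add h4 h7)
      _ ≤ (ρ + 1) * (M * (H ^ (k + 1) + ((k + 1 : ℕ) : ℝ) * H ^ k)) := by
          have e1 : 0 ≤ ρ * M * (((k + 1 : ℕ) : ℝ) * H ^ k) := by positivity
          have e2 : 0 ≤ M * H ^ (k + 1) := by positivity
          nlinarith
      _ ≤ (ρ + 1) * (M * (H + 1) ^ (k + 1)) := by gcongr
      _ = _ := by ring

private theorem T7_powP {n : ℕ} {f : ℝ → ℂ} {ρ M H : ℝ} (hρ : 0 ≤ ρ) (hM : 0 ≤ M) (hH : 1 ≤ H)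
    (h : T7_P n f ρ M H) (i : ℕ) :
    T7_P n (fun t : ℝ => (t : ℂ) ^ i * f t) ρ (M * (ρ + 1) ^ i) (H + i) := by
  induction i with
  | zero => simpa using h
  | succ i ih =>
    have h1 := T7_step hρ (by positivity) (by
      have : (0 : ℝ) ≤ (i : ℝ) := Nat.cast_nonneg i
      linarith) ih
    have e1 : (fun t : ℝ => (t : ℂ) * ((t : ℂ) ^ i * f t)) = fun t : ℝ => (t : ℂ) ^ (i + 1) * f t := by
      funext t
      ring
    have e2 : M * (ρ + 1) ^ i * (ρ + 1) = M * (ρ + 1) ^ (i + 1) := by ring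
    have e3 : H + (i : ℝ) + 1 = H + ((i + 1 : ℕ) : ℝ) := by push_cast; ring
    rw [e1, e2, e3] at h1
    exact h1

private theorem T7_cs {E : Type} [Zero E] {f : ℝ → E} {ρ : ℝ} (h : ∀ t, ρ < |t| → f t = 0) :
    HasCompactSupport f := by
  refine HasCompactSupport.intro (isCompact_Icc (a := -ρ) (b := ρ)) fun t ht => h t ?_
  by_contra h1
  exact ht (abs_le.1 (not_lt.1 h1))

private theorem T7_en (τ u : ℝ) : ‖Complex.exp (-(Complex.I * τ * u))‖ = 1 := by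
  have h : -(Complex.I * τ * u) = ((-(τ * u) : ℝ) : ℂ) * Complex.I := by
    push_cast
    ring
  rw [h, Complex.norm_exp_ofReal_mul_I]

private theorem T7_ed (τ u : ℝ) : HasDerivAt (fun u : ℝ => Complex.exp (-(Complex.I * τ * u)))
    (-(Complex.I * τ) * Complex.exp (-(Complex.I * τ * u))) u := by
  have h1 : HasDerivAt (fun u : ℝ => -(Complex.I * τ * (u : ℂ))) (-(Complex.I * τ)) u := by
    have h2 : HasDerivAt (fun u : ℝ => (u : ℂ)) 1 u := (hasDerivAt_id u).ofReal_comp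
    have h3 := (h2.const_mul (Complex.I * τ)).neg
    rw [mul_one] at h3
    exact h3
  exact h1.cexp.congr_deriv (mul_comm _ _)

private theorem T7_ec (τ : ℝ) : Continuous fun u : ℝ => Complex.exp (-(Complex.I * τ * u)) := by
  fun_prop

/-- Integration by parts `n` times. -/
private theorem T7_parts {ρ τ : ℝ} (hτ : 0 < τ) (n : ℕ) : ∀ f : ℝ → ℂ, ContDiff ℝ ∞ f →
    (∀ t, ρ < |t| → f t = 0) →
    ‖∫ t : ℝ, Complex.exp (-(Complex.I * τ * t)) * f t‖ =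
      ‖∫ t : ℝ, Complex.exp (-(Complex.I * τ * t)) * iteratedDeriv n f t‖ / τ ^ n := by
  induction n with
  | zero =>
    intro f _ _
    simp
  | succ n ih =>
    intro f hf hs
    have hfd : ∀ t, HasDerivAt f (deriv f t) t := fun t =>
      (hf.differentiable (by simp) t).hasDerivAt
    have hf' : ContDiff ℝ ∞ (deriv f) := (contDiff_infty_iff_deriv.1 hf).2
    have hs' : ∀ t, ρ < |t| → deriv f t = 0 := by
      intro t ht
      have h1 := T7_iter0 hs 1 ht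
      rwa [iteratedDeriv_one] at h1
    have hint : ∀ g : ℝ → ℂ, Continuous g → (∀ t, ρ < |t| → g t = 0) → Integrable g :=
      fun g hg hg0 => hg.integrable_of_hasCompactSupport (T7_cs hg0)
    have hp := integral_mul_deriv_eq_deriv_mul_of_integrable
      (u := fun t : ℝ => Complex.exp (-(Complex.I * τ * t)))
      (u' := fun t : ℝ => -(Complex.I * τ) * Complex.exp (-(Complex.I * τ * t)))
      (v := f) (v' := deriv f) (fun t _ => T7_ed τ t) (fun t _ => hfd t)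
      (hint _ ((T7_ec τ).mul hf'.continuous) fun t ht => by
        show _ * deriv f t = 0
        rw [hs' t ht, mul_zero])
      (hint _ ((continuous_const.mul (T7_ec τ)).mul hf.continuous) fun t ht => by
        show _ * f t = 0
        rw [hs t ht, mul_zero])
      (hint _ ((T7_ec τ).mul hf.continuous) fun t ht => by
        show _ * f t = 0
        rw [hs t ht, mul_zero])
    have h2 : ‖∫ t : ℝ, Complex.exp (-(Complex.I * τ * t)) * deriv f t‖ =
        τ * ‖∫ t : ℝ, Complex.exp (-(Complex.I * τ * t)) * f t‖ := by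
      rw [hp, norm_neg]
      have e1 : (fun t : ℝ => -(Complex.I * τ) * Complex.exp (-(Complex.I * τ * t)) * f t) =
          fun t : ℝ => -(Complex.I * τ) * (Complex.exp (-(Complex.I * τ * t)) * f t) := by
        funext t
        ring
      rw [e1, integral_const_mul, norm_mul, norm_neg, norm_mul, Complex.norm_I, one_mul,
        Complex.norm_real, Real.norm_of_nonneg hτ.le]
    have h3 := ih (deriv f) hf' hs'
    rw [← iteratedDeriv_succ'] at h3
    rw [h3] at h2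
    have h4 : τ ^ n ≠ 0 := by positivity
    rw [pow_succ]
    field_simp at h2 ⊢
    linarith

private theorem T7_bound {n : ℕ} {f : ℝ → ℂ} {ρ M H τ : ℝ} (hρ : 0 ≤ ρ) (hτ : 0 < τ)
    (h : T7_P n f ρ M H) :
    ‖∫ t : ℝ, Complex.exp (-(Complex.I * τ * t)) * f t‖ ≤ 2 * ρ * (M * H ^ n) / τ ^ n := by
  obtain ⟨h1, h2, h3⟩ := h
  rw [T7_parts hτ n f h1 h2]
  gcongr
  have h4 : ∫ t : ℝ, Complex.exp (-(Complex.I * τ * t)) * iteratedDeriv n f t =
      ∫ t in Icc (-ρ) ρ, Complex.exp (-(Complex.I * τ * t)) * iteratedDeriv n f t := by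
    refine (setIntegral_eq_integral_of_forall_compl_eq_zero fun t ht => ?_).symm
    rw [T7_iter0 h2 n, mul_zero]
    by_contra h5
    exact ht (abs_le.1 (not_lt.1 h5))
  rw [h4]
  have h5 := norm_setIntegral_le_of_norm_le_const (μ := volume) (s := Icc (-ρ) ρ)
    (f := fun t : ℝ => Complex.exp (-(Complex.I * τ * t)) * iteratedDeriv n f t)
    (C := M * H ^ n) (by simp) (fun t _ => by
      rw [norm_mul, T7_en, one_mul]
      exact h3 n le_rfl t)
  refine h5.trans (le_of_eq ?_)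
  rw [Measure.real, Real.volume_Icc, ENNReal.toReal_ofReal (by linarith)]
  ring

theorem Ab_zeroH {j n : ℕ} (hj : 1 ≤ j) {a : ℝ → ℂ} {ρ M H τ : ℝ} (hρ : 0 ≤ ρ) (hH : 1 ≤ H)
    (ha : AmpH n a ρ M H) (hτ : 1 ≤ τ) :
    |Ab j (osc a τ) 0| ≤ 2 * M * (H + 2 * j) ^ n * (ρ + 1) ^ (2 * j) / τ ^ n := by
  obtain ⟨i, rfl⟩ : ∃ i, j = i + 1 := ⟨j - 1, by omega⟩
  have hτ0 : 0 < τ := by linarith
  have hM : 0 ≤ M := by
    have h0 := (norm_nonneg _).trans (ha.bound 0 (Nat.zero_le n) 0)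
    rwa [pow_zero, mul_one] at h0
  set q : ℝ → ℝ := osc a τ with hq
  have hqs : ContDiff ℝ ∞ q := by
    have h1 : ContDiff ℝ ∞ fun t : ℝ => Complex.exp (-(Complex.I * τ * t)) := by
      have h2 : ContDiff ℝ ∞ fun t : ℝ => (t : ℂ) := Complex.ofRealCLM.contDiff
      exact (contDiff_const.mul h2).neg.cexp
    exact Complex.reCLM.contDiff.comp (h1.mul ha.smooth)
  have hq0 : ∀ t, ρ < |t| → q t = 0 := by
    intro t ht
    rw [hq]
    unfold osc
    rw [ha.supp t ht, mul_zero, Complex.zero_re]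
  have hqe : ∀ t, q (-t) = q t := by
    intro t
    rw [hq]
    unfold osc
    rw [ha.conj]
    have e : Complex.exp (-(Complex.I * τ * ((-t : ℝ) : ℂ))) =
        (starRingEnd ℂ) (Complex.exp (-(Complex.I * τ * t))) := by
      rw [← Complex.exp_conj]
      congr 1
      simp
    rw [e, ← map_mul, Complex.conj_re]
  have hqd : ∀ t, HasDerivAt q (deriv q t) t := fun t =>
    (hqs.differentiable (by simp) t).hasDerivAt
  have hq' : Continuous (deriv q) := ((contDiff_infty_iff_deriv.1 hqs).2).continuous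
  have hqo : ∀ t, deriv q (-t) = -deriv q t := by
    intro t
    have h1 : deriv (fun x => q (-x)) t = -deriv q (-t) := deriv_comp_neg q t
    have h2 : (fun x => q (-x)) = q := funext hqe
    rw [h2] at h1
    linarith
  have hq'0 : ∀ t, ρ < |t| → deriv q t = 0 := by
    intro t ht
    have h1 : q =ᶠ[𝓝 t] fun _ => 0 := by
      have h2 : ∀ᶠ s in 𝓝 t, ρ < |s| := (continuous_abs.tendsto t).eventually (lt_mem_nhds ht)
      filter_upwards [h2] with s hs using hq0 s hs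
    rw [h1.deriv_eq]
    simp
  have hT : Tl q ρ := ⟨hqs, fun t ht => hq0 t (lt_of_lt_of_le ht (le_abs_self t))⟩
  set c : ℝ := 1 / (√Real.pi * Real.Gamma (((i + 1 : ℕ) : ℝ) + 1 / 2)) with hc
  have hc0 : 0 ≤ c := by
    have : 0 < Real.Gamma (((i + 1 : ℕ) : ℝ) + 1 / 2) := Real.Gamma_pos_of_pos (by positivity)
    positivity
  -- the constant
  have hc1 : c * (2 * (i : ℝ) + 1) ≤ 2 := by
    have e1 : (((i + 1 : ℕ) : ℝ) + 1 / 2) = ((i : ℝ) + 1 / 2) + 1 := by push_cast; ring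
    have h1 := T7_Gamma i
    rw [hc, e1, Real.Gamma_add_one (by positivity)]
    have h2 : √Real.pi * (((i : ℝ) + 1 / 2) * Real.Gamma ((i : ℝ) + 1 / 2)) =
        ((i : ℝ) + 1 / 2) * (√Real.pi * Real.Gamma ((i : ℝ) + 1 / 2)) := by ring
    rw [h2]
    have h3 : (0 : ℝ) < (i : ℝ) + 1 / 2 := by positivity
    rw [div_mul_eq_mul_div, one_mul, div_le_iff₀ (by positivity)]
    nlinarith
  -- the integral over the half line
  have h1 : ∫ t in Ioi (√(0 : ℝ)), deriv q t * (t ^ 2 - 0) ^ (((i + 1 : ℕ) : ℝ) - 1 / 2) =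
      1 / 2 * ∫ t : ℝ, deriv q t * t ^ (2 * i + 1) := by
    have e1 : ∫ t : ℝ, deriv q t * t ^ (2 * i + 1) =
        2 * ∫ t in Ioi (0 : ℝ), deriv q t * t ^ (2 * i + 1) := by
      rw [← integral_comp_abs (f := fun t => deriv q t * t ^ (2 * i + 1))]
      congr 1
      funext t
      rcases abs_cases t with ⟨h2, _⟩ | ⟨h2, _⟩
      · rw [h2]
      · rw [h2, hqo, Odd.neg_pow ⟨i, rfl⟩]
        ring
    rw [e1, Real.sqrt_zero]
    have e2 : ∫ t in Ioi (0 : ℝ), deriv q t * (t ^ 2 - 0) ^ (((i + 1 : ℕ) : ℝ) - 1 / 2) =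
        ∫ t in Ioi (0 : ℝ), deriv q t * t ^ (2 * i + 1) := by
      refine setIntegral_congr_fun measurableSet_Ioi fun t ht => ?_
      have ht0 : (0 : ℝ) < t := ht
      have e3 : (t ^ 2 - 0) ^ (((i + 1 : ℕ) : ℝ) - 1 / 2) = t ^ (2 * i + 1) := by
        rw [sub_zero, ← Real.rpow_natCast t 2, ← Real.rpow_mul ht0.le, ← Real.rpow_natCast t]
        congr 1
        push_cast
        ring
      simp only [e3]
    rw [e2]
    ring
  have hintR : ∀ g : ℝ → ℝ, Continuous g → (∀ t, ρ < |t| → g t = 0) → Integrable g :=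
    fun g hg hg0 => hg.integrable_of_hasCompactSupport (T7_cs hg0)
  have hpow : ∀ t : ℝ, HasDerivAt (fun t : ℝ => t ^ (2 * i + 1)) ((2 * (i : ℝ) + 1) * t ^ (2 * i)) t := by
    intro t
    have h2 := hasDerivAt_pow (2 * i + 1) t
    have e1 : 2 * i + 1 - 1 = 2 * i := by omega
    rw [e1] at h2
    refine h2.congr_deriv ?_
    push_cast
    ring
  have h2 : ∫ t : ℝ, deriv q t * t ^ (2 * i + 1) = -((2 * (i : ℝ) + 1) * ∫ t : ℝ, q t * t ^ (2 * i)) := by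
    have hp := integral_mul_deriv_eq_deriv_mul_of_integrable
      (u := fun t : ℝ => t ^ (2 * i + 1)) (u' := fun t : ℝ => (2 * (i : ℝ) + 1) * t ^ (2 * i))
      (v := q) (v' := deriv q) (fun t _ => hpow t) (fun t _ => hqd t)
      (hintR _ ((continuous_pow _).mul hq') fun t ht => by
        show _ * deriv q t = 0
        rw [hq'0 t ht, mul_zero])
      (hintR _ ((continuous_const.mul (continuous_pow _)).mul hqs.continuous) fun t ht => by
        show _ * q t = 0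
        rw [hq0 t ht, mul_zero])
      (hintR _ ((continuous_pow _).mul hqs.continuous) fun t ht => by
        show _ * q t = 0
        rw [hq0 t ht, mul_zero])
    have e1 : (fun t : ℝ => deriv q t * t ^ (2 * i + 1)) = fun t : ℝ => t ^ (2 * i + 1) * deriv q t := by
      funext t
      ring
    rw [e1, hp, ← integral_const_mul]
    congr 2
    funext t
    ring
  -- the oscillating integral
  have hP : T7_P n a ρ M H := ⟨ha.smooth, ha.supp, ha.bound⟩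
  have hP2 := T7_powP hρ hM hH hP (2 * i)
  have h3 := T7_bound hρ hτ0 hP2
  have h4 : ∫ t : ℝ, q t * t ^ (2 * i) =
      (∫ t : ℝ, Complex.exp (-(Complex.I * τ * t)) * ((t : ℂ) ^ (2 * i) * a t)).re := by
    have hi : Integrable fun t : ℝ => Complex.exp (-(Complex.I * τ * t)) *
        ((t : ℂ) ^ (2 * i) * a t) := by
      refine Continuous.integrable_of_hasCompactSupport ((T7_ec τ).mul hP2.1.continuous)
        (T7_cs (ρ := ρ) fun t ht => ?_)
      show _ * ((t : ℂ) ^ (2 * i) * a t) = 0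
      rw [ha.supp t ht, mul_zero, mul_zero]
    have e1 := integral_re hi
    have e2 : (∫ t : ℝ, Complex.exp (-(Complex.I * τ * t)) * ((t : ℂ) ^ (2 * i) * a t)).re =
        ∫ t : ℝ, (Complex.exp (-(Complex.I * τ * t)) * ((t : ℂ) ^ (2 * i) * a t)).re := e1.symm
    rw [e2]
    congr 1
    funext t
    have e3 : Complex.exp (-(Complex.I * τ * t)) * ((t : ℂ) ^ (2 * i) * a t) =
        ((t ^ (2 * i) : ℝ) : ℂ) * (Complex.exp (-(Complex.I * τ * t)) * a t) := by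
      push_cast
      ring
    rw [e3, Complex.re_ofReal_mul, hq]
    unfold osc
    ring
  have h5 : |∫ t : ℝ, q t * t ^ (2 * i)| ≤
      2 * ρ * (M * (ρ + 1) ^ (2 * i) * (H + (2 * i : ℕ)) ^ n) / τ ^ n := by
    rw [h4]
    exact (Complex.abs_re_le_norm _).trans h3
  have h6 : Ab (i + 1) q 0 = c * (2 * (i : ℝ) + 1) / 2 * ∫ t : ℝ, q t * t ^ (2 * i) := by
    rw [Ab_eq hρ hT (i + 1) le_rfl, h1, h2, ← hc]
    ring
  rw [h6, abs_mul, abs_of_nonneg (by positivity)]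
  have h7 : (H + ((2 * i : ℕ) : ℝ)) ^ n ≤ (H + 2 * ((i + 1 : ℕ) : ℝ)) ^ n := by
    have h8 : (0 : ℝ) ≤ (i : ℝ) := Nat.cast_nonneg i
    refine pow_le_pow_left₀ (by push_cast; linarith) ?_ n
    push_cast
    linarith
  have h9 : ρ * (ρ + 1) ^ (2 * i) ≤ (ρ + 1) ^ (2 * (i + 1)) := by
    have h10 : (ρ + 1) ^ (2 * (i + 1)) = (ρ + 1) ^ (2 * i) * (ρ + 1) ^ 2 := by ring
    have h11 : 0 ≤ (ρ + 1) ^ (2 * i) := by positivity
    rw [h10, mul_comm ρ]
    exact mul_le_mul_of_nonneg_left (by nlinarith) h11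
  have h12 : 0 ≤ (H + 2 * ((i + 1 : ℕ) : ℝ)) ^ n := by positivity
  calc c * (2 * (i : ℝ) + 1) / 2 * |∫ t : ℝ, q t * t ^ (2 * i)|
      ≤ 2 / 2 * (2 * ρ * (M * (ρ + 1) ^ (2 * i) * (H + ((2 * i : ℕ) : ℝ)) ^ n) / τ ^ n) := by
        gcongr
    _ = 2 * M * (H + ((2 * i : ℕ) : ℝ)) ^ n * (ρ * (ρ + 1) ^ (2 * i)) / τ ^ n := by ring
    _ ≤ 2 * M * (H + 2 * ((i + 1 : ℕ) : ℝ)) ^ n * (ρ + 1) ^ (2 * (i + 1)) / τ ^ n := by
        gcongr

private theorem T7_geo {X : ℝ} (hX0 : 0 ≤ X) (hX : X ≤ 1 / 2) (N : ℕ) :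
    ∑ j ∈ Finset.range N, X ^ (j + 1) ≤ 1 := by
  have h1 : ∀ N : ℕ, ∑ j ∈ Finset.range N, X ^ (j + 1) ≤ 1 - (1 / 2) ^ N := by
    intro N
    induction N with
    | zero => simp
    | succ N ih =>
      rw [Finset.sum_range_succ]
      have h2 : X ^ (N + 1) ≤ (1 / 2) ^ (N + 1) := pow_le_pow_left₀ hX0 hX _
      have h3 : ((1 : ℝ) / 2) ^ N = 2 * (1 / 2) ^ (N + 1) := by ring
      linarith
  have h2 : (0 : ℝ) ≤ (1 / 2) ^ N := by positivity
  linarith [h1 N]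

theorem diagH (hX : Surface Γ D) (hO : Ori Γ) {m : Pl → Co} (hm : HM Γ m) {N : ℕ} {B1 : ℝ}
    (hB1 : 0 ≤ B1) (hU : ∀ j, 1 ≤ j → j ≤ N → ∀ x ∈ closure D, |UU (Gx m x) j 0| ≤ B1 ^ j)
    {a : ℝ → ℂ} {ρ M H τ : ℝ} (hρ : 0 ≤ ρ) (hH : 1 ≤ H) (ha : AmpH (N + 2) a ρ M H) (hτ : 1 ≤ τ)
    (hsm : B1 * (H + 2 * N) * (ρ + 1) ^ 2 / τ ≤ 1 / 2) {x : Pl} (hx : x ∈ closure D) :
    |Kx m N (osc a τ) x ((1 : Γ) • x) - tj m (osc a τ) (1 : Γ) 0 x| ≤
      2 * M * (H + 2 * N) ^ 2 / τ ^ 2 := by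
  have hτ0 : 0 < τ := by linarith
  have hM : 0 ≤ M := by
    have h0 := (norm_nonneg _).trans (ha.bound 0 (Nat.zero_le _) 0)
    rwa [pow_zero, mul_one] at h0
  have hv : Vx m x ((1 : Γ) • x) = 0 := by rw [one_smul, Vx_self hX hm]
  set X : ℝ := B1 * (H + 2 * N) * (ρ + 1) ^ 2 / τ with hXdef
  have hX0 : 0 ≤ X := by positivity
  have h1 : ∀ j ∈ Finset.range N, |tj m (osc a τ) (1 : Γ) (j + 1) x| ≤
      2 * M * (H + 2 * N) ^ 2 / τ ^ 2 * X ^ (j + 1) := by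
    intro j hj
    have hjN : j + 1 ≤ N := by
      have := Finset.mem_range.1 hj
      omega
    have haj : AmpH (j + 1 + 2) a ρ M H :=
      ⟨ha.smooth, ha.conj, ha.supp, fun k hk t => ha.bound k (by omega) t⟩
    have h2 := hU (j + 1) (by omega) hjN x hx
    have h3 := Ab_zeroH (j := j + 1) (by omega) hρ hH haj hτ
    have h4 : (H + 2 * ((j + 1 : ℕ) : ℝ)) ^ (j + 1 + 2) ≤ (H + 2 * N) ^ (j + 1 + 2) := by
      have h5 : ((j + 1 : ℕ) : ℝ) ≤ N := by exact_mod_cast hjN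
      refine pow_le_pow_left₀ (by positivity) (by linarith) _
    unfold tj
    rw [hv, show sg (0 : Pl) = 0 by simp [sg], abs_mul]
    calc |UU (Gx m x) (j + 1) 0| * |Ab (j + 1) (osc a τ) 0|
        ≤ B1 ^ (j + 1) * (2 * M * (H + 2 * ((j + 1 : ℕ) : ℝ)) ^ (j + 1 + 2) *
          (ρ + 1) ^ (2 * (j + 1)) / τ ^ (j + 1 + 2)) := by gcongr
      _ ≤ B1 ^ (j + 1) * (2 * M * (H + 2 * N) ^ (j + 1 + 2) *
          (ρ + 1) ^ (2 * (j + 1)) / τ ^ (j + 1 + 2)) := by gcongr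
      _ = 2 * M * (H + 2 * N) ^ 2 / τ ^ 2 * X ^ (j + 1) := by
          rw [hXdef, div_pow, mul_pow, mul_pow, ← pow_mul, pow_add (H + 2 * (N : ℝ)) (j + 1) 2,
            pow_add τ (j + 1) 2]
          field_simp
  rw [Kx_eq, Finset.sum_range_succ', add_sub_cancel_right]
  refine (Finset.abs_sum_le_sum_abs _ _).trans ((Finset.sum_le_sum h1).trans ?_)
  rw [← Finset.mul_sum]
  have h2 := T7_geo hX0 hsm N
  have h3 : 0 ≤ 2 * M * (H + 2 * (N : ℝ)) ^ 2 / τ ^ 2 := by positivity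
  calc 2 * M * (H + 2 * (N : ℝ)) ^ 2 / τ ^ 2 * ∑ j ∈ Finset.range N, X ^ (j + 1)
      ≤ 2 * M * (H + 2 * (N : ℝ)) ^ 2 / τ ^ 2 * 1 := by gcongr
    _ = _ := by ring

end B36
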