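import Pool.Agent.LibBE36T.T6
import Pool.Agent.LibBE36T.T7

/-! ROW T8 : THE TRACE FORMULA with explicit constants. SHORT (copy of `traceN` in LibBE73/X7.lean).
PLAN. `S` = the finite set `near Γ D m ρ` (`near_fin`), `trace1H`, split off `γ = 1` (`identity_term`, `diagH` integrated over `D`, area one). -/

open MeasureTheory Set Filter Topology
open scoped ContDiff

namespace B36

open BGS BR TR BE73

variable {Γ : Type} [Group Γ] [MulAction Γ Pl] {D : Set Pl}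

theorem traceH (hX : Surface Γ D) (hO : Ori Γ) (m : Mt Γ D) {C : ℝ} (hu : UC hX m C) {N : ℕ}
    (hN : 6 ≤ N) {ρ B B1 : ℝ} (hρ : 0 ≤ ρ) (hB : 0 ≤ B) (hB1 : 0 ≤ B1)
    (hgk : GkB (closure D) (mE m.1.1) ρ B 2 (cN m.1.1 N))
    (hU : ∀ j, 1 ≤ j → j ≤ N → ∀ x ∈ closure D, |UU (Gx m.1.1 x) j 0| ≤ B1 ^ j)
    {a : ℝ → ℂ} {M H τ : ℝ} (hH : 1 ≤ H) (ha : AmpH (N + 2) a ρ M H) (hτ : 1 ≤ τ)
    (hsm : B1 * (H + 2 * N) * (ρ + 1) ^ 2 / τ ≤ 1 / 2) :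
    |∑' j, hh (osc a τ) (FG33.lam m j) -
      1 / (2 * Real.pi) * (∫ y in Ioi (0 : ℝ), hh (osc a τ) y * y) -
      ∑ᶠ γ ∈ {γ : Γ | γ ≠ 1}, B35.IKN D m.1.1 N (osc a τ) γ| ≤
      30 * B * M * H * (H + 4 * N ^ 2) ^ (N - 1) * (ρ + 1) ^ (2 * N + 1) * C ^ 2 *
        Real.exp (C * ρ) / τ ^ (N - 5) + 2 * M * (H + 2 * N) ^ 2 / τ ^ 2 := by
  classical
  have hm := hm_of_Mt m
  obtain ⟨C3, hC3, h3⟩ := near_fin hX hO hm
  have hρ' := BGR_rho m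
  have haN : AmpH N a ρ M H :=
    ⟨ha.smooth, ha.conj, ha.supp, fun k hk t => ha.bound k (by omega) t⟩
  have ha4 : Amp a ρ (M * H ^ 4) := AmpH.amp (by omega) hH ha
  set S : Finset Γ := (h3 ρ hρ).1.toFinset with hS
  have hSn : near Γ D m.1.1 ρ ⊆ ↑S := by rw [hS, Finite.coe_toFinset]
  have h1mem : (1 : Γ) ∈ S := hSn (one_mem_near hX hm hρ)
  have e1 : ∑ᶠ γ ∈ {γ : Γ | γ ≠ 1}, B35.IKN D m.1.1 N (osc a τ) γ
      = ∑ γ ∈ S.erase 1, ∫ x in D, Kx m.1.1 N (osc a τ) x (γ • x) * √(dt (m.1.1 x)) := by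
    refine finsum_mem_eq_sum_of_inter_support_eq _ ?_
    ext γ
    simp only [mem_inter_iff, mem_ofPred_eq, Function.mem_support, Finset.mem_coe,
      Finset.mem_erase]
    constructor
    · rintro ⟨h4, h5⟩
      refine ⟨⟨h4, ?_⟩, h5⟩
      by_contra h6
      exact h5 (Kx_int_zero m N (osc_smooth ha4 τ) hρ (osc_supp ha4 τ) (fun h7 => h6 (hSn h7)))
    · rintro ⟨⟨h4, _⟩, h5⟩
      exact ⟨h4, h5⟩
  have e2 := identity_term hX m (osc_smooth ha4 τ) (osc_even ha4 τ) (osc_supp ha4 τ)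
  have e3 : (∫ x in D, Kx m.1.1 N (osc a τ) x ((1 : Γ) • x) * √(dt (m.1.1 x))) +
      ∑ γ ∈ S.erase 1, ∫ x in D, Kx m.1.1 N (osc a τ) x (γ • x) * √(dt (m.1.1 x))
      = ∑ γ ∈ S, ∫ x in D, Kx m.1.1 N (osc a τ) x (γ • x) * √(dt (m.1.1 x)) :=
    Finset.add_sum_erase S (fun γ => ∫ x in D, Kx m.1.1 N (osc a τ) x (γ • x) *
      √(dt (m.1.1 x))) h1mem
  have h4 := trace1H hX hO m hu hN hρ hB hgk hH haN hτ hSn
  have h5 : |(∫ x in D, Kx m.1.1 N (osc a τ) x ((1 : Γ) • x) * √(dt (m.1.1 x))) -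
      1 / (2 * Real.pi) * ∫ y in Ioi (0 : ℝ), hh (osc a τ) y * y| ≤
      2 * M * (H + 2 * N) ^ 2 / τ ^ 2 := by
    rw [← e2]
    have c1 : Continuous fun x => Kx m.1.1 N (osc a τ) x ((1 : Γ) • x) * √(dt (m.1.1 x)) :=
      (Kd_cont hX hO hm N (osc_smooth ha4 τ) (osc_even ha4 τ) (osc_supp ha4 τ) (1 : Γ)).mul hρ'
    have c2 : Continuous fun x => tj m.1.1 (osc a τ) (1 : Γ) 0 x * √(dt (m.1.1 x)) :=
      (tj_cont hX hO hm (osc_smooth ha4 τ) (osc_even ha4 τ) (osc_supp ha4 τ) (1 : Γ) 0).mul hρ'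
    rw [← integral_sub (Cmp_int hX c1) (Cmp_int hX c2), ← Real.norm_eq_abs]
    have h6 : ∫ x in D, (2 * M * (H + 2 * N) ^ 2 / τ ^ 2) * √(dt (m.1.1 x))
        = 2 * M * (H + 2 * N) ^ 2 / τ ^ 2 := by
      rw [integral_const_mul, m.2.area, mul_one]
    rw [← h6]
    refine norm_integral_le_of_norm_le ((Cmp_int hX hρ').const_mul _) ?_
    filter_upwards [ae_restrict_mem hX.meas] with x hx
    rw [← sub_mul, norm_mul, Real.norm_eq_abs, Real.norm_of_nonneg (Real.sqrt_nonneg _)]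
    exact mul_le_mul_of_nonneg_right
      (diagH hX hO hm hB1 hU hρ hH ha hτ hsm (subset_closure hx)) (Real.sqrt_nonneg _)
  rw [e1]
  have h11 : ∑' j, hh (osc a τ) (FG33.lam m j) -
      1 / (2 * Real.pi) * (∫ y in Ioi (0 : ℝ), hh (osc a τ) y * y) -
      ∑ γ ∈ S.erase 1, ∫ x in D, Kx m.1.1 N (osc a τ) x (γ • x) * √(dt (m.1.1 x))
      = (∑' j, hh (osc a τ) (FG33.lam m j) -
        ∑ γ ∈ S, ∫ x in D, Kx m.1.1 N (osc a τ) x (γ • x) * √(dt (m.1.1 x))) +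
        ((∫ x in D, Kx m.1.1 N (osc a τ) x ((1 : Γ) • x) * √(dt (m.1.1 x))) -
        1 / (2 * Real.pi) * ∫ y in Ioi (0 : ℝ), hh (osc a τ) y * y) := by
    rw [← e3]
    ring
  rw [h11]
  exact (abs_add_le _ _).trans (add_le_add h4 h5)

end B36
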