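import Pool.Agent.LibBE36T.T4a
import Pool.Agent.LibBE36T.T14

/-! ROW T15 : the spectral side of two metrics which are close. MEDIUM.
PLAN. `m' = e^v m`, `|v| ≤ η ≤ 1`: `|log (lam m' j / lam m j)| ≤ η/2` (`lam_conf`), so `|lam m' j - lam m j| ≤ η lam m j`, and
`|hh (osc a τ) y - hh (osc a τ) y'| ≤ |y - y'| C M (ρ+1)² (1/(1+|y-τ|)^8 + 1/(1+|y'-τ|)^8)`-like (mean value theorem: the derivative of `hh (osc a τ)` is
`-∫ t g(t) sin(y t) dt`, the amplitude `t a(t)` has derivatives `≤ M (ρ + 8)`). For `η lam_j ≤ 1`: points between are within 1 of `lam_j`. For `η lam_j > 1` (`lam_j > 1/η`, then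
`lam_j ≥ 2τ` if `η τ ≤ 1/2`): both terms are `≤ C M (ρ+1) / lam_j^8` and `1 ≤ η lam_j`. Sum over the levels: `∑_j lam_j/(1+|lam_j - τ|)^8 ≤ C τ³`. -/

open MeasureTheory Set Filter Topology
open scoped ContDiff

namespace B36

open BGS BR TR BE73

variable {Γ : Type} [Group Γ] [MulAction Γ Pl] {D : Set Pl}

/-- the derivative of the Fourier integral -/
private theorem T15_deriv {a : ℝ → ℂ} (ha : Integrable a)
    (hb : Integrable fun t : ℝ => Complex.I * (t : ℂ) * a t) (y : ℝ) :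
    HasDerivAt (T14_F a) (T14_F (fun t : ℝ => Complex.I * (t : ℂ) * a t) y) y := by
  have h := hasDerivAt_integral_of_dominated_loc_of_deriv_le (μ := volume) (𝕜 := ℝ)
    (F := fun (x : ℝ) (t : ℝ) => a t * Complex.exp (Complex.I * x * t))
    (F' := fun (x : ℝ) (t : ℝ) => (Complex.I * (t : ℂ) * a t) * Complex.exp (Complex.I * x * t))
    (x₀ := y) (s := univ) (bound := fun t : ℝ => ‖Complex.I * (t : ℂ) * a t‖) univ_mem
    (Eventually.of_forall fun x => (T14_int ha x).1) (T14_int ha y) (T14_int hb y).1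
    (Eventually.of_forall fun t x _ => by
      rw [norm_mul, T14_en, mul_one])
    hb.norm
    (Eventually.of_forall fun t x _ => by
      have e2 : HasDerivAt (fun u : ℝ => Complex.I * (u : ℂ) * (t : ℂ)) (Complex.I * (t : ℂ)) x := by
        have e3 : HasDerivAt (fun u : ℝ => (u : ℂ)) 1 x := (hasDerivAt_id x).ofReal_comp
        have e4 := (e3.const_mul Complex.I).mul_const (t : ℂ)
        rwa [mul_one] at e4
      have e5 := e2.cexp.const_mul (a t)
      refine e5.congr_deriv ?_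
      ring)
  exact h.2

/-- derivatives of `t a(t)` -/
private theorem T15_leib {a : ℝ → ℂ} (ha : ContDiff ℝ ∞ a) (n : ℕ) (t : ℝ) :
    iteratedDeriv (n + 1) (fun s : ℝ => Complex.I * (s : ℂ) * a s) t =
      Complex.I * (t : ℂ) * iteratedDeriv (n + 1) a t +
        ((n : ℂ) + 1) * (Complex.I * iteratedDeriv n a t) := by
  have hd : ∀ k : ℕ, ∀ s : ℝ, HasDerivAt (iteratedDeriv k a) (iteratedDeriv (k + 1) a s) s := by
    intro k s
    rw [iteratedDeriv_succ]
    exact (((T14_smooth ha k).differentiable (by simp)) s).hasDerivAt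
  have hI : ∀ s : ℝ, HasDerivAt (fun u : ℝ => Complex.I * (u : ℂ)) Complex.I s := by
    intro s
    have e3 : HasDerivAt (fun u : ℝ => (u : ℂ)) 1 s := (hasDerivAt_id s).ofReal_comp
    have e4 := e3.const_mul Complex.I
    rwa [mul_one] at e4
  induction n generalizing t with
  | zero =>
    rw [zero_add, iteratedDeriv_one]
    have h1 := (hI t).mul (hd 0 t)
    rw [zero_add, iteratedDeriv_zero] at h1
    have h2 : deriv (fun s : ℝ => Complex.I * (s : ℂ) * a s) t =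
        Complex.I * a t + Complex.I * (t : ℂ) * iteratedDeriv 1 a t := h1.deriv
    rw [h2, iteratedDeriv_zero, iteratedDeriv_one]
    push_cast
    ring
  | succ n ih =>
    rw [iteratedDeriv_succ]
    have hf : iteratedDeriv (n + 1) (fun s : ℝ => Complex.I * (s : ℂ) * a s) =
        fun s : ℝ => Complex.I * (s : ℂ) * iteratedDeriv (n + 1) a s +
          ((n : ℂ) + 1) * (Complex.I * iteratedDeriv n a s) := funext ih
    rw [hf]
    have h1 := ((hI t).mul (hd (n + 1) t)).add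
      (((hd n t).const_mul Complex.I).const_mul ((n : ℂ) + 1))
    have h2 : deriv (fun s : ℝ => Complex.I * (s : ℂ) * iteratedDeriv (n + 1) a s +
          ((n : ℂ) + 1) * (Complex.I * iteratedDeriv n a s)) t =
        Complex.I * iteratedDeriv (n + 1) a t +
          Complex.I * (t : ℂ) * iteratedDeriv (n + 1 + 1) a t +
        ((n : ℂ) + 1) * (Complex.I * iteratedDeriv (n + 1) a t) := h1.deriv
    rw [h2]
    push_cast
    ring

/-- the difference of two values of the Fourier integral -/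
private theorem T15_diff {a : ℝ → ℂ} {ρ M : ℝ} (hρ : 0 ≤ ρ) (hs : ContDiff ℝ ∞ a)
    (hsu : ∀ t, ρ < |t| → a t = 0) (hbd : ∀ k ≤ 8, ∀ t, ‖iteratedDeriv k a t‖ ≤ M) {y y' : ℝ}
    (hy : |y' - y| ≤ 1) :
    ‖T14_F a y' - T14_F a y‖ ≤ |y' - y| * (2 ^ 20 * (M * (ρ + 1) ^ 2) / (1 + |y|) ^ 8) := by
  have hM : 0 ≤ M := (norm_nonneg _).trans (hbd 0 (by norm_num) 0)
  obtain ⟨b, hbdef⟩ : ∃ b : ℝ → ℂ, b = fun t : ℝ => Complex.I * (t : ℂ) * a t := ⟨_, rfl⟩
  have hbs : ContDiff ℝ ∞ b := by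
    rw [hbdef]
    exact (contDiff_const.mul Complex.ofRealCLM.contDiff).mul hs
  have hbsu : ∀ t, ρ < |t| → b t = 0 := by
    intro t ht
    rw [hbdef]
    show Complex.I * (t : ℂ) * a t = 0
    rw [hsu t ht, mul_zero]
  have hai : Integrable a := by
    have := T14_cint hs hsu 0
    rwa [iteratedDeriv_zero] at this
  have hbi : ∀ k, Integrable (iteratedDeriv k b) := T14_cint hbs hbsu
  have hbi0 : Integrable b := by
    have := hbi 0
    rwa [iteratedDeriv_zero] at this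
  have hb0 : ∀ t, ‖b t‖ ≤ ρ * M := by
    intro t
    by_cases ht : ρ < |t|
    · rw [hbsu t ht, norm_zero]
      positivity
    · have h1 := hbd 0 (by norm_num) t
      rw [iteratedDeriv_zero] at h1
      rw [hbdef]
      show ‖Complex.I * (t : ℂ) * a t‖ ≤ _
      rw [norm_mul, norm_mul, Complex.norm_I, one_mul, Complex.norm_real, Real.norm_eq_abs]
      exact mul_le_mul (not_lt.1 ht) h1 (norm_nonneg _) hρ
  have hb8 : ∀ t, ‖iteratedDeriv 8 b t‖ ≤ (ρ + 8) * M := by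
    intro t
    by_cases ht : ρ < |t|
    · rw [T14_supp hbsu 8 t ht, norm_zero]
      positivity
    · have h7 := hbd 7 (by norm_num) t
      have h8 := hbd 8 (by norm_num) t
      have h1 := T15_leib hs 7 t
      rw [← hbdef] at h1
      norm_num at h1
      rw [h1]
      refine (norm_add_le _ _).trans ?_
      rw [norm_mul, norm_mul, Complex.norm_I, one_mul, Complex.norm_real, Real.norm_eq_abs,
        norm_mul, norm_mul, Complex.norm_I, one_mul]
      have h2 : |t| * ‖iteratedDeriv 8 a t‖ ≤ ρ * M :=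
        mul_le_mul (not_lt.1 ht) h8 (norm_nonneg _) hρ
      have h3 : ‖(8 : ℂ)‖ = 8 := by norm_num
      rw [h3]
      linarith
  have i0 := T14_cle (B := ρ * M) hρ 0 hbs hbsu (fun t => by
    rw [iteratedDeriv_zero]
    exact hb0 t)
  have i8 := T14_cle (B := (ρ + 8) * M) hρ 8 hbs hbsu hb8
  rw [iteratedDeriv_zero] at i0
  have hK : 256 * ((∫ t, ‖b t‖) + ∫ t, ‖iteratedDeriv 8 b t‖) ≤ 2 ^ 12 * (M * (ρ + 1) ^ 2) := by
    have h1 : 0 ≤ M * ρ := by positivity
    have h2 : 0 ≤ M * ρ ^ 2 := by positivity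
    nlinarith
  have hG : ∀ z : ℝ, |z - y| ≤ 1 → ‖T14_F b z‖ ≤ 2 ^ 20 * (M * (ρ + 1) ^ 2) / (1 + |y|) ^ 8 := by
    intro z hz
    refine (T14_F_decay hbs (fun k _ => hbi k) z).trans ?_
    have h1 : (1 + |y|) ≤ 2 * (1 + |z|) := by
      have h2 : |y| ≤ |z| + |z - y| := by
        have := abs_sub_abs_le_abs_sub y z
        rw [abs_sub_comm y z] at this
        linarith
      have := abs_nonneg z
      linarith
    have h3 : (1 + |y|) ^ 8 ≤ 2 ^ 8 * (1 + |z|) ^ 8 := by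
      rw [← mul_pow]
      exact pow_le_pow_left₀ (by positivity) h1 8
    rw [div_le_div_iff₀ (by positivity) (by positivity)]
    calc 256 * ((∫ t, ‖b t‖) + ∫ t, ‖iteratedDeriv 8 b t‖) * (1 + |y|) ^ 8
        ≤ (2 ^ 12 * (M * (ρ + 1) ^ 2)) * (2 ^ 8 * (1 + |z|) ^ 8) := by
          apply mul_le_mul hK h3 (by positivity) (by positivity)
      _ = 2 ^ 20 * (M * (ρ + 1) ^ 2) * (1 + |z|) ^ 8 := by ring
  have hmv := (convex_uIcc y y').norm_image_sub_le_of_norm_hasDerivWithin_le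
    (f := T14_F a) (f' := T14_F b) (C := 2 ^ 20 * (M * (ρ + 1) ^ 2) / (1 + |y|) ^ 8)
    (fun z _ => by
      rw [hbdef]
      exact (T15_deriv hai (by rw [hbdef] at hbi0; exact hbi0) z).hasDerivWithinAt)
    (fun z hz => hG z ((abs_sub_left_of_mem_uIcc hz).trans hy))
    left_mem_uIcc right_mem_uIcc
  rw [Real.norm_eq_abs, mul_comm] at hmv
  exact hmv

/-- the difference of two values of the test function, near points -/
private theorem T15_near {a : ℝ → ℂ} {ρ M : ℝ} (hρ : 0 ≤ ρ) (hs : ContDiff ℝ ∞ a)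
    (hsu : ∀ t, ρ < |t| → a t = 0) (hbd : ∀ k ≤ 8, ∀ t, ‖iteratedDeriv k a t‖ ≤ M) {τ l l' : ℝ}
    (hτ : 0 ≤ τ) (hl : 0 ≤ l) (hy : |l' - l| ≤ 1) :
    |BR.hh (BR.osc a τ) l' - BR.hh (BR.osc a τ) l| ≤
      |l' - l| * (2 ^ 20 * (M * (ρ + 1) ^ 2) / (1 + |l - τ|) ^ 8) := by
  have hM : 0 ≤ M := (norm_nonneg _).trans (hbd 0 (by norm_num) 0)
  have hai : Integrable a := by
    have := T14_cint hs hsu 0
    rwa [iteratedDeriv_zero] at this
  have d1 := T15_diff hρ hs hsu hbd (y := l - τ) (y' := l' - τ) (by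
    rw [show l' - τ - (l - τ) = l' - l by ring]
    exact hy)
  have d2 := T15_diff hρ hs hsu hbd (y := -l - τ) (y' := -l' - τ) (by
    rw [show -l' - τ - (-l - τ) = -(l' - l) by ring, abs_neg]
    exact hy)
  rw [show l' - τ - (l - τ) = l' - l by ring] at d1
  rw [show -l' - τ - (-l - τ) = -(l' - l) by ring, abs_neg] at d2
  have h3 : |l - τ| ≤ |-l - τ| := by
    have e1 : |-l - τ| = l + τ := by
      rw [show -l - τ = -(l + τ) by ring, abs_neg, abs_of_nonneg (by linarith)]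
    rw [e1, abs_le]
    constructor <;> linarith
  have h4 : 2 ^ 20 * (M * (ρ + 1) ^ 2) / (1 + |-l - τ|) ^ 8 ≤
      2 ^ 20 * (M * (ρ + 1) ^ 2) / (1 + |l - τ|) ^ 8 := by
    apply div_le_div_of_nonneg_left (by positivity) (by positivity)
    exact pow_le_pow_left₀ (by positivity) (by linarith) 8
  have h5 := mul_le_mul_of_nonneg_left h4 (abs_nonneg (l' - l))
  have a1 := Complex.abs_re_le_norm (T14_F a (l' - τ) - T14_F a (l - τ))
  have a2 := Complex.abs_re_le_norm (T14_F a (-l' - τ) - T14_F a (-l - τ))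
  rw [Complex.sub_re, abs_le] at a1 a2
  rw [T14_hh hai, T14_hh hai, abs_le]
  constructor <;> linarith [a1.1, a1.2, a2.1, a2.2]

/-- the general comparison -/
private theorem T15_cmp {a : ℝ → ℂ} {ρ M : ℝ} (hρ : 0 ≤ ρ) (hs : ContDiff ℝ ∞ a)
    (hsu : ∀ t, ρ < |t| → a t = 0) (hbd : ∀ k ≤ 8, ∀ t, ‖iteratedDeriv k a t‖ ≤ M) {τ l l' η : ℝ}
    (hτ : 1 ≤ τ) (hl : 0 ≤ l) (hl' : 0 ≤ l') (hη : 0 ≤ η) (hητ : η * τ ≤ 1 / 2) (hη1 : η ≤ 1)
    (h1 : l' ≤ Real.exp (η / 2) * l) (h2 : l ≤ Real.exp (η / 2) * l') :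
    |BR.hh (BR.osc a τ) l' - BR.hh (BR.osc a τ) l| ≤
      (2 ^ 20 + 1024 * (1 + 10 ^ 8)) * (M * (ρ + 1) ^ 2) * (τ * η) * (1 / (1 + |l - τ|) ^ 4) := by
  have hM : 0 ≤ M := (norm_nonneg _).trans (hbd 0 (by norm_num) 0)
  have hai : ∀ k, Integrable (iteratedDeriv k a) := T14_cint hs hsu
  have hexp : Real.exp (η / 2) ≤ 1 + η := by
    have := Real.exp_bound_div_one_sub_of_interval (x := η / 2) (by linarith) (by linarith)
    refine this.trans ?_
    rw [div_le_iff₀ (by linarith)]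
    nlinarith
  have hE0 : 0 < Real.exp (η / 2) := Real.exp_pos _
  have hdl : |l' - l| ≤ η * l := by
    rw [abs_le]
    constructor
    · -- l ≤ (1 + η) l'
      have e1 : Real.exp (η / 2) * (1 - η / 2) ≤ 1 := by
        have := Real.add_one_le_exp (-(η / 2))
        have e2 : Real.exp (η / 2) * Real.exp (-(η / 2)) = 1 := by
          rw [← Real.exp_add]
          simp
        calc Real.exp (η / 2) * (1 - η / 2) ≤ Real.exp (η / 2) * Real.exp (-(η / 2)) :=
              mul_le_mul_of_nonneg_left (by linarith) hE0.le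
          _ = 1 := e2
      have e3 : l * (1 - η / 2) ≤ l' := by
        calc l * (1 - η / 2) ≤ (Real.exp (η / 2) * l') * (1 - η / 2) :=
              mul_le_mul_of_nonneg_right h2 (by linarith)
          _ = l' * (Real.exp (η / 2) * (1 - η / 2)) := by ring
          _ ≤ l' * 1 := mul_le_mul_of_nonneg_left e1 hl'
          _ = l' := mul_one _
      have e4 : 0 ≤ η * l := by positivity
      linarith
    · have e1 : Real.exp (η / 2) * l ≤ (1 + η) * l := mul_le_mul_of_nonneg_right hexp hl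
      linarith
  have hd0 : 0 ≤ |l - τ| := abs_nonneg _
  -- the bound with `η l / (1 + |l - τ|) ^ 8`
  have key : |BR.hh (BR.osc a τ) l' - BR.hh (BR.osc a τ) l| ≤
      (η * l) * ((2 ^ 20 + 1024 * (1 + 10 ^ 8)) * (M * (ρ + 1) ^ 2) / (1 + |l - τ|) ^ 8) := by
    rcases le_total (η * l) 1 with hc | hc
    · refine (T15_near hρ hs hsu hbd (by linarith) hl (hdl.trans hc)).trans ?_
      apply mul_le_mul hdl _ (by positivity) (by positivity)
      apply div_le_div_of_nonneg_right _ (by positivity)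
      have : 0 ≤ M * (ρ + 1) ^ 2 := by positivity
      nlinarith
    · have hpos : 0 < η := by
        rcases hη.lt_or_eq with h | h
        · exact h
        · rw [← h, zero_mul] at hc
          linarith
      have hl2 : 2 * τ ≤ l := by
        have e1 : η * (2 * τ) ≤ η * l := by linarith
        exact le_of_mul_le_mul_left e1 hpos
      have hfb : ∀ y, 0 ≤ y → |BR.hh (BR.osc a τ) y| ≤ (1024 * ρ * M) / (1 + |y - τ|) ^ 8 := by
        intro y hy
        refine (T14_hh_le hs (fun k _ => hai k) (by linarith) hy).trans ?_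
        apply div_le_div_of_nonneg_right _ (by positivity)
        have i0 := T14_cle (B := M) hρ 0 hs hsu (fun t => hbd 0 (by norm_num) t)
        have i8 := T14_cle (B := M) hρ 8 hs hsu (fun t => hbd 8 le_rfl t)
        rw [iteratedDeriv_zero] at i0
        linarith
      have hl'l : (1 + |l - τ|) ≤ 10 * (1 + |l' - τ|) := by
        have e1 : Real.exp (η / 2) ≤ 5 / 3 := by
          have e2 : Real.exp (η / 2) ≤ Real.exp (1 / 2) := Real.exp_le_exp.2 (by linarith)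
          have e3 : Real.exp (1 / 2) ^ 2 ≤ (5 / 3) ^ 2 := by
            rw [← Real.exp_nat_mul]
            have := Real.exp_one_lt_d9
            norm_num
            linarith
          have e4 : Real.exp (1 / 2) ≤ 5 / 3 :=
            (pow_le_pow_iff_left₀ (Real.exp_pos _).le (by norm_num) two_ne_zero).1 e3
          linarith
        have e5 : l ≤ 5 / 3 * l' := h2.trans (mul_le_mul_of_nonneg_right e1 hl')
        rw [abs_of_nonneg (by linarith : 0 ≤ l - τ), abs_of_nonneg (by linarith : 0 ≤ l' - τ)]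
        linarith
      have hp : (1 + |l - τ|) ^ 8 ≤ 10 ^ 8 * (1 + |l' - τ|) ^ 8 := by
        rw [← mul_pow]
        exact pow_le_pow_left₀ (by positivity) hl'l 8
      have f1 := hfb l hl
      have f2 := hfb l' hl'
      have f3 : (1024 * ρ * M) / (1 + |l' - τ|) ^ 8 ≤
          (10 ^ 8 * (1024 * ρ * M)) / (1 + |l - τ|) ^ 8 := by
        rw [div_le_div_iff₀ (by positivity) (by positivity)]
        have : 0 ≤ 1024 * ρ * M := by positivity
        nlinarith
      have hρM : 1024 * ρ * M ≤ 1024 * (M * (ρ + 1) ^ 2) := by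
        have e1 : 0 ≤ M * ρ := by positivity
        have e2 : 0 ≤ M * ρ ^ 2 := by positivity
        nlinarith
      calc |BR.hh (BR.osc a τ) l' - BR.hh (BR.osc a τ) l|
          ≤ |BR.hh (BR.osc a τ) l'| + |BR.hh (BR.osc a τ) l| := abs_sub _ _
        _ ≤ (10 ^ 8 * (1024 * ρ * M)) / (1 + |l - τ|) ^ 8 +
            (1024 * ρ * M) / (1 + |l - τ|) ^ 8 := add_le_add (f2.trans f3) f1
        _ = ((1 + 10 ^ 8) * (1024 * ρ * M)) / (1 + |l - τ|) ^ 8 := by ring
        _ ≤ ((2 ^ 20 + 1024 * (1 + 10 ^ 8)) * (M * (ρ + 1) ^ 2)) / (1 + |l - τ|) ^ 8 := by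
            apply div_le_div_of_nonneg_right _ (by positivity)
            have : 0 ≤ M * (ρ + 1) ^ 2 := by positivity
            nlinarith
        _ = 1 * (((2 ^ 20 + 1024 * (1 + 10 ^ 8)) * (M * (ρ + 1) ^ 2)) / (1 + |l - τ|) ^ 8) := by
            ring
        _ ≤ _ := mul_le_mul_of_nonneg_right hc (by positivity)
  refine key.trans ?_
  have hlt : l ≤ τ * (1 + |l - τ|) := by
    have e1 : l ≤ τ + |l - τ| := by
      have := le_abs_self (l - τ)
      linarith
    have e2 : |l - τ| ≤ τ * |l - τ| := by nlinarith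
    linarith
  have h8 : l * (1 / (1 + |l - τ|) ^ 8) ≤ τ * (1 / (1 + |l - τ|) ^ 4) := by
    have e1 : (1 + |l - τ|) ^ 5 ≤ (1 + |l - τ|) ^ 8 :=
      pow_le_pow_right₀ (by linarith) (by norm_num)
    have e2 : 1 / (1 + |l - τ|) ^ 8 ≤ 1 / (1 + |l - τ|) ^ 5 :=
      one_div_le_one_div_of_le (by positivity) e1
    calc l * (1 / (1 + |l - τ|) ^ 8) ≤ (τ * (1 + |l - τ|)) * (1 / (1 + |l - τ|) ^ 5) :=
          mul_le_mul hlt e2 (by positivity) (by positivity)
      _ = τ * (1 / (1 + |l - τ|) ^ 4) := by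
          have : (1 + |l - τ|) ≠ 0 := by positivity
          field_simp
  have h9 : 0 ≤ (2 ^ 20 + 1024 * (1 + 10 ^ 8)) * (M * (ρ + 1) ^ 2) * η := by positivity
  calc (η * l) * ((2 ^ 20 + 1024 * (1 + 10 ^ 8)) * (M * (ρ + 1) ^ 2) / (1 + |l - τ|) ^ 8)
      = (2 ^ 20 + 1024 * (1 + 10 ^ 8)) * (M * (ρ + 1) ^ 2) * η *
          (l * (1 / (1 + |l - τ|) ^ 8)) := by ring
    _ ≤ (2 ^ 20 + 1024 * (1 + 10 ^ 8)) * (M * (ρ + 1) ^ 2) * η *
          (τ * (1 / (1 + |l - τ|) ^ 4)) := mul_le_mul_of_nonneg_left h8 h9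
    _ = _ := by ring

/-- the series of the values at the levels converges -/
private theorem T15_sum {a : ℝ → ℂ} {ρ M : ℝ} (hρ : 0 ≤ ρ) (hs : ContDiff ℝ ∞ a)
    (hsu : ∀ t, ρ < |t| → a t = 0) (hbd : ∀ k ≤ 8, ∀ t, ‖iteratedDeriv k a t‖ ≤ M) {τ : ℝ}
    (hτ : 1 ≤ τ) {l : ℕ → ℝ} (hl : ∀ j, 0 ≤ l j)
    (hsm : Summable (fun j => 1 / (1 + |l j - τ|) ^ 4)) :
    Summable (fun j => BR.hh (BR.osc a τ) (l j)) := by
  have hM : 0 ≤ M := (norm_nonneg _).trans (hbd 0 (by norm_num) 0)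
  have hai : ∀ k, Integrable (iteratedDeriv k a) := T14_cint hs hsu
  refine Summable.of_norm_bounded (g := fun j => (1024 * ρ * M) * (1 / (1 + |l j - τ|) ^ 4))
    (hsm.mul_left _) fun j => ?_
  rw [Real.norm_eq_abs]
  refine (T14_hh_le hs (fun k _ => hai k) (by linarith) (hl j)).trans ?_
  have i0 := T14_cle (B := M) hρ 0 hs hsu (fun t => hbd 0 (by norm_num) t)
  have i8 := T14_cle (B := M) hρ 8 hs hsu (fun t => hbd 8 le_rfl t)
  rw [iteratedDeriv_zero] at i0
  have hd0 : 0 ≤ |l j - τ| := abs_nonneg _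
  have e1 : (1 + |l j - τ|) ^ 4 ≤ (1 + |l j - τ|) ^ 8 :=
    pow_le_pow_right₀ (by linarith) (by norm_num)
  have e2 : 1 / (1 + |l j - τ|) ^ 8 ≤ 1 / (1 + |l j - τ|) ^ 4 :=
    one_div_le_one_div_of_le (by positivity) e1
  rw [div_eq_mul_one_div]
  apply mul_le_mul (by linarith) e2 (by positivity) (by positivity)

theorem spec_close : ∃ C0 : ℝ, 0 ≤ C0 ∧ ∀ (hX : Surface Γ D) (m m' : Mt Γ D) (C : ℝ),
    UC hX m C → UC hX m' C → ∀ (v : Pl → ℝ) (η : ℝ), ContDiff ℝ ∞ v → (∀ z, |v z| ≤ η) →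
    (∀ z, m'.1.1 z = Real.exp (v z) • m.1.1 z) → ∀ (a : ℝ → ℂ) (ρ M : ℝ), 0 ≤ ρ → AmpH 8 a ρ M 1 →
    ∀ τ : ℝ, 1 ≤ τ → η * τ ≤ 1 / 2 → η ≤ 1 →
      |Qs m' a τ - Qs m a τ| ≤ C0 * (C + 1) * M * (ρ + 1) ^ 2 * τ ^ 3 * η := by
  refine ⟨8 * (2 ^ 20 + 1024 * (1 + 10 ^ 8)), by positivity,
    fun hX m m' C hU hU' v η hvc hv hm a ρ M hρ ha τ hτ hητ hη1 => ?_⟩
  have hη : 0 ≤ η := (abs_nonneg (v 0)).trans (hv 0)
  have hC := hU.nonneg
  have hbd : ∀ k ≤ 8, ∀ t, ‖iteratedDeriv k a t‖ ≤ M := fun k hk t => by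
    have := ha.bound k hk t
    simpa using this
  have hM : 0 ≤ M := (norm_nonneg _).trans (hbd 0 (by norm_num) 0)
  have hlam : ∀ j, 0 ≤ FG33.lam m j := fun j => by
    unfold FG33.lam
    exact Real.sqrt_nonneg _
  have hlam' : ∀ j, 0 ≤ FG33.lam m' j := fun j => by
    unfold FG33.lam
    exact Real.sqrt_nonneg _
  obtain ⟨s1, s2⟩ := T14_levels hC hU.cnt hτ
  obtain ⟨s1', -⟩ := T14_levels hC hU'.cnt hτ
  have S := T15_sum hρ ha.smooth ha.supp hbd hτ hlam s1
  have S' := T15_sum hρ ha.smooth ha.supp hbd hτ hlam' s1'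
  have hd : ∀ j, |hh (osc a τ) (FG33.lam m' j) - hh (osc a τ) (FG33.lam m j)| ≤
      (2 ^ 20 + 1024 * (1 + 10 ^ 8)) * (M * (ρ + 1) ^ 2) * (τ * η) *
        (1 / (1 + |FG33.lam m j - τ|) ^ 4) := fun j =>
    T15_cmp hρ ha.smooth ha.supp hbd hτ (hlam j) (hlam' j) hη hητ hη1
      (lam_conf hX m m' hvc hv hm j).1 (lam_conf hX m m' hvc hv hm j).2
  have hQ : Qs m' a τ - Qs m a τ =
      ∑' j, (hh (osc a τ) (FG33.lam m' j) - hh (osc a τ) (FG33.lam m j)) := by
    rw [S'.tsum_sub S]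
    unfold Qs
    ring
  rw [hQ, ← Real.norm_eq_abs]
  have hg := s1.mul_left ((2 ^ 20 + 1024 * (1 + 10 ^ 8)) * (M * (ρ + 1) ^ 2) * (τ * η))
  refine (tsum_of_norm_bounded hg.hasSum hd).trans ?_
  rw [tsum_mul_left]
  have hK0 : 0 ≤ (2 ^ 20 + 1024 * (1 + 10 ^ 8)) * (M * (ρ + 1) ^ 2) * (τ * η) := by positivity
  refine (mul_le_mul_of_nonneg_left s2 hK0).trans ?_
  have h1 : 8 * C * τ ^ 2 ≤ 8 * (C + 1) * τ ^ 2 := by
    have : 0 ≤ τ ^ 2 := by positivity
    nlinarith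
  refine (mul_le_mul_of_nonneg_left h1 hK0).trans (le_of_eq ?_)
  ring

end B36
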