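import Pool.Agent.LibBE36T.Defs
import Pool.Agent.LibBE73.X1

/-! ROW T1 : `Ab N` of an oscillating function, explicit constant. MEDIUM (copy of LibBE73/X1.lean, 356 lines; the private lemmas
of X1 have to be copied: rename X1_ to T1_).
PLAN. Copy X1 with `SmH n b ρ S H` (`H ≥ 1`) in place of `Sm n b ρ S`:
`T1_Sm_deriv`: `SmH (n+1) b ρ S H → SmH n (deriv b) ρ (S * H) H`. `T1_Sm_mul`: `SmH (n+1) b ρ S H → SmH n (t b) ρ ((n+1) (ρ+1) S) H`
(`ρ S H^k + k S H^(k-1) ≤ (n+1)(ρ+1) S H^k`, `H ≥ 1`).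
`T1_base`, `T1_parts`: unchanged. `T1_main (n) : ∀ α, n + 1/2 ≤ α → ∀ b ρ S H τ σ, ... → ‖I(b, α)‖ ≤ S * (H + 2 * α * n) ^ n * (ρ+1)^(2α+1) / τ^n`
by induction: `τ⁻¹ (S H (H + 2αn)^n + 2α (n+1) S (H + 2(α-1)n)^n) ≤ S (H + 2α(n+1)) (H + 2αn)^n / τ ≤ S (H + 2α(n+1))^(n+1) / τ`.
End: `α = N - 1/2`, `n = N - 1`: `H + 2αn = H + (2N-1)(N-1) ≤ H + 4N²`; the factor `1/(√π Γ(N+1/2)) ≤ 1` for `N ≥ 1`:
`Γ(N + 1/2) ≥ Γ(3/2) = √π/2` (`Real.Gamma_nat_add_half`? or induction with `Real.Gamma_add_one`: `Γ(x+1) = x Γ(x)`, `x = N + 1/2 ≥ 1`;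
`Real.Gamma_one_half_eq`), so `√π Γ(N + 1/2) ≥ π/2 ≥ 1`. -/

open MeasureTheory Set Filter Topology
open scoped ContDiff

namespace B36

open BGS BR BE73

private theorem T1_mul (b : ℝ → ℂ) (hb : ContDiff ℝ ∞ b) (k : ℕ) :
    iteratedDeriv k (fun t : ℝ => (t : ℂ) * b t) =
      fun t : ℝ => (t : ℂ) * iteratedDeriv k b t + (k : ℂ) * iteratedDeriv (k - 1) b t := by
  have hd : ∀ (j : ℕ) (t : ℝ), HasDerivAt (iteratedDeriv j b) (iteratedDeriv (j + 1) b t) t := by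
    intro j t
    rw [iteratedDeriv_succ]
    have h1 : ContDiff ℝ ∞ (iteratedDeriv j b) := by
      rw [iteratedDeriv_eq_iterate]
      exact hb.iterate_deriv j
    exact (h1.differentiable (by simp) t).hasDerivAt
  have hid : ∀ t : ℝ, HasDerivAt (fun t : ℝ => (t : ℂ)) 1 t := fun t =>
    (hasDerivAt_id t).ofReal_comp
  induction k with
  | zero =>
    funext t
    simp
  | succ k ih =>
    rw [iteratedDeriv_succ, ih]
    funext t
    rcases k with _ | k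
    · have h1 : HasDerivAt (fun t : ℝ => (t : ℂ) * iteratedDeriv 0 b t +
          ((0 : ℕ) : ℂ) * iteratedDeriv (0 - 1) b t)
          (1 * iteratedDeriv 0 b t + (t : ℂ) * iteratedDeriv (0 + 1) b t + ((0 : ℕ) : ℂ) *
            iteratedDeriv (0 + 1) b t) t :=
        ((hid t).mul (hd 0 t)).add ((hd 0 t).const_mul _)
      rw [h1.deriv]
      simp
      ring
    · have h1 : HasDerivAt (fun t : ℝ => (t : ℂ) * iteratedDeriv (k + 1) b t +
          ((k + 1 : ℕ) : ℂ) * iteratedDeriv (k + 1 - 1) b t)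
          (1 * iteratedDeriv (k + 1) b t + (t : ℂ) * iteratedDeriv (k + 1 + 1) b t +
            ((k + 1 : ℕ) : ℂ) * iteratedDeriv (k + 1) b t) t := by
        have h2 := ((hid t).mul (hd (k + 1) t)).add ((hd k t).const_mul ((k + 1 : ℕ) : ℂ))
        exact h2
      rw [h1.deriv]
      push_cast
      ring_nf

private theorem T1_zero {b : ℝ → ℂ} {ρ : ℝ} (h : ∀ t, ρ < t → b t = 0) (k : ℕ) :
    ∀ t, ρ < t → iteratedDeriv k b t = 0 := by
  induction k with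
  | zero => intro t ht; rw [iteratedDeriv_zero]; exact h t ht
  | succ k ih =>
    intro t ht
    rw [iteratedDeriv_succ]
    have h1 : iteratedDeriv k b =ᶠ[𝓝 t] fun _ => 0 := by
      filter_upwards [Ioi_mem_nhds ht] with x hx
      exact ih x hx
    rw [h1.deriv_eq, deriv_const]

private theorem T1_S {n : ℕ} {b : ℝ → ℂ} {ρ S H : ℝ} (h : SmH n b ρ S H) : 0 ≤ S := by
  have h1 := (norm_nonneg _).trans (h.bound 0 (Nat.zero_le n) 0 le_rfl)
  rwa [pow_zero, mul_one] at h1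

private theorem T1_Sm_deriv {n : ℕ} {b : ℝ → ℂ} {ρ S H : ℝ} (h : SmH (n + 1) b ρ S H) :
    SmH n (deriv b) ρ (S * H) H where
  smooth := ((contDiff_infty_iff_deriv).1 h.smooth).2
  supp := fun t ht => by
    have := T1_zero h.supp 1 t ht
    rwa [iteratedDeriv_one] at this
  bound := fun k hk t ht => by
    have := h.bound (k + 1) (by omega) t ht
    rw [iteratedDeriv_succ', pow_succ'] at this
    rw [mul_assoc]
    exact this

private theorem T1_Sm_mul {n : ℕ} {b : ℝ → ℂ} {ρ S H : ℝ} (hρ : 0 ≤ ρ) (hH : 1 ≤ H)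
    (h : SmH (n + 1) b ρ S H) :
    SmH n (fun t : ℝ => (t : ℂ) * b t) ρ (((n : ℝ) + 1) * (ρ + 1) * S) H where
  smooth := Complex.ofRealCLM.contDiff.mul h.smooth
  supp := fun t ht => by rw [h.supp t ht, mul_zero]
  bound := fun k hk t ht => by
    have hS : 0 ≤ S := T1_S h
    have hH0 : 0 ≤ H := by linarith
    have hHk : 0 ≤ H ^ k := pow_nonneg hH0 k
    rw [T1_mul b h.smooth k]
    rcases le_or_gt t ρ with h1 | h1
    · have h2 : ‖(t : ℂ) * iteratedDeriv k b t‖ ≤ ρ * (S * H ^ k) := by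
        rw [norm_mul, Complex.norm_real, Real.norm_of_nonneg ht]
        exact mul_le_mul h1 (h.bound k (by omega) t ht) (norm_nonneg _) hρ
      have h3 : ‖(k : ℂ) * iteratedDeriv (k - 1) b t‖ ≤ n * (S * H ^ k) := by
        rw [norm_mul, Complex.norm_natCast]
        refine mul_le_mul (by exact_mod_cast hk) ((h.bound (k - 1) (by omega) t ht).trans ?_)
          (norm_nonneg _) (Nat.cast_nonneg n)
        exact mul_le_mul_of_nonneg_left (pow_le_pow_right₀ hH (Nat.sub_le k 1)) hS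
      refine (norm_add_le _ _).trans ((add_le_add h2 h3).trans ?_)
      have h4 : (0 : ℝ) ≤ n := Nat.cast_nonneg n
      have h5 : ρ + n ≤ ((n : ℝ) + 1) * (ρ + 1) := by nlinarith
      have h6 : 0 ≤ S * H ^ k := mul_nonneg hS hHk
      calc ρ * (S * H ^ k) + n * (S * H ^ k) = (ρ + n) * (S * H ^ k) := by ring
        _ ≤ ((n : ℝ) + 1) * (ρ + 1) * (S * H ^ k) := mul_le_mul_of_nonneg_right h5 h6
        _ = ((n : ℝ) + 1) * (ρ + 1) * S * H ^ k := by ring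
    · show ‖(t : ℂ) * iteratedDeriv k b t + (k : ℂ) * iteratedDeriv (k - 1) b t‖ ≤ _
      rw [T1_zero h.supp k t h1, T1_zero h.supp (k - 1) t h1, mul_zero, mul_zero, add_zero,
        norm_zero]
      positivity

/-- the oscillating integral. -/
private noncomputable def T1_I (b : ℝ → ℂ) (α τ σ ρ : ℝ) : ℂ :=
  ∫ t in (√σ)..ρ, Complex.exp (-(Complex.I * τ * t)) * (b t * (((t ^ 2 - σ) ^ α : ℝ) : ℂ))

private theorem T1_norm (τ u : ℝ) : ‖Complex.exp (-(Complex.I * τ * u))‖ = 1 := by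
  have h : -(Complex.I * τ * u) = ((-(τ * u) : ℝ) : ℂ) * Complex.I := by
    push_cast
    ring
  rw [h, Complex.norm_exp_ofReal_mul_I]

private theorem T1_exp (τ : ℝ) : Continuous fun u : ℝ => Complex.exp (-(Complex.I * τ * u)) := by
  fun_prop

private theorem T1_exp_deriv {τ : ℝ} (hτ : τ ≠ 0) (u : ℝ) :
    HasDerivAt (fun u : ℝ => Complex.exp (-(Complex.I * τ * u)) / (-(Complex.I * τ)))
      (Complex.exp (-(Complex.I * τ * u))) u := by
  have h1 : HasDerivAt (fun u : ℝ => -(Complex.I * τ * (u : ℂ))) (-(Complex.I * τ)) u := by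
    have h2 : HasDerivAt (fun u : ℝ => (u : ℂ)) 1 u := (hasDerivAt_id u).ofReal_comp
    have h3 := (h2.const_mul (Complex.I * τ)).neg
    rw [mul_one] at h3
    exact h3
  have h4 := h1.cexp.div_const (-(Complex.I * τ : ℂ))
  have h5 : (-(Complex.I * τ) : ℂ) ≠ 0 := by
    simp [hτ]
  rw [mul_div_cancel_right₀ _ h5] at h4
  exact h4

private theorem T1_P (α σ : ℝ) (hα : 0 ≤ α) :
    Continuous fun t : ℝ => (((t ^ 2 - σ) ^ α : ℝ) : ℂ) := by
  refine Complex.continuous_ofReal.comp ?_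
  refine Continuous.rpow_const (by fun_prop) fun x => Or.inr hα

private theorem T1_P_deriv {α : ℝ} (hα : 1 ≤ α) (σ t : ℝ) :
    HasDerivAt (fun t : ℝ => (((t ^ 2 - σ) ^ α : ℝ) : ℂ))
      ((2 * α * (t * (((t ^ 2 - σ) ^ (α - 1) : ℝ) : ℂ)) : ℂ)) t := by
  have h1 : HasDerivAt (fun t : ℝ => t ^ 2 - σ) (2 * t) t := by
    have := (hasDerivAt_pow 2 t).sub_const σ
    simpa using this
  have h2 := (Real.hasDerivAt_rpow_const (x := t ^ 2 - σ) (p := α) (Or.inr hα)).comp t h1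
  have h3 := h2.ofReal_comp
  refine h3.congr_deriv ?_
  push_cast
  ring

private theorem T1_base {α : ℝ} (hα : 1 / 2 ≤ α) {b : ℝ → ℂ} {ρ S H τ σ : ℝ} (hρ : 0 ≤ ρ)
    (h : SmH 0 b ρ S H) (hσ : 0 ≤ σ) (hs : √σ ≤ ρ) :
    ‖T1_I b α τ σ ρ‖ ≤ S * (ρ + 1) ^ (2 * α + 1) := by
  have hS : 0 ≤ S := T1_S h
  have hb : ∀ t ∈ uIoc (√σ) ρ, ‖Complex.exp (-(Complex.I * τ * t)) *
      (b t * (((t ^ 2 - σ) ^ α : ℝ) : ℂ))‖ ≤ S * (ρ + 1) ^ (2 * α) := by
    intro t ht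
    rw [uIoc_of_le hs] at ht
    have ht0 : 0 ≤ t := (Real.sqrt_nonneg σ).trans ht.1.le
    have h1 : 0 ≤ t ^ 2 - σ := by
      have := (Real.sqrt_le_left ht0).1 ht.1.le
      linarith
    have h2 := h.bound 0 le_rfl t ht0
    rw [iteratedDeriv_zero, pow_zero, mul_one] at h2
    rw [norm_mul, T1_norm, one_mul, norm_mul, Complex.norm_real,
      Real.norm_of_nonneg (Real.rpow_nonneg h1 _)]
    refine mul_le_mul h2 ?_ (Real.rpow_nonneg h1 _) hS
    have h3 : t ^ 2 - σ ≤ (ρ + 1) ^ 2 := by nlinarith [ht.2]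
    calc (t ^ 2 - σ) ^ α ≤ ((ρ + 1) ^ 2) ^ α := Real.rpow_le_rpow h1 h3 (by linarith)
      _ = (ρ + 1) ^ (2 * α) := by
          rw [← Real.rpow_natCast, ← Real.rpow_mul (by linarith)]
          norm_num
  have h4 := intervalIntegral.norm_integral_le_of_norm_le_const hb
  unfold T1_I
  refine h4.trans ?_
  have h5 : |ρ - √σ| ≤ ρ + 1 := by
    rw [abs_of_nonneg (by linarith)]
    linarith [Real.sqrt_nonneg σ]
  have h6 : (ρ + 1) ^ (2 * α + 1) = (ρ + 1) ^ (2 * α) * (ρ + 1) := by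
    rw [Real.rpow_add (by linarith), Real.rpow_one]
  rw [h6]
  have h7 : 0 ≤ (ρ + 1) ^ (2 * α) := Real.rpow_nonneg (by linarith) _
  calc S * (ρ + 1) ^ (2 * α) * |ρ - √σ| ≤ S * (ρ + 1) ^ (2 * α) * (ρ + 1) :=
        mul_le_mul_of_nonneg_left h5 (mul_nonneg hS h7)
    _ = S * ((ρ + 1) ^ (2 * α) * (ρ + 1)) := by ring

private theorem T1_parts {α : ℝ} (hα : 3 / 2 ≤ α) {b : ℝ → ℂ} {ρ τ σ : ℝ}
    (hb : ContDiff ℝ ∞ b) (hsupp : ∀ t, ρ < t → b t = 0) (hτ : 0 < τ) (hσ : 0 ≤ σ) :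
    ‖T1_I b α τ σ ρ‖ ≤ (‖T1_I (deriv b) α τ σ ρ‖ +
      2 * α * ‖T1_I (fun t : ℝ => (t : ℂ) * b t) (α - 1) τ σ ρ‖) / τ := by
  have hbρ : b ρ = 0 := by
    have h1 : Tendsto b (𝓝[>] ρ) (𝓝 (b ρ)) := hb.continuous.continuousAt.continuousWithinAt.tendsto
    have h2 : Tendsto b (𝓝[>] ρ) (𝓝 0) := by
      refine tendsto_const_nhds.congr' ?_
      filter_upwards [self_mem_nhdsWithin] with t ht
      exact (hsupp t ht).symm
    exact tendsto_nhds_unique h1 h2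
  have hdb : ∀ t, HasDerivAt b (deriv b t) t := fun t =>
    (hb.differentiable (by simp) t).hasDerivAt
  have hdc : Continuous (deriv b) := hb.continuous_deriv (by simp)
  have hP := T1_P α σ (by linarith)
  have hP1 := T1_P (α - 1) σ (by linarith)
  set u : ℝ → ℂ := fun t => b t * (((t ^ 2 - σ) ^ α : ℝ) : ℂ) with hu
  set u' : ℝ → ℂ := fun t => deriv b t * (((t ^ 2 - σ) ^ α : ℝ) : ℂ) +
    b t * (2 * α * (t * (((t ^ 2 - σ) ^ (α - 1) : ℝ) : ℂ)) : ℂ) with hu'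
  have hud : ∀ t, HasDerivAt u (u' t) t := fun t =>
    (hdb t).mul (T1_P_deriv (by linarith) σ t)
  have hu'c : Continuous u' := by
    refine (hdc.mul hP).add (hb.continuous.mul (continuous_const.mul
      (Complex.continuous_ofReal.mul hP1)))
  have hparts := intervalIntegral.integral_mul_deriv_eq_deriv_mul (a := √σ) (b := ρ)
    (fun t _ => hud t) (fun t _ => T1_exp_deriv hτ.ne' t)
    (hu'c.intervalIntegrable _ _) ((T1_exp τ).intervalIntegrable _ _)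
  have h0 : u (√σ) = 0 := by
    rw [hu]
    simp only
    rw [Real.sq_sqrt hσ, sub_self, Real.zero_rpow (by linarith), Complex.ofReal_zero, mul_zero]
  have h1 : u ρ = 0 := by
    rw [hu]
    simp only
    rw [hbρ, zero_mul]
  rw [h0, h1, zero_mul, zero_mul, sub_zero, zero_sub] at hparts
  have e1 : T1_I b α τ σ ρ = ∫ t in (√σ)..ρ, u t * Complex.exp (-(Complex.I * τ * t)) := by
    unfold T1_I
    refine intervalIntegral.integral_congr fun t _ => ?_
    simp only [hu]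
    ring
  rw [e1, hparts, norm_neg]
  have hE := T1_exp τ
  have e2 : ∫ t in (√σ)..ρ, u' t * (Complex.exp (-(Complex.I * τ * t)) / (-(Complex.I * τ))) =
      (T1_I (deriv b) α τ σ ρ + 2 * α * T1_I (fun t : ℝ => (t : ℂ) * b t) (α - 1) τ σ ρ) /
        (-(Complex.I * τ)) := by
    unfold T1_I
    rw [← intervalIntegral.integral_const_mul, ← intervalIntegral.integral_add,
      ← intervalIntegral.integral_div]
    · refine intervalIntegral.integral_congr fun t _ => ?_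
      simp only [hu']
      ring
    · exact (hE.mul (hdc.mul hP)).intervalIntegrable _ _
    · exact (continuous_const.mul (hE.mul ((Complex.continuous_ofReal.mul hb.continuous).mul
        hP1))).intervalIntegrable _ _
  rw [e2, norm_div, norm_neg, norm_mul, Complex.norm_I, one_mul, Complex.norm_real,
    Real.norm_of_nonneg hτ.le]
  refine div_le_div_of_nonneg_right ?_ hτ.le
  refine (norm_add_le _ _).trans ?_
  rw [norm_mul]
  have h3 : ‖(2 * α : ℂ)‖ = 2 * α := by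
    have : (2 * α : ℂ) = ((2 * α : ℝ) : ℂ) := by push_cast; ring
    rw [this, Complex.norm_real, Real.norm_of_nonneg (by linarith)]
  rw [h3]

private theorem T1_main (n : ℕ) : ∀ α : ℝ, (n : ℝ) + 1 / 2 ≤ α →
    ∀ (b : ℝ → ℂ) (ρ S H τ σ : ℝ), 0 ≤ ρ → 1 ≤ H → SmH n b ρ S H → 1 ≤ τ → 0 ≤ σ → √σ ≤ ρ →
      ‖T1_I b α τ σ ρ‖ ≤ S * (H + 2 * α * n) ^ n * (ρ + 1) ^ (2 * α + 1) / τ ^ n := by
  induction n with
  | zero =>
    intro α hα b ρ S H τ σ hρ hH h hτ hσ hs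
    rw [pow_zero, pow_zero, div_one, mul_one]
    exact T1_base (by simpa using hα) hρ h hσ hs
  | succ n ih =>
    intro α hα b ρ S H τ σ hρ hH h hτ hσ hs
    have hn : (0 : ℝ) ≤ n := Nat.cast_nonneg n
    push_cast at hα
    have hS : 0 ≤ S := T1_S h
    have hτ0 : 0 < τ := by linarith
    have hα0 : 0 ≤ 2 * α := by linarith
    have hα1 : 0 ≤ 2 * (α - 1) := by linarith
    have a1 := ih α (by linarith) (deriv b) ρ (S * H) H τ σ hρ hH (T1_Sm_deriv h) hτ hσ hs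
    have a2 := ih (α - 1) (by linarith) (fun t : ℝ => (t : ℂ) * b t) ρ _ H τ σ hρ hH
      (T1_Sm_mul hρ hH h) hτ hσ hs
    have a3 := T1_parts (α := α) (b := b) (ρ := ρ) (τ := τ) (σ := σ) (by linarith) h.smooth
      h.supp hτ0 hσ
    have hρ1 : 1 ≤ ρ + 1 := by linarith
    have hexp : (ρ + 1) * (ρ + 1) ^ (2 * (α - 1) + 1) ≤ (ρ + 1) ^ (2 * α + 1) := by
      calc (ρ + 1) * (ρ + 1) ^ (2 * (α - 1) + 1) = (ρ + 1) ^ (1 + (2 * (α - 1) + 1)) := by
            rw [Real.rpow_add (by linarith) 1 (2 * (α - 1) + 1), Real.rpow_one]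
        _ ≤ (ρ + 1) ^ (2 * α + 1) := Real.rpow_le_rpow_of_exponent_le hρ1 (by linarith)
    set Y : ℝ := H + 2 * α * n with hY
    set Z : ℝ := H + 2 * α * ((n + 1 : ℕ) : ℝ) with hZ
    have hY0 : 0 ≤ Y := by
      have := mul_nonneg hα0 hn
      rw [hY]; linarith
    have hYZ : Y ≤ Z := by
      rw [hY, hZ]; push_cast; nlinarith
    have hR0 : 0 ≤ (ρ + 1) ^ (2 * α + 1) := Real.rpow_nonneg (by linarith) _
    have hτn : 0 < τ ^ n := pow_pos hτ0 n
    have a4 : ‖T1_I (fun t : ℝ => (t : ℂ) * b t) (α - 1) τ σ ρ‖ ≤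
        (n + 1) * S * Y ^ n * (ρ + 1) ^ (2 * α + 1) / τ ^ n := by
      refine a2.trans (div_le_div_of_nonneg_right ?_ hτn.le)
      have h1 : (H + 2 * (α - 1) * n) ^ n ≤ Y ^ n := by
        refine pow_le_pow_left₀ ?_ ?_ n
        · have := mul_nonneg hα1 hn
          linarith
        · rw [hY]; nlinarith
      have h2 : 0 ≤ (ρ + 1) * (ρ + 1) ^ (2 * (α - 1) + 1) :=
        mul_nonneg (by linarith) (Real.rpow_nonneg (by linarith) _)
      calc (n + 1) * (ρ + 1) * S * (H + 2 * (α - 1) * n) ^ n * (ρ + 1) ^ (2 * (α - 1) + 1)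
          = (n + 1) * S * ((H + 2 * (α - 1) * n) ^ n *
              ((ρ + 1) * (ρ + 1) ^ (2 * (α - 1) + 1))) := by ring
        _ ≤ (n + 1) * S * (Y ^ n * (ρ + 1) ^ (2 * α + 1)) := by
            refine mul_le_mul_of_nonneg_left ?_ (by positivity)
            exact mul_le_mul h1 hexp h2 (pow_nonneg hY0 n)
        _ = (n + 1) * S * Y ^ n * (ρ + 1) ^ (2 * α + 1) := by ring
    refine a3.trans ?_
    have h5 : (‖T1_I (deriv b) α τ σ ρ‖ +
        2 * α * ‖T1_I (fun t : ℝ => (t : ℂ) * b t) (α - 1) τ σ ρ‖) ≤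
        S * Z ^ (n + 1) * (ρ + 1) ^ (2 * α + 1) / τ ^ n := by
      calc ‖T1_I (deriv b) α τ σ ρ‖ +
          2 * α * ‖T1_I (fun t : ℝ => (t : ℂ) * b t) (α - 1) τ σ ρ‖
          ≤ S * H * Y ^ n * (ρ + 1) ^ (2 * α + 1) / τ ^ n +
            2 * α * ((n + 1) * S * Y ^ n * (ρ + 1) ^ (2 * α + 1) / τ ^ n) :=
            add_le_add a1 (mul_le_mul_of_nonneg_left a4 hα0)
        _ = S * (Z * Y ^ n) * (ρ + 1) ^ (2 * α + 1) / τ ^ n := by
            rw [hZ]; push_cast; ring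
        _ ≤ S * (Z * Z ^ n) * (ρ + 1) ^ (2 * α + 1) / τ ^ n := by
            refine div_le_div_of_nonneg_right ?_ hτn.le
            refine mul_le_mul_of_nonneg_right ?_ hR0
            refine mul_le_mul_of_nonneg_left ?_ hS
            exact mul_le_mul_of_nonneg_left (pow_le_pow_left₀ hY0 hYZ n) (hY0.trans hYZ)
        _ = S * Z ^ (n + 1) * (ρ + 1) ^ (2 * α + 1) / τ ^ n := by
            rw [pow_succ']
    calc _ ≤ S * Z ^ (n + 1) * (ρ + 1) ^ (2 * α + 1) / τ ^ n / τ :=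
          div_le_div_of_nonneg_right h5 hτ0.le
      _ = S * Z ^ (n + 1) * (ρ + 1) ^ (2 * α + 1) / τ ^ (n + 1) := by
          rw [div_div, ← pow_succ]

private theorem T1_gamma (N : ℕ) : √Real.pi / 2 ≤ Real.Gamma (((N + 1 : ℕ) : ℝ) + 1 / 2) := by
  induction N with
  | zero =>
    have h1 : (((0 + 1 : ℕ) : ℝ) + 1 / 2) = 1 / 2 + 1 := by norm_num
    rw [h1, Real.Gamma_add_one (by norm_num), Real.Gamma_one_half_eq]
    linarith
  | succ N ih =>
    have h1 : (((N + 1 + 1 : ℕ) : ℝ) + 1 / 2) = (((N + 1 : ℕ) : ℝ) + 1 / 2) + 1 := by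
      push_cast; ring
    have hN : (0 : ℝ) ≤ N := Nat.cast_nonneg N
    have h2 : (1 : ℝ) ≤ ((N + 1 : ℕ) : ℝ) + 1 / 2 := by push_cast; linarith
    rw [h1, Real.Gamma_add_one (by linarith)]
    have h3 : 0 ≤ √Real.pi / 2 := by positivity
    nlinarith

private theorem T1_const {N : ℕ} (hN : 1 ≤ N) :
    |1 / (√Real.pi * Real.Gamma ((N : ℝ) + 1 / 2))| ≤ 1 := by
  obtain ⟨M, rfl⟩ : ∃ M, N = M + 1 := ⟨N - 1, by omega⟩
  have h1 := T1_gamma M
  have hp : 0 < √Real.pi := Real.sqrt_pos.2 Real.pi_pos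
  have h2 : 1 ≤ √Real.pi * Real.Gamma (((M + 1 : ℕ) : ℝ) + 1 / 2) := by
    have h3 : √Real.pi * (√Real.pi / 2) ≤ √Real.pi * Real.Gamma (((M + 1 : ℕ) : ℝ) + 1 / 2) :=
      mul_le_mul_of_nonneg_left h1 hp.le
    have h4 : √Real.pi * (√Real.pi / 2) = Real.pi / 2 := by
      have := Real.mul_self_sqrt Real.pi_pos.le
      rw [mul_div_assoc', this]
    have h5 := Real.pi_gt_three
    linarith
  rw [abs_of_nonneg (by positivity), div_le_one (by linarith)]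
  exact h2

theorem Ab_oscH {N : ℕ} (hN : 1 ≤ N) {q : ℝ → ℝ} {b : ℝ → ℂ} {ρ S H τ σ : ℝ} (hρ : 0 ≤ ρ)
    (hq : Tl q ρ) (hH : 1 ≤ H) (hb : SmH (N - 1) b ρ S H) (hτ : 1 ≤ τ) (hσ : 0 ≤ σ)
    (hd : ∀ t, 0 ≤ t → deriv q t = (Complex.exp (-(Complex.I * τ * t)) * b t).re) :
    |Ab N q σ| ≤ S * (H + 4 * N ^ 2) ^ (N - 1) * (ρ + 1) ^ (2 * N) / τ ^ (N - 1) := by
  have hN1 : ((N - 1 : ℕ) : ℝ) = (N : ℝ) - 1 := by
    rw [Nat.cast_sub hN, Nat.cast_one]
  have hNr : (1 : ℝ) ≤ N := by exact_mod_cast hN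
  set c : ℝ := 1 / (√Real.pi * Real.Gamma ((N : ℝ) + 1 / 2)) with hc
  have hc1 : |c| ≤ 1 := T1_const hN
  have hS : 0 ≤ S := T1_S hb
  rw [Ab_eq hρ hq N hσ, ← hc, abs_neg, abs_mul]
  have hF0 : ∀ t, ρ < t → deriv q t * (t ^ 2 - σ) ^ ((N : ℝ) - 1 / 2) = 0 := by
    intro t ht
    rw [hd t (hρ.trans ht.le), hb.supp t ht, mul_zero, Complex.zero_re, zero_mul]
  rw [AB8_Ioi hF0]
  have hτ0 : 0 < τ := by linarith
  have hR : 0 ≤ S * (H + 4 * N ^ 2) ^ (N - 1) * (ρ + 1) ^ (2 * N) / τ ^ (N - 1) := by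
    positivity
  rcases le_or_gt (√σ) ρ with hs | hs
  · have hP := T1_P ((N : ℝ) - 1 / 2) σ (by linarith)
    have hcont : Continuous fun t : ℝ => Complex.exp (-(Complex.I * τ * t)) *
        (b t * (((t ^ 2 - σ) ^ ((N : ℝ) - 1 / 2) : ℝ) : ℂ)) :=
      (T1_exp τ).mul (hb.smooth.continuous.mul hP)
    have h1 : ∫ t in (√σ)..ρ, deriv q t * (t ^ 2 - σ) ^ ((N : ℝ) - 1 / 2) =
        (T1_I b ((N : ℝ) - 1 / 2) τ σ ρ).re := by
      have h2 := Complex.reCLM.intervalIntegral_comp_comm (μ := volume)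
        (hcont.intervalIntegrable (√σ) ρ)
      have h3 : ∀ z : ℂ, Complex.reCLM z = z.re := fun _ => rfl
      rw [h3] at h2
      unfold T1_I
      rw [← h2]
      refine intervalIntegral.integral_congr fun t ht => ?_
      rw [uIcc_of_le hs] at ht
      simp only [h3]
      rw [hd t ((Real.sqrt_nonneg σ).trans ht.1), ← mul_assoc, Complex.re_mul_ofReal]
    rw [h1]
    have h4 := T1_main (N - 1) ((N : ℝ) - 1 / 2) (by rw [hN1]; linarith) b ρ S H τ σ hρ hH hb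
      hτ hσ hs
    have h5 : (2 : ℝ) * ((N : ℝ) - 1 / 2) + 1 = ((2 * N : ℕ) : ℝ) := by
      push_cast
      ring
    rw [h5, Real.rpow_natCast] at h4
    have h6 : S * (H + 2 * ((N : ℝ) - 1 / 2) * ((N - 1 : ℕ) : ℝ)) ^ (N - 1) *
        (ρ + 1) ^ (2 * N) / τ ^ (N - 1) ≤
        S * (H + 4 * N ^ 2) ^ (N - 1) * (ρ + 1) ^ (2 * N) / τ ^ (N - 1) := by
      refine div_le_div_of_nonneg_right ?_ (by positivity)
      refine mul_le_mul_of_nonneg_right ?_ (by positivity)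
      refine mul_le_mul_of_nonneg_left ?_ hS
      rw [hN1]
      refine pow_le_pow_left₀ ?_ ?_ _
      · have : 0 ≤ 2 * ((N : ℝ) - 1 / 2) * ((N : ℝ) - 1) :=
          mul_nonneg (by linarith) (by linarith)
        linarith
      · nlinarith
    calc |c| * |(T1_I b ((N : ℝ) - 1 / 2) τ σ ρ).re|
        ≤ 1 * (S * (H + 4 * N ^ 2) ^ (N - 1) * (ρ + 1) ^ (2 * N) / τ ^ (N - 1)) :=
          mul_le_mul hc1 ((Complex.abs_re_le_norm _).trans (h4.trans h6)) (abs_nonneg _)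
            zero_le_one
      _ = S * (H + 4 * N ^ 2) ^ (N - 1) * (ρ + 1) ^ (2 * N) / τ ^ (N - 1) := one_mul _
  · have h1 : ∫ t in (√σ)..ρ, deriv q t * (t ^ 2 - σ) ^ ((N : ℝ) - 1 / 2) = 0 := by
      rw [intervalIntegral.integral_symm, intervalIntegral.integral_of_le hs.le,
        setIntegral_eq_zero_of_forall_eq_zero fun t ht => hF0 t ht.1, neg_zero]
    rw [h1, abs_zero, mul_zero]
    exact hR

end B36
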