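import Pool.Agent.LibBE36T.T1

/-! ROW T3 : the smoothing with explicit constants. SHORT/MEDIUM (copy of LibBE73/X3.lean with `GkB`, `SmH`).
PLAN. `T3_pt`: `|c (x,v) * Ab N q σ| ≤ B * (S * (H + 4N²)^(N-1) * (ρ+1)^(2N) / τ^(N-1))` if `sg v ≤ ρ²`: `GkB` (first component) and T1.
`T3_bound` by induction on `k` for all `N ≥ 2k+1`, all `c`, with the constant `3^k B`: the three terms have `N-2`, `N-1`, `N`, the quantity
`(H + 4N²)^(N-1) (ρ+1)^(2N)` is increasing in `N` and `τ^(N-1-2k)` is the smallest power. Copy the proof in X3 (the RB hypotheses are only used for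
integrability). The last step `ε → 0` is the same. -/

open MeasureTheory Set Filter Topology
open scoped ContDiff

namespace B36

open BGS BR BE73

private theorem T3_Sm_mono {n n' : ℕ} (h : n' ≤ n) {b : ℝ → ℂ} {ρ S H : ℝ}
    (hb : SmH n b ρ S H) : SmH n' b ρ S H where
  smooth := hb.smooth
  supp := hb.supp
  bound := fun k hk => hb.bound k (hk.trans h)

private theorem T3_val {K : Set Pl} {G : Pl × Pl → Co} {ρ B : ℝ} {k : ℕ} {c : Pl × Pl → ℝ}
    (h : GkB K G ρ B k c) : ∀ x ∈ K, ∀ v : Pl, sg v ≤ ρ ^ 2 → |c (x, v)| ≤ B := by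
  cases k with
  | zero => exact h
  | succ k => exact h.1

/-- The pointwise bound. -/
private theorem T3_pt {K : Set Pl} {G : Pl × Pl → Co} {k : ℕ}
    {c : Pl × Pl → ℝ} {ρ B : ℝ} (hρ : 0 ≤ ρ) (hB : 0 ≤ B) (hgk : GkB K G ρ B k c) {N : ℕ}
    (hN : 1 ≤ N) : ∀ x ∈ K, ∀ (q : ℝ → ℝ) (b : ℝ → ℂ) (S H τ : ℝ), Tl q ρ → 1 ≤ H →
      SmH (N - 1) b ρ S H → 1 ≤ τ →
      (∀ t, 0 ≤ t → deriv q t = (Complex.exp (-(Complex.I * τ * t)) * b t).re) →
      ∀ v : Pl, sg v ≤ ρ ^ 2 → ∀ σ : ℝ, 0 ≤ σ →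
      |c (x, v) * Ab N q σ| ≤
        B * S * (H + 4 * N ^ 2) ^ (N - 1) * (ρ + 1) ^ (2 * N) / τ ^ (N - 1) := by
  intro x hx q b S H τ hq hH hb hτ hd v hv σ hσ
  have h1 := Ab_oscH hN hρ hq hH hb hτ hσ hd
  rw [abs_mul]
  calc |c (x, v)| * |Ab N q σ|
      ≤ B * (S * (H + 4 * N ^ 2) ^ (N - 1) * (ρ + 1) ^ (2 * N) / τ ^ (N - 1)) :=
        mul_le_mul (T3_val hgk x hx v hv) h1 (abs_nonneg _) hB
    _ = _ := by ring

private theorem T3_mono {S H ρ τ : ℝ} (hS : 0 ≤ S) (hH : 1 ≤ H) (hρ : 0 ≤ ρ) (hτ : 1 ≤ τ)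
    {N N' n n' : ℕ} (hN : N' ≤ N) (hn : n' ≤ n) :
    S * (H + 4 * N' ^ 2) ^ (N' - 1) * (ρ + 1) ^ (2 * N') / τ ^ n ≤
      S * (H + 4 * N ^ 2) ^ (N - 1) * (ρ + 1) ^ (2 * N) / τ ^ n' := by
  have hτ0 : 0 < τ := by linarith
  have hNR : (N' : ℝ) ≤ N := Nat.cast_le.2 hN
  have h0 : (0 : ℝ) ≤ 4 * (N' : ℝ) ^ 2 := by positivity
  have h1 : (H + 4 * (N' : ℝ) ^ 2) ^ (N' - 1) ≤ (H + 4 * (N : ℝ) ^ 2) ^ (N - 1) := by
    calc (H + 4 * (N' : ℝ) ^ 2) ^ (N' - 1) ≤ (H + 4 * (N' : ℝ) ^ 2) ^ (N - 1) :=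
          pow_le_pow_right₀ (by linarith) (by omega)
      _ ≤ (H + 4 * (N : ℝ) ^ 2) ^ (N - 1) := by
          refine pow_le_pow_left₀ (by linarith) ?_ _
          have h3 : (N' : ℝ) ^ 2 ≤ (N : ℝ) ^ 2 :=
            pow_le_pow_left₀ (Nat.cast_nonneg _) hNR 2
          linarith
  have h2 : (ρ + 1) ^ (2 * N') ≤ (ρ + 1) ^ (2 * N) :=
    pow_le_pow_right₀ (by linarith) (by omega)
  have h3 : τ ^ n' ≤ τ ^ n := pow_le_pow_right₀ hτ hn
  have h4 : 0 ≤ (H + 4 * (N' : ℝ) ^ 2) ^ (N' - 1) := pow_nonneg (by linarith) _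
  have h5 : 0 ≤ (H + 4 * (N : ℝ) ^ 2) ^ (N - 1) := h4.trans h1
  have h6 : 0 ≤ (ρ + 1) ^ (2 * N') := pow_nonneg (by linarith) _
  have h7 : 0 ≤ (ρ + 1) ^ (2 * N) := h6.trans h2
  refine div_le_div₀ (mul_nonneg (mul_nonneg hS h5) h7) ?_ (pow_pos hτ0 _) h3
  exact mul_le_mul (mul_le_mul_of_nonneg_left h1 hS) h2 h6 (mul_nonneg hS h5)

private theorem T3_bound {K : Set Pl} {G : Pl × Pl → Co} (hG : Fam K G) {ρ B : ℝ} (hρ : 0 ≤ ρ)
    (hB : 0 ≤ B) (k : ℕ) : ∀ N : ℕ, 2 * k + 1 ≤ N → ∀ c : Pl × Pl → ℝ, RB K c →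
    GkB K G ρ B k c → ∀ x ∈ K, ∀ (lam2 : ℝ) (U : Pl → ℝ), ContDiff ℝ ∞ U →
      WkEig (fun v => G (x, v)) lam2 U → ∀ (q : ℝ → ℝ) (b : ℝ → ℂ) (S H τ : ℝ), Tl q ρ → 1 ≤ H →
      SmH (N - 1) b ρ S H → 1 ≤ τ →
      (∀ t, 0 ≤ t → deriv q t = (Complex.exp (-(Complex.I * τ * t)) * b t).re) →
      ∀ ε : ℝ, 0 < ε →
      |lam2| ^ k * |∫ v, c (x, v) * Ab N q (sg v + ε) * U v * wt (fun v => G (x, v)) v| ≤
        3 ^ k * B * (S * (H + 4 * N ^ 2) ^ (N - 1) * (ρ + 1) ^ (2 * N) / τ ^ (N - 1 - 2 * k)) *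
          ∫ v in {v | sg v ≤ ρ ^ 2}, |U v| * wt (fun v => G (x, v)) v := by
  induction k with
  | zero =>
    intro N hN c hc hgk x hx lam2 U hU hw q b S H τ hq hH hSm hτ hd ε hε
    have hb := T3_pt hρ hB hgk (N := N) (by omega)
    have hP := hG.pm x
    rw [pow_zero, one_mul, mul_zero, Nat.sub_zero, pow_zero, one_mul, ← integral_const_mul]
    rw [← setIntegral_eq_integral_of_forall_compl_eq_zero (s := {v : Pl | sg v ≤ ρ ^ 2})
      (f := fun v => c (x, v) * Ab N q (sg v + ε) * U v * wt (fun v => G (x, v)) v)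
      (fun v hv => by
        show c (x, v) * Ab N q (sg v + ε) * U v * wt (fun v => G (x, v)) v = 0
        rw [PX6_A_zero hρ hq hε N hv]
        ring)]
    rw [← Real.norm_eq_abs]
    apply norm_integral_le_of_norm_le ((PX6_intB hρ hP hU.continuous).const_mul _)
    rw [ae_restrict_iff' (PX6_ball_compact hρ).measurableSet]
    refine Eventually.of_forall fun v hv => ?_
    have h1 := hb x hx q b S H τ hq hH hSm hτ hd v hv (sg v + ε)
      (by have := PX6_sg_nonneg v; linarith)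
    have h1' : |c (x, v) * Ab N q (sg v + ε)| ≤
        B * (S * (H + 4 * N ^ 2) ^ (N - 1) * (ρ + 1) ^ (2 * N) / τ ^ (N - 1)) :=
      h1.trans (le_of_eq (by ring))
    have hwp := wt_pos hP v
    rw [Real.norm_eq_abs, abs_mul, abs_mul, abs_of_pos hwp, mul_assoc]
    exact mul_le_mul_of_nonneg_right h1' (mul_nonneg (abs_nonneg _) hwp.le)
  | succ k ih =>
    intro N hN c hc hgk x hx lam2 U hU hw q b S H τ hq hH hSm hτ hd ε hε
    obtain ⟨M, rfl⟩ : ∃ M, N = M + 2 := ⟨N - 2, by omega⟩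
    have h1 := ih M (by omega) _ (PX6_RB_E hc) hgk.2.1
    have h2 := ih (M + 1) (by omega) _ (PX6_RB_F hG hc) hgk.2.2.1
    have h3 := ih (M + 2) (by omega) _ (PX6_RB_H hG hc) hgk.2.2.2
    have hS0 : 0 ≤ S := by
      have h4 := (norm_nonneg _).trans (hSm.bound 0 (Nat.zero_le _) 0 le_rfl)
      rwa [pow_zero, mul_one] at h4
    have hτ0 : 0 < τ := by linarith
    have b1 := h1 x hx lam2 U hU hw q b S H τ hq hH (T3_Sm_mono (by omega) hSm) hτ hd ε hε
    have b2 := h2 x hx lam2 U hU hw q b S H τ hq hH (T3_Sm_mono (by omega) hSm) hτ hd ε hε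
    have b3 := h3 x hx lam2 U hU hw q b S H τ hq hH hSm hτ hd ε hε
    have hst := PX6_step hG hc (x := x) hU hw hρ hq hε M
    have hJ0 := PX6_B_nonneg (ρ := ρ) (U := U) (hG.pm x)
    set J := ∫ v in {v | sg v ≤ ρ ^ 2}, |U v| * wt (fun v => G (x, v)) v with hJ
    have e1 : M + 2 - 1 - 2 * (k + 1) = M - 1 - 2 * k := by omega
    have hle : ∀ (N' n : ℕ), N' ≤ M + 2 → M - 1 - 2 * k ≤ n →
        3 ^ k * B * (S * (H + 4 * N' ^ 2) ^ (N' - 1) * (ρ + 1) ^ (2 * N') / τ ^ n) * J ≤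
          3 ^ k * B * (S * (H + 4 * ((M + 2 : ℕ) : ℝ) ^ 2) ^ (M + 2 - 1) *
            (ρ + 1) ^ (2 * (M + 2)) / τ ^ (M - 1 - 2 * k)) * J := by
      intro N' n hN' hn
      refine mul_le_mul_of_nonneg_right (mul_le_mul_of_nonneg_left ?_ (by positivity)) hJ0
      exact T3_mono hS0 hH hρ hτ hN' hn
    have c1 := b1.trans (hle M _ (by omega) (by omega))
    have c2 := b2.trans (hle (M + 1) _ (by omega) (by omega))
    have c3 := b3.trans (hle (M + 2) _ (by omega) (by omega))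
    rw [e1, pow_succ, mul_assoc, ← abs_mul, hst, abs_neg]
    refine le_trans (mul_le_mul_of_nonneg_left (abs_add_three _ _ _) (by positivity)) ?_
    rw [mul_add, mul_add]
    refine (add_le_add (add_le_add c1 c2) c3).trans (le_of_eq ?_)
    ring

theorem smoothingH {K : Set Pl} {G : Pl × Pl → Co} (hG : Fam K G) (k N : ℕ) (hN : 2 * k + 1 ≤ N)
    {c : Pl × Pl → ℝ} (hc : RB K c) {ρ B : ℝ} (hρ : 0 ≤ ρ) (hB : 0 ≤ B) (hgk : GkB K G ρ B k c) :
    ∀ x ∈ K, ∀ (lam2 : ℝ) (U : Pl → ℝ), ContDiff ℝ ∞ U →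
      WkEig (fun v => G (x, v)) lam2 U → ∀ (q : ℝ → ℝ) (b : ℝ → ℂ) (S H τ : ℝ), Tl q ρ → 1 ≤ H →
      SmH (N - 1) b ρ S H → 1 ≤ τ →
      (∀ t, 0 ≤ t → deriv q t = (Complex.exp (-(Complex.I * τ * t)) * b t).re) →
      |lam2| ^ k * |∫ v, c (x, v) * Ab N q (sg v) * U v * wt (fun v => G (x, v)) v| ≤
        3 ^ k * B * S * (H + 4 * N ^ 2) ^ (N - 1) * (ρ + 1) ^ (2 * N) / τ ^ (N - 1 - 2 * k) *
          ∫ v in {v | sg v ≤ ρ ^ 2}, |U v| * wt (fun v => G (x, v)) v := by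
  intro x hx lam2 U hU hw q b S H τ hq hH hSm hτ hd
  have hb := T3_bound hG hρ hB k N hN c hc hgk
  have hpt := T3_pt hρ hB hgk (N := N) (by omega)
  have hP := hG.pm x
  have hcs := (PX6_slice hc.1 x).continuous
  set F : ℕ → Pl → ℝ := fun n v =>
    c (x, v) * Ab N q (sg v + 1 / ((n : ℝ) + 1)) * U v * wt (fun v => G (x, v)) v with hF
  have hpos : ∀ n : ℕ, 0 < 1 / ((n : ℝ) + 1) := fun n => by positivity
  have hlim : Tendsto (fun n => ∫ v, F n v) atTop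
      (𝓝 (∫ v, c (x, v) * Ab N q (sg v) * U v * wt (fun v => G (x, v)) v)) := by
    apply tendsto_integral_of_dominated_convergence
      (indicator {v : Pl | sg v ≤ ρ ^ 2} (fun v =>
        B * S * (H + 4 * N ^ 2) ^ (N - 1) * (ρ + 1) ^ (2 * N) / τ ^ (N - 1) *
          (|U v| * wt (fun v => G (x, v)) v)))
    · intro n
      exact (PX6_int hρ hq (hpos n) N hP hcs hU.continuous).aestronglyMeasurable
    · rw [integrable_indicator_iff (PX6_ball_compact hρ).measurableSet]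
      exact (PX6_intB hρ hP hU.continuous).const_mul _
    · intro n
      refine Eventually.of_forall fun v => ?_
      by_cases hv : sg v ≤ ρ ^ 2
      · rw [indicator_of_mem (show v ∈ {v : Pl | sg v ≤ ρ ^ 2} from hv)]
        have h1 := hpt x hx q b S H τ hq hH hSm hτ hd v hv (sg v + 1 / ((n : ℝ) + 1))
          (by have := PX6_sg_nonneg v; have := hpos n; linarith)
        have hwp := wt_pos hP v
        simp only [hF]
        rw [Real.norm_eq_abs, abs_mul, abs_mul, abs_of_pos hwp, mul_assoc]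
        exact mul_le_mul_of_nonneg_right h1 (mul_nonneg (abs_nonneg _) hwp.le)
      · rw [indicator_of_notMem (show v ∉ {v : Pl | sg v ≤ ρ ^ 2} from hv)]
        simp only [hF]
        rw [PX6_A_zero hρ hq (hpos n) N hv]
        simp
    · have hne : ∀ᵐ v : Pl, v ≠ 0 := by
        rw [ae_iff]
        simp
      filter_upwards [hne] with v hv
      have hs : 0 < sg v := by
        rcases eq_or_lt_of_le (PX6_sg_nonneg v) with h | h
        · exfalso
          apply hv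
          unfold sg at h
          have h1 : v.1 = 0 := by nlinarith [sq_nonneg v.1, sq_nonneg v.2]
          have h2 : v.2 = 0 := by nlinarith [sq_nonneg v.1, sq_nonneg v.2]
          exact Prod.ext h1 h2
        · exact h
      have hcont : ContinuousAt (Ab N q) (sg v) :=
        (Ab_contDiffOn hρ hq N).continuousOn.continuousAt (Ioi_mem_nhds hs)
      have ht : Tendsto (fun n : ℕ => sg v + 1 / ((n : ℝ) + 1)) atTop (𝓝 (sg v)) := by
        have := (tendsto_const_nhds (x := sg v)).add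
          (tendsto_one_div_add_atTop_nhds_zero_nat (𝕜 := ℝ))
        rwa [add_zero] at this
      have hA : Tendsto (fun n : ℕ => Ab N q (sg v + 1 / ((n : ℝ) + 1))) atTop
          (𝓝 (Ab N q (sg v))) := hcont.tendsto.comp ht
      exact ((tendsto_const_nhds.mul hA).mul tendsto_const_nhds).mul tendsto_const_nhds
  have hlim2 := (hlim.abs).const_mul (|lam2| ^ k)
  refine le_of_tendsto hlim2 (Eventually.of_forall fun n => ?_)
  refine (hb x hx lam2 U hU hw q b S H τ hq hH hSm hτ hd _ (hpos n)).trans (le_of_eq ?_)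
  ring

end B36
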