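import Pool.Agent.LibBE36T.Defs
import Pool.Agent.LibTR29.T8

/-! ROW T4a : the levels of two conformal metrics. MEDIUM.
PLAN. `ev_le`: the energy `en` is the same (`wf (r • c) p q = wf c p q` for `r > 0`: `dt (r • c) = r² dt c`, `√`), `l2 D m u ≤ e^η l2 D m' u` (`√dt (m' z) = e^(v z) √dt (m z)`, the integrands are
continuous, `D` bounded), so `en D m u ≤ c l2 D m u` implies `en D m' u ≤ c e^η l2 D m' u`, and the infimum in `BGS.ev` (`iInf`, `ENNReal`). For `u ∈ Test Γ`.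
`lam_conf`: `FG33.lam m k = √(4π x m k)`, `x = toReal (ev / ofReal (4π))`; `ev` is finite (as `Lev_of`/`exists_Bas` show in LibTR29/T2, T8; look how LibBGR proves `ev ≠ ⊤`); `m = e^(-v) m'` gives the
other direction. -/

open MeasureTheory Set Filter Topology
open scoped ContDiff

namespace B36

open BGS BR TR BE73

variable {Γ : Type} [Group Γ] [MulAction Γ Pl] {D : Set Pl}

private theorem T4a_dt (r : ℝ) (c : Co) : dt (r • c) = r ^ 2 * dt c := by
  unfold dt
  simp only [Prod.smul_fst, Prod.smul_snd, smul_eq_mul]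
  ring

private theorem T4a_sqrt {r : ℝ} (hr : 0 ≤ r) (c : Co) : √(dt (r • c)) = r * √(dt c) := by
  rw [T4a_dt, Real.sqrt_mul (sq_nonneg r), Real.sqrt_sq hr]

private theorem T4a_wf {r : ℝ} (hr : 0 < r) (c : Co) (p q : ℝ) : wf (r • c) p q = wf c p q := by
  unfold wf
  rw [T4a_sqrt hr.le]
  simp only [Prod.smul_fst, Prod.smul_snd, smul_eq_mul]
  have h1 : r * c.2.2 * p ^ 2 - 2 * (r * c.2.1) * p * q + r * c.1 * q ^ 2 =
      r * (c.2.2 * p ^ 2 - 2 * c.2.1 * p * q + c.1 * q ^ 2) := by ring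
  rw [h1, mul_div_mul_left _ _ hr.ne']

theorem ev_le {m m' : Pl → Co} (hX : Surface Γ D) (hm : ContDiff ℝ ∞ m)
    (hpos : ∀ z, 0 < (m z).1 ∧ 0 < dt (m z)) {v : Pl → ℝ} {η : ℝ} (hvc : ContDiff ℝ ∞ v)
    (hv : ∀ z, |v z| ≤ η) (h : ∀ z, m' z = Real.exp (v z) • m z) (k : ℕ) :
    ev Γ D m' k ≤ ENNReal.ofReal (Real.exp η) * ev Γ D m k := by
  have hen : ∀ u : Pl → ℝ, en D m' u = en D m u := by
    intro u
    unfold en
    congr 1
    funext z
    rw [h z, T4a_wf (Real.exp_pos _)]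
  have hrho : Continuous fun z => √(dt (m z)) :=
    Real.continuous_sqrt.comp (Cmp_dt_cont.comp hm.continuous)
  have hl2 : ∀ u : Pl → ℝ, ContDiff ℝ ∞ u → l2 D m u ≤ Real.exp η * l2 D m' u := by
    intro u hu
    unfold l2
    rw [← integral_const_mul]
    have c1 : Continuous fun z => u z ^ 2 * √(dt (m z)) := (hu.continuous.pow 2).mul hrho
    have c2 : Continuous fun z => Real.exp η * (u z ^ 2 * √(dt (m' z))) := by
      have e : (fun z => Real.exp η * (u z ^ 2 * √(dt (m' z)))) =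
          fun z => Real.exp η * (u z ^ 2 * (Real.exp (v z) * √(dt (m z)))) := by
        funext z
        rw [h z, T4a_sqrt (Real.exp_pos _).le]
      rw [e]
      exact continuous_const.mul ((hu.continuous.pow 2).mul
        ((Real.continuous_exp.comp hvc.continuous).mul hrho))
    refine integral_mono (Cmp_int hX c1) (Cmp_int hX c2) fun z => ?_
    change u z ^ 2 * √(dt (m z)) ≤ Real.exp η * (u z ^ 2 * √(dt (m' z)))
    rw [h z, T4a_sqrt (Real.exp_pos _).le]
    have h1 : 1 ≤ Real.exp η * Real.exp (v z) := by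
      rw [← Real.exp_add]
      exact Real.one_le_exp (by linarith [(abs_le.1 (hv z)).1])
    have h2 : 0 ≤ u z ^ 2 * √(dt (m z)) := mul_nonneg (sq_nonneg _) (Real.sqrt_nonneg _)
    calc u z ^ 2 * √(dt (m z)) = 1 * (u z ^ 2 * √(dt (m z))) := (one_mul _).symm
      _ ≤ (Real.exp η * Real.exp (v z)) * (u z ^ 2 * √(dt (m z))) :=
        mul_le_mul_of_nonneg_right h1 h2
      _ = Real.exp η * (u z ^ 2 * (Real.exp (v z) * √(dt (m z)))) := by ring
  unfold ev
  have hne : ENNReal.ofReal (Real.exp η) ≠ 0 := by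
    rw [ne_eq, ENNReal.ofReal_eq_zero, not_le]
    exact Real.exp_pos _
  rw [ENNReal.mul_iInf_of_ne hne ENNReal.ofReal_ne_top]
  refine le_iInf fun c => ?_
  rw [ENNReal.mul_iInf_of_ne hne ENNReal.ofReal_ne_top]
  refine le_iInf fun hc => ?_
  obtain ⟨V, hV1, hV2⟩ := hc
  have hex : ∃ V : Submodule ℝ (Pl → ℝ), Module.finrank ℝ V = k + 1 ∧
      ∀ u ∈ V, u ∈ Test Γ ∧ en D m' u ≤ ((Real.toNNReal (Real.exp η) * c : NNReal) : ℝ) *
        l2 D m' u := by
    refine ⟨V, hV1, fun u hu => ⟨(hV2 u hu).1, ?_⟩⟩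
    rw [hen u, NNReal.coe_mul, Real.coe_toNNReal _ (Real.exp_pos _).le]
    calc en D m u ≤ c * l2 D m u := (hV2 u hu).2
      _ ≤ c * (Real.exp η * l2 D m' u) :=
        mul_le_mul_of_nonneg_left (hl2 u (hV2 u hu).1.1) c.2
      _ = Real.exp η * c * l2 D m' u := by ring
  refine (iInf₂_le (Real.toNNReal (Real.exp η) * c) hex).trans (le_of_eq ?_)
  rw [ENNReal.coe_mul]
  rfl

private theorem T4a_half (hX : Surface Γ D) (m m' : Mt Γ D) {v : Pl → ℝ} {η : ℝ}
    (hvc : ContDiff ℝ ∞ v) (hv : ∀ z, |v z| ≤ η) (h : ∀ z, m'.1.1 z = Real.exp (v z) • m.1.1 z)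
    (k : ℕ) (htop : ev Γ D m.1.1 k = ⊤ → ev Γ D m'.1.1 k = ⊤) :
    FG33.lam m' k ≤ Real.exp (η / 2) * FG33.lam m k := by
  have h1 := ev_le hX m.1.2 m.2.pos hvc hv h k
  have hx : x m' k ≤ Real.exp η * x m k := by
    unfold x lvl
    by_cases ht : ev Γ D m.1.1 k = ⊤
    · rw [htop ht, ht]
      have hz : (⊤ / ENNReal.ofReal (4 * Real.pi) : ENNReal).toReal = 0 := by
        rw [ENNReal.top_div_of_ne_top ENNReal.ofReal_ne_top, ENNReal.toReal_top]
      rw [hz, mul_zero]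
    · have hpi : ENNReal.ofReal (4 * Real.pi) ≠ 0 := by
        rw [ne_eq, ENNReal.ofReal_eq_zero, not_le]
        positivity
      have h2 : ev Γ D m'.1.1 k / ENNReal.ofReal (4 * Real.pi) ≤
          ENNReal.ofReal (Real.exp η) * (ev Γ D m.1.1 k / ENNReal.ofReal (4 * Real.pi)) := by
        rw [← mul_div_assoc]
        exact ENNReal.div_le_div_right h1 _
      have h3 : ENNReal.ofReal (Real.exp η) * (ev Γ D m.1.1 k / ENNReal.ofReal (4 * Real.pi)) ≠ ⊤ :=
        ENNReal.mul_ne_top ENNReal.ofReal_ne_top (ENNReal.div_ne_top ht hpi)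
      have h4 := ENNReal.toReal_mono h3 h2
      rwa [ENNReal.toReal_mul, ENNReal.toReal_ofReal (Real.exp_pos _).le] at h4
  unfold FG33.lam
  have h5 : Real.exp (η / 2) = √(Real.exp η) := by
    rw [show η = η / 2 + η / 2 by ring, Real.exp_add, Real.sqrt_mul_self (Real.exp_pos _).le]
    congr 1
    ring
  rw [h5, ← Real.sqrt_mul (Real.exp_pos _).le]
  refine Real.sqrt_le_sqrt ?_
  have h6 : (0 : ℝ) ≤ 4 * Real.pi := by positivity
  calc 4 * Real.pi * x m' k ≤ 4 * Real.pi * (Real.exp η * x m k) :=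
        mul_le_mul_of_nonneg_left hx h6
    _ = Real.exp η * (4 * Real.pi * x m k) := by ring

theorem lam_conf (hX : Surface Γ D) (m m' : Mt Γ D) {v : Pl → ℝ} {η : ℝ} (hvc : ContDiff ℝ ∞ v)
    (hv : ∀ z, |v z| ≤ η) (h : ∀ z, m'.1.1 z = Real.exp (v z) • m.1.1 z) (k : ℕ) :
    FG33.lam m' k ≤ Real.exp (η / 2) * FG33.lam m k ∧
      FG33.lam m k ≤ Real.exp (η / 2) * FG33.lam m' k := by
  have hvc' : ContDiff ℝ ∞ (fun z => -v z) := hvc.neg
  have hv' : ∀ z, |(fun z => -v z) z| ≤ η := fun z => by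
    change |-v z| ≤ η
    rw [abs_neg]
    exact hv z
  have h' : ∀ z, m.1.1 z = Real.exp ((fun z => -v z) z) • m'.1.1 z := by
    intro z
    change m.1.1 z = Real.exp (-v z) • m'.1.1 z
    rw [h z, smul_smul, ← Real.exp_add, neg_add_cancel, Real.exp_zero, one_smul]
  have e1 := ev_le hX m.1.2 m.2.pos hvc hv h k
  have e2 := ev_le hX m'.1.2 m'.2.pos hvc' hv' h' k
  have t1 : ev Γ D m.1.1 k = ⊤ → ev Γ D m'.1.1 k = ⊤ := by
    intro ht
    by_contra hc
    rw [ht] at e2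
    exact ENNReal.mul_ne_top ENNReal.ofReal_ne_top hc (top_le_iff.1 e2)
  have t2 : ev Γ D m'.1.1 k = ⊤ → ev Γ D m.1.1 k = ⊤ := by
    intro ht
    by_contra hc
    rw [ht] at e1
    exact ENNReal.mul_ne_top ENNReal.ofReal_ne_top hc (top_le_iff.1 e1)
  exact ⟨T4a_half hX m m' hvc hv h k t1, T4a_half hX m' m hvc' hv' h' k t2⟩

end B36
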