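import Pool.Agent.LibBE36T.T2
import Pool.Agent.LibBE36T.T3

/-! ROW T5 : the error term, explicit. SHORT (copy of LibBE73/X4.lean).
PLAN. `smoothingH` with `K = closure D`, `G = mE m` (`Fam_Gx`), `c = cN m N`, `k = 0` and `k = 2` (`GkB .. 2` contains `GkB .. 0`), `q = ql lam (osc a τ)`,
`b, S = 3 (M H) (ρ+1) / (1 + |lam - τ|)` from T2 with `n = N - 1`. `(1 + 9) * 3 = 30`, `(ρ+1)^(2N) (ρ+1) = (ρ+1)^(2N+1)`. `UC.ball` for the mass. -/

open MeasureTheory Set Filter Topology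
open scoped ContDiff

namespace B36

open BGS BR TR BE73

variable {Γ : Type} [Group Γ] [MulAction Γ Pl] {D : Set Pl}

theorem ErH (hX : Surface Γ D) (hO : Ori Γ) (m : Mt Γ D) {C : ℝ} (hu : UC hX m C) {N : ℕ}
    (hN : 6 ≤ N) {ρ B : ℝ} (hρ : 0 ≤ ρ) (hB : 0 ≤ B)
    (hgk : GkB (closure D) (mE m.1.1) ρ B 2 (cN m.1.1 N)) {lam : ℝ} {U : TestS Γ}
    (hlam : 0 ≤ lam) (hE : EigS hX m (lam ^ 2) U) {a : ℝ → ℂ} {M H τ : ℝ} (hH : 1 ≤ H)
    (ha : AmpH N a ρ M H) (hτ : 1 ≤ τ) {x : Pl} (hx : x ∈ closure D) :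
    |∫ v, LL (Gx m.1.1 x) (UU (Gx m.1.1 x) N) v * Ab N (ql lam (osc a τ)) (sg v) *
      U.1 (Ex m.1.1 x v) * wt (Gx m.1.1 x) v| ≤
      30 * B * M * H * (H + 4 * N ^ 2) ^ (N - 1) * (ρ + 1) ^ (2 * N + 1) * C *
        Real.exp (C * ρ) / τ ^ (N - 5) * √(bF hX m (oneT Γ) U U) /
        ((1 + lam ^ 4) * (1 + |lam - τ|)) := by
  have hm := hm_of_Mt m
  have hF := Fam_Gx hX hO hm
  have hRB : RB (closure D) (cN m.1.1 N) := RB_LL hF (RB_UU hF N)
  have hk0 : GkB (closure D) (mE m.1.1) ρ B 0 (cN m.1.1 N) := hgk.1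
  have hH0 : 0 ≤ H := by linarith
  have hM : 0 ≤ M := by
    have h := (norm_nonneg _).trans (ha.bound 0 (Nat.zero_le _) 0)
    rwa [pow_zero, mul_one] at h
  have ha4 : Amp a ρ (M * H ^ 4) := ha.amp (by omega) hH
  obtain ⟨b, hb, hder⟩ := pl_smH (n := N - 1) hρ hH
    (by rw [Nat.sub_add_cancel (by omega : 1 ≤ N)]; exact ha) ha4 hτ hlam
  set I := ∫ v, LL (Gx m.1.1 x) (UU (Gx m.1.1 x) N) v * Ab N (ql lam (osc a τ)) (sg v) *
        U.1 (Ex m.1.1 x v) * wt (Gx m.1.1 x) v with hI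
  set S := 3 * (M * H) * (ρ + 1) / (1 + |lam - τ|) with hS
  set J := ∫ v in {v | sg v ≤ ρ ^ 2}, |U.1 (Ex m.1.1 x v)| * wt (Gx m.1.1 x) v with hJ
  set R := √(bF hX m (oneT Γ) U U) with hR
  have hden : 0 < 1 + |lam - τ| := by positivity
  have hS0 : 0 ≤ S := by
    rw [hS]
    positivity
  have hJ0 : 0 ≤ J := by
    rw [hJ]
    exact PX6_B_nonneg (ρ := ρ) (U := fun v => U.1 (Ex m.1.1 x v)) (Gx_PMt hX hm x)
  have hR0 : 0 ≤ R := Real.sqrt_nonneg _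
  have hT := PX8_Tl ha4 τ
  have hw := weak_normal hX m hE x
  have b0 := smoothingH hF 0 N (by omega) hRB hρ hB hk0 x hx (lam ^ 2) _ (PX8_U hX m U x) hw
    (ql lam (osc a τ)) b S H τ (ql_Tl hT lam) hH hb hτ hder
  have b2 := smoothingH hF 2 N (by omega) hRB hρ hB hgk x hx (lam ^ 2) _ (PX8_U hX m U x) hw
    (ql lam (osc a τ)) b S H τ (ql_Tl hT lam) hH hb hτ hder
  set X := (H + 4 * (N : ℝ) ^ 2) ^ (N - 1) * (ρ + 1) ^ (2 * N) with hX'
  have hX0 : 0 ≤ X := by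
    rw [hX']
    positivity
  set t := τ ^ (N - 5) with ht
  have ht0 : 0 < t := by rw [ht]; positivity
  have b0' : |I| ≤ B * S * X / t * J := by
    rw [pow_zero, one_mul, pow_zero, one_mul] at b0
    refine b0.trans ?_
    apply mul_le_mul_of_nonneg_right _ hJ0
    rw [mul_assoc (B * S), ← hX']
    apply div_le_div_of_nonneg_left (by positivity) ht0
    rw [ht]
    exact pow_le_pow_right₀ hτ (by omega)
  have b2' : lam ^ 4 * |I| ≤ 9 * (B * S * X / t * J) := by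
    have e : |lam ^ 2| ^ 2 = lam ^ 4 := by
      rw [abs_of_nonneg (sq_nonneg lam)]
      ring
    rw [e] at b2
    have b3 : lam ^ 4 * |I| ≤ 3 ^ 2 * B * S * (H + 4 * (N : ℝ) ^ 2) ^ (N - 1) * (ρ + 1) ^ (2 * N) /
        τ ^ (N - 1 - 2 * 2) * J := b2
    refine b3.trans (le_of_eq ?_)
    have e2 : N - 1 - 2 * 2 = N - 5 := by omega
    rw [e2, ← ht, hX']
    ring
  have hball : J ≤ C * Real.exp (C * ρ) * R := hu.ball U ρ hρ x hx
  have s1 : (1 + lam ^ 4) * |I| ≤ 10 * (B * S * X / t * J) := by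
    linarith
  have s2 : 10 * (B * S * X / t * J) ≤ 10 * (B * S * X / t * (C * Real.exp (C * ρ) * R)) := by
    apply mul_le_mul_of_nonneg_left _ (by norm_num)
    exact mul_le_mul_of_nonneg_left hball (by positivity)
  have hl : 0 < 1 + lam ^ 4 := by positivity
  have s3 : 30 * B * M * H * (H + 4 * (N : ℝ) ^ 2) ^ (N - 1) * (ρ + 1) ^ (2 * N + 1) * C *
        Real.exp (C * ρ) / t * R / ((1 + lam ^ 4) * (1 + |lam - τ|)) =
      10 * (B * S * X / t * (C * Real.exp (C * ρ) * R)) / (1 + lam ^ 4) := by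
    rw [hS, hX', pow_succ (ρ + 1) (2 * N)]
    field_simp
    ring
  rw [s3, le_div_iff₀ hl, mul_comm]
  exact s1.trans s2

end B36
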