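import Pool.Agent.LibBE36T.T5

/-! ROW T6 : the trace formula as a finite sum, explicit. SHORT (copy of `X6_Er`, `trace1N` in LibBE73/X6.lean; `X6_core` is used as it is).
PLAN. `exists_Bas`, `ErH` for `U = e j` (`EigS_of`, `bF_self`), `A = 30 B M H (H+4N²)^(N-1) (ρ+1)^(2N+1) C exp(Cρ) / τ^(N-5)`, `X6_core` with
`C2 = C` (`UC.sum`), `C / τ ≤ C`. `Amp a ρ (M H^4)` from `AmpH.amp`. -/

open MeasureTheory Set Filter Topology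
open scoped ContDiff

namespace B36

open BGS BR TR BE73

variable {Γ : Type} [Group Γ] [MulAction Γ Pl] {D : Set Pl}

theorem T6_Er (hX : Surface Γ D) (hO : Ori Γ) (m : Mt Γ D) {C : ℝ} (hu : UC hX m C) {N : ℕ}
    (hN : 6 ≤ N) {ρ B : ℝ} (hρ : 0 ≤ ρ) (hB : 0 ≤ B)
    (hgk : GkB (closure D) (mE m.1.1) ρ B 2 (cN m.1.1 N)) {a : ℝ → ℂ} {M H τ : ℝ} (hH : 1 ≤ H)
    (ha : AmpH N a ρ M H) (hτ : 1 ≤ τ) {e : ℕ → TestS Γ} (h : Bas hX m e) (x : Pl)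
    (hx : x ∈ closure D) (j : ℕ) :
    |Er m.1.1 N (FG33.lam m j) (osc a τ) (e j).1 x| ≤
      30 * B * M * H * (H + 4 * N ^ 2) ^ (N - 1) * (ρ + 1) ^ (2 * N + 1) * C *
        Real.exp (C * ρ) / τ ^ (N - 5) * wgt (FG33.lam m j) τ := by
  have h1 := ErH (lam := FG33.lam m j) hX hO m hu hN hρ hB hgk (Real.sqrt_nonneg _) (EigS_of hX m h j) hH ha hτ hx
  rw [bF_self h, Real.sqrt_one, mul_one] at h1
  unfold Er
  refine h1.trans (le_of_eq ?_)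
  unfold wgt
  rw [mul_one_div]

theorem trace1H (hX : Surface Γ D) (hO : Ori Γ) (m : Mt Γ D) {C : ℝ} (hu : UC hX m C) {N : ℕ}
    (hN : 6 ≤ N) {ρ B : ℝ} (hρ : 0 ≤ ρ) (hB : 0 ≤ B)
    (hgk : GkB (closure D) (mE m.1.1) ρ B 2 (cN m.1.1 N)) {a : ℝ → ℂ} {M H τ : ℝ} (hH : 1 ≤ H)
    (ha : AmpH N a ρ M H) (hτ : 1 ≤ τ) {S : Finset Γ} (hS : near Γ D m.1.1 ρ ⊆ ↑S) :
    |∑' j, hh (osc a τ) (FG33.lam m j) - ∑ γ ∈ S, ∫ x in D, Kx m.1.1 N (osc a τ) x (γ • x) *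
      √(dt (m.1.1 x))| ≤
      30 * B * M * H * (H + 4 * N ^ 2) ^ (N - 1) * (ρ + 1) ^ (2 * N + 1) * C ^ 2 *
        Real.exp (C * ρ) / τ ^ (N - 5) := by
  obtain ⟨e, h⟩ := exists_Bas hX m
  have ha4 : Amp a ρ (M * H ^ 4) := ha.amp (by omega) hH
  have hM : 0 ≤ M := by
    have h1 := ha.bound 0 (Nat.zero_le _) 0
    rw [pow_zero, mul_one] at h1
    exact (norm_nonneg _).trans h1
  have hC := hu.nonneg
  have hH0 : 0 ≤ H := zero_le_one.trans hH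
  have hA0 : 0 ≤ 30 * B * M * H * (H + 4 * N ^ 2) ^ (N - 1) * (ρ + 1) ^ (2 * N + 1) * C *
      Real.exp (C * ρ) / τ ^ (N - 5) := by positivity
  have h1 := X6_core hX hO m h N C (fun τ' hτ' => hu.sum τ' hτ') a ρ (M * H ^ 4) τ hρ ha4 hτ _ hA0
    (fun x hx j => T6_Er hX hO m hu hN hρ hB hgk hH ha hτ h x hx j) S hS
  refine h1.trans ?_
  have h2 : C / τ ≤ C := div_le_self hC hτ
  refine (mul_le_mul_of_nonneg_left h2 hA0).trans (le_of_eq ?_)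
  ring

end B36
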